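import Pool.Agent.SawM2.ErgR
import Pool.Agent.Taw.Defs

/-!
# An ergodic reversible law from symmetric windows
-/

set_option autoImplicit false

namespace Pool.Agent.Esc

open Finset Filter Pool.Agent.Bub4 Pool.Agent.SawM2 Pool.Agent.SawDiff Pool.Agent.Taw

variable {S V : Type} [Fintype S] [AddCommGroup V] {Y : Sys S V} {Λ K : ℝ} {ρ : List S → ℝ}

/-- in the window of length `H` at the start of `w` every word of length at most `k` is as frequent
as its reversal, up to `δ` -/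
def Sm (Y : Sys S V) (k : ℕ) (δ : ℝ) (H : ℕ) (w : List S) : Prop :=
  ∀ γ : List S, γ.length ≤ k → |av γ H w - av (bar Y γ) H w| ≤ δ

private theorem Aer_ex (h : Bulk Y Λ ρ) (n : ℕ) (G : List S → ℝ) {c : ℝ}
    (hc : c ≤ Y.E n fun w => ρ w * G w) : ∃ w, w.length = n ∧ c ≤ G w := by
  by_contra hcon
  push Not at hcon
  have h0 : ∀ w, 0 ≤ ρ w * |c - G w| := fun w => mul_nonneg (h.nonneg w) (abs_nonneg _)
  have h2 : (Y.E n fun w => ρ w * |c - G w|) = c - Y.E n fun w => ρ w * G w := by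
    have e : (Y.E n fun w => ρ w * |c - G w|) = Y.E n fun w => c * ρ w - ρ w * G w :=
      Y.E_congr fun w hw => by
        rw [abs_of_pos (sub_pos.2 (hcon w hw))]; ring
    rw [e, Y.E_fsub, Y.E_mul_left, h.mass, mul_one]
  have h3 : (Y.E n fun w => ρ w * |c - G w|) = 0 :=
    le_antisymm (by rw [h2]; linarith) (Y.E_nonneg' h0)
  have h4 : ∀ w, w.length = n → ρ w = 0 := by
    intro w hw
    have h5 := E_eq_zero Y h0 h3 hw
    have h6 : |c - G w| ≠ 0 := (abs_pos.2 (sub_pos.2 (hcon w hw)).ne').ne'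
    exact (mul_eq_zero.1 h5).resolve_right h6
  have h7 : Y.E n ρ = 0 := by
    rw [← Y.E_zero_fun n]
    exact Y.E_congr h4
  rw [h.mass] at h7
  exact one_ne_zero h7

open Classical in
/-- Concentration of the frequencies near a symmetric point, as `SawM2.center`. -/
theorem center_sym (h : Bulk Y Λ ρ) (h1 : ∀ n, 1 ≤ Y.a n) (hK : ∀ n, Y.a n ≤ K) {ε : ℝ}
    (hε : 0 < ε) (hS : ∀ (k : ℕ) (δ : ℝ), 0 < δ → ∀ H₀ : ℕ, ∃ H ≥ H₀,
      ε ≤ Y.E (H + k) fun w => ρ w * ind (Sm Y k δ H w)) :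
    ∃ c₀ : ℝ, 0 < c₀ ∧ ∀ (g : ℕ) (δ : ℝ), 0 < δ → ∀ H₀ : ℕ, ∃ H : ℕ, H₀ ≤ H ∧
      ∃ a : List S → ℝ, (∀ γ, 0 ≤ a γ ∧ a γ ≤ 1) ∧
        (∀ γ : List S, γ.length ≤ g → |a γ - a (bar Y γ)| ≤ δ) ∧
        c₀ ≤ Y.E (H + g) fun w => ρ w * ind (∀ γ : List S, γ.length ≤ g → |av γ H w - a γ| ≤ δ) := by
  have hK1 : 1 ≤ K := (h1 0).trans (hK 0)
  have hlK : 0 ≤ Real.log K := Real.log_nonneg hK1
  have hlL : 0 ≤ Real.log Λ := Real.log_nonneg h.one_le
  set D : ℝ := 2 * Real.log K + Real.log Λ + 1 with hD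
  have hD0 : 0 < D := by rw [hD]; linarith
  set M : ℝ := Real.exp (4 * D / ε) with hM
  have hM1 : 1 < M := by
    rw [hM]; exact Real.one_lt_exp_iff.2 (by positivity)
  have hM0 : 0 < M := by linarith
  have hlM : D / Real.log M = ε / 4 := by
    rw [hM, Real.log_exp]
    field_simp
  refine ⟨ε / (2 * M), by positivity, ?_⟩
  intro g δ hδ H₀
  set Γ : Finset (List S) := (List.finite_length_le S g).toFinset with hΓ
  have hmem : ∀ γ : List S, γ ∈ Γ ↔ γ.length ≤ g := by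
    intro γ
    rw [hΓ, Set.Finite.mem_toFinset]
    rfl
  set η : ℝ := ε * δ ^ 2 / (4 * (Γ.card + 1)) with hη
  have hη0 : 0 < η := by positivity
  have hev : ∀ᶠ H : ℕ in atTop, ∀ γ ∈ Γ, (Y.E (H + g) fun u => Y.E (H + g) fun v =>
      ρ (u ++ v) * (av γ H u - av γ H v) ^ 2) ≤ η := by
    rw [Filter.eventually_all_finset]
    intro γ hγ
    have := two_win h γ ((hmem γ).1 hγ)
    exact (this.eventually (ge_mem_nhds hη0))
  obtain ⟨H₁, hH₁⟩ := eventually_atTop.1 hev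
  obtain ⟨H, hHge, hHS⟩ := hS g δ hδ (max H₀ H₁)
  have hH0 := hH₁ H ((le_max_right _ _).trans hHge)
  refine ⟨H, (le_max_left _ _).trans hHge, ?_⟩
  set F1 : List S → List S → ℝ := fun u v =>
    ind (∀ γ : List S, γ.length ≤ g → |av γ H v - av γ H u| ≤ δ) with hF1
  set F : List S → List S → ℝ := fun u v => ind (Sm Y g δ H u) * F1 u v with hF
  have hF0 : ∀ u v, 0 ≤ F u v := fun u v => mul_nonneg (ind_nonneg _) (ind_nonneg _)
  have hFle : ∀ u v, F u v ≤ 1 := fun u v =>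
    mul_le_one₀ (ind_le_one _) (ind_nonneg _) (ind_le_one _)
  have hsym : (Y.E (H + g) fun u => Y.E (H + g) fun v => ρ (u ++ v) * ind (Sm Y g δ H u)) =
      Y.E (H + g) fun w => ρ w * ind (Sm Y g δ H w) := by
    refine Y.E_congr fun u _ => ?_
    rw [Y.E_mul_right, h.right]
  have hpt : ∀ u v, 1 - F1 u v ≤ ∑ γ ∈ Γ, (av γ H u - av γ H v) ^ 2 * (δ ^ 2)⁻¹ := by
    intro u v
    by_cases hc : ∀ γ : List S, γ.length ≤ g → |av γ H v - av γ H u| ≤ δ
    · have : F1 u v = 1 := ind_of hc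
      rw [this, sub_self]
      exact Finset.sum_nonneg fun γ _ => by positivity
    · have : F1 u v = 0 := ind_not hc
      rw [this, sub_zero]
      push Not at hc
      obtain ⟨γ, hγ, hγ2⟩ := hc
      have h3 : (1 : ℝ) ≤ (av γ H u - av γ H v) ^ 2 * (δ ^ 2)⁻¹ := by
        rw [← div_eq_mul_inv, one_le_div (by positivity)]
        rw [← sq_abs (av γ H u - av γ H v), abs_sub_comm]
        exact pow_le_pow_left₀ hδ.le hγ2.le 2
      exact h3.trans (Finset.single_le_sum (f := fun γ => (av γ H u - av γ H v) ^ 2 * (δ ^ 2)⁻¹)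
        (fun γ _ => by positivity) ((hmem γ).2 hγ))
  have hbad : (Y.E (H + g) fun u => Y.E (H + g) fun v => ρ (u ++ v) * (1 - F1 u v)) ≤ ε / 4 := by
    calc (Y.E (H + g) fun u => Y.E (H + g) fun v => ρ (u ++ v) * (1 - F1 u v))
        ≤ Y.E (H + g) fun u => Y.E (H + g) fun v =>
            ∑ γ ∈ Γ, (δ ^ 2)⁻¹ * (ρ (u ++ v) * (av γ H u - av γ H v) ^ 2) := by
          refine Y.E_mono fun u _ => Y.E_mono fun v _ => ?_
          refine (mul_le_mul_of_nonneg_left (hpt u v) (h.nonneg _)).trans (le_of_eq ?_)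
          rw [Finset.mul_sum]
          exact Finset.sum_congr rfl fun γ _ => by ring
      _ = ∑ γ ∈ Γ, (δ ^ 2)⁻¹ * (Y.E (H + g) fun u => Y.E (H + g) fun v =>
            ρ (u ++ v) * (av γ H u - av γ H v) ^ 2) := by
          simp only [Y.E_fsum, Y.E_mul_left]
      _ ≤ ∑ γ ∈ Γ, (δ ^ 2)⁻¹ * η := by
          refine Finset.sum_le_sum fun γ hγ => ?_
          exact mul_le_mul_of_nonneg_left (hH0 γ hγ) (by positivity)
      _ ≤ ε / 4 := by
          rw [Finset.sum_const, nsmul_eq_mul, hη]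
          have hc : (0 : ℝ) ≤ Γ.card := Nat.cast_nonneg _
          have e : (Γ.card : ℝ) * ((δ ^ 2)⁻¹ * (ε * δ ^ 2 / (4 * (Γ.card + 1)))) =
              ε / 4 * ((Γ.card : ℝ) / (Γ.card + 1)) := by
            field_simp
          rw [e]
          refine mul_le_of_le_one_right (by positivity) ?_
          rw [div_le_one (by positivity)]
          linarith
  have hgood : 3 / 4 * ε ≤ Y.E (H + g) fun u => Y.E (H + g) fun v => ρ (u ++ v) * F u v := by
    have e : (Y.E (H + g) fun u => Y.E (H + g) fun v => ρ (u ++ v) * ind (Sm Y g δ H u)) -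
        (Y.E (H + g) fun u => Y.E (H + g) fun v => ρ (u ++ v) * (1 - F1 u v)) ≤
          Y.E (H + g) fun u => Y.E (H + g) fun v => ρ (u ++ v) * F u v := by
      rw [← Y.E_fsub]
      refine Y.E_mono fun u _ => ?_
      rw [← Y.E_fsub]
      refine Y.E_mono fun v _ => ?_
      have e1 : F u v = ind (Sm Y g δ H u) * F1 u v := rfl
      have e2 : 0 ≤ ρ (u ++ v) := h.nonneg _
      have e3 : 0 ≤ F1 u v := ind_nonneg _
      have e4 : F1 u v ≤ 1 := ind_le_one _
      have e5 := ind_nonneg (Sm Y g δ H u)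
      have e6 := ind_le_one (Sm Y g δ H u)
      rw [e1, ← mul_sub]
      refine mul_le_mul_of_nonneg_left ?_ e2
      nlinarith
    rw [hsym] at e
    linarith
  have hinfo := info h h1 hK hM1 (H + g) (H + g) F hF0 hFle
  rw [← hD, hlM] at hinfo
  have h5 : ε / (2 * M) ≤ Y.E (H + g) fun u => Y.E (H + g) fun v => ρ u * ρ v * F u v := by
    rw [div_le_iff₀ (by positivity)]
    nlinarith [hgood, hinfo]
  have h6 : (Y.E (H + g) fun u => Y.E (H + g) fun v => ρ u * ρ v * F u v) =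
      Y.E (H + g) fun u => ρ u * Y.E (H + g) fun v => ρ v * F u v := by
    refine Y.E_congr fun u _ => ?_
    rw [← Y.E_mul_left]
    exact Y.E_congr fun v _ => by ring
  rw [h6] at h5
  obtain ⟨u, -, hu⟩ := Aer_ex h (H + g) _ h5
  have hc0 : 0 < ε / (2 * M) := by positivity
  have hsu : Sm Y g δ H u := by
    by_contra hcon
    have e1 : (Y.E (H + g) fun v => ρ v * F u v) = 0 := by
      rw [← Y.E_zero_fun (H + g)]
      refine Y.E_congr fun v _ => ?_
      have : F u v = ind (Sm Y g δ H u) * F1 u v := rfl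
      rw [this, ind_not hcon, zero_mul, mul_zero]
    rw [e1] at hu
    linarith
  refine ⟨fun γ => av γ H u, fun γ => ⟨av_nonneg γ H u, av_le_one γ H u⟩, hsu, hu.trans ?_⟩
  refine Y.E_mono fun v _ => mul_le_mul_of_nonneg_left ?_ (h.nonneg v)
  exact mul_le_of_le_one_left (ind_nonneg _) (ind_le_one _)

/-- An ergodic law that is invariant under reversal, from symmetric windows. -/
theorem exists_erg_rev (h : Bulk Y Λ ρ) (h1 : ∀ n, 1 ≤ Y.a n) (hK : ∀ n, Y.a n ≤ K) {ε : ℝ}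
    (hε : 0 < ε) (hS : ∀ (k : ℕ) (δ : ℝ), 0 < δ → ∀ H₀ : ℕ, ∃ H ≥ H₀,
      ε ≤ Y.E (H + k) fun w => ρ w * ind (Sm Y k δ H w)) :
    ∃ (Λ' : ℝ) (ρ' : List S → ℝ), Erg Y Λ' K ρ' ∧ ∀ u, ρ' (bar Y u) = ρ' u := by
  obtain ⟨c₀, hc0, hc⟩ := center_sym h h1 hK hε hS
  have hk : ∀ k : ℕ, ∃ H : ℕ, (k + 1) ^ 2 ≤ H ∧
      ∃ a : List S → ℝ, (∀ γ, 0 ≤ a γ ∧ a γ ≤ 1) ∧
        (∀ γ : List S, γ.length ≤ k → |a γ - a (bar Y γ)| ≤ 1 / ((k : ℝ) + 1)) ∧
        c₀ ≤ Y.E (H + k) fun w => ρ w * ind (∀ γ : List S, γ.length ≤ k →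
          |av γ H w - a γ| ≤ 1 / ((k : ℝ) + 1)) := fun k =>
    hc k (1 / ((k : ℝ) + 1)) (by positivity) ((k + 1) ^ 2)
  choose H hH a ha hs hp using hk
  have hC : Cen Y ρ c₀ H (fun k w => ∀ γ : List S, γ.length ≤ k →
      |av γ (H k) w - a k γ| ≤ 1 / ((k : ℝ) + 1)) a :=
    ⟨hH, hp, fun k w γ hB hγ => hB γ hγ, ha⟩
  refine ⟨_, _, ⟨bulk_eL h hc0 hC, h1, hK, fun γ => mf_eL h hc0 hC γ⟩, fun u => ?_⟩
  have hz : 0 < Y.z ^ u.length := pow_pos Y.z_pos _
  have hlen : (bar Y u).length = u.length := by simp [bar]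
  have e1 := eL_eq h hc0 hC u
  have e2 := eL_eq h hc0 hC (bar Y u)
  rw [hlen] at e2
  have hb : ∀ (v : List S) (k : ℕ), |a k v| ≤ 1 := fun v k => by
    rw [abs_of_nonneg (ha k v).1]; exact (ha k v).2
  have he : Tendsto (fun k : ℕ => 1 / ((k : ℝ) + 1)) atTop (nhds 0) :=
    tendsto_one_div_add_atTop_nhds_zero_nat
  have e3 : (Bubble.ul fun k => a k (bar Y u)) = Bubble.ul fun k => a k u := by
    refine le_antisymm (Bubble.ul_le (hb _) (hb _) he ?_) (Bubble.ul_le (hb _) (hb _) he ?_)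
    · filter_upwards [eventually_ge_atTop u.length] with k hk
      have := (abs_le.1 (hs k u hk)).1
      linarith
    · filter_upwards [eventually_ge_atTop u.length] with k hk
      have := (abs_le.1 (hs k u hk)).2
      linarith
  rw [e3, ← e1] at e2
  exact mul_left_cancel₀ hz.ne' e2

end Pool.Agent.Esc
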