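import Pool.Agent.SawDiff.Win
import Pool.Agent.Taw.Defs

/-!
# Patterns of one length control the shorter ones
-/

set_option autoImplicit false

namespace Pool.Agent.Esc

open Finset Filter Pool.Agent.Bub4 Pool.Agent.SawM2 Pool.Agent.SawDiff Pool.Agent.Taw

variable {S V : Type} [Fintype S] [AddCommGroup V]

theorem occ_app (γ t : List S) (p : ℕ) (w : List S) :
    occ (γ ++ t) p w = occ γ p w * occ t (p + γ.length) w := by
  classical
  by_cases h : γ <+: w.drop p
  · have h0 : occ γ p w = 1 := if_pos h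
    rw [h0, one_mul]
    obtain ⟨r, hr⟩ := h
    have h1 : w.drop (p + γ.length) = r := by
      rw [← List.drop_drop, ← hr, List.drop_left]
    unfold occ
    rw [h1, ← hr]
    simp only [List.prefix_append_right_inj]
  · have h0 : occ γ p w = 0 := if_neg h
    rw [h0, zero_mul]
    unfold occ
    rw [if_neg]
    intro h1
    exact h ((List.prefix_append γ t).trans h1)

/-- exactly one word of length `m` occurs at each place -/
theorem E_occ (Y : Sys S V) (m : ℕ) {p : ℕ} {w : List S} (h : p + m ≤ w.length) :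
    (Y.E m fun t => occ t p w) = Y.z ^ m := by
  classical
  rw [Y.E_eq, ← Finset.mul_sum]
  have hlen : ((w.drop p).take m).length = m := by
    rw [List.length_take, List.length_drop]
    omega
  obtain ⟨w₀, hw₀⟩ : ∃ w₀ : Fin m → S, List.ofFn w₀ = (w.drop p).take m := by
    refine ⟨fun i => ((w.drop p).take m).get (Fin.cast hlen.symm i), ?_⟩
    apply List.ext_get
    · simp [hlen]
    · intro n h1 h2
      simp
  rw [Finset.sum_eq_single w₀]
  · rw [hw₀]
    unfold occ
    rw [if_pos (List.take_prefix _ _), mul_one]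
  · intro v _ hne
    unfold occ
    rw [if_neg]
    intro hpre
    apply hne
    have h4 : List.ofFn v = (w.drop p).take m := by
      have h5 := List.prefix_iff_eq_take.1 hpre
      rw [List.length_ofFn] at h5
      exact h5
    exact List.ofFn_injective (h4.trans hw₀.symm)
  · intro hne
    exact absurd (Finset.mem_univ _) hne

theorem E_occ_right (Y : Sys S V) (γ : List S) (m : ℕ) {p : ℕ} {w : List S}
    (h : p + γ.length + m ≤ w.length) :
    (Y.E m fun t => occ (γ ++ t) p w) = Y.z ^ m * occ γ p w := by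
  simp only [occ_app]
  rw [Y.E_mul_left, E_occ Y m h, mul_comm]

theorem E_occ_left (Y : Sys S V) (γ : List S) (m : ℕ) {p : ℕ} {w : List S}
    (h : p + m ≤ w.length) :
    (Y.E m fun t => occ (t ++ γ) p w) = Y.z ^ m * occ γ (p + m) w := by
  have e : (Y.E m fun t => occ (t ++ γ) p w) = Y.E m fun t => occ t p w * occ γ (p + m) w :=
    Y.E_congr fun t ht => by rw [occ_app, ht]
  rw [e, Y.E_mul_right, E_occ Y m h]

theorem shift_abs (f : ℕ → ℝ) (hf : ∀ i, 0 ≤ f i ∧ f i ≤ 1) (n h : ℕ) :
    |∑ p ∈ range n, f (p + h) - ∑ p ∈ range n, f p| ≤ h := by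
  have h1 : ∑ p ∈ range n, f (p + h) + ∑ p ∈ range h, f p =
      ∑ p ∈ range n, f p + ∑ p ∈ range h, f (n + p) := by
    rw [← Finset.sum_range_add, add_comm, Nat.add_comm n h, Finset.sum_range_add]
    congr 1
    exact Finset.sum_congr rfl fun p _ => by rw [Nat.add_comm]
  have h2 : ∀ g : ℕ → ℝ, (∀ i, 0 ≤ g i ∧ g i ≤ 1) → 0 ≤ ∑ p ∈ range h, g p ∧
      ∑ p ∈ range h, g p ≤ h := by
    intro g hg
    refine ⟨Finset.sum_nonneg fun i _ => (hg i).1, ?_⟩
    have := Finset.sum_le_card_nsmul (range h) g 1 (fun i _ => (hg i).2)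
    simpa using this
  have h3 := h2 f hf
  have h4 := h2 (fun p => f (n + p)) (fun i => hf _)
  rw [abs_le]
  constructor <;> linarith [h3.1, h3.2, h4.1, h4.2]

/-- counting all occurrences, or only those at the first `H` places -/
theorem cnt_av {γ w : List S} {H : ℕ} (hγ : γ ≠ []) (hw : w.length = H + γ.length) :
    |(cnt γ w : ℝ) - ∑ p ∈ range H, occ γ p w| ≤ 1 := by
  classical
  have h1 : (cnt γ w : ℝ) = ∑ p ∈ range (w.length + 1), occ γ p w := by
    unfold cnt occ
    rw [Finset.card_filter]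
    push_cast
    rfl
  have hpos : 0 < γ.length := List.length_pos_of_ne_nil hγ
  have e1 : w.length + 1 = H + (1 + γ.length) := by omega
  have e2 : ∑ x ∈ range γ.length, occ γ (H + (1 + x)) w = 0 := by
    refine Finset.sum_eq_zero fun x _ => ?_
    unfold occ
    rw [if_neg]
    intro h2
    have h3 := h2.length_le
    rw [List.length_drop] at h3
    omega
  rw [h1, e1, Finset.sum_range_add, Finset.sum_range_add, e2, Finset.sum_range_one]
  have h4 := occ_nonneg γ (H + 0) w
  have h5 := occ_le_one γ (H + 0) w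
  rw [abs_le]
  constructor <;> linarith

theorem bar_append (Y : Sys S V) (u v : List S) : bar Y (u ++ v) = bar Y v ++ bar Y u := by
  simp [bar]

theorem E_bar (Y : Sys S V) (n : ℕ) (F : List S → ℝ) : (Y.E n fun w => F (bar Y w)) = Y.E n F := by
  unfold bar
  rw [Y.E_neg n fun w => F w.reverse, Y.E_reverse]

/-- If all words of length `k` are as frequent as their reversals, so are all shorter words. -/
theorem sx_sm (Y : Sys S V) (k : ℕ) {δ₀ : ℝ} (hδ₀ : 0 < δ₀) : ∃ δ : ℝ, 0 < δ ∧ ∃ H₁ : ℕ,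
    ∀ H ≥ H₁, ∀ w : List S, w.length = H + k →
      (∀ γ : List S, γ.length = k →
        |(cnt γ w : ℝ) - cnt (bar Y γ) w| ≤ δ * ((H + k : ℕ) : ℝ)) →
      ∀ γ : List S, γ.length ≤ k → |av γ H w - av (bar Y γ) H w| ≤ δ₀ := by
  set q : ℝ := ∑ m ∈ range (k + 1), (Fintype.card S : ℝ) ^ m with hq
  have hq0 : ∀ m, m ≤ k → (Fintype.card S : ℝ) ^ m ≤ q := fun m hm =>
    Finset.single_le_sum (f := fun m => (Fintype.card S : ℝ) ^ m) (fun _ _ => by positivity)
      (Finset.mem_range.2 (by omega))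
  have hq1 : 1 ≤ q := by simpa using hq0 0 (by omega)
  set δ : ℝ := δ₀ / (4 * q) with hδ
  obtain ⟨H₁, hH₁⟩ := exists_nat_ge (2 * (2 * q + k) / δ₀)
  refine ⟨δ, by positivity, max (max H₁ k) 1, fun H hH w hw hs γ hγ => ?_⟩
  have hHk : k ≤ H := ((le_max_right _ _).trans (le_max_left _ _)).trans hH
  have hH1 : 1 ≤ H := (le_max_right _ _).trans hH
  have hHH : (H₁ : ℝ) ≤ H := by
    exact_mod_cast ((le_max_left _ _).trans (le_max_left _ _)).trans hH
  have hHr : (0 : ℝ) < H := by exact_mod_cast (by omega : 0 < H)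
  set m : ℕ := k - γ.length with hm
  have hbl : (bar Y γ).length = γ.length := by simp [bar]
  set B : ℝ := δ * ((H + k : ℕ) : ℝ) + 2 with hB
  have hB0 : 0 ≤ B := by rw [hB]; positivity
  -- words of length `k`
  have hk : ∀ γ' : List S, γ'.length = k →
      |∑ p ∈ range H, occ γ' p w - ∑ p ∈ range H, occ (bar Y γ') p w| ≤ B := by
    intro γ' hγ'
    rcases eq_or_ne γ' [] with h0 | h0
    · subst h0
      simp only [bar, List.map_nil, List.reverse_nil, sub_self, abs_zero]
      exact hB0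
    · have h1 := cnt_av (w := w) (H := H) h0 (by omega)
      have h2 := cnt_av (γ := bar Y γ') (w := w) (H := H) (by
        intro h3
        have : (bar Y γ').length = 0 := by rw [h3]; rfl
        have h4 : γ'.length = 0 := by simpa [bar] using this
        exact h0 (List.length_eq_zero_iff.1 h4)) (by simp [bar]; omega)
      have h3 := hs γ' hγ'
      rw [abs_le] at h1 h2 h3 ⊢
      constructor <;> linarith [h1.1, h1.2, h2.1, h2.2, h3.1, h3.2]
  -- extension
  have hz : 0 < Y.z ^ m := pow_pos Y.z_pos m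
  have e1 : Y.z ^ m * (∑ p ∈ range H, occ γ p w - ∑ p ∈ range H, occ (bar Y γ) (p + m) w) =
      Y.E m fun t => (∑ p ∈ range H, occ (γ ++ t) p w -
        ∑ p ∈ range H, occ (bar Y (γ ++ t)) p w) := by
    rw [Y.E_fsub, Y.E_fsum, mul_sub, Finset.mul_sum]
    congr 1
    · refine Finset.sum_congr rfl fun p hp => ?_
      rw [Finset.mem_range] at hp
      rw [E_occ_right Y γ m (by omega)]
    · have e2 : (Y.E m fun t => ∑ p ∈ range H, occ (bar Y (γ ++ t)) p w) =
          Y.E m fun t => ∑ p ∈ range H, occ (t ++ bar Y γ) p w := by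
        rw [← E_bar Y m fun t => ∑ p ∈ range H, occ (t ++ bar Y γ) p w]
        refine Y.E_congr fun t _ => ?_
        rw [bar_append]
      rw [e2, Y.E_fsum, Finset.mul_sum]
      refine Finset.sum_congr rfl fun p hp => ?_
      rw [Finset.mem_range] at hp
      rw [E_occ_left Y (bar Y γ) m (by omega)]
  have e3 : |∑ p ∈ range H, occ γ p w - ∑ p ∈ range H, occ (bar Y γ) (p + m) w| ≤ q * B := by
    have h1 : |Y.z ^ m * (∑ p ∈ range H, occ γ p w - ∑ p ∈ range H, occ (bar Y γ) (p + m) w)| ≤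
        Y.E m fun _ => B := by
      rw [e1]
      refine (Y.E_abs m _).trans (Y.E_mono fun t ht => ?_)
      exact hk _ (by rw [List.length_append, ht]; omega)
    have h2 : (Y.E m fun _ => B) = Y.z ^ m * ((Fintype.card S : ℝ) ^ m * B) := by
      rw [Y.E_eq, Finset.sum_const, Finset.card_univ, nsmul_eq_mul]
      simp only [Fintype.card_fun, Fintype.card_fin]
      push_cast
      ring
    rw [h2, abs_mul, abs_of_pos hz] at h1
    refine (le_of_mul_le_mul_left h1 hz).trans ?_
    exact mul_le_mul_of_nonneg_right (hq0 m (by omega)) hB0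
  have e4 := shift_abs (fun p => occ (bar Y γ) p w)
    (fun i => ⟨occ_nonneg _ _ _, occ_le_one _ _ _⟩) H m
  have e5 : |∑ p ∈ range H, occ γ p w - ∑ p ∈ range H, occ (bar Y γ) p w| ≤ q * B + k := by
    have hmk : (m : ℝ) ≤ k := by exact_mod_cast (by omega : m ≤ k)
    rw [abs_le] at e3 e4 ⊢
    constructor <;> linarith [e3.1, e3.2, e4.1, e4.2]
  unfold av
  rw [← mul_sub, abs_mul, abs_of_nonneg (inv_nonneg.2 hHr.le), inv_mul_le_iff₀ hHr]
  refine e5.trans ?_
  -- `q * B + k ≤ δ₀ * H`
  have e6 : q * B = δ₀ / 4 * ((H + k : ℕ) : ℝ) + 2 * q := by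
    rw [hB, hδ]
    field_simp
  have e7 : ((H + k : ℕ) : ℝ) ≤ 2 * H := by
    have : H + k ≤ 2 * H := by omega
    exact_mod_cast this
  have e8 : 2 * (2 * q + k) ≤ δ₀ * H := by
    have h1 : 2 * (2 * q + k) / δ₀ ≤ H := hH₁.trans hHH
    rw [div_le_iff₀ hδ₀] at h1
    linarith
  have e9 : δ₀ / 4 * ((H + k : ℕ) : ℝ) ≤ δ₀ / 4 * (2 * H) :=
    mul_le_mul_of_nonneg_left e7 (by positivity)
  rw [e6]
  linarith

end Pool.Agent.Esc
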