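import Pool.Agent.SawM2.Basic
import Pool.Agent.Esc.Pat

/-!
# Almost all blocks of almost all long walks carry an arrow
-/

set_option autoImplicit false

namespace Pool.Agent.Esc

open Finset Filter Pool.Agent.Bub4 Pool.Agent.SawM2 Pool.Agent.SawDiff Pool.Agent.Taw

variable {S V : Type} [Fintype S] [AddCommGroup V] {Y : Sys S V} {Λ K : ℝ} {ρ : List S → ℝ}

/-- weight of the self-avoiding words of length `N`, times `G` of the block of length `L` at the
place `i` -/
noncomputable def bW (Y : Sys S V) (N L : ℕ) (G : List S → ℝ) (i : ℕ) : ℝ :=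
  Y.E N fun w => Y.sv w * G ((w.drop i).take L)

/-- mean of `G` over the blocks of length `L` of the self-avoiding words of length `N` -/
noncomputable def bA (Y : Sys S V) (N L : ℕ) (G : List S → ℝ) : ℝ :=
  ((N : ℝ) + 1)⁻¹ * ∑ i ∈ range (N - L + 1), bW Y N L G i / Y.a N

theorem bW_split (Y : Sys S V) {N L i : ℕ} (h : i + L ≤ N) (G : List S → ℝ) :
    bW Y N L G i = Y.E L fun u => WIN_G Y i (N - L - i) u * G u := by
  obtain ⟨m, rfl⟩ := Nat.exists_eq_add_of_le h
  have e1 : i + L + m - L - i = m := by omega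
  have e2 : i + L + m = i + (L + m) := by ring
  unfold bW WIN_G
  rw [e1, e2, Y.E_add i (L + m)]
  have e3 : (Y.E L fun u => (Y.E i fun p => Y.E m fun s => Y.sv (p ++ u ++ s)) * G u) =
      Y.E i fun p => Y.E L fun u => Y.E m fun s => Y.sv (p ++ u ++ s) * G u := by
    rw [Y.E_comm]
    refine Y.E_congr fun u _ => ?_
    rw [← Y.E_mul_right]
    refine Y.E_congr fun p _ => ?_
    rw [← Y.E_mul_right]
  rw [e3]
  refine Y.E_congr fun p hp => ?_
  rw [Y.E_add L m]
  refine Y.E_congr fun u hu => Y.E_congr fun s _ => ?_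
  have e4 : ((p ++ (u ++ s)).drop i).take L = u := by
    rw [← hp, List.drop_left, ← hu, List.take_left]
  rw [e4, List.append_assoc]

theorem rn_bA (Y : Sys S V) {N L : ℕ} (h : L ≤ N) (G : List S → ℝ) :
    (Y.E L fun u => RN Y N u * G u) = bA Y N L G := by
  unfold bA
  have e1 : (Y.E L fun u => RN Y N u * G u) = Y.E L fun u => ((N : ℝ) + 1)⁻¹ *
      ∑ i ∈ range (N - L + 1), (Y.a N)⁻¹ * (WIN_G Y i (N - L - i) u * G u) := by
    refine Y.E_congr fun u hu => ?_
    rw [WIN_RN Y (by omega), hu, mul_assoc, Finset.sum_mul]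
    congr 1
    refine Finset.sum_congr rfl fun i _ => ?_
    ring
  rw [e1, Y.E_mul_left, Y.E_fsum]
  congr 1
  refine Finset.sum_congr rfl fun i hi => ?_
  rw [Finset.mem_range] at hi
  rw [Y.E_mul_left, bW_split Y (by omega), div_eq_inv_mul]

theorem bW_nonneg (Y : Sys S V) (N L : ℕ) {G : List S → ℝ} (hG : ∀ w, 0 ≤ G w) (i : ℕ) :
    0 ≤ bW Y N L G i :=
  Y.E_nonneg' fun _ => mul_nonneg (Y.sv_nonneg _) (hG _)

theorem bW_le (Y : Sys S V) (N L : ℕ) {G : List S → ℝ} (hG : ∀ w, G w ≤ 1) (i : ℕ) :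
    bW Y N L G i ≤ Y.a N := by
  unfold bW Sys.a
  exact Y.E_mono fun w _ => mul_le_of_le_one_right (Y.sv_nonneg _) (hG _)

/-- a block inside a window of length `N` -/
theorem bW_win (hK : ∀ n, Y.a n ≤ K) {M N L j r : ℕ} (hj : j + N ≤ M) (hr : r + L ≤ N)
    {G : List S → ℝ} (hG : ∀ w, 0 ≤ G w) : bW Y M L G (j + r) ≤ K ^ 2 * bW Y N L G r := by
  obtain ⟨m, rfl⟩ := Nat.exists_eq_add_of_le hj
  have hK0 : 0 ≤ K := (Y.a_nonneg 0).trans (hK 0)
  have e2 : j + N + m = j + (N + m) := by ring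
  have h0 := bW_nonneg Y N L hG r
  have h1 : bW Y (j + N + m) L G (j + r) ≤ Y.a j * (bW Y N L G r * Y.a m) := by
    unfold bW Sys.a
    rw [e2, Y.E_add j (N + m), ← Y.E_mul_right]
    refine Y.E_mono fun p hp => ?_
    rw [Y.E_add N m, ← Y.E_mul_right, ← Y.E_mul_left]
    refine Y.E_mono fun w hw => ?_
    rw [← Y.E_mul_left, ← Y.E_mul_left]
    refine Y.E_mono fun s _ => ?_
    have e4 : ((p ++ (w ++ s)).drop (j + r)).take L = (w.drop r).take L := by
      rw [← List.drop_drop, ← hp, List.drop_left, List.drop_append_of_le_length (by omega),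
        List.take_append_of_le_length (by rw [List.length_drop]; omega)]
    rw [e4]
    have h2 : Y.sv (p ++ (w ++ s)) ≤ Y.sv p * (Y.sv w * Y.sv s) :=
      (Y.sv_append_le _ _).trans (mul_le_mul_of_nonneg_left (Y.sv_append_le _ _) (Y.sv_nonneg _))
    have h3 := mul_le_mul_of_nonneg_right h2 (hG ((w.drop r).take L))
    calc _ ≤ _ := h3
      _ = _ := by ring
  refine h1.trans ?_
  have h4 : Y.a j * (bW Y N L G r * Y.a m) = (Y.a j * Y.a m) * bW Y N L G r := by ring
  rw [h4, sq]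
  exact mul_le_mul_of_nonneg_right (mul_le_mul (hK j) (hK m) (Y.a_nonneg m) hK0) h0

/-- Uniformity: the mean over the blocks in long words is controlled by the mean over the blocks
in words of one length. -/
theorem bA_dom (h1 : ∀ n, 1 ≤ Y.a n) (hK : ∀ n, Y.a n ≤ K) {M N L : ℕ} (hLN : 2 * L ≤ N)
    (hNM : N ≤ M) {G : List S → ℝ} (hG0 : ∀ w, 0 ≤ G w) (hG1 : ∀ w, G w ≤ 1) :
    bA Y M L G ≤ 2 * K ^ 3 * bA Y N L G + 2 * N / (M + 1) := by
  have hK0 : 0 ≤ K := (Y.a_nonneg 0).trans (hK 0)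
  have hM : (0 : ℝ) < (M : ℝ) + 1 := by positivity
  have hN : (0 : ℝ) < (N : ℝ) + 1 := by positivity
  set c : ℝ := 2 * K ^ 3 * bA Y N L G with hc
  have hsum : ∑ r ∈ range (N - L + 1), bW Y N L G r / Y.a N = ((N : ℝ) + 1) * bA Y N L G := by
    unfold bA
    rw [← mul_assoc, mul_inv_cancel₀ hN.ne', one_mul]
  have hbA : 0 ≤ bA Y N L G := by
    unfold bA
    exact mul_nonneg (inv_nonneg.2 hN.le) (Finset.sum_nonneg fun i _ =>
      div_nonneg (bW_nonneg Y N L hG0 i) (Y.a_nonneg N))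
  have hc0 : 0 ≤ c := by rw [hc]; positivity
  -- inner places
  have hin : ∀ i, N - L ≤ i → i + N ≤ M → bW Y M L G i / Y.a M ≤ c := by
    intro i hi1 hi2
    have hp : ∀ r ∈ range (N - L + 1), bW Y M L G i / Y.a M ≤
        K ^ 3 * (bW Y N L G r / Y.a N) := by
      intro r hr
      rw [Finset.mem_range] at hr
      have h2 := bW_win hK (M := M) (N := N) (L := L) (j := i - r) (r := r) (by omega) (by omega)
        hG0
      have e1 : i - r + r = i := by omega
      rw [e1] at h2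
      have hM0 : 0 < Y.a M := lt_of_lt_of_le one_pos (h1 M)
      have hN0 : 0 < Y.a N := lt_of_lt_of_le one_pos (h1 N)
      have h3 : bW Y M L G i / Y.a M ≤ bW Y M L G i :=
        div_le_self (bW_nonneg Y M L hG0 i) (h1 M)
      refine h3.trans (h2.trans ?_)
      have h4 := bW_nonneg Y N L hG0 r
      rw [pow_succ K 2, mul_assoc]
      refine mul_le_mul_of_nonneg_left ?_ (sq_nonneg K)
      rw [← mul_div_assoc, le_div_iff₀ hN0, mul_comm]
      exact mul_le_mul_of_nonneg_right (hK N) h4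
    have h5 := Finset.card_nsmul_le_sum (range (N - L + 1)) (fun r => K ^ 3 *
      (bW Y N L G r / Y.a N)) _ hp
    rw [Finset.card_range, nsmul_eq_mul, ← Finset.mul_sum, hsum] at h5
    have h6 : ((N : ℝ) + 1) ≤ 2 * ((N - L + 1 : ℕ) : ℝ) := by
      have : N + 1 ≤ 2 * (N - L + 1) := by omega
      exact_mod_cast this
    have h7 : (0 : ℝ) < ((N - L + 1 : ℕ) : ℝ) := by positivity
    have h8 : ((N - L + 1 : ℕ) : ℝ) * (bW Y M L G i / Y.a M) ≤ ((N - L + 1 : ℕ) : ℝ) * c := by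
      refine h5.trans ?_
      rw [hc]
      calc K ^ 3 * (((N : ℝ) + 1) * bA Y N L G)
          = (K ^ 3 * bA Y N L G) * ((N : ℝ) + 1) := by ring
        _ ≤ (K ^ 3 * bA Y N L G) * (2 * ((N - L + 1 : ℕ) : ℝ)) :=
            mul_le_mul_of_nonneg_left h6 (by positivity)
        _ = _ := by ring
    exact le_of_mul_le_mul_left h8 h7
  have hall : ∀ i ∈ range (M - L + 1), bW Y M L G i / Y.a M ≤
      c + (ind (i < N) + ind (M < i + N)) := by
    intro i _
    have hle1 : bW Y M L G i / Y.a M ≤ 1 := by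
      rw [div_le_one (lt_of_lt_of_le one_pos (h1 M))]
      exact bW_le Y M L hG1 i
    by_cases hi1 : i < N
    · rw [ind_of hi1]
      linarith [ind_nonneg (M < i + N)]
    · by_cases hi2 : M < i + N
      · rw [ind_of hi2]
        linarith [ind_nonneg (i < N)]
      · have := hin i (by omega) (by omega)
        linarith [ind_nonneg (i < N), ind_nonneg (M < i + N)]
  have hs := Finset.sum_le_sum hall
  have hcnt1 : ∑ i ∈ range (M - L + 1), ind (i < N) ≤ N := by
    have : ∑ i ∈ range (M - L + 1), ind (i < N) ≤ ∑ i ∈ range (M - L + 1 + N), ind (i < N) :=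
      Finset.sum_le_sum_of_subset_of_nonneg (Finset.range_mono (by omega))
        fun _ _ _ => ind_nonneg _
    refine this.trans (le_of_eq ?_)
    have e : ∑ i ∈ range (M - L + 1 + N), ind (i < N) = ∑ i ∈ range N, (1 : ℝ) := by
      rw [Nat.add_comm, Finset.sum_range_add]
      have e1 : ∑ x ∈ range (M - L + 1), ind (N + x < N) = 0 :=
        Finset.sum_eq_zero fun x _ => ind_not (by omega)
      rw [e1, add_zero]
      exact Finset.sum_congr rfl fun i hi => ind_of (Finset.mem_range.1 hi)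
    rw [e]
    simp
  have hcnt2 : ∑ i ∈ range (M - L + 1), ind (M < i + N) ≤ N := by
    have h9 : ∑ i ∈ range (M - L + 1), ind (M < i + N) ≤
        ∑ i ∈ range (M - N + 1 + N), ind (M < i + N) :=
      Finset.sum_le_sum_of_subset_of_nonneg (Finset.range_mono (by omega))
        fun _ _ _ => ind_nonneg _
    refine h9.trans ?_
    rw [Finset.sum_range_add]
    have e1 : ∑ x ∈ range (M - N + 1), ind (M < x + N) = 0 :=
      Finset.sum_eq_zero fun x hx => ind_not (by rw [Finset.mem_range] at hx; omega)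
    rw [e1, zero_add]
    have := Finset.sum_le_card_nsmul (range N) (fun x => ind (M < M - N + 1 + x + N)) 1
      (fun x _ => ind_le_one _)
    simpa using this
  rw [Finset.sum_add_distrib, Finset.sum_add_distrib, Finset.sum_const, Finset.card_range,
    nsmul_eq_mul] at hs
  have h10 : ((M - L + 1 : ℕ) : ℝ) * c ≤ ((M : ℝ) + 1) * c := by
    refine mul_le_mul_of_nonneg_right ?_ hc0
    have : M - L + 1 ≤ M + 1 := by omega
    exact_mod_cast this
  have h11 : ∑ i ∈ range (M - L + 1), bW Y M L G i / Y.a M ≤ ((M : ℝ) + 1) * c + 2 * N := by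
    linarith
  unfold bA
  rw [inv_mul_le_iff₀ hM]
  refine h11.trans (le_of_eq ?_)
  have h12 : ((M : ℝ) + 1) * (2 * N / (M + 1)) = 2 * N := by field_simp
  rw [mul_add, h12]

/-- the limit law, with its definition -/
theorem bulk_ul (h1 : ∀ n, 1 ≤ Y.a n) (hK : ∀ n, Y.a n ≤ K) :
    Bulk Y (K ^ 2) fun u => Bubble.ul fun N => RN Y N u := by
  have hb : ∀ N u, |RN Y N u| ≤ K ^ 2 := by
    intro N u
    rw [abs_of_nonneg (RN_nonneg Y N u)]
    exact (RN_le h1 hK N u).trans (mul_le_of_le_one_right (sq_nonneg K) (Y.sv_le_one u))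
  have hb' : ∀ (n : ℕ) (F : List S → List S) (N : ℕ), |Y.E n fun v => RN Y N (F v)| ≤
      Y.E n fun _ => K ^ 2 := by
    intro n F N
    refine (Y.E_abs n _).trans (Y.E_mono fun w _ => hb N _)
  have h0 : Tendsto (fun _ : ℕ => (0 : ℝ)) atTop (nhds 0) := tendsto_const_nhds
  have he : ∀ n : ℕ, Tendsto (fun N : ℕ => n * K ^ 2 * ((N : ℝ) + 1)⁻¹) atTop (nhds 0) := by
    intro n
    have := (tendsto_one_div_add_atTop_nhds_zero_nat (𝕜 := ℝ)).const_mul ((n : ℝ) * K ^ 2)
    rw [mul_zero] at this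
    simpa [one_div] using this
  refine ⟨fun u => ?_, fun u => ?_, ?_, fun u n => ?_, fun u n => ?_⟩
  · exact Bubble.const_le_ul (e := fun _ => 0) (hb · u) h0
      (Eventually.of_forall fun N => by rw [add_zero]; exact RN_nonneg Y N u)
  · exact Bubble.ul_le_const (e := fun _ => 0) (hb · u) h0
      (Eventually.of_forall fun N => by rw [add_zero]; exact RN_le h1 hK N u)
  · apply Bubble.ul_eq
    have : (fun N => RN Y N []) = fun _ : ℕ => (1 : ℝ) := by
      funext N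
      exact RN_nil h1 N
    rw [this]
    exact tendsto_const_nhds
  · rw [E_ul Y n (fun N v => RN Y N (u ++ v)) (fun N v => hb N _)]
    have hev : ∀ᶠ N : ℕ in atTop, |(Y.E n fun v => RN Y N (u ++ v)) - RN Y N u| ≤
        n * K ^ 2 * ((N : ℝ) + 1)⁻¹ := by
      filter_upwards [eventually_ge_atTop (u.length + n)] with N hN
      exact RN_right h1 hK N u n hN
    apply le_antisymm
    · refine Bubble.ul_le (hb' n _) (hb · u) (he n) ?_
      filter_upwards [hev] with N hN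
      have := (abs_le.1 hN).2
      linarith
    · refine Bubble.ul_le (hb · u) (hb' n _) (he n) ?_
      filter_upwards [hev] with N hN
      have := (abs_le.1 hN).1
      linarith
  · rw [E_ul Y n (fun N v => RN Y N (v ++ u)) (fun N v => hb N _)]
    have hev : ∀ᶠ N : ℕ in atTop, |(Y.E n fun v => RN Y N (v ++ u)) - RN Y N u| ≤
        n * K ^ 2 * ((N : ℝ) + 1)⁻¹ := by
      filter_upwards [eventually_ge_atTop (u.length + n)] with N hN
      exact RN_left h1 hK N u n hN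
    apply le_antisymm
    · refine Bubble.ul_le (hb' n _) (hb · u) (he n) ?_
      filter_upwards [hev] with N hN
      have := (abs_le.1 hN).2
      linarith
    · refine Bubble.ul_le (hb · u) (hb' n _) (he n) ?_
      filter_upwards [hev] with N hN
      have := (abs_le.1 hN).1
      linarith

/-- from the limit law to all long words -/
theorem bA_of_ul (h1 : ∀ n, 1 ≤ Y.a n) (hK : ∀ n, Y.a n ≤ K) (L : ℕ) {G : List S → ℝ}
    (hG0 : ∀ w, 0 ≤ G w) (hG1 : ∀ w, G w ≤ 1) {ε : ℝ} (hε : 0 < ε)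
    (h : (Y.E L fun u => (Bubble.ul fun N => RN Y N u) * G u) < ε) :
    ∀ᶠ M in atTop, bA Y M L G ≤ (2 * K ^ 3 + 1) * ε := by
  have hK0 : 0 ≤ K := (Y.a_nonneg 0).trans (hK 0)
  have hb : ∀ N u, |RN Y N u| ≤ K ^ 2 := by
    intro N u
    rw [abs_of_nonneg (RN_nonneg Y N u)]
    exact (RN_le h1 hK N u).trans (mul_le_of_le_one_right (sq_nonneg K) (Y.sv_le_one u))
  have hb2 : ∀ N u, |RN Y N u * G u| ≤ K ^ 2 := by
    intro N u
    rw [abs_mul, abs_of_nonneg (hG0 u)]
    exact (mul_le_of_le_one_right (abs_nonneg _) (hG1 u)).trans (hb N u)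
  have e1 : (Y.E L fun u => (Bubble.ul fun N => RN Y N u) * G u) =
      Bubble.ul fun N => Y.E L fun u => RN Y N u * G u := by
    rw [← E_ul Y L (fun N u => RN Y N u * G u) hb2]
    refine Y.E_congr fun u _ => ?_
    symm
    apply Bubble.ul_eq
    exact (Bubble.tendsto_ul (hb · u)).mul_const (G u)
  rw [e1] at h
  have hb3 : ∀ N, |Y.E L fun u => RN Y N u * G u| ≤ Y.E L fun _ => K ^ 2 := fun N =>
    (Y.E_abs L _).trans (Y.E_mono fun u _ => hb2 N u)
  have h2 := (Bubble.tendsto_ul hb3).eventually (gt_mem_nhds h)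
  have h3 : ∀ᶠ N in (hyperfilter ℕ : Filter ℕ), 2 * L ≤ N :=
    (eventually_ge_atTop (2 * L)).filter_mono Bubble.hyp_le
  obtain ⟨N, hN1, hN2⟩ := (h2.and h3).exists
  rw [rn_bA Y (by omega)] at hN1
  have h4 : ∀ᶠ M : ℕ in atTop, 2 * (N : ℝ) / (M + 1) ≤ ε := by
    have : Tendsto (fun M : ℕ => 2 * (N : ℝ) / ((M : ℝ) + 1)) atTop (nhds 0) := by
      have := (tendsto_one_div_add_atTop_nhds_zero_nat (𝕜 := ℝ)).const_mul (2 * (N : ℝ))
      rw [mul_zero] at this
      simpa [div_eq_mul_inv] using this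
    exact this.eventually (ge_mem_nhds hε)
  filter_upwards [h4, eventually_ge_atTop N] with M hM1 hM2
  have h5 := bA_dom h1 hK hN2 hM2 hG0 hG1
  have h6 : 2 * K ^ 3 * bA Y N L G ≤ 2 * K ^ 3 * ε :=
    mul_le_mul_of_nonneg_left hN1.le (by positivity)
  linarith

/-- Almost all blocks carry an arrow, frequencies of words of length at most `k`. -/
theorem blocks_sm (h1 : ∀ n, 1 ≤ Y.a n) (hK : ∀ n, Y.a n ≤ K)
    (hno : ∀ (Λ : ℝ) (ρ : List S → ℝ) (ε : ℝ), Bulk Y Λ ρ → 0 < ε →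
      (∀ (g : ℕ) (δ : ℝ), 0 < δ → ∀ H₀ : ℕ, ∃ H ≥ H₀, ε ≤ Y.E (H + g) fun w => ρ w *
        ind (∀ γ : List S, γ.length ≤ g → |av γ H w - av (bar Y γ) H w| ≤ δ)) → False)
    {ε : ℝ} (hε : 0 < ε) : ∃ (k : ℕ) (δ : ℝ), 0 < δ ∧ ∃ H₀ : ℕ, ∀ H ≥ H₀,
      ∀ᶠ N in atTop, bA Y N (H + k) (fun w =>
        ind (∀ γ : List S, γ.length ≤ k → |av γ H w - av (bar Y γ) H w| ≤ δ)) ≤ ε := by
  have hK0 : 0 ≤ K := (Y.a_nonneg 0).trans (hK 0)
  have hc : 0 < 2 * K ^ 3 + 1 := by positivity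
  by_contra hcon
  push Not at hcon
  refine hno _ _ (ε / (2 * K ^ 3 + 1)) (bulk_ul h1 hK) (by positivity) fun k δ hδ H₀ => ?_
  obtain ⟨H, hH, h4⟩ := hcon k δ hδ H₀
  refine ⟨H, hH, ?_⟩
  by_contra h5
  push Not at h5
  have h6 := bA_of_ul h1 hK (H + k) (G := fun w =>
    ind (∀ γ : List S, γ.length ≤ k → |av γ H w - av (bar Y γ) H w| ≤ δ))
    (fun _ => ind_nonneg _) (fun _ => ind_le_one _) (by positivity) h5
  have h7 : (2 * K ^ 3 + 1) * (ε / (2 * K ^ 3 + 1)) = ε := by field_simp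
  rw [h7] at h6
  obtain ⟨N, hN1, hN2⟩ := (h4.and_eventually h6).exists
  linarith

theorem bA_mono (Y : Sys S V) {N L : ℕ} (h : L ≤ N) {G G' : List S → ℝ}
    (hG : ∀ w : List S, w.length = L → G w ≤ G' w) : bA Y N L G ≤ bA Y N L G' := by
  unfold bA bW
  refine mul_le_mul_of_nonneg_left (Finset.sum_le_sum fun i hi => ?_)
    (inv_nonneg.2 (by positivity))
  rw [Finset.mem_range] at hi
  refine div_le_div_of_nonneg_right (Y.E_mono fun w hw => ?_) (Y.a_nonneg N)
  refine mul_le_mul_of_nonneg_left (hG _ ?_) (Y.sv_nonneg _)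
  rw [List.length_take, List.length_drop]
  omega

/-- Almost all blocks carry an arrow, numbers of occurrences of the words of length `k`. -/
theorem blocks_cnt (h1 : ∀ n, 1 ≤ Y.a n) (hK : ∀ n, Y.a n ≤ K)
    (hno : ∀ (Λ : ℝ) (ρ : List S → ℝ) (ε : ℝ), Bulk Y Λ ρ → 0 < ε →
      (∀ (g : ℕ) (δ : ℝ), 0 < δ → ∀ H₀ : ℕ, ∃ H ≥ H₀, ε ≤ Y.E (H + g) fun w => ρ w *
        ind (∀ γ : List S, γ.length ≤ g → |av γ H w - av (bar Y γ) H w| ≤ δ)) → False)
    {ε : ℝ} (hε : 0 < ε) : ∃ (k : ℕ) (δ : ℝ), 0 < δ ∧ ∃ L₀ : ℕ, ∀ L ≥ L₀,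
      ∀ᶠ N in atTop, bA Y N L (fun w =>
        ind (∀ γ : List S, γ.length = k → |(cnt γ w : ℝ) - cnt (bar Y γ) w| ≤ δ * L)) ≤ ε := by
  obtain ⟨k, δ₀, hδ₀, H₀, h2⟩ := blocks_sm h1 hK hno hε
  obtain ⟨δ, hδ, H₁, h3⟩ := sx_sm Y k hδ₀
  refine ⟨k, δ, hδ, max H₀ H₁ + k, fun L hL => ?_⟩
  obtain ⟨H, rfl⟩ : ∃ H, L = H + k := ⟨L - k, by omega⟩
  have hH : max H₀ H₁ ≤ H := by omega
  filter_upwards [h2 H ((le_max_left _ _).trans hH), eventually_ge_atTop (H + k)] with N hN hN2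
  refine (bA_mono Y hN2 fun w hw => ?_).trans hN
  exact ind_mono fun hs => h3 H ((le_max_right _ _).trans hH) w hw hs

/-- If almost all blocks of length `L` of long words have a property, then the words of length `L`
with this property have mass at least about `1 / K ^ 2`. -/
theorem share_of_blocks (h1 : ∀ n, 1 ≤ Y.a n) (hK : ∀ n, Y.a n ≤ K) {L : ℕ} {ε : ℝ}
    {G : List S → ℝ} (hG1 : ∀ w, G w ≤ 1) (h : ∀ᶠ N in atTop, bA Y N L G ≤ ε) :
    1 - ε ≤ K ^ 2 * Y.E L fun w => Y.sv w * (1 - G w) := by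
  set m : ℝ := Y.E L fun w => Y.sv w * (1 - G w) with hm
  have hm0 : 0 ≤ m := Y.E_nonneg' fun w => mul_nonneg (Y.sv_nonneg _) (by linarith [hG1 w])
  have hlim : Tendsto (fun N : ℕ => 1 - (L : ℝ) * (1 / ((N : ℝ) + 1)) - ε) atTop
      (nhds (1 - (L : ℝ) * 0 - ε)) :=
    (tendsto_const_nhds.sub ((tendsto_one_div_add_atTop_nhds_zero_nat (𝕜 := ℝ)).const_mul _)).sub
      tendsto_const_nhds
  rw [mul_zero, sub_zero] at hlim
  refine le_of_tendsto hlim ?_
  filter_upwards [h, eventually_ge_atTop L] with N hN hLN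
  have hN0 : (0 : ℝ) < (N : ℝ) + 1 := by positivity
  have ha : 0 < Y.a N := lt_of_lt_of_le one_pos (h1 N)
  have e1 : ∀ i, bW Y N L (fun w => 1 - G w) i = Y.a N - bW Y N L G i := by
    intro i
    unfold bW Sys.a
    rw [← Y.E_fsub]
    refine Y.E_congr fun w _ => ?_
    ring
  have e2 : ∀ i ∈ range (N - L + 1), 1 - bW Y N L G i / Y.a N ≤ K ^ 2 * m := by
    intro i hi
    rw [Finset.mem_range] at hi
    have h2 := bW_win hK (M := N) (N := L) (L := L) (j := i) (r := 0) (by omega) (by omega)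
      (G := fun w => 1 - G w) (fun w => by linarith [hG1 w])
    have h3 : bW Y L L (fun w => 1 - G w) 0 = m := by
      unfold bW
      refine Y.E_congr fun w hw => ?_
      rw [List.drop_zero, List.take_of_length_le hw.le]
    rw [h3, add_zero, e1] at h2
    have h4 : 1 - bW Y N L G i / Y.a N = (Y.a N - bW Y N L G i) / Y.a N := by field_simp
    rw [h4]
    refine (div_le_self ?_ (h1 N)).trans h2
    have h5 := bW_nonneg Y N L (G := fun w => 1 - G w) (fun w => by linarith [hG1 w]) i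
    rwa [e1] at h5
  have h6 := Finset.sum_le_sum e2
  rw [Finset.sum_sub_distrib, Finset.sum_const, Finset.sum_const, Finset.card_range, nsmul_eq_mul,
    nsmul_eq_mul, mul_one] at h6
  have h7 : ∑ i ∈ range (N - L + 1), bW Y N L G i / Y.a N = ((N : ℝ) + 1) * bA Y N L G := by
    unfold bA
    rw [← mul_assoc, mul_inv_cancel₀ hN0.ne', one_mul]
  rw [h7] at h6
  have h8 : ((N - L + 1 : ℕ) : ℝ) = (N : ℝ) + 1 - L := by
    rw [Nat.cast_add, Nat.cast_sub hLN]
    push_cast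
    ring
  have hKm : 0 ≤ K ^ 2 * m := by positivity
  have h9 : ((N : ℝ) + 1 - L) * (K ^ 2 * m) ≤ ((N : ℝ) + 1) * (K ^ 2 * m) := by
    refine mul_le_mul_of_nonneg_right ?_ hKm
    have : (0 : ℝ) ≤ L := Nat.cast_nonneg _
    linarith
  rw [h8] at h6
  have h10 : ((N : ℝ) + 1) * bA Y N L G ≤ ((N : ℝ) + 1) * ε :=
    mul_le_mul_of_nonneg_left hN hN0.le
  have h11 : ((N : ℝ) + 1) * (1 - (L : ℝ) * (1 / ((N : ℝ) + 1)) - ε) ≤
      ((N : ℝ) + 1) * (K ^ 2 * m) := by
    have e3 : ((N : ℝ) + 1) * (1 - (L : ℝ) * (1 / ((N : ℝ) + 1)) - ε) =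
        (N : ℝ) + 1 - L - ((N : ℝ) + 1) * ε := by
      field_simp
    rw [e3]
    linarith
  exact le_of_mul_le_mul_left h11 hN0

end Pool.Agent.Esc
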