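import Pool.Agent.Esc.Defs
import Pool.Agent.Esc.Bas

/-!
# The conformal weight above a right consistent weight
-/

set_option autoImplicit false

namespace Pool.Agent.Esc

open Finset Filter Topology Pool.Agent.Bub4 Pool.Agent.SawM2 Pool.Agent.Taw

variable {S V : Type} [Fintype S] [AddCommGroup V] {Y : Sys S V} {K : ℝ} {g : List S → ℝ}

/-- A right consistent weight that decreases under left extensions. -/
structure Cv (Y : Sys S V) (K : ℝ) (g : List S → ℝ) : Prop where
  a_ge : ∀ n, 1 ≤ Y.a n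
  a_le : ∀ n, Y.a n ≤ K
  nonneg : ∀ w, 0 ≤ g w
  le_sv : ∀ w, g w ≤ K * Y.sv w
  nil : g [] = 1
  right : ∀ u n, (Y.E n fun v => g (u ++ v)) = g u
  drop : ∀ u v, g (u ++ v) ≤ g v

/-- weight of the extensions of `w` of length `M`, counted with the weight `g` of the word
without its first `m` letters -/
noncomputable def qa (Y : Sys S V) (g : List S → ℝ) (m M : ℕ) (w : List S) : ℝ :=
  Y.E M fun c => Y.sv (w ++ c) * g ((w ++ c).drop m)

/-- its limit -/
noncomputable def qq (Y : Sys S V) (g : List S → ℝ) (m : ℕ) (w : List S) : ℝ :=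
  ⨅ M : ℕ, qa Y g m (m + M) w

/-- the supremum -/
noncomputable def goo (Y : Sys S V) (g : List S → ℝ) (w : List S) : ℝ := ⨆ m : ℕ, qq Y g m w

-- BEGIN qa_anti
/-- `qa` decreases in `M`: `(w ++ c ++ [s]).drop m = (w ++ c).drop m ++ [s]` as
`m ≤ (w ++ c).length`; `sv (w ++ c ++ [s]) ≤ sv (w ++ c)`; `h.right _ 1`. -/
theorem qa_anti (h : Cv Y K g) (m : ℕ) (w : List S) {M : ℕ} (hM : m ≤ M + w.length) :
    qa Y g m (M + 1) w ≤ qa Y g m M w := by
  unfold qa
  rw [Y.E_add]
  refine Y.E_mono fun u hu => ?_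
  have hm : m ≤ (w ++ u).length := by
    rw [List.length_append, hu]
    omega
  have h1 : (Y.E 1 fun x => Y.sv (w ++ (u ++ x)) * g ((w ++ (u ++ x)).drop m)) ≤
      Y.E 1 fun x => Y.sv (w ++ u) * g ((w ++ u).drop m ++ x) := by
    refine Y.E_mono fun x _ => ?_
    rw [← List.append_assoc, List.drop_append_of_le_length hm]
    exact mul_le_mul_of_nonneg_right (Y.sv_append_left _ _) (h.nonneg _)
  refine h1.trans ?_
  rw [Y.E_mul_left, h.right]
-- END qa_anti

-- BEGIN qa_nonneg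
theorem qa_nonneg (h : Cv Y K g) (m M : ℕ) (w : List S) : 0 ≤ qa Y g m M w := by
  exact Y.E_nonneg' fun c => mul_nonneg (Y.sv_nonneg _) (h.nonneg _)
-- END qa_nonneg

-- BEGIN qq_lim
/-- from `qa_anti`, `qa_nonneg` (`tendsto_atTop_ciInf`, shift of the index) -/
theorem qq_lim (h : Cv Y K g) (m : ℕ) (w : List S) :
    Tendsto (fun M => qa Y g m M w) atTop (𝓝 (qq Y g m w)) := by
  have h1 : Antitone fun M => qa Y g m (m + M) w :=
    antitone_nat_of_succ_le fun M => qa_anti h m w (M := m + M) (by omega)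
  have h2 : BddBelow (Set.range fun M => qa Y g m (m + M) w) :=
    ⟨0, by rintro _ ⟨M, rfl⟩; exact qa_nonneg h m _ w⟩
  have h3 : Tendsto (fun M => qa Y g m (m + M) w) atTop (𝓝 (qq Y g m w)) :=
    tendsto_atTop_ciInf h1 h2
  rw [← tendsto_add_atTop_iff_nat m]
  simpa only [add_comm] using h3
-- END qq_lim

-- BEGIN qq_mono
/-- `g (x.drop m) ≤ g (x.drop (m + 1))` for every `x` (`h.drop` with a word of length at most 1),
limits. -/
theorem qq_mono (h : Cv Y K g) (m : ℕ) (w : List S) : qq Y g m w ≤ qq Y g (m + 1) w := by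
  refine le_of_tendsto_of_tendsto' (qq_lim h m w) (qq_lim h (m + 1) w) fun M => ?_
  unfold qa
  refine Y.E_mono fun c _ => mul_le_mul_of_nonneg_left ?_ (Y.sv_nonneg _)
  have h1 : (w ++ c).drop m = ((w ++ c).drop m).take 1 ++ (w ++ c).drop (m + 1) := by
    rw [← List.drop_drop, List.take_append_drop]
  rw [h1]
  exact h.drop _ _
-- END qq_mono

-- BEGIN qq_zero
/-- `qa Y g 0 M w = g w`: `sv x * g x = g x` by `h.le_sv`, `h.nonneg` (`sv x = 0` forces
`g x = 0`), `h.right`. -/
theorem qq_zero (h : Cv Y K g) (w : List S) : qq Y g 0 w = g w := by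
  have h1 : ∀ x, Y.sv x * g x = g x := by
    intro x
    by_cases hx : Y.Saw x
    · rw [Y.sv_of hx, one_mul]
    · have h2 := h.le_sv x
      rw [Y.sv_of_not hx, mul_zero] at h2
      rw [le_antisymm h2 (h.nonneg x), mul_zero]
  have h2 : ∀ M, qa Y g 0 M w = g w := by
    intro M
    unfold qa
    simp only [List.drop_zero, h1]
    exact h.right w M
  unfold qq
  simp only [h2]
  exact ciInf_const
-- END qq_zero

-- BEGIN qq_nil
/-- `qa Y g m m [] = Y.E m (fun c => sv c * g []) = Y.a m ≤ K`, and `qq ≤ qa` (`qa_anti`). -/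
theorem qq_nil (h : Cv Y K g) (m : ℕ) : qq Y g m [] ≤ K := by
  have h2 : BddBelow (Set.range fun M => qa Y g m (m + M) []) :=
    ⟨0, by rintro _ ⟨M, rfl⟩; exact qa_nonneg h m _ []⟩
  have h3 : qq Y g m [] ≤ qa Y g m (m + 0) [] := ciInf_le h2 0
  have h4 : qa Y g m (m + 0) [] = Y.a m := by
    unfold qa Sys.a
    refine Y.E_congr fun w hw => ?_
    rw [add_zero] at hw
    rw [List.nil_append, List.drop_eq_nil_of_le hw.le, h.nil, mul_one]
  rw [h4] at h3
  exact h3.trans (h.a_le m)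
-- END qq_nil

-- BEGIN qq_right
/-- `Y.E n (fun v => qa Y g m M (w ++ v)) = qa Y g m (n + M) w` (`E_add`), limit `M → ∞`
(finite sums: `E_eq`, `tendsto_finset_sum`). -/
theorem qq_right (h : Cv Y K g) (m : ℕ) (w : List S) (n : ℕ) :
    (Y.E n fun v => qq Y g m (w ++ v)) = qq Y g m w := by
  have h1 : ∀ M, (Y.E n fun v => qa Y g m M (w ++ v)) = qa Y g m (M + n) w := by
    intro M
    rw [add_comm M n]
    unfold qa
    rw [Y.E_add]
    refine Y.E_congr fun v _ => Y.E_congr fun c _ => ?_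
    rw [List.append_assoc]
  have t1 : Tendsto (fun M => Y.E n fun v => qa Y g m M (w ++ v)) atTop
      (𝓝 (Y.E n fun v => qq Y g m (w ++ v))) := by
    simp only [Y.E_eq]
    exact tendsto_finsetSum _ fun v _ => (qq_lim h m (w ++ List.ofFn v)).const_mul _
  have t2 : Tendsto (fun M => Y.E n fun v => qa Y g m M (w ++ v)) atTop (𝓝 (qq Y g m w)) := by
    simp only [h1]
    exact (tendsto_add_atTop_iff_nat n).2 (qq_lim h m w)
  exact tendsto_nhds_unique t1 t2
-- END qq_right

-- BEGIN qq_le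
/-- `qq Y g m w ≤ K * K * Y.sv w`: `qa Y g m M w ≤ sv w * Y.E M (fun c => sv c * K)`
(`g ≤ K`, `sv (w ++ c) ≤ sv w * sv c`). -/
theorem qq_le (h : Cv Y K g) (m : ℕ) (w : List S) : qq Y g m w ≤ K * K * Y.sv w := by
  have hK : 0 ≤ K := zero_le_one.trans ((h.a_ge 0).trans (h.a_le 0))
  have h1 : ∀ x, g x ≤ K := fun x => (h.le_sv x).trans
    (mul_le_of_le_one_right hK (Y.sv_le_one x))
  have h2 : BddBelow (Set.range fun M => qa Y g m (m + M) w) :=
    ⟨0, by rintro _ ⟨M, rfl⟩; exact qa_nonneg h m _ w⟩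
  have h3 : qq Y g m w ≤ qa Y g m (m + 0) w := ciInf_le h2 0
  have h4 : qa Y g m (m + 0) w ≤ Y.sv w * (Y.a (m + 0) * K) := by
    unfold qa Sys.a
    rw [← Y.E_mul_right, ← Y.E_mul_left]
    refine Y.E_mono fun c _ => ?_
    calc Y.sv (w ++ c) * g ((w ++ c).drop m) ≤ (Y.sv w * Y.sv c) * K :=
          mul_le_mul (Y.sv_append_le w c) (h1 _) (h.nonneg _)
            (mul_nonneg (Y.sv_nonneg _) (Y.sv_nonneg _))
      _ = Y.sv w * (Y.sv c * K) := by ring
  have h5 : Y.sv w * (Y.a (m + 0) * K) ≤ Y.sv w * (K * K) :=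
    mul_le_mul_of_nonneg_left (mul_le_mul_of_nonneg_right (h.a_le _) hK) (Y.sv_nonneg _)
  linarith
-- END qq_le

-- BEGIN qq_conf
private theorem qq_conf_up (h : Cv Y K g) (m : ℕ) (v : List S) (hv : m ≤ v.length) :
    qq Y g m v ≤ Y.sv v * g (v.drop m) := by
  have h1 : ∀ M, qa Y g m M v ≤ qa Y g m 0 v := by
    intro M
    induction M with
    | zero => exact le_rfl
    | succ M ih => exact (qa_anti h m v (by omega)).trans ih
  have h2 : qa Y g m 0 v = Y.sv v * g (v.drop m) := by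
    unfold qa
    rw [Y.E_zero, List.append_nil]
  rw [← h2]
  exact le_of_tendsto' (qq_lim h m v) h1

private theorem qq_conf_drop (w x : List S) (m : ℕ) :
    (w ++ x).drop (w.length + m) = x.drop m := by
  rw [← List.drop_drop, List.drop_left]

private theorem qq_conf_sv (w v c : List S) :
    Y.sv (w ++ (v ++ c)) ≤ Y.sv (w ++ v) * Y.sv (v ++ c) := by
  have h1 : Y.sv (w ++ (v ++ c)) * Y.sv (w ++ v) = Y.sv (w ++ (v ++ c)) := by
    rw [← List.append_assoc]
    exact Y.sv_mul_infix (List.prefix_append _ _).isInfix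
  have h2 : Y.sv (w ++ (v ++ c)) * Y.sv (v ++ c) = Y.sv (w ++ (v ++ c)) :=
    Y.sv_mul_infix (List.suffix_append _ _).isInfix
  have h3 := mul_le_mul_of_nonneg_right (Y.sv_le_one (w ++ (v ++ c)))
    (mul_nonneg (Y.sv_nonneg (w ++ v)) (Y.sv_nonneg (v ++ c)))
  have h4 : Y.sv (w ++ (v ++ c)) * (Y.sv (w ++ v) * Y.sv (v ++ c)) = Y.sv (w ++ (v ++ c)) := by
    rw [← mul_assoc, h1, h2]
  rw [h4, one_mul] at h3
  exact h3

/-- `lim_M Y.E M (fun v => sv (w ++ v) * qq m v) = qq (|w| + m) w`. The sequence is antitone for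
`M` large (or squeeze). Upper bound: for `M ≥ m`, `qq m v ≤ qa m M' v`; with `M' = 0` allowed when
`|v| = M ≥ m` (`qa_anti`): `qq m v ≤ sv v * g (v.drop m)`, and
`sv (w ++ v) * sv v * g (v.drop m) = sv (w ++ v) * g ((w ++ v).drop (|w| + m))`, so the sequence
is at most `qa Y g (|w| + m) M w`. Lower bound: for every `M'`,
`Y.E M (fun v => sv (w ++ v) * qa m M' v) ≥ Y.E (M + M') (fun x => sv (w ++ x) * g (x.drop m))`
`= qa (|w| + m) (M + M') w ≥ qq (|w| + m) w`; let `M' → ∞` inside the finite sum. -/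
theorem qq_conf (h : Cv Y K g) (m : ℕ) (w : List S) :
    Tendsto (fun M => Y.E M fun v => Y.sv (w ++ v) * qq Y g m v) atTop
      (𝓝 (qq Y g (w.length + m) w)) := by
  refine tendsto_of_tendsto_of_tendsto_of_le_of_le' tendsto_const_nhds
    (qq_lim h (w.length + m) w) (Eventually.of_forall fun M => ?_)
    ((eventually_ge_atTop m).mono fun M hM => ?_)
  · have hle : ∀ M', qa Y g (w.length + m) (M' + M) w ≤
        Y.E M fun v => Y.sv (w ++ v) * qa Y g m M' v := by
      intro M'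
      rw [add_comm M' M]
      unfold qa
      rw [Y.E_add]
      refine Y.E_mono fun v _ => ?_
      rw [← Y.E_mul_left]
      refine Y.E_mono fun c _ => ?_
      rw [qq_conf_drop, ← mul_assoc]
      exact mul_le_mul_of_nonneg_right (qq_conf_sv w v c) (h.nonneg _)
    have t1 : Tendsto (fun M' => Y.E M fun v => Y.sv (w ++ v) * qa Y g m M' v) atTop
        (𝓝 (Y.E M fun v => Y.sv (w ++ v) * qq Y g m v)) := by
      simp only [Y.E_eq]
      exact tendsto_finsetSum _ fun v _ =>
        ((qq_lim h m (List.ofFn v)).const_mul _).const_mul _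
    exact le_of_tendsto_of_tendsto'
      ((tendsto_add_atTop_iff_nat M).2 (qq_lim h (w.length + m) w)) t1 hle
  · unfold qa
    refine Y.E_mono fun v hv => ?_
    rw [qq_conf_drop]
    refine mul_le_mul_of_nonneg_left ?_ (Y.sv_nonneg _)
    refine (qq_conf_up h m v (by omega)).trans ?_
    have h1 := mul_le_mul_of_nonneg_right (Y.sv_le_one v) (h.nonneg (v.drop m))
    rwa [one_mul] at h1
-- END qq_conf

-- BEGIN goo_lim
/-- `qq Y g m w → goo Y g w` (monotone, bounded by `qq_le`). -/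
theorem goo_lim (h : Cv Y K g) (w : List S) :
    Tendsto (fun m => qq Y g m w) atTop (𝓝 (goo Y g w)) := by
  have h1 : Monotone fun m => qq Y g m w := monotone_nat_of_le_succ fun m => qq_mono h m w
  have h2 : BddAbove (Set.range fun m => qq Y g m w) :=
    ⟨K * K * Y.sv w, by rintro _ ⟨m, rfl⟩; exact qq_le h m w⟩
  exact tendsto_atTop_ciSup h1 h2
-- END goo_lim

-- BEGIN goo_right
theorem goo_right (h : Cv Y K g) (w : List S) (n : ℕ) :
    (Y.E n fun v => goo Y g (w ++ v)) = goo Y g w := by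
  refine tendsto_nhds_unique ?_ (goo_lim h w)
  have h1 : ∀ m, qq Y g m w = Y.E n fun v => qq Y g m (w ++ v) := fun m =>
    (qq_right h m w n).symm
  simp only [h1]
  simp only [Y.E_eq]
  exact tendsto_finsetSum _ fun v _ => (goo_lim h (w ++ List.ofFn v)).const_mul _
-- END goo_right

-- BEGIN goo_drop
/-- `qa Y g (|u| + m) M (u ++ v) ≤ qa Y g m M v` (`(u ++ x).drop (|u| + m) = x.drop m`,
`sv (u ++ x) ≤ sv x`), so `qq (|u| + m) (u ++ v) ≤ qq m v`; limits `m → ∞`. -/
theorem goo_drop (h : Cv Y K g) (u v : List S) : goo Y g (u ++ v) ≤ goo Y g v := by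
  have h1 : ∀ m M, qa Y g (u.length + m) M (u ++ v) ≤ qa Y g m M v := by
    intro m M
    unfold qa
    refine Y.E_mono fun c _ => ?_
    rw [List.append_assoc, List.drop_append, List.drop_eq_nil_of_le (by omega),
      List.nil_append, show u.length + m - u.length = m by omega]
    exact mul_le_mul_of_nonneg_right (Y.sv_append_right u (v ++ c)) (h.nonneg _)
  have h2 : ∀ m, qq Y g (m + u.length) (u ++ v) ≤ qq Y g m v := by
    intro m
    rw [add_comm]
    exact le_of_tendsto_of_tendsto' (qq_lim h _ _) (qq_lim h _ _) (h1 m)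
  have h3 := (tendsto_add_atTop_iff_nat u.length).2 (goo_lim h (u ++ v))
  exact le_of_tendsto_of_tendsto' h3 (goo_lim h v) h2
-- END goo_drop

-- BEGIN goo_conf
/-- Lower bound: `Y.E M (sv (w ++ v) * goo v) ≥ Y.E M (sv (w ++ v) * qq m v)`, whose limit is
`qq (|w| + m) w`, for every `m`. Upper bound: `goo v - qq m v ≥ 0` and
`Y.E M (goo v - qq m v) = goo [] - qq m []` (`goo_right`, `qq_right`), so
`Y.E M (sv (w ++ v) * goo v) ≤ Y.E M (sv (w ++ v) * qq m v) + (goo [] - qq m [])`. -/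
theorem goo_conf (h : Cv Y K g) (w : List S) :
    Tendsto (fun M => Y.E M fun v => Y.sv (w ++ v) * goo Y g v) atTop (𝓝 (goo Y g w)) := by
  have hle : ∀ m v, qq Y g m v ≤ goo Y g v := fun m v =>
    (monotone_nat_of_le_succ fun m => qq_mono h m v).ge_of_tendsto (goo_lim h v) m
  have hlo : ∀ m M, (Y.E M fun v => Y.sv (w ++ v) * qq Y g m v) ≤
      Y.E M fun v => Y.sv (w ++ v) * goo Y g v := fun m M =>
    Y.E_mono fun v _ => mul_le_mul_of_nonneg_left (hle m v) (Y.sv_nonneg _)
  have hup : ∀ m M, (Y.E M fun v => Y.sv (w ++ v) * goo Y g v) ≤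
      (Y.E M fun v => Y.sv (w ++ v) * qq Y g m v) + (goo Y g [] - qq Y g m []) := by
    intro m M
    have h1 : goo Y g [] - qq Y g m [] = Y.E M fun v => goo Y g v - qq Y g m v := by
      rw [Y.E_fsub]
      have h2 := goo_right h [] M
      have h3 := qq_right h m [] M
      simp only [List.nil_append] at h2 h3
      rw [h2, h3]
    rw [h1, ← Y.E_fadd]
    refine Y.E_mono fun v _ => ?_
    have h4 := mul_le_mul_of_nonneg_right (Y.sv_le_one (w ++ v)) (sub_nonneg.2 (hle m v))
    linarith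
  rw [Metric.tendsto_atTop]
  intro ε hε
  have hA := goo_lim h w
  have hA' := (tendsto_add_atTop_iff_nat w.length).2 hA
  have hB := goo_lim h []
  obtain ⟨m, hm1, hm2⟩ := ((hA'.eventually (lt_mem_nhds (show goo Y g w - ε / 3 < goo Y g w by
    linarith))).and (hB.eventually (lt_mem_nhds (show goo Y g [] - ε / 3 < goo Y g [] by
    linarith)))).exists
  have hC := qq_conf h m w
  rw [Metric.tendsto_atTop] at hC
  obtain ⟨N, hN⟩ := hC (ε / 3) (by linarith)
  refine ⟨N, fun M hM => ?_⟩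
  have h5 := hN M hM
  rw [Real.dist_eq, abs_lt] at h5 ⊢
  have h6 := hlo m M
  have h7 := hup m M
  have h8 := hle (w.length + m) w
  rw [add_comm m] at hm1
  constructor <;> linarith
-- END goo_conf


-- BEGIN xcc
/-- The conformal weight `goo w / goo []` (as `Taw.exists_cf`, without `up`): `g0 ≤ goo`
(`qq_zero`, monotone), so `g0 w ≤ C * g w` with `C = goo []`. Last clause: choose `m` with
`goo [] - qq m [] ≤ ε` (`goo_lim`, monotone); `goo - qq m ≥ 0` is right consistent (`goo_right`,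
`qq_right`), so `Y.E (m + n) [(goo - qq m) φ] ≤ ε`; `qq m (a ++ b) ≤ sv a * g0 b` for `|a| = m`
(`qa Y g0 m M (a ++ b) ≤ sv a * Y.E M [g0 (b ++ c)] = sv a * g0 b`, `qq = ⨅`), `Y.a m ≤ K`, and
`g ≤ goo` because `goo [] ≥ 1`. -/
theorem xcc {g0 : List S → ℝ} (h : Cv Y K g0) : ∃ (g : List S → ℝ) (C : ℝ), Cc Y K g ∧ 0 < C ∧
    (∀ w, g0 w ≤ C * g w) ∧ ∀ ε : ℝ, 0 < ε → ∃ m : ℕ, ∀ (n : ℕ) (φ : List S → ℝ),
      (∀ w, 0 ≤ φ w) → (∀ w, φ w ≤ 1) →
      (Y.E (m + n) fun v => g v * φ (v.drop m)) ≤ K * (Y.E n fun v => g0 v * φ v) + ε := by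
  have hle : ∀ m v, qq Y g0 m v ≤ goo Y g0 v := fun m v =>
    (monotone_nat_of_le_succ fun m => qq_mono h m v).ge_of_tendsto (goo_lim h v) m
  have hg0 : ∀ w, g0 w ≤ goo Y g0 w := fun w => by
    have h1 := hle 0 w
    rwa [qq_zero h] at h1
  have hnn : ∀ w, 0 ≤ goo Y g0 w := fun w => (h.nonneg w).trans (hg0 w)
  have hG1 : 1 ≤ goo Y g0 [] := by
    have h1 := hg0 []
    rwa [h.nil] at h1
  have hG0 : 0 < goo Y g0 [] := by linarith
  refine ⟨fun w => goo Y g0 w / goo Y g0 [], goo Y g0 [], ?_, hG0, fun w => ?_, fun ε hε => ?_⟩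
  · refine ⟨h.a_ge, h.a_le, fun w => div_nonneg (hnn w) hG0.le, fun w => ?_, div_self hG0.ne',
      fun u n => ?_, fun u v => div_le_div_of_nonneg_right (goo_drop h u v) hG0.le, fun w => ?_⟩
    · by_cases hw : Y.Saw w
      · rw [Y.sv_of hw]
        have h1 := goo_drop h w []
        rw [List.append_nil] at h1
        exact (div_le_one hG0).2 h1
      · have h1 : goo Y g0 w ≤ K * K * Y.sv w := le_of_tendsto' (goo_lim h w) fun m => qq_le h m w
        rw [Y.sv_of_not hw, mul_zero] at h1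
        rw [Y.sv_of_not hw, le_antisymm h1 (hnn w), zero_div]
    · have h1 : (Y.E n fun v => goo Y g0 (u ++ v) / goo Y g0 []) =
          Y.E n fun v => goo Y g0 (u ++ v) * (goo Y g0 [])⁻¹ :=
        Y.E_congr fun v _ => div_eq_mul_inv _ _
      rw [h1, Y.E_mul_right, goo_right h, div_eq_mul_inv]
    · have h1 := (goo_conf h w).mul_const (goo Y g0 [])⁻¹
      rw [← div_eq_mul_inv] at h1
      refine h1.congr fun M => ?_
      rw [← Y.E_mul_right]
      refine Y.E_congr fun v _ => ?_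
      rw [div_eq_mul_inv, mul_assoc]
  · rw [mul_div_cancel₀ _ hG0.ne']
    exact hg0 w
  · obtain ⟨m, hm⟩ := ((goo_lim h []).eventually
      (lt_mem_nhds (show goo Y g0 [] - ε < goo Y g0 [] by linarith))).exists
    refine ⟨m, fun n φ hφ0 hφ1 => ?_⟩
    have e1 : (Y.E (m + n) fun v => goo Y g0 v / goo Y g0 [] * φ (v.drop m)) ≤
        Y.E (m + n) fun v => qq Y g0 m v * φ (v.drop m) + (goo Y g0 v - qq Y g0 m v) := by
      refine Y.E_mono fun v _ => ?_
      have f1 : goo Y g0 v / goo Y g0 [] ≤ goo Y g0 v := div_le_self (hnn v) hG1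
      have f2 := mul_le_mul_of_nonneg_right f1 (hφ0 (v.drop m))
      have f3 := mul_le_mul_of_nonneg_left (hφ1 (v.drop m)) (sub_nonneg.2 (hle m v))
      linarith
    rw [Y.E_fadd, Y.E_fsub] at e1
    have e2 := goo_right h [] (m + n)
    have e3 := qq_right h m [] (m + n)
    simp only [List.nil_append] at e2 e3
    rw [e2, e3] at e1
    have e4 : (Y.E (m + n) fun v => qq Y g0 m v * φ (v.drop m)) ≤
        K * (Y.E n fun v => g0 v * φ v) := by
      rw [Y.E_add]
      have f1 : (Y.E m fun u => Y.E n fun w => qq Y g0 m (u ++ w) * φ ((u ++ w).drop m)) ≤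
          Y.E m fun u => Y.sv u * (Y.E n fun v => g0 v * φ v) := by
        refine Y.E_mono fun u hu => ?_
        rw [← Y.E_mul_left]
        refine Y.E_mono fun v _ => ?_
        have k1 : (u ++ v).drop m = v := by
          rw [← hu, List.drop_left]
        have k2 := qq_conf_up h m (u ++ v) (by rw [List.length_append]; omega)
        rw [k1] at k2 ⊢
        have k3 := mul_le_mul_of_nonneg_right (Y.sv_append_left u v) (h.nonneg v)
        have k4 := mul_le_mul_of_nonneg_right (k2.trans k3) (hφ0 v)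
        linarith
      refine f1.trans ?_
      rw [Y.E_mul_right]
      exact mul_le_mul_of_nonneg_right (h.a_le m)
        (Y.E_nonneg' fun v => mul_nonneg (h.nonneg v) (hφ0 v))
    linarith
-- END xcc

end Pool.Agent.Esc
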