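import Pool.Agent.Taw.Defs
import Pool.Agent.SawM2.ErgL

/-!
# Escape from every walk: definitions
-/

set_option autoImplicit false

namespace Pool.Agent.Esc

open Finset Filter Topology Pool.Agent.Bub4 Pool.Agent.SawM2 Pool.Agent.Taw

variable {S V : Type} [Fintype S] [AddCommGroup V]

/-- A right consistent weight that decreases under left extensions. -/
structure Cw (Y : Sys S V) (K : ℝ) (g : List S → ℝ) : Prop where
  a_ge : ∀ n, 1 ≤ Y.a n
  a_le : ∀ n, Y.a n ≤ K
  nonneg : ∀ w, 0 ≤ g w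
  le_sv : ∀ w, g w ≤ Y.sv w
  nil : g [] = 1
  right : ∀ u n, (Y.E n fun v => g (u ++ v)) = g u
  drop : ∀ u v, g (u ++ v) ≤ g v

/-- A conformal weight: `z ^ |w| * g w` is the probability that a random infinite self-avoiding
walk starts with `w`, and `g w` is the probability that it does not meet `w` if it is attached
to the end of `w`. -/
structure Cc (Y : Sys S V) (K : ℝ) (g : List S → ℝ) : Prop where
  a_ge : ∀ n, 1 ≤ Y.a n
  a_le : ∀ n, Y.a n ≤ K
  nonneg : ∀ w, 0 ≤ g w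
  le_sv : ∀ w, g w ≤ Y.sv w
  nil : g [] = 1
  right : ∀ u n, (Y.E n fun v => g (u ++ v)) = g u
  drop : ∀ u v, g (u ++ v) ≤ g v
  conf : ∀ w, Tendsto (fun n => Y.E n fun v => Y.sv (w ++ v) * g v) atTop (𝓝 (g w))

/-- The conformal weight `g` is the law of the arms of the ergodic reversible law `ρ`. -/
structure Rt (Y : Sys S V) (g ρ : List S → ℝ) : Prop where
  nonneg : ∀ u, 0 ≤ ρ u
  nil : ρ [] = 1
  right : ∀ (u : List S) (n : ℕ), (Y.E n fun v => ρ (u ++ v)) = ρ u
  left : ∀ (u : List S) (n : ℕ), (Y.E n fun v => ρ (v ++ u)) = ρ u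
  le_sv : ∃ Λ : ℝ, ∀ u, ρ u ≤ Λ * Y.sv u
  rev : ∀ u, ρ (bar Y u) = ρ u
  freq : ∀ (w : List S) (ε : ℝ), 0 < ε → ∀ᶠ n in atTop,
    (Y.E (n + w.length) fun u => g u * |Fq w n u - Y.z ^ w.length * ρ w|) ≤ ε
  two : ∀ ε : ℝ, 0 < ε → ∃ B : ℝ, 0 < B ∧ ∀ M : ℕ,
    (Y.E M fun u => Y.E M fun v => max 0 (ρ (bar Y u ++ v) - B * (g u * g v))) ≤ ε

/-- the smaller of the chances of a walk attached at the place `i` of `x` to avoid the part of
`x` before `i`, and the part after `i` -/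
noncomputable def mn (Y : Sys S V) (g : List S → ℝ) (x : List S) (i : ℕ) : ℝ :=
  min (g (x.take i)) (g (bar Y (x.drop i)))

end Pool.Agent.Esc
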