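import Pool.Agent.Taw.EndD
import Pool.Agent.Esc.Defs

/-!
# Escape: many good cuts and bounded energies of good words imply a finite bubble diagram
-/

set_option autoImplicit false

namespace Pool.Agent.EscE

open Finset Filter Topology Pool.Agent.Bub4 Pool.Agent.SawM2 Pool.Agent.Taw
open Pool.Agent.Esc (Cc mn)

variable {S V : Type} [Fintype S] [AddCommGroup V] {Y : Sys S V} {K : ℝ} {g : List S → ℝ}

/-- number of the cuts of `x` for which the walk attached to the end of the past and the walk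
attached to the beginning of the future are free with probability at least `c` -/
noncomputable def nc (Y : Sys S V) (g : List S → ℝ) (c : ℝ) (x : List S) : ℝ :=
  ∑ t ∈ range (x.length + 1), ind (c ≤ g (x.take t) ∧ c ≤ g (bar Y (x.drop t)))

/-- most self-avoiding words have many good cuts -/
def CutH (Y : Sys S V) (g : List S → ℝ) : Prop :=
  ∀ ε : ℝ, 0 < ε → ∃ c : ℝ, 0 < c ∧ ∃ n0 : ℕ, ∀ n ≥ n0,
    (Y.E n fun x => Y.sv x * ind (nc Y g c x < c * n)) ≤ ε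

/-- energy of a weight -/
noncomputable def en2 (Y : Sys S V) (p : List S → ℝ) (J : Finset ℕ) : ℝ :=
  Y.L J fun u => Y.L J fun w => p u * p w * dl (Y.sm u - Y.sm w)

theorem en2_eq (Y : Sys S V) (p : List S → ℝ) {J : Finset ℕ} {N : ℕ} (hJ : ∀ j ∈ J, j ≤ N) :
    en2 Y p J = ∑ x ∈ Y.Om N, (Y.L J fun u => p u * dl (Y.sm u - x)) ^ 2 := by
  have e3 : ∀ x ∈ Y.Om N, (Y.L J fun u => p u * dl (Y.sm u - x)) ^ 2 =
      Y.L J fun u => Y.L J fun w => (p u * p w) * (dl (Y.sm u - x) * dl (x - Y.sm w)) := by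
    intro x _
    rw [sq, Sys.L_mul_L]
    refine Y.L_congr fun u _ => Y.L_congr fun w _ => ?_
    rw [dl_sub_comm (Y.sm w) x]
    ring
  rw [Finset.sum_congr rfl e3, ← Sys.L_fsum]
  unfold en2
  refine Y.L_congr fun u hu => ?_
  rw [← Sys.L_fsum]
  refine Y.L_congr fun w _ => ?_
  rw [← Finset.mul_sum]
  congr 1
  exact (Sys.sum_dl_eq (g := fun x => dl (x - Y.sm w)) (Y.mem_Om (hJ _ hu))).symm

theorem gam_gen (Y : Sys S V) (Ω : Finset V) (J : Finset ℕ) {p : List S → ℝ}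
    (hp : ∀ w, 0 ≤ p w) (z : V) :
    ∑ x ∈ Ω, (Y.L J fun w => p w * dl (Y.sm w + z - x)) ^ 2 ≤ en2 Y p J := by
  have h2 : ∀ x, (Y.L J fun w => p w * dl (Y.sm w + z - x)) ^ 2 =
      Y.L J fun u => Y.L J fun w =>
        (p u * p w) * (dl (Y.sm u + z - x) * dl (Y.sm w + z - x)) := by
    intro x
    rw [sq, Sys.L_mul_L]
    exact Y.L_congr fun u _ => Y.L_congr fun w _ => by ring
  simp only [h2]
  rw [← Sys.L_fsum]
  unfold en2
  refine Y.L_mono fun u _ => ?_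
  rw [← Sys.L_fsum]
  refine Y.L_mono fun w _ => ?_
  rw [← Finset.mul_sum]
  refine mul_le_mul_of_nonneg_left ?_ (mul_nonneg (hp u) (hp w))
  refine (Sys.sum_dl_le Ω (Y.sm u + z) (g := fun x => dl (Y.sm w + z - x)) (dl_nonneg _)).trans ?_
  have : Y.sm w + z - (Y.sm u + z) = Y.sm w - Y.sm u := by abel
  show dl (Y.sm w + z - (Y.sm u + z)) ≤ _
  rw [this, dl_sub_comm]

theorem young_gen (Y : Sys S V) (Ω : Finset V) (J1 J2 : Finset ℕ) {h p : List S → ℝ}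
    (hh : ∀ w, 0 ≤ h w) {C : ℝ}
    (hC : ∀ z, ∑ x ∈ Ω, (Y.L J2 fun w => p w * dl (Y.sm w + z - x)) ^ 2 ≤ C) :
    ∑ x ∈ Ω, (Y.L J1 fun u => h u * Y.L J2 fun w => p w * dl (Y.sm w + Y.sm u - x)) ^ 2 ≤
      (Y.L J1 h) ^ 2 * C := by
  have h0 : 0 ≤ Y.L J1 h := Y.L_nonneg hh
  calc _ ≤ ∑ x ∈ Ω, Y.L J1 h * Y.L J1 fun u => h u *
        (Y.L J2 fun w => p w * dl (Y.sm w + Y.sm u - x)) ^ 2 :=
        Finset.sum_le_sum fun x _ => Y.L_cs J1 hh _
    _ = Y.L J1 h * Y.L J1 fun u => h u *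
        ∑ x ∈ Ω, (Y.L J2 fun w => p w * dl (Y.sm w + Y.sm u - x)) ^ 2 := by
        rw [← Finset.mul_sum, ← Sys.L_fsum]
        simp only [Finset.mul_sum]
    _ ≤ Y.L J1 h * Y.L J1 fun u => h u * C := by
        refine mul_le_mul_of_nonneg_left (Y.L_mono fun u _ => ?_) h0
        exact mul_le_mul_of_nonneg_left (hC _) (hh u)
    _ = (Y.L J1 h) ^ 2 * C := by rw [Sys.L_mul_right]; ring

/-- splitting into a part of small mass and the rest -/
theorem rec_gen (Y : Sys S V) {p1 p2 : List S → ℝ} (hp10 : ∀ w, 0 ≤ p1 w) (hp20 : ∀ w, 0 ≤ p2 w)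
    (hsum : ∀ w, Y.sv w = p1 w + p2 w) {η : ℝ} {k : ℕ}
    (hm0 : Y.L (oc (k + 2)) p2 ≤ 2 ^ (k + 2) * η) :
    Y.gb (k + 2) ≤ 2 * en2 Y p1 (oc (k + 2)) +
      8 * η * (Y.gb k + Y.gb (k + 1) + Y.gb (k + 2)) := by
  set J := oc (k + 2) with hJ
  set Ω := Y.Om (2 ^ (k + 3)) with hΩ
  have hsub : ∀ j ∈ J, j ≤ 2 ^ (k + 3) := fun j hj => (Finset.mem_Ico.1 hj).2.le
  have hgb : Y.gb (k + 2) = ∑ x ∈ Ω, (Y.L J fun u => Y.sv u * dl (Y.sm u - x)) ^ 2 := by
    rw [← en2_eq Y Y.sv hsub]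
    unfold Sys.gb en2 Sys.L
    refine Finset.sum_congr rfl fun s _ => ?_
    rw [Sys.E_fsum]
    exact Finset.sum_congr rfl fun t _ => Y.b_eq_sub s t
  have hgd := en2_eq Y p1 hsub
  have hbad : ∑ x ∈ Ω, (Y.L J fun u => p2 u * dl (Y.sm u - x)) ^ 2 ≤
      4 * η * (Y.gb k + Y.gb (k + 1) + Y.gb (k + 2)) := by
    set G := Y.gb k + Y.gb (k + 1) + Y.gb (k + 2) with hG
    have hG0 : 0 ≤ G := by
      have h1 := Y.gb_nonneg k
      have h2 := Y.gb_nonneg (k + 1)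
      have h3 := Y.gb_nonneg (k + 2)
      linarith
    have hs : ∀ x, (Y.L J fun u => p2 u * dl (Y.sm u - x)) ≤ ((2 : ℝ) ^ k)⁻¹ * G := by
      intro x
      refine le_trans (Y.L_mono fun w _ => ?_) (sup_le Y k x)
      refine mul_le_mul_of_nonneg_right ?_ (dl_nonneg _)
      rw [hsum w]
      linarith [hp10 w]
    have hd0 : ∀ x, 0 ≤ Y.L J fun u => p2 u * dl (Y.sm u - x) := fun x =>
      Y.L_nonneg fun w => mul_nonneg (hp20 w) (dl_nonneg _)
    have hm : ∑ x ∈ Ω, (Y.L J fun u => p2 u * dl (Y.sm u - x)) ≤ 2 ^ (k + 2) * η := by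
      refine le_trans ?_ hm0
      rw [← Sys.L_fsum]
      refine Y.L_mono fun w _ => ?_
      have := Sys.sum_dl_le Ω (Y.sm w) (g := fun _ => p2 w) (hp20 w)
      refine le_trans (le_of_eq ?_) this
      exact Finset.sum_congr rfl fun x _ => mul_comm _ _
    calc ∑ x ∈ Ω, (Y.L J fun u => p2 u * dl (Y.sm u - x)) ^ 2 ≤
          ∑ x ∈ Ω, (((2 : ℝ) ^ k)⁻¹ * G) * (Y.L J fun u => p2 u * dl (Y.sm u - x)) := by
          refine Finset.sum_le_sum fun x _ => ?_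
          rw [sq]
          exact mul_le_mul_of_nonneg_right (hs x) (hd0 x)
      _ = (((2 : ℝ) ^ k)⁻¹ * G) * ∑ x ∈ Ω, (Y.L J fun u => p2 u * dl (Y.sm u - x)) := by
          rw [Finset.mul_sum]
      _ ≤ (((2 : ℝ) ^ k)⁻¹ * G) * (2 ^ (k + 2) * η) :=
          mul_le_mul_of_nonneg_left hm (by positivity)
      _ = 4 * η * G := by
          rw [pow_add]
          have h2k : (2 : ℝ) ^ k ≠ 0 := by positivity
          field_simp
          ring
  rw [hgb, hgd] at *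
  have hfin : ∑ x ∈ Ω, (Y.L J fun u => Y.sv u * dl (Y.sm u - x)) ^ 2 ≤
      ∑ x ∈ Ω, (2 * (Y.L J fun u => p1 u * dl (Y.sm u - x)) ^ 2 +
        2 * (Y.L J fun u => p2 u * dl (Y.sm u - x)) ^ 2) := by
    refine Finset.sum_le_sum fun x _ => ?_
    have e1 : (Y.L J fun u => Y.sv u * dl (Y.sm u - x)) =
        (Y.L J fun u => p1 u * dl (Y.sm u - x)) + Y.L J fun u => p2 u * dl (Y.sm u - x) := by
      rw [← Sys.L_fadd]
      refine Y.L_congr fun w _ => ?_
      rw [hsum w]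
      ring
    rw [e1]
    nlinarith [sq_nonneg ((Y.L J fun u => p1 u * dl (Y.sm u - x)) -
      Y.L J fun u => p2 u * dl (Y.sm u - x))]
  rw [Finset.sum_add_distrib, ← Finset.mul_sum, ← Finset.mul_sum] at hfin
  linarith

/-- change of variables `w ↦ bar w` -/
theorem E_bar (Y : Sys S V) (n : ℕ) (F : List S → ℝ) :
    Y.E n (fun w => F (bar Y w)) = Y.E n F := by
  have h1 := Y.E_neg n fun w => F w.reverse
  have h2 := Y.E_reverse n F
  rw [← h2, ← h1]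
  rfl

/-- the weight of the words that are good at the end -/
noncomputable def pe (Y : Sys S V) (g : List S → ℝ) (c : ℝ) (w : List S) : ℝ :=
  Y.sv w * ind (c ≤ g w)

/-- the weight of the words that are good at the start -/
noncomputable def pf (Y : Sys S V) (g : List S → ℝ) (c : ℝ) (w : List S) : ℝ :=
  Y.sv w * ind (c ≤ g (bar Y w))

theorem pe_nonneg (c : ℝ) (w : List S) : 0 ≤ pe Y g c w :=
  mul_nonneg (Y.sv_nonneg w) (ind_nonneg _)

theorem pf_nonneg (c : ℝ) (w : List S) : 0 ≤ pf Y g c w :=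
  mul_nonneg (Y.sv_nonneg w) (ind_nonneg _)

theorem L_pe_le (hK : ∀ n, Y.a n ≤ K) (c : ℝ) (J : Finset ℕ) : Y.L J (pe Y g c) ≤ J.card * K := by
  unfold Sys.L
  rw [← nsmul_eq_mul]
  refine Finset.sum_le_card_nsmul _ _ _ fun j _ => le_trans (Y.E_mono fun w _ => ?_) (hK j)
  exact mul_le_of_le_one_right (Y.sv_nonneg w) (ind_le_one _)

theorem L_pf_le (hK : ∀ n, Y.a n ≤ K) (c : ℝ) (J : Finset ℕ) : Y.L J (pf Y g c) ≤ J.card * K := by
  unfold Sys.L
  rw [← nsmul_eq_mul]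
  refine Finset.sum_le_card_nsmul _ _ _ fun j _ => le_trans (Y.E_mono fun w _ => ?_) (hK j)
  exact mul_le_of_le_one_right (Y.sv_nonneg w) (ind_le_one _)

theorem en2_pe (c : ℝ) (J : Finset ℕ) : en2 Y (pe Y g c) J ≤ L2s Y g c J := by
  unfold en2 L2s Sys.L
  refine Finset.sum_le_sum fun i _ => ?_
  rw [Sys.E_fsum]
  refine Finset.sum_le_sum fun j _ => Y.E_mono fun u _ => Y.E_mono fun w _ => ?_
  refine mul_le_mul_of_nonneg_right ?_ (dl_nonneg _)
  exact mul_le_mul (mul_le_of_le_one_left (ind_nonneg _) (Y.sv_le_one u))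
    (mul_le_of_le_one_left (ind_nonneg _) (Y.sv_le_one w)) (pe_nonneg c w) (ind_nonneg _)

theorem en2_pf (c : ℝ) (J : Finset ℕ) : en2 Y (pf Y g c) J ≤ L2s Y g c J := by
  have h1 : L2s Y g c J = ∑ i ∈ J, ∑ j ∈ J, Y.E i fun u => Y.E j fun v =>
      ind (c ≤ g (bar Y u)) * ind (c ≤ g (bar Y v)) * dl (Y.sm u - Y.sm v) := by
    unfold L2s
    refine Finset.sum_congr rfl fun i _ => Finset.sum_congr rfl fun j _ => ?_
    rw [← E_bar Y i]
    refine Y.E_congr fun u _ => ?_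
    rw [← E_bar Y j]
    refine Y.E_congr fun v _ => ?_
    have e1 : ∀ w : List S, Y.sm (bar Y w) = - Y.sm w := fun w => by
      unfold bar
      rw [Sys.sm_reverse, Sys.sm_neg]
    rw [e1, e1]
    have e2 : - Y.sm u - - Y.sm v = - (Y.sm u - Y.sm v) := by abel
    rw [e2, dl_neg]
  rw [h1]
  unfold en2 Sys.L
  refine Finset.sum_le_sum fun i _ => ?_
  rw [Sys.E_fsum]
  refine Finset.sum_le_sum fun j _ => Y.E_mono fun u _ => Y.E_mono fun w _ => ?_
  refine mul_le_mul_of_nonneg_right ?_ (dl_nonneg _)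
  exact mul_le_mul (mul_le_of_le_one_left (ind_nonneg _) (Y.sv_le_one u))
    (mul_le_of_le_one_left (ind_nonneg _) (Y.sv_le_one w)) (pf_nonneg c w) (ind_nonneg _)

/-- the weight of the words with many good cuts -/
noncomputable def pg (Y : Sys S V) (g : List S → ℝ) (c : ℝ) (w : List S) : ℝ :=
  Y.sv w * ind (c * w.length ≤ nc Y g c w)

theorem pg_nonneg (c : ℝ) (w : List S) : 0 ≤ pg Y g c w :=
  mul_nonneg (Y.sv_nonneg w) (ind_nonneg _)

theorem nc_nonneg (c : ℝ) (w : List S) : 0 ≤ nc Y g c w :=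
  Finset.sum_nonneg fun _ _ => ind_nonneg _

/-- one length: cutting at all places -/
theorem cut_one {c : ℝ} (hc : 0 < c) {b n : ℕ} (hb : 1 ≤ b) (hn : b ≤ n) (x : V) :
    (Y.E n fun w => pg Y g c w * dl (Y.sm w - x)) ≤
      (c * b)⁻¹ * ∑ t ∈ range (n + 1), Y.E t fun u => Y.E (n - t) fun v =>
        pe Y g c u * pf Y g c v * dl (Y.sm u + Y.sm v - x) := by
  have hb0 : (0 : ℝ) < b := by exact_mod_cast hb
  have hcb : 0 < c * b := mul_pos hc hb0
  have h1 : (Y.E n fun w => pg Y g c w * dl (Y.sm w - x)) ≤ Y.E n fun w => (c * b)⁻¹ *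
      ∑ t ∈ range (n + 1), Y.sv w * ind (c ≤ g (w.take t) ∧ c ≤ g (bar Y (w.drop t))) *
        dl (Y.sm w - x) := by
    refine Y.E_mono fun w hw => ?_
    rw [← Finset.sum_mul, ← Finset.mul_sum, ← mul_assoc]
    refine mul_le_mul_of_nonneg_right ?_ (dl_nonneg _)
    have e1 : ∑ t ∈ range (n + 1), ind (c ≤ g (w.take t) ∧ c ≤ g (bar Y (w.drop t))) =
        nc Y g c w := by rw [nc, hw]
    rw [e1]
    unfold pg
    have h2 := Y.sv_nonneg w
    have h3 := nc_nonneg (Y := Y) (g := g) c w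
    by_cases h4 : c * w.length ≤ nc Y g c w
    · rw [ind_of h4, mul_one]
      have h5 : c * b ≤ nc Y g c w := by
        refine le_trans ?_ h4
        rw [hw]
        exact mul_le_mul_of_nonneg_left (by exact_mod_cast hn) hc.le
      have h6 : 1 ≤ (c * b)⁻¹ * nc Y g c w := by
        rw [inv_mul_eq_div, one_le_div hcb]
        exact h5
      calc Y.sv w = Y.sv w * 1 := (mul_one _).symm
        _ ≤ Y.sv w * ((c * b)⁻¹ * nc Y g c w) := mul_le_mul_of_nonneg_left h6 h2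
        _ = _ := by ring
    · rw [ind_not h4, mul_zero]
      positivity
  refine h1.trans ?_
  rw [Sys.E_mul_left, Sys.E_fsum]
  refine mul_le_mul_of_nonneg_left (Finset.sum_le_sum fun t ht => ?_) (by positivity)
  have htn : t ≤ n := by
    rw [Finset.mem_range] at ht
    omega
  have e2 : (Y.E n fun w => Y.sv w * ind (c ≤ g (w.take t) ∧ c ≤ g (bar Y (w.drop t))) *
      dl (Y.sm w - x)) = Y.E (t + (n - t)) fun w => Y.sv w *
      ind (c ≤ g (w.take t) ∧ c ≤ g (bar Y (w.drop t))) * dl (Y.sm w - x) := by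
    rw [Nat.add_sub_cancel' htn]
  rw [e2, Sys.E_add]
  refine Y.E_mono fun u hu => Y.E_mono fun v _ => ?_
  rw [List.take_left' hu, List.drop_left' hu, Sys.sm_append, ind_and]
  refine mul_le_mul_of_nonneg_right ?_ (dl_nonneg _)
  have h3 := mul_le_mul_of_nonneg_right (Y.sv_append_le u v)
    (mul_nonneg (ind_nonneg (c ≤ g u)) (ind_nonneg (c ≤ g (bar Y v))))
  refine h3.trans (le_of_eq ?_)
  unfold pe pf
  ring

/-- pairs of lengths -/
theorem pairs_sum (k : ℕ) {φ : ℕ → ℕ → ℝ} (hφ : ∀ s t, 0 ≤ φ s t) :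
    ∑ n ∈ oc (k + 1), ∑ t ∈ range (n + 1), φ t (n - t) ≤
      ∑ t ∈ range (2 ^ (k + 2)), ∑ s ∈ Ico (2 ^ k) (2 ^ (k + 2)), φ t s +
      ∑ t ∈ Ico (2 ^ k) (2 ^ (k + 2)), ∑ s ∈ range (2 ^ (k + 2)), φ t s := by
  have h1 : ∀ n, ∑ t ∈ range (n + 1), φ t (n - t) = ∑ p ∈ antidiagonal n, φ p.1 p.2 := fun n =>
    (Finset.Nat.sum_antidiagonal_eq_sum_range_succ φ n).symm
  simp only [h1]
  have hdis : ((oc (k + 1) : Finset ℕ) : Set ℕ).PairwiseDisjoint
      (fun n => antidiagonal n) := by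
    intro a _ b _ hab
    rw [Function.onFun, Finset.disjoint_left]
    intro p hp hp'
    rw [Finset.HasAntidiagonal.mem_antidiagonal] at hp hp'
    exact hab (hp.symm.trans hp')
  rw [← Finset.sum_biUnion hdis]
  set J1 := Ico (2 ^ k) (2 ^ (k + 2)) with hJ1
  set J2 := range (2 ^ (k + 2)) with hJ2
  have e1 : ∑ t ∈ J2, ∑ s ∈ J1, φ t s = ∑ p ∈ J2 ×ˢ J1, φ p.1 p.2 :=
    (Finset.sum_product J2 J1 fun p => φ p.1 p.2).symm
  have e2 : ∑ t ∈ J1, ∑ s ∈ J2, φ t s = ∑ p ∈ J1 ×ˢ J2, φ p.1 p.2 :=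
    (Finset.sum_product J1 J2 fun p => φ p.1 p.2).symm
  rw [e1, e2, ← Finset.sum_union_inter]
  have h2 : 0 ≤ ∑ p ∈ J2 ×ˢ J1 ∩ J1 ×ˢ J2, φ p.1 p.2 := Finset.sum_nonneg fun p _ => hφ _ _
  refine le_trans (Finset.sum_le_sum_of_subset_of_nonneg ?_ fun p _ _ => hφ _ _)
    (le_add_of_nonneg_right h2)
  intro p hp
  rw [Finset.mem_biUnion] at hp
  obtain ⟨n, hn, hp⟩ := hp
  rw [Finset.HasAntidiagonal.mem_antidiagonal] at hp
  rw [oc, Finset.mem_Ico] at hn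
  have h3 : 2 ^ (k + 1) = 2 * 2 ^ k := by ring
  have h4 : 2 ^ (k + 1 + 1) = 4 * 2 ^ k := by ring
  have h5 : 2 ^ (k + 2) = 4 * 2 ^ k := by ring
  rw [Finset.mem_union, Finset.mem_product, Finset.mem_product, hJ1, hJ2, Finset.mem_Ico,
    Finset.mem_Ico, Finset.mem_range, Finset.mem_range]
  omega

/-- energy of the words with many good cuts -/
theorem good_en (hK : ∀ n, Y.a n ≤ K) {c : ℝ} (hc : 0 < c) (k : ℕ) :
    en2 Y (pg Y g c) (oc (k + 1)) ≤
      16 * K ^ 2 / c ^ 2 * L2s Y g c (Ico (2 ^ k) (2 ^ (k + 2))) := by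
  set J1 := Ico (2 ^ k) (2 ^ (k + 2)) with hJ1
  set J2 := range (2 ^ (k + 2)) with hJ2
  set Ω := Y.Om (2 ^ (k + 2)) with hΩ
  have hK0 : 0 ≤ K := (Y.a_nonneg 0).trans (hK 0)
  have hsub : ∀ j ∈ oc (k + 1), j ≤ 2 ^ (k + 2) := fun j hj => (Finset.mem_Ico.1 hj).2.le
  rw [en2_eq Y (pg Y g c) hsub]
  set A : V → ℝ := fun x => Y.L J2 fun u => pe Y g c u *
    Y.L J1 fun v => pf Y g c v * dl (Y.sm v + Y.sm u - x) with hA
  set B : V → ℝ := fun x => Y.L J2 fun v => pf Y g c v *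
    Y.L J1 fun u => pe Y g c u * dl (Y.sm u + Y.sm v - x) with hB
  have h2k : (0 : ℝ) < 2 ^ k := by positivity
  have hpt : ∀ x, (Y.L (oc (k + 1)) fun w => pg Y g c w * dl (Y.sm w - x)) ≤
      (c * (2 * 2 ^ k))⁻¹ * (A x + B x) := by
    intro x
    have h1 : ∀ n ∈ oc (k + 1), (Y.E n fun w => pg Y g c w * dl (Y.sm w - x)) ≤
        (c * (2 * 2 ^ k))⁻¹ * ∑ t ∈ range (n + 1), Y.E t fun u => Y.E (n - t) fun v =>
          pe Y g c u * pf Y g c v * dl (Y.sm u + Y.sm v - x) := by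
      intro n hn
      have h2 := cut_one (Y := Y) (g := g) hc (b := 2 ^ (k + 1)) (n := n) Nat.one_le_two_pow
        (Finset.mem_Ico.1 hn).1 x
      have e1 : (((2 ^ (k + 1) : ℕ) : ℝ)) = 2 * 2 ^ k := by push_cast; ring
      rw [e1] at h2
      exact h2
    have h3 : (Y.L (oc (k + 1)) fun w => pg Y g c w * dl (Y.sm w - x)) ≤
        (c * (2 * 2 ^ k))⁻¹ * ∑ n ∈ oc (k + 1), ∑ t ∈ range (n + 1),
          Y.E t fun u => Y.E (n - t) fun v =>
          pe Y g c u * pf Y g c v * dl (Y.sm u + Y.sm v - x) := by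
      unfold Sys.L
      rw [Finset.mul_sum]
      exact Finset.sum_le_sum h1
    refine h3.trans (mul_le_mul_of_nonneg_left ?_ (by positivity))
    refine (pairs_sum k (φ := fun t s => Y.E t fun u => Y.E s fun v =>
      pe Y g c u * pf Y g c v * dl (Y.sm u + Y.sm v - x)) fun s t => Y.E_nonneg' fun u =>
      Y.E_nonneg' fun v => mul_nonneg (mul_nonneg (pe_nonneg c u) (pf_nonneg c v))
        (dl_nonneg _)).trans (le_of_eq ?_)
    congr 1
    · rw [hA]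
      simp only [Sys.L]
      refine Finset.sum_congr rfl fun t _ => ?_
      have e1 : ∀ u : List S, (pe Y g c u * ∑ j ∈ J1, Y.E j fun v =>
          pf Y g c v * dl (Y.sm v + Y.sm u - x)) = ∑ j ∈ J1, Y.E j fun v =>
          pe Y g c u * pf Y g c v * dl (Y.sm u + Y.sm v - x) := by
        intro u
        rw [Finset.mul_sum]
        refine Finset.sum_congr rfl fun j _ => ?_
        rw [← Sys.E_mul_left]
        refine Y.E_congr fun v _ => ?_
        rw [add_comm (Y.sm v) (Y.sm u)]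
        ring
      simp only [e1]
      rw [Sys.E_fsum]
    · rw [hB]
      simp only [Sys.L]
      rw [Finset.sum_comm]
      refine Finset.sum_congr rfl fun s _ => ?_
      have e1 : ∀ v : List S, (pf Y g c v * ∑ j ∈ J1, Y.E j fun u =>
          pe Y g c u * dl (Y.sm u + Y.sm v - x)) = ∑ j ∈ J1, Y.E j fun u =>
          pe Y g c u * pf Y g c v * dl (Y.sm u + Y.sm v - x) := by
        intro v
        rw [Finset.mul_sum]
        refine Finset.sum_congr rfl fun j _ => ?_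
        rw [← Sys.E_mul_left]
        refine Y.E_congr fun u _ => ?_
        ring
      simp only [e1]
      rw [Sys.E_fsum]
      exact Finset.sum_congr rfl fun j _ => Y.E_comm _ _ _
  set E1 := L2s Y g c J1 with hE1
  have hcard : ((J2.card : ℕ) : ℝ) = 4 * 2 ^ k := by
    rw [hJ2, Finset.card_range]
    push_cast
    ring
  have hYA : ∑ x ∈ Ω, A x ^ 2 ≤ (4 * 2 ^ k * K) ^ 2 * E1 := by
    have h1 := young_gen Y Ω J2 J1 (h := pe Y g c) (p := pf Y g c) (pe_nonneg c) (C := E1)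
      fun z => (gam_gen Y Ω J1 (pf_nonneg c) z).trans (en2_pf c J1)
    refine h1.trans ?_
    have h2 : Y.L J2 (pe Y g c) ≤ 4 * 2 ^ k * K := by
      rw [← hcard]
      exact L_pe_le hK c J2
    have h3 : 0 ≤ Y.L J2 (pe Y g c) := Y.L_nonneg (pe_nonneg c)
    have h4 : 0 ≤ E1 := by
      refine le_trans ?_ (en2_pf c J1)
      exact Y.L_nonneg fun u => Y.L_nonneg fun w =>
        mul_nonneg (mul_nonneg (pf_nonneg c u) (pf_nonneg c w)) (dl_nonneg _)
    exact mul_le_mul_of_nonneg_right (pow_le_pow_left₀ h3 h2 2) h4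
  have hYB : ∑ x ∈ Ω, B x ^ 2 ≤ (4 * 2 ^ k * K) ^ 2 * E1 := by
    have h1 := young_gen Y Ω J2 J1 (h := pf Y g c) (p := pe Y g c) (pf_nonneg c) (C := E1)
      fun z => (gam_gen Y Ω J1 (pe_nonneg c) z).trans (en2_pe c J1)
    refine h1.trans ?_
    have h2 : Y.L J2 (pf Y g c) ≤ 4 * 2 ^ k * K := by
      rw [← hcard]
      exact L_pf_le hK c J2
    have h3 : 0 ≤ Y.L J2 (pf Y g c) := Y.L_nonneg (pf_nonneg c)
    have h4 : 0 ≤ E1 := by
      refine le_trans ?_ (en2_pf c J1)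
      exact Y.L_nonneg fun u => Y.L_nonneg fun w =>
        mul_nonneg (mul_nonneg (pf_nonneg c u) (pf_nonneg c w)) (dl_nonneg _)
    exact mul_le_mul_of_nonneg_right (pow_le_pow_left₀ h3 h2 2) h4
  have hD0 : ∀ x, 0 ≤ Y.L (oc (k + 1)) fun w => pg Y g c w * dl (Y.sm w - x) := fun x =>
    Y.L_nonneg fun w => mul_nonneg (pg_nonneg c w) (dl_nonneg _)
  have hfin : ∑ x ∈ Ω, (Y.L (oc (k + 1)) fun w => pg Y g c w * dl (Y.sm w - x)) ^ 2 ≤
      ((c * (2 * 2 ^ k))⁻¹) ^ 2 * ∑ x ∈ Ω, (2 * A x ^ 2 + 2 * B x ^ 2) := by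
    rw [Finset.mul_sum]
    refine Finset.sum_le_sum fun x _ => ?_
    refine (pow_le_pow_left₀ (hD0 x) (hpt x) 2).trans ?_
    rw [mul_pow]
    refine mul_le_mul_of_nonneg_left ?_ (sq_nonneg _)
    nlinarith [sq_nonneg (A x - B x)]
  refine hfin.trans ?_
  rw [Finset.sum_add_distrib, ← Finset.mul_sum, ← Finset.mul_sum]
  have h5 : 2 * ∑ x ∈ Ω, A x ^ 2 + 2 * ∑ x ∈ Ω, B x ^ 2 ≤ 4 * ((4 * 2 ^ k * K) ^ 2 * E1) := by
    linarith
  refine (mul_le_mul_of_nonneg_left h5 (sq_nonneg _)).trans (le_of_eq ?_)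
  field_simp
  ring

theorem L2s_nonneg (c : ℝ) (J : Finset ℕ) : 0 ≤ L2s Y g c J :=
  Finset.sum_nonneg fun _ _ => Finset.sum_nonneg fun _ _ => Y.E_nonneg' fun _ =>
    Y.E_nonneg' fun _ => mul_nonneg (mul_nonneg (ind_nonneg _) (ind_nonneg _)) (dl_nonneg _)

theorem L2s_add (c : ℝ) {a b : ℕ} (hab : a ≤ b) :
    L2s Y g c (range a) + L2s Y g c (Ico a b) ≤ L2s Y g c (range b) := by
  set f : ℕ → ℕ → ℝ := fun i j => Y.E i fun u => Y.E j fun v =>
    ind (c ≤ g u) * ind (c ≤ g v) * dl (Y.sm u - Y.sm v) with hf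
  have hf0 : ∀ i j, 0 ≤ f i j := fun i j => Y.E_nonneg' fun u => Y.E_nonneg' fun v =>
    mul_nonneg (mul_nonneg (ind_nonneg _) (ind_nonneg _)) (dl_nonneg _)
  have h1 : ∀ h : ℕ → ℝ, ∑ i ∈ range b, h i = ∑ i ∈ range a, h i + ∑ i ∈ Ico a b, h i :=
    fun h => (Finset.sum_range_add_sum_Ico h hab).symm
  have h2 : ∑ i ∈ range a, ∑ j ∈ range a, f i j ≤ ∑ i ∈ range a, ∑ j ∈ range b, f i j := by
    refine Finset.sum_le_sum fun i _ => ?_
    rw [h1]
    exact le_add_of_nonneg_right (Finset.sum_nonneg fun j _ => hf0 i j)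
  have h3 : ∑ i ∈ Ico a b, ∑ j ∈ Ico a b, f i j ≤ ∑ i ∈ Ico a b, ∑ j ∈ range b, f i j := by
    refine Finset.sum_le_sum fun i _ => ?_
    rw [h1]
    exact le_add_of_nonneg_left (Finset.sum_nonneg fun j _ => hf0 i j)
  have h4 : ∑ i ∈ range b, ∑ j ∈ range b, f i j = ∑ i ∈ range a, ∑ j ∈ range b, f i j +
      ∑ i ∈ Ico a b, ∑ j ∈ range b, f i j := h1 _
  show ∑ i ∈ range a, ∑ j ∈ range a, f i j + ∑ i ∈ Ico a b, ∑ j ∈ Ico a b, f i j ≤
    ∑ i ∈ range b, ∑ j ∈ range b, f i j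
  linarith

theorem L2s_mono (c : ℝ) {I J : Finset ℕ} (hIJ : I ⊆ J) : L2s Y g c I ≤ L2s Y g c J := by
  have hf0 : ∀ i j, 0 ≤ Y.E i fun u => Y.E j fun v =>
      ind (c ≤ g u) * ind (c ≤ g v) * dl (Y.sm u - Y.sm v) := fun i j =>
    Y.E_nonneg' fun u => Y.E_nonneg' fun v =>
      mul_nonneg (mul_nonneg (ind_nonneg _) (ind_nonneg _)) (dl_nonneg _)
  unfold L2s
  refine (Finset.sum_le_sum fun i _ => Finset.sum_le_sum_of_subset_of_nonneg hIJ
    fun j _ _ => hf0 i j).trans ?_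
  exact Finset.sum_le_sum_of_subset_of_nonneg hIJ fun i _ _ =>
    Finset.sum_nonneg fun j _ => hf0 i j

/-- the energies of the dyadic blocks have a bounded sum -/
theorem L2s_blocks {c C : ℝ} (hC : ∀ N : ℕ, L2s Y g c (range N) ≤ C) (n : ℕ) :
    ∑ k ∈ range n, L2s Y g c (Ico (2 ^ k) (2 ^ (k + 2))) ≤ 2 * C := by
  have key : ∀ n, ∑ k ∈ range n, L2s Y g c (Ico (2 ^ k) (2 ^ (k + 2))) ≤
      L2s Y g c (range (2 ^ n)) + L2s Y g c (range (2 ^ (n + 1))) := by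
    intro n
    induction n with
    | zero =>
      rw [Finset.sum_range_zero]
      exact add_nonneg (L2s_nonneg _ _) (L2s_nonneg _ _)
    | succ n ih =>
      rw [Finset.sum_range_succ]
      have h1 := L2s_add (Y := Y) (g := g) c (a := 2 ^ n) (b := 2 ^ (n + 2))
        (Nat.pow_le_pow_right (by norm_num) (by omega))
      have h2 : 2 ^ (n + 1 + 1) = 2 ^ (n + 2) := rfl
      rw [h2]
      linarith
  have h1 := key n
  have h2 := hC (2 ^ n)
  have h3 := hC (2 ^ (n + 1))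
  linarith

/-- absorption -/
theorem gb_bdd (hK : ∀ n, Y.a n ≤ K) (hL : HL2 Y g) (hcut : CutH Y g) :
    ∃ C : ℝ, ∀ n : ℕ, ∑ k ∈ range n, Y.gb k ≤ C := by
  obtain ⟨c, hc, n0, hn0⟩ := hcut (1 / 48) (by norm_num)
  obtain ⟨C1, hC1⟩ := hL c hc
  set D : ℝ := 16 * K ^ 2 / c ^ 2 with hD
  have hD0 : 0 ≤ D := by positivity
  have hC10 : 0 ≤ C1 := (L2s_nonneg c (range 0)).trans (hC1 0)
  have hrec : ∀ k, n0 ≤ k → Y.gb (k + 2) ≤
      2 * (D * L2s Y g c (Ico (2 ^ (k + 1)) (2 ^ (k + 1 + 2)))) +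
      8 * (1 / 48) * (Y.gb k + Y.gb (k + 1) + Y.gb (k + 2)) := by
    intro k hk
    set p2 : List S → ℝ := fun w => Y.sv w * ind (nc Y g c w < c * w.length) with hp2
    have h1 : Y.L (oc (k + 2)) p2 ≤ 2 ^ (k + 2) * (1 / 48) := by
      unfold Sys.L
      have h2 : ∀ n ∈ oc (k + 2), Y.E n p2 ≤ 1 / 48 := by
        intro n hn
        have h3 : n0 ≤ n := by
          have h4 := (Finset.mem_Ico.1 hn).1
          have h5 : k < 2 ^ k := Nat.lt_two_pow_self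
          have h6 : 2 ^ k ≤ 2 ^ (k + 2) := Nat.pow_le_pow_right (by norm_num) (by omega)
          omega
        refine le_trans (le_of_eq (Y.E_congr fun w hw => ?_)) (hn0 n h3)
        rw [hp2]
        simp only [hw]
      refine (Finset.sum_le_sum h2).trans (le_of_eq ?_)
      rw [Finset.sum_const, nsmul_eq_mul, oc, Nat.card_Ico, pow_succ]
      have : 2 ^ (k + 2) * 2 - 2 ^ (k + 2) = 2 ^ (k + 2) := by omega
      rw [this]
      push_cast
      rfl
    have h2 := rec_gen Y (p1 := pg Y g c) (p2 := p2) (pg_nonneg c)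
      (fun w => mul_nonneg (Y.sv_nonneg w) (ind_nonneg _)) (fun w => by
        rw [hp2]
        show Y.sv w = Y.sv w * ind (c * w.length ≤ nc Y g c w) +
          Y.sv w * ind (nc Y g c w < c * w.length)
        rw [ind_congr (not_le (a := c * (w.length : ℝ)) (b := nc Y g c w)).symm, ind_compl]
        ring) h1
    have h3 := good_en (Y := Y) (g := g) hK hc (k + 1)
    have h4 : en2 Y (pg Y g c) (oc (k + 2)) ≤
      D * L2s Y g c (Ico (2 ^ (k + 1)) (2 ^ (k + 1 + 2))) := h3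
    linarith
  set A := ∑ k ∈ range (n0 + 2), Y.gb k with hA
  have hA0 : 0 ≤ A := Finset.sum_nonneg fun k _ => Y.gb_nonneg k
  have hDC : 0 ≤ D * C1 := mul_nonneg hD0 hC10
  refine ⟨3 * A + 8 * (D * C1), fun n => ?_⟩
  rcases Nat.lt_or_ge n (n0 + 2) with hn | hn
  · have : ∑ k ∈ range n, Y.gb k ≤ A :=
      Finset.sum_le_sum_of_subset_of_nonneg (Finset.range_mono hn.le) fun k _ _ => Y.gb_nonneg k
    linarith
  · obtain ⟨m, rfl⟩ : ∃ m, n = m + 2 := ⟨n - 2, by omega⟩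
    set T := ∑ k ∈ range (m + 2), Y.gb k with hT
    have hsplit : T = A + ∑ k ∈ Ico n0 m, Y.gb (k + 2) := by
      rw [hT, hA, ← Finset.sum_range_add_sum_Ico _ hn]
      congr 1
      rw [Finset.sum_Ico_add' (fun k => Y.gb k) n0 m 2]
    have h1 : ∑ k ∈ Ico n0 m, Y.gb (k + 2) ≤ ∑ k ∈ Ico n0 m,
        (2 * (D * L2s Y g c (Ico (2 ^ (k + 1)) (2 ^ (k + 1 + 2)))) +
        8 * (1 / 48) * (Y.gb k + Y.gb (k + 1) + Y.gb (k + 2))) :=
      Finset.sum_le_sum fun k hk => hrec k (Finset.mem_Ico.1 hk).1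
    have h2 : ∑ k ∈ Ico n0 m, L2s Y g c (Ico (2 ^ (k + 1)) (2 ^ (k + 1 + 2))) ≤ 2 * C1 := by
      have e1 : ∑ k ∈ Ico n0 m, L2s Y g c (Ico (2 ^ (k + 1)) (2 ^ (k + 1 + 2))) =
          ∑ k ∈ Ico (n0 + 1) (m + 1), L2s Y g c (Ico (2 ^ k) (2 ^ (k + 2))) :=
        Finset.sum_Ico_add' (fun k => L2s Y g c (Ico (2 ^ k) (2 ^ (k + 2)))) n0 m 1
      rw [e1]
      refine le_trans (Finset.sum_le_sum_of_subset_of_nonneg ?_ fun k _ _ => L2s_nonneg c _)
        (L2s_blocks hC1 (m + 1))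
      intro k hk
      rw [Finset.mem_Ico] at hk
      rw [Finset.mem_range]
      exact hk.2
    have hsh : ∀ i, i ≤ 2 → ∑ k ∈ Ico n0 m, Y.gb (k + i) ≤ T := by
      intro i hi
      rw [Finset.sum_Ico_add' (fun k => Y.gb k) n0 m i]
      refine Finset.sum_le_sum_of_subset_of_nonneg ?_ fun k _ _ => Y.gb_nonneg k
      intro k hk
      rw [Finset.mem_Ico] at hk
      rw [Finset.mem_range]
      omega
    have e0 := hsh 0 (by omega)
    have e1 := hsh 1 (by omega)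
    have e2 := hsh 2 (by omega)
    simp only [add_zero] at e0
    rw [Finset.sum_add_distrib, ← Finset.mul_sum, ← Finset.mul_sum, ← Finset.mul_sum,
      Finset.sum_add_distrib, Finset.sum_add_distrib] at h1
    have h3 := mul_le_mul_of_nonneg_left h2 hD0
    linarith

theorem cross_gen (hK : ∀ n, Y.a n ≤ K) (j k : ℕ) :
    ∑ s ∈ oc j, ∑ t ∈ oc (k + 2), Y.b s t ≤
      K * 2 ^ j * (((2 : ℝ) ^ k)⁻¹ * (Y.gb k + Y.gb (k + 1) + Y.gb (k + 2))) := by
  set G := ((2 : ℝ) ^ k)⁻¹ * (Y.gb k + Y.gb (k + 1) + Y.gb (k + 2)) with hG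
  have hG0 : 0 ≤ G := by
    have h1 := Y.gb_nonneg k
    have h2 := Y.gb_nonneg (k + 1)
    have h3 := Y.gb_nonneg (k + 2)
    positivity
  have h1 : ∀ s ∈ oc j, ∑ t ∈ oc (k + 2), Y.b s t ≤ K * G := by
    intro s _
    have e1 : ∑ t ∈ oc (k + 2), Y.b s t = Y.E s fun u => Y.sv u *
        ∑ t ∈ oc (k + 2), (Y.E t fun w => Y.sv w * dl (Y.sm w - Y.sm u)) := by
      simp only [Finset.mul_sum, Sys.E_fsum]
      refine Finset.sum_congr rfl fun t _ => ?_
      rw [Y.b_eq_sub]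
      refine Y.E_congr fun u _ => ?_
      rw [← Sys.E_mul_left]
      refine Y.E_congr fun w _ => ?_
      rw [dl_sub_comm]
      ring
    rw [e1]
    calc (Y.E s fun u => Y.sv u *
          ∑ t ∈ oc (k + 2), (Y.E t fun w => Y.sv w * dl (Y.sm w - Y.sm u))) ≤
          Y.E s fun u => Y.sv u * G :=
          Y.E_mono fun u _ => mul_le_mul_of_nonneg_left (sup_le Y k (Y.sm u)) (Y.sv_nonneg u)
      _ = Y.a s * G := by rw [Sys.E_mul_right]; rfl
      _ ≤ K * G := mul_le_mul_of_nonneg_right (hK s) hG0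
  refine (Finset.sum_le_sum h1).trans (le_of_eq ?_)
  rw [Finset.sum_const, nsmul_eq_mul, oc, Nat.card_Ico, pow_succ]
  have : 2 ^ j * 2 - 2 ^ j = 2 ^ j := by omega
  rw [this]
  push_cast
  ring

theorem sum_oc (f : ℕ → ℝ) (n : ℕ) :
    ∑ s ∈ range (2 ^ n), f s = f 0 + ∑ j ∈ range n, ∑ s ∈ oc j, f s := by
  induction n with
  | zero => simp
  | succ n ih =>
    rw [Finset.sum_range_succ, ← add_assoc, ← ih]
    exact (Finset.sum_range_add_sum_Ico f (Nat.pow_le_pow_right (by norm_num) (by omega))).symm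

theorem b_zero (Y : Sys S V) {t : ℕ} (ht : 1 ≤ t) : Y.b 0 t = 0 := by
  unfold Sys.b
  rw [Sys.E_zero]
  rw [show (0 : ℝ) = Y.E t (fun _ => 0) from (Y.E_zero_fun t).symm]
  refine Y.E_congr fun w hw => ?_
  by_cases hs : Y.Saw w
  · have h1 : Y.sm w ≠ 0 := hs w List.infix_rfl (by rintro rfl; simp at hw; omega)
    rw [Sys.sm_nil, zero_add, dl_of_ne h1, mul_zero]
  · rw [Y.sv_of_not hs]
    simp

/-- many good cuts and bounded energies of the good words: the bubble diagram is finite -/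
theorem esc_end (h1 : ∀ n, 1 ≤ Y.a n) (hK : ∀ n, Y.a n ≤ K) (hL : HL2 Y g) (hcut : CutH Y g) :
    ∃ C : ℝ, ∀ N : ℕ, ∑ s ∈ range N, ∑ t ∈ range N, Y.b s t ≤ C := by
  obtain ⟨C, hC⟩ := gb_bdd hK hL hcut
  have hK1 : 1 ≤ K := (h1 0).trans (hK 0)
  set S0 : ℕ → ℝ := fun n => ∑ s ∈ range (2 ^ n), ∑ t ∈ range (2 ^ n), Y.b s t with hS0
  have hcr : ∀ k, ∑ s ∈ range (2 ^ (k + 2)), ∑ t ∈ oc (k + 2), Y.b s t ≤
      4 * K * (Y.gb k + Y.gb (k + 1) + Y.gb (k + 2)) := by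
    intro k
    rw [sum_oc (fun s => ∑ t ∈ oc (k + 2), Y.b s t) (k + 2)]
    have h0 : ∑ t ∈ oc (k + 2), Y.b 0 t = 0 := by
      refine Finset.sum_eq_zero fun t ht => b_zero Y ?_
      have h1 := (Finset.mem_Ico.1 ht).1
      have h2 : 1 ≤ 2 ^ (k + 2) := Nat.one_le_two_pow
      omega
    rw [h0, zero_add]
    have hG : 0 ≤ Y.gb k + Y.gb (k + 1) + Y.gb (k + 2) := by
      have h1 := Y.gb_nonneg k
      have h2 := Y.gb_nonneg (k + 1)
      have h3 := Y.gb_nonneg (k + 2)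
      linarith
    refine (Finset.sum_le_sum fun j _ => cross_gen hK j k).trans ?_
    rw [← Finset.sum_mul, ← Finset.mul_sum]
    have hg : ∑ j ∈ range (k + 2), (2 : ℝ) ^ j ≤ 2 ^ (k + 2) := by
      rw [geom_sum_eq (by norm_num)]
      norm_num
    have h2k : (0 : ℝ) < 2 ^ k := by positivity
    calc K * (∑ j ∈ range (k + 2), (2 : ℝ) ^ j) *
          (((2 : ℝ) ^ k)⁻¹ * (Y.gb k + Y.gb (k + 1) + Y.gb (k + 2))) ≤
          K * 2 ^ (k + 2) * (((2 : ℝ) ^ k)⁻¹ * (Y.gb k + Y.gb (k + 1) + Y.gb (k + 2))) := by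
          gcongr
      _ = 4 * K * (Y.gb k + Y.gb (k + 1) + Y.gb (k + 2)) := by
          rw [pow_add]
          field_simp
          ring
  have hstep : ∀ k, S0 (k + 3) ≤ S0 (k + 2) +
      (8 * K + 1) * (Y.gb k + Y.gb (k + 1) + Y.gb (k + 2)) := by
    intro k
    have hle : 2 ^ (k + 2) ≤ 2 ^ (k + 3) := Nat.pow_le_pow_right (by norm_num) (by omega)
    have e1 : ∀ f : ℕ → ℝ, ∑ s ∈ range (2 ^ (k + 3)), f s =
        ∑ s ∈ range (2 ^ (k + 2)), f s + ∑ s ∈ oc (k + 2), f s := fun f =>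
      (Finset.sum_range_add_sum_Ico f hle).symm
    have e2 : S0 (k + 3) = S0 (k + 2) + (∑ s ∈ range (2 ^ (k + 2)), ∑ t ∈ oc (k + 2), Y.b s t) +
        (∑ s ∈ oc (k + 2), ∑ t ∈ range (2 ^ (k + 2)), Y.b s t) + Y.gb (k + 2) := by
      simp only [hS0, e1, Finset.sum_add_distrib]
      have : ∑ s ∈ oc (k + 2), ∑ t ∈ oc (k + 2), Y.b s t = Y.gb (k + 2) := rfl
      rw [this]
      ring
    have e3 : (∑ s ∈ oc (k + 2), ∑ t ∈ range (2 ^ (k + 2)), Y.b s t) =
        ∑ s ∈ range (2 ^ (k + 2)), ∑ t ∈ oc (k + 2), Y.b s t := by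
      rw [Finset.sum_comm]
      exact Finset.sum_congr rfl fun s _ => Finset.sum_congr rfl fun t _ => Y.b_comm _ _
    rw [e3] at e2
    have h1 := hcr k
    have g0 := Y.gb_nonneg k
    have g1 := Y.gb_nonneg (k + 1)
    nlinarith
  have hall : ∀ k, S0 (k + 2) ≤ S0 2 +
      (8 * K + 1) * (∑ i ∈ range k, (Y.gb i + Y.gb (i + 1) + Y.gb (i + 2))) := by
    intro k
    induction k with
    | zero => simp
    | succ k ih =>
      rw [Finset.sum_range_succ, mul_add]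
      have h1 := hstep k
      have : S0 (k + 1 + 2) = S0 (k + 3) := rfl
      rw [this]
      linarith
  have hsh : ∀ i k, ∑ j ∈ range k, Y.gb (j + i) ≤ C := by
    intro i k
    rw [Finset.range_eq_Ico, Finset.sum_Ico_add' (fun j => Y.gb j) 0 k i]
    refine le_trans ?_ (hC (k + i))
    refine Finset.sum_le_sum_of_subset_of_nonneg ?_ fun j _ _ => Y.gb_nonneg j
    intro j hj
    rw [Finset.mem_Ico] at hj
    rw [Finset.mem_range]
    omega
  refine ⟨S0 2 + (8 * K + 1) * (C + C + C), fun N => ?_⟩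
  have hN : N ≤ 2 ^ (N + 2) := by
    have h1 : N < 2 ^ N := Nat.lt_two_pow_self
    have h2 : 2 ^ N ≤ 2 ^ (N + 2) := Nat.pow_le_pow_right (by norm_num) (by omega)
    omega
  have h1 : ∑ s ∈ range N, ∑ t ∈ range N, Y.b s t ≤ S0 (N + 2) := by
    refine (Finset.sum_le_sum fun s _ => Finset.sum_le_sum_of_subset_of_nonneg
      (Finset.range_mono hN) fun t _ _ => Y.b_nonneg s t).trans ?_
    exact Finset.sum_le_sum_of_subset_of_nonneg (Finset.range_mono hN) fun s _ _ =>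
      Finset.sum_nonneg fun t _ => Y.b_nonneg s t
  refine h1.trans ((hall N).trans ?_)
  have h2 : ∑ i ∈ range N, (Y.gb i + Y.gb (i + 1) + Y.gb (i + 2)) ≤ C + C + C := by
    rw [Finset.sum_add_distrib, Finset.sum_add_distrib]
    have a0 := hsh 0 N
    have a1 := hsh 1 N
    have a2 := hsh 2 N
    simp only [add_zero] at a0
    linarith
  have h3 : 0 ≤ 8 * K + 1 := by linarith
  have := mul_le_mul_of_nonneg_left h2 h3
  linarith

theorem cutH_of (h : Cc Y K g)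
    (hb : ∀ η : ℝ, 0 < η → ∃ c : ℝ, 0 < c ∧ ∀ n : ℕ,
      (Y.E n fun x => Y.sv x * ind (∑ i ∈ range (n + 1), mn Y g x i ≤ c * (n + 1))) ≤ η) :
    CutH Y g := by
  intro ε hε
  obtain ⟨c, hc, hn⟩ := hb ε hε
  refine ⟨c / 2, half_pos hc, 0, fun n _ => le_trans (Y.E_mono fun x hx => ?_) (hn n)⟩
  refine mul_le_mul_of_nonneg_left (ind_mono fun h1 => ?_) (Y.sv_nonneg x)
  have h2 : ∀ i, mn Y g x i ≤
      ind (c / 2 ≤ g (x.take i) ∧ c / 2 ≤ g (bar Y (x.drop i))) + c / 2 := by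
    intro i
    unfold mn
    by_cases h3 : c / 2 ≤ g (x.take i) ∧ c / 2 ≤ g (bar Y (x.drop i))
    · rw [ind_of h3]
      have h4 : g (x.take i) ≤ 1 := (h.le_sv _).trans (Y.sv_le_one _)
      have h5 := min_le_left (g (x.take i)) (g (bar Y (x.drop i)))
      linarith
    · rw [ind_not h3, zero_add, min_le_iff]
      by_contra h4
      push Not at h4
      exact h3 ⟨h4.1.le, h4.2.le⟩
  have h3 : ∑ i ∈ range (n + 1), mn Y g x i ≤ nc Y g (c / 2) x + (n + 1) * (c / 2) := by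
    refine (Finset.sum_le_sum fun i _ => h2 i).trans (le_of_eq ?_)
    rw [Finset.sum_add_distrib, Finset.sum_const, Finset.card_range, nsmul_eq_mul, nc, hx]
    push_cast
    rfl
  refine h3.trans ?_
  nlinarith

/-- bad words have small mass for every threshold and the energies are bounded: the bubble
diagram is finite -/
theorem end_e (h : Cc Y K g) (hL : HL2 Y g)
    (hb : ∀ η : ℝ, 0 < η → ∃ c : ℝ, 0 < c ∧ ∀ n : ℕ,
      (Y.E n fun x => Y.sv x * ind (∑ i ∈ range (n + 1), mn Y g x i ≤ c * (n + 1))) ≤ η) :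
    ∃ C : ℝ, ∀ N : ℕ, ∑ s ∈ range N, ∑ t ∈ range N, Y.b s t ≤ C :=
  esc_end h.a_ge h.a_le hL (cutH_of h hb)

end Pool.Agent.EscE
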