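import Pool.Agent.Esc.Bas

/-!
# The escape lemma, first part: the last visit, one group of lengths
-/

set_option autoImplicit false

namespace Pool.Agent.Esc

open Finset Filter Topology Pool.Agent.Bub4 Pool.Agent.SawM2 Pool.Agent.Taw

variable {S V : Type} [Fintype S] [AddCommGroup V] {Y : Sys S V} {K κ : ℝ} {g : List S → ℝ}

/-- `v`, attached to the place `k` of `x`, does not meet `x` at positive times -/
def Av (Y : Sys S V) (x : List S) (k : ℕ) (v : List S) : Prop :=
  ∀ s, 1 ≤ s → s ≤ v.length → ∀ i ≤ x.length,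
    Y.sm (x.take k) + Y.sm (v.take s) ≠ Y.sm (x.take i)

/-- probability that the walk attached to the place `k` of `x` avoids `x` up to time `M` -/
noncomputable def pe (Y : Sys S V) (g : List S → ℝ) (M : ℕ) (x : List S) (k : ℕ) : ℝ :=
  Y.E M fun v => g v * ind (Av Y x k v)

/-- Green function of the words with lengths in `I` that are good at the start -/
noncomputable def gr (Y : Sys S V) (g : List S → ℝ) (κ : ℝ) (I : Finset ℕ) (x : V) : ℝ :=
  ∑ i ∈ I, Y.E i fun u => ind (κ ≤ g (bar Y u)) * dl (Y.sm u - x)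

/-- mixed energy of the good words -/
noncomputable def LL (Y : Sys S V) (g : List S → ℝ) (κ : ℝ) (I J : Finset ℕ) : ℝ :=
  ∑ i ∈ I, ∑ j ∈ J, Y.E i fun u => Y.E j fun v =>
    ind (κ ≤ g u) * ind (κ ≤ g v) * dl (Y.sm u - Y.sm v)

/-- probability of: good at the start, last visit to `x` (among the times up to `T`) at a time in
`I`, for a walk attached to the place `j` of `x` -/
noncomputable def lv (Y : Sys S V) (g : List S → ℝ) (κ : ℝ) (T : ℕ) (I : Finset ℕ) (x : List S)
    (j : ℕ) : ℝ :=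
  ∑ k ∈ range (x.length + 1), ∑ t ∈ I, Y.E T fun v => g v * ind (κ ≤ g (bar Y v)) *
    (dl (Y.sm (x.take j) + Y.sm (v.take t) - Y.sm (x.take k)) * ind (Av Y x k (v.drop t)))

-- BEGIN brf
/-- Elementary facts about the word traversed backwards: `sm_bar` of `Geo.lean` (there for the
lattice), `Y.E_reverse`, `Y.E_neg`, `Y.sv_reverse` and invariance of `Saw` under `map Y.neg`. -/
theorem brf (Y : Sys S V) (w u : List S) (n : ℕ) (F : List S → ℝ) :
    Y.sm (bar Y w) = - Y.sm w ∧ (bar Y w).length = w.length ∧ bar Y (bar Y w) = w ∧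
      bar Y (w ++ u) = bar Y u ++ bar Y w ∧ Y.sv (bar Y w) = Y.sv w ∧
      (Y.E n fun v => F (bar Y v)) = Y.E n F := by
  refine ⟨by simp [bar], by simp [bar], ?_, ?_, by simp [bar], ?_⟩
  · simp only [bar, List.map_reverse, List.reverse_reverse, List.map_map]
    have h : (Y.neg ∘ Y.neg) = id := funext Y.neg_neg
    rw [h, List.map_id]
  · simp only [bar, List.map_append, List.reverse_append]
  · rw [← Y.E_neg n F, ← Y.E_reverse n (fun v => F (v.map Y.neg))]
    simp only [bar, List.map_reverse]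
-- END brf

-- BEGIN brt
/-- `bar v = bar (v.drop t) ++ bar (v.take t)` and `h.drop`: prefixes of a word that is good at the
start are good at the start. -/
theorem brt (h : Cc Y K g) (v : List S) (t : ℕ) : g (bar Y v) ≤ g (bar Y (v.take t)) := by
  have h1 : bar Y v = bar Y (v.drop t) ++ bar Y (v.take t) := by
    rw [← (brf Y (v.take t) (v.drop t) 0 (fun _ => 0)).2.2.2.1, List.take_append_drop]
  rw [h1]
  exact h.drop _ _
-- END brt

-- BEGIN llt
/-- (for `llt`) -/
private theorem llt_nn {n : ℕ} {F : List S → ℝ} (h : ∀ w, 0 ≤ F w) : 0 ≤ Y.E n F := by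
  rw [← Y.E_zero_fun n]
  exact Y.E_mono fun w _ => h w

/-- (for `llt`) -/
private theorem llt_aux {c : ℕ → ℕ → ℝ} (hc : ∀ i j, 0 ≤ c i j) {C : ℝ}
    (hC : ∀ N : ℕ, ∑ i ∈ range N, ∑ j ∈ range N, c i j ≤ C) {ε : ℝ} (hε : 0 < ε) :
    ∃ a : ℕ, ∀ N b : ℕ, ∑ i ∈ range N, ∑ j ∈ Ico a b, c i j ≤ ε := by
  classical
  have hb : BddAbove (Set.range fun n : ℕ => ∑ i ∈ range n, ∑ j ∈ range n, c i j) :=
    ⟨C, by rintro _ ⟨n, rfl⟩; exact hC n⟩
  obtain ⟨_, ⟨m, rfl⟩, hm⟩ := exists_lt_of_lt_csSup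
    (Set.range_nonempty fun n : ℕ => ∑ i ∈ range n, ∑ j ∈ range n, c i j)
    (sub_lt_self (sSup (Set.range fun n : ℕ => ∑ i ∈ range n, ∑ j ∈ range n, c i j)) hε)
  refine ⟨m, fun N b => ?_⟩
  have hn := le_csSup hb ⟨max N (max b m), rfl⟩
  have key : ∑ i ∈ range N, ∑ j ∈ Ico m b, c i j + ∑ i ∈ range m, ∑ j ∈ range m, c i j ≤
      ∑ i ∈ range (max N (max b m)), ∑ j ∈ range (max N (max b m)), c i j := by
    rw [← Finset.sum_product', ← Finset.sum_product', ← Finset.sum_product',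
      ← Finset.sum_union]
    · refine Finset.sum_le_sum_of_subset_of_nonneg ?_ fun p _ _ => hc _ _
      intro p hp
      simp only [Finset.mem_union, Finset.mem_product, Finset.mem_range, Finset.mem_Ico] at hp ⊢
      rcases hp with ⟨h1, h2, h3⟩ | ⟨h1, h2⟩
      · exact ⟨lt_of_lt_of_le h1 (le_max_left _ _),
          lt_of_lt_of_le h3 ((le_max_left _ _).trans (le_max_right _ _))⟩
      · exact ⟨lt_of_lt_of_le h1 ((le_max_right _ _).trans (le_max_right _ _)),
          lt_of_lt_of_le h2 ((le_max_right _ _).trans (le_max_right _ _))⟩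
    · rw [Finset.disjoint_left]
      intro p hp hq
      simp only [Finset.mem_product, Finset.mem_range, Finset.mem_Ico] at hp hq
      omega
  simp only at hn hm
  linarith

/-- tails of the bounded double sum: `c i j = Y.E i (Y.E j ..) ≥ 0`, symmetric, partial sums over
squares at most `C`; with `d j = sup_N ∑ i < N, c i j` (each `≤ C`) `∑ j < n, d j ≤ C` (finitely
many suprema, monotone in `N`), so `∑ j ∈ Ico a b, d j ≤ ε` for `a` large. -/
theorem llt (hL : HL2 Y g) {κ : ℝ} (hκ : 0 < κ) {ε : ℝ} (hε : 0 < ε) :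
    ∃ a : ℕ, ∀ N b : ℕ, LL Y g κ (range N) (Ico a b) ≤ ε := by
  obtain ⟨C, hC⟩ := hL κ hκ
  refine llt_aux (c := fun i j => Y.E i fun u => Y.E j fun v =>
    ind (κ ≤ g u) * ind (κ ≤ g v) * dl (Y.sm u - Y.sm v)) (fun i j => ?_) hC hε
  exact llt_nn fun u => llt_nn fun v =>
    mul_nonneg (mul_nonneg (ind_nonneg _) (ind_nonneg _)) (dl_nonneg _)
-- END llt

-- BEGIN grn
/-- nonnegative; `gr .. 0 = 0` if `0 ∉ I` (`κ ≤ g (bar u)` makes `u` self-avoiding, `h.le_sv`,
`brf`, and then `Y.sm u ≠ 0` for `u ≠ []`). -/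
theorem grn (h : Cc Y K g) (hκ : 0 < κ) (I : Finset ℕ) (x : V) :
    0 ≤ gr Y g κ I x ∧ (0 ∉ I → gr Y g κ I 0 = 0) := by
  refine ⟨?_, fun h0 => ?_⟩
  · unfold gr
    exact Finset.sum_nonneg fun i _ => Y.E_nonneg' fun u => mul_nonneg (ind_nonneg _) (dl_nonneg _)
  · unfold gr
    refine Finset.sum_eq_zero fun i hi => ?_
    have hi0 : i ≠ 0 := fun e => h0 (e ▸ hi)
    rw [← Y.E_zero_fun i]
    refine Y.E_congr fun u hu => ?_
    by_cases hk : κ ≤ g (bar Y u)
    · have hsv : Y.sv (bar Y u) ≠ 0 := by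
        intro e
        have h1 := h.le_sv (bar Y u)
        rw [e] at h1
        linarith
      rw [(brf Y u u 0 (fun _ => 0)).2.2.2.2.1] at hsv
      have hs : Y.Saw u := by
        by_contra hc
        exact hsv (Y.sv_of_not hc)
      have hne : u ≠ [] := by
        intro e
        rw [e, List.length_nil] at hu
        exact hi0 hu.symm
      have h2 := hs u (List.infix_refl u) hne
      rw [sub_zero, dl_of_ne h2, mul_zero]
    · rw [ind_not hk, zero_mul]
-- END grn

-- BEGIN grs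
private theorem grs_pt {x a b : V} {p q : ℝ} (hp : 0 ≤ p) (hq : 0 ≤ q) :
    p * dl (a - x) * (q * dl (b - x)) ≤ p * q * dl (a - b) := by
  by_cases h1 : a - x = 0
  · by_cases h2 : b - x = 0
    · have h3 : a - b = 0 := by rw [sub_eq_zero.1 h1, sub_eq_zero.1 h2, sub_self]
      rw [dl_of_eq h1, dl_of_eq h2, dl_of_eq h3, mul_one, mul_one, mul_one]
    · rw [dl_of_ne h2, mul_zero, mul_zero]
      exact mul_nonneg (mul_nonneg hp hq) (dl_nonneg _)
  · rw [dl_of_ne h1, mul_zero, zero_mul]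
    exact mul_nonneg (mul_nonneg hp hq) (dl_nonneg _)

private theorem grs_bar (Y : Sys S V) (g : List S → ℝ) (κ : ℝ) (i j : ℕ) :
    (Y.E i fun u => Y.E j fun v =>
      ind (κ ≤ g u) * ind (κ ≤ g v) * dl (Y.sm u - Y.sm v)) =
    Y.E i fun u => Y.E j fun v =>
      ind (κ ≤ g (bar Y u)) * ind (κ ≤ g (bar Y v)) * dl (Y.sm u - Y.sm v) := by
  rw [← (brf Y [] [] i fun u => Y.E j fun v =>
      ind (κ ≤ g u) * ind (κ ≤ g v) * dl (Y.sm u - Y.sm v)).2.2.2.2.2]
  refine Y.E_congr fun u _ => ?_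
  rw [← (brf Y [] [] j fun v =>
      ind (κ ≤ g (bar Y u)) * ind (κ ≤ g v) * dl (Y.sm (bar Y u) - Y.sm v)).2.2.2.2.2]
  refine Y.E_congr fun v _ => ?_
  rw [(brf Y u [] 0 fun _ => 0).1, (brf Y v [] 0 fun _ => 0).1, ← dl_neg (Y.sm u - Y.sm v)]
  congr 2
  abel

/-- `gr x ^ 2 = ∑ i j, E i E j [ind ind dl (sm u - x) dl (sm v - x)] ≤ ∑ i j, E i E j [ind ind
dl (sm u - sm v)]`, and `brf` (last clause, `sm (bar u) = - sm u`, `dl_neg`) removes the bars. -/
theorem grs (Y : Sys S V) (g : List S → ℝ) (κ : ℝ) (I : Finset ℕ) (x : V) :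
    gr Y g κ I x ^ 2 ≤ LL Y g κ I I := by
  unfold gr LL
  rw [sq, Finset.sum_mul_sum]
  refine Finset.sum_le_sum fun i _ => Finset.sum_le_sum fun j _ => ?_
  rw [grs_bar, ← Y.E_mul_right]
  refine Y.E_mono fun u _ => ?_
  rw [← Y.E_mul_left]
  exact Y.E_mono fun v _ => grs_pt (ind_nonneg _) (ind_nonneg _)
-- END grs

-- BEGIN grl
/-- the same with two sets of lengths -/
theorem grl (Y : Sys S V) (g : List S → ℝ) (κ : ℝ) (I J : Finset ℕ) :
    ∑ s ∈ J, (Y.E s fun u => ind (κ ≤ g (bar Y u)) * gr Y g κ I (Y.sm u)) = LL Y g κ J I := by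
  unfold gr LL
  refine Finset.sum_congr rfl fun s _ => ?_
  have e1 : (Y.E s fun u => ind (κ ≤ g (bar Y u)) *
      ∑ i ∈ I, Y.E i fun v => ind (κ ≤ g (bar Y v)) * dl (Y.sm v - Y.sm u)) =
      Y.E s fun u => ∑ i ∈ I, Y.E i fun v =>
        ind (κ ≤ g (bar Y u)) * ind (κ ≤ g (bar Y v)) * dl (Y.sm u - Y.sm v) := by
    refine Y.E_congr fun u _ => ?_
    rw [Finset.mul_sum]
    refine Finset.sum_congr rfl fun i _ => ?_
    rw [← Y.E_mul_left]
    refine Y.E_congr fun v _ => ?_
    rw [dl_sub_comm (Y.sm v) (Y.sm u)]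
    ring
  rw [e1, Y.E_fsum]
  refine Finset.sum_congr rfl fun i _ => ?_
  have e2 : ∀ u, (Y.E i fun v =>
      ind (κ ≤ g (bar Y u)) * ind (κ ≤ g (bar Y v)) * dl (Y.sm u - Y.sm v)) =
      Y.E i fun v => ind (κ ≤ g (bar Y u)) * ind (κ ≤ g v) * dl (Y.sm (bar Y u) - Y.sm v) := by
    intro u
    rw [← (brf Y u u i fun v =>
      ind (κ ≤ g (bar Y u)) * ind (κ ≤ g v) * dl (Y.sm (bar Y u) - Y.sm v)).2.2.2.2.2]
    refine Y.E_congr fun v _ => ?_
    rw [(brf Y u u 0 fun _ => 0).1, (brf Y v v 0 fun _ => 0).1, ← dl_neg (Y.sm u - Y.sm v)]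
    congr 2
    abel
  rw [Y.E_congr fun u _ => e2 u]
  exact (brf Y [] [] s fun u => Y.E i fun v =>
    ind (κ ≤ g u) * ind (κ ≤ g v) * dl (Y.sm u - Y.sm v)).2.2.2.2.2
-- END grl

-- BEGIN tls
/-- For a sequence of nonnegative numbers: take the first `k` for which the sum of the later terms
is at most `c`; the later terms contribute at most `c`. -/
theorem tls (a : ℕ → ℝ) (ha : ∀ k, 0 ≤ a k) {A c : ℝ} (hA : ∀ k, a k ≤ A) (hc : 0 ≤ c)
    (j n : ℕ) : ∑ k ∈ Ioc j n, a k * ind (∑ i ∈ Ioc k n, a i ≤ c) ≤ A + c := by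
  classical
  have hA0 : 0 ≤ A := (ha 0).trans (hA 0)
  by_cases hex : ∃ k, j < k ∧ k ≤ n ∧ ∑ i ∈ Ioc k n, a i ≤ c
  · have hk := Nat.find_spec hex
    have hmin : ∀ k, k < Nat.find hex → ¬ (j < k ∧ k ≤ n ∧ ∑ i ∈ Ioc k n, a i ≤ c) :=
      fun k hkk => Nat.find_min hex hkk
    generalize Nat.find hex = m at hk hmin
    obtain ⟨hjm, hmn, hmc⟩ := hk
    have hpt : ∀ k ∈ Ioc j n, a k * ind (∑ i ∈ Ioc k n, a i ≤ c) ≤
        (if k = m then A else 0) + (if k ∈ Ioc m n then a k else 0) := by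
      intro k hk
      rw [mem_Ioc] at hk
      by_cases hS : ∑ i ∈ Ioc k n, a i ≤ c
      · have hmk : m ≤ k := by
          by_contra hlt
          exact hmin k (not_le.1 hlt) ⟨hk.1, hk.2, hS⟩
        have h1 : ind (∑ i ∈ Ioc k n, a i ≤ c) = 1 := if_pos hS
        rw [h1, mul_one]
        rcases hmk.eq_or_lt with he | hl
        · have hn : k ∉ Ioc m n := fun hc => absurd (mem_Ioc.1 hc).1 (by omega)
          rw [if_pos he.symm, if_neg hn, add_zero]
          exact hA k
        · rw [if_neg (by omega), if_pos (mem_Ioc.2 ⟨hl, hk.2⟩), zero_add]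
      · have h0 : ind (∑ i ∈ Ioc k n, a i ≤ c) = 0 := if_neg hS
        rw [h0, mul_zero]
        refine add_nonneg ?_ ?_
        · split_ifs
          · exact hA0
          · exact le_refl _
        · split_ifs
          · exact ha k
          · exact le_refl _
    refine (sum_le_sum hpt).trans ?_
    rw [sum_add_distrib]
    have e1 : ∑ k ∈ Ioc j n, (if k = m then A else 0) = A := by
      rw [sum_ite_eq' (Ioc j n) m (fun _ => A), if_pos (mem_Ioc.2 ⟨hjm, hmn⟩)]
    have e2 : ∑ k ∈ Ioc j n, (if k ∈ Ioc m n then a k else 0) = ∑ k ∈ Ioc m n, a k := by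
      rw [← sum_filter]
      refine sum_congr ?_ fun _ _ => rfl
      ext k
      simp only [mem_filter, mem_Ioc]
      omega
    rw [e1, e2]
    exact add_le_add (le_refl _) hmc
  · have hz : ∑ k ∈ Ioc j n, a k * ind (∑ i ∈ Ioc k n, a i ≤ c) = 0 := by
      refine sum_eq_zero fun k hk => ?_
      rw [mem_Ioc] at hk
      have h0 : ind (∑ i ∈ Ioc k n, a i ≤ c) = 0 :=
        if_neg fun hS => hex ⟨k, hk.1, hk.2, hS⟩
      rw [h0, mul_zero]
    rw [hz]
    exact add_nonneg hA0 hc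
-- END tls

-- BEGIN lvs
private theorem lvs_sm (Y : Sys S V) (a b : List S) : Y.sm (a ++ b) = Y.sm a + Y.sm b := by
  unfold Sys.sm
  rw [List.map_append, List.sum_append]

private theorem lvs_inj {w : List S} (hw : Y.Saw w) {i j : ℕ} (hij : i < j) (hj : j ≤ w.length) :
    Y.sm (w.take i) ≠ Y.sm (w.take j) := by
  intro e
  have hb : (w.take j).drop i <:+: w :=
    (List.drop_suffix i _).isInfix.trans (List.take_prefix j w).isInfix
  have hne : (w.take j).drop i ≠ [] := by
    intro h0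
    have := congrArg List.length h0
    rw [List.length_drop, List.length_take, List.length_nil] at this
    omega
  have h1 : w.take j = w.take i ++ (w.take j).drop i := by
    have := List.take_append_drop i (w.take j)
    rw [List.take_take, min_eq_left hij.le] at this
    exact this.symm
  have h2 : Y.sm (w.take j) = Y.sm (w.take i) + Y.sm ((w.take j).drop i) := by
    conv_lhs => rw [h1]
    exact lvs_sm Y _ _
  rw [← e] at h2
  exact hw _ hb hne (left_eq_add.1 h2)

/-- The last visit is unique: for a self-avoiding `x` the points `x_k` are distinct; `(j, 0)` is a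
visit, so there is a last time `t ≤ |v|` at which the point `x_j + v_t` is one of the points `x_k`;
`Av Y x k (v.drop t)` says exactly that there is no later visit. -/
theorem lvs (Y : Sys S V) {x : List S} (hx : Y.Saw x) {j : ℕ} (hj : j ≤ x.length) (v : List S) :
    ∑ k ∈ range (x.length + 1), ∑ t ∈ range (v.length + 1),
      dl (Y.sm (x.take j) + Y.sm (v.take t) - Y.sm (x.take k)) * ind (Av Y x k (v.drop t)) = 1 := by
  classical
  obtain ⟨t0, ht0, ⟨k0, hk0, he0⟩, hmax⟩ : ∃ t0 ≤ v.length,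
      (∃ k ≤ x.length, Y.sm (x.take j) + Y.sm (v.take t0) = Y.sm (x.take k)) ∧
      ∀ t, t0 < t → t ≤ v.length →
        ¬ ∃ k ≤ x.length, Y.sm (x.take j) + Y.sm (v.take t) = Y.sm (x.take k) := by
    have h0 : (fun t => ∃ k ≤ x.length,
        Y.sm (x.take j) + Y.sm (v.take t) = Y.sm (x.take k)) 0 := by
      refine ⟨j, hj, ?_⟩
      rw [List.take_zero]
      unfold Sys.sm
      simp
    have h1 := Nat.findGreatest_spec (P := fun t => ∃ k ≤ x.length,
        Y.sm (x.take j) + Y.sm (v.take t) = Y.sm (x.take k)) (Nat.zero_le v.length) h0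
    exact ⟨_, Nat.findGreatest_le _, h1, fun t h2 h3 => Nat.findGreatest_is_greatest h2 h3⟩
  have hshift : ∀ t s, Y.sm (v.take (t + s)) = Y.sm (v.take t) + Y.sm ((v.drop t).take s) := by
    intro t s
    rw [List.take_add, lvs_sm]
  have hz : ∀ k ≤ x.length, ∀ t ≤ v.length, (k ≠ k0 ∨ t ≠ t0) →
      dl (Y.sm (x.take j) + Y.sm (v.take t) - Y.sm (x.take k)) *
        ind (Av Y x k (v.drop t)) = 0 := by
    intro k hk t ht hne
    by_cases he : Y.sm (x.take j) + Y.sm (v.take t) = Y.sm (x.take k)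
    · rcases lt_trichotomy t t0 with hlt | heq | hgt
      · rw [ind_not, mul_zero]
        intro ha
        apply ha (t0 - t) (by omega) (by rw [List.length_drop]; omega) k0 hk0
        rw [← he, add_assoc, ← hshift, show t + (t0 - t) = t0 by omega, he0]
      · exfalso
        have hkk : k ≠ k0 := by
          rcases hne with h1 | h1
          · exact h1
          · exact absurd heq h1
        rw [heq, he0] at he
        rcases lt_or_gt_of_ne hkk with h1 | h1
        · exact lvs_inj hx h1 hk0 he.symm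
        · exact lvs_inj hx h1 hk he
      · exact absurd ⟨k, hk, he⟩ (hmax t hgt ht)
    · rw [dl_of_ne (sub_ne_zero.2 he), zero_mul]
  rw [Finset.sum_eq_single k0, Finset.sum_eq_single t0]
  · rw [dl_of_eq (sub_eq_zero.2 he0), ind_of, mul_one]
    intro s hs1 hs2 i hi
    rw [List.length_drop] at hs2
    rw [← he0, add_assoc, ← hshift]
    exact fun e => hmax (t0 + s) (by omega) (by omega) ⟨i, hi, e⟩
  · intro t ht hne
    exact hz k0 hk0 t (by rw [Finset.mem_range] at ht; omega) (Or.inr hne)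
  · intro h1
    exact absurd (Finset.mem_range.2 (by omega)) h1
  · intro k hk hne
    refine Finset.sum_eq_zero fun t ht => ?_
    exact hz k (by rw [Finset.mem_range] at hk; omega) t
      (by rw [Finset.mem_range] at ht; omega) (Or.inl hne)
  · intro h1
    exact absurd (Finset.mem_range.2 (by omega)) h1
-- END lvs

-- BEGIN lvt
/-- sum of `lv` over all times: `lvs` for `v` of length `T` -/
theorem lvt (h : Cc Y K g) (T : ℕ) {x : List S} (hx : Y.Saw x) {j : ℕ} (hj : j ≤ x.length) :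
    lv Y g κ T (range (T + 1)) x j = Y.E T fun v => g v * ind (κ ≤ g (bar Y v)) := by
  unfold lv
  have h1 : ∀ k ∈ range (x.length + 1), (∑ t ∈ range (T + 1), Y.E T fun v =>
      g v * ind (κ ≤ g (bar Y v)) * (dl (Y.sm (x.take j) + Y.sm (v.take t) - Y.sm (x.take k)) *
        ind (Av Y x k (v.drop t)))) =
      Y.E T fun v => ∑ t ∈ range (T + 1), g v * ind (κ ≤ g (bar Y v)) *
        (dl (Y.sm (x.take j) + Y.sm (v.take t) - Y.sm (x.take k)) * ind (Av Y x k (v.drop t))) :=
    fun k _ => (Y.E_fsum T (range (T + 1)) _).symm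
  rw [Finset.sum_congr rfl h1, ← Y.E_fsum]
  refine Y.E_congr fun v hv => ?_
  have h2 := lvs Y hx hj v
  rw [hv] at h2
  simp only [← Finset.mul_sum]
  rw [h2, mul_one]
-- END lvt

-- BEGIN bdm
private theorem bdm_gr (Y : Sys S V) (g : List S → ℝ) (κ : ℝ) (I : Finset ℕ) (x : V) :
    0 ≤ gr Y g κ I x :=
  Finset.sum_nonneg fun _ _ => Y.E_nonneg' fun _ => mul_nonneg (ind_nonneg _) (dl_nonneg _)

/-- First moment: `Y.E T [g v ind (κ ≤ g (bar v)) ∑ s ≤ T, gr (sm (v.take s))] ≤ ∑ s ≤ T, Y.E s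
[ind (κ ≤ g (bar u)) gr (sm u)]` (`brt`, right consistency `E_take`, `g ≤ 1`) `= LL (range (T+1)) I`
(`grl`), then Markov. -/
theorem bdm (h : Cc Y K g) {T : ℕ} {I : Finset ℕ} {l e : ℝ} (hl : 0 < l) (he : 0 < e)
    (hLL : LL Y g κ (range (T + 1)) I ≤ e) :
    (Y.E T fun v => g v * ind (κ ≤ g (bar Y v)) *
      ind (l * e < ∑ s ∈ range (T + 1), gr Y g κ I (Y.sm (v.take s)))) ≤ 1 / l := by
  have hgr : ∀ x, 0 ≤ gr Y g κ I x := bdm_gr Y g κ I
  have h1 : l * e * (Y.E T fun v => g v * ind (κ ≤ g (bar Y v)) *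
      ind (l * e < ∑ s ∈ range (T + 1), gr Y g κ I (Y.sm (v.take s)))) ≤
      Y.E T fun v => ∑ s ∈ range (T + 1),
        g v * (ind (κ ≤ g (bar Y (v.take s))) * gr Y g κ I (Y.sm (v.take s))) := by
    rw [← Y.E_mul_left]
    refine Y.E_mono fun v _ => ?_
    have h2 : l * e * ind (l * e < ∑ s ∈ range (T + 1), gr Y g κ I (Y.sm (v.take s))) ≤
        ∑ s ∈ range (T + 1), gr Y g κ I (Y.sm (v.take s)) := by
      by_cases hh : l * e < ∑ s ∈ range (T + 1), gr Y g κ I (Y.sm (v.take s))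
      · rw [ind_of hh, mul_one]
        exact hh.le
      · rw [ind_not hh, mul_zero]
        exact Finset.sum_nonneg fun s _ => hgr _
    have h3 : ∀ s, ind (κ ≤ g (bar Y v)) ≤ ind (κ ≤ g (bar Y (v.take s))) := fun s =>
      ind_mono fun hh => hh.trans (brt h v s)
    calc l * e * (g v * ind (κ ≤ g (bar Y v)) *
          ind (l * e < ∑ s ∈ range (T + 1), gr Y g κ I (Y.sm (v.take s))))
        = g v * (ind (κ ≤ g (bar Y v)) *
          (l * e * ind (l * e < ∑ s ∈ range (T + 1), gr Y g κ I (Y.sm (v.take s))))) := by ring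
      _ ≤ g v * (ind (κ ≤ g (bar Y v)) * ∑ s ∈ range (T + 1), gr Y g κ I (Y.sm (v.take s))) :=
          mul_le_mul_of_nonneg_left (mul_le_mul_of_nonneg_left h2 (ind_nonneg _)) (h.nonneg v)
      _ = ∑ s ∈ range (T + 1), g v * (ind (κ ≤ g (bar Y v)) * gr Y g κ I (Y.sm (v.take s))) := by
          rw [Finset.mul_sum, Finset.mul_sum]
      _ ≤ _ := Finset.sum_le_sum fun s _ => mul_le_mul_of_nonneg_left
          (mul_le_mul_of_nonneg_right (h3 s) (hgr _)) (h.nonneg v)
  have h4 : (Y.E T fun v => ∑ s ∈ range (T + 1),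
        g v * (ind (κ ≤ g (bar Y (v.take s))) * gr Y g κ I (Y.sm (v.take s)))) =
      ∑ s ∈ range (T + 1), Y.E s fun u => g u * (ind (κ ≤ g (bar Y u)) * gr Y g κ I (Y.sm u)) := by
    rw [Y.E_fsum]
    refine Finset.sum_congr rfl fun s hs => ?_
    have hs' : s ≤ T := Nat.lt_succ_iff.mp (Finset.mem_range.mp hs)
    have h5 := E_take h s (T - s) (fun u => ind (κ ≤ g (bar Y u)) * gr Y g κ I (Y.sm u))
    rw [Nat.add_sub_cancel' hs'] at h5
    exact h5
  have h6 : ∑ s ∈ range (T + 1), (Y.E s fun u => g u * (ind (κ ≤ g (bar Y u)) *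
      gr Y g κ I (Y.sm u))) ≤ LL Y g κ (range (T + 1)) I := by
    rw [← grl Y g κ I (range (T + 1))]
    refine Finset.sum_le_sum fun s _ => Y.E_mono fun u _ => ?_
    have h7 : 0 ≤ ind (κ ≤ g (bar Y u)) * gr Y g κ I (Y.sm u) :=
      mul_nonneg (ind_nonneg _) (hgr _)
    calc g u * (ind (κ ≤ g (bar Y u)) * gr Y g κ I (Y.sm u))
        ≤ 1 * (ind (κ ≤ g (bar Y u)) * gr Y g κ I (Y.sm u)) :=
          mul_le_mul_of_nonneg_right (g_le_one h u) h7
      _ = _ := one_mul _
  have h8 := h1.trans (h4.le.trans (h6.trans hLL))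
  rw [le_div_iff₀ hl]
  have h9 : e * ((Y.E T fun v => g v * ind (κ ≤ g (bar Y v)) *
      ind (l * e < ∑ s ∈ range (T + 1), gr Y g κ I (Y.sm (v.take s)))) * l) ≤ e * 1 := by
    calc e * ((Y.E T fun v => g v * ind (κ ≤ g (bar Y v)) *
          ind (l * e < ∑ s ∈ range (T + 1), gr Y g κ I (Y.sm (v.take s)))) * l)
        = l * e * (Y.E T fun v => g v * ind (κ ≤ g (bar Y v)) *
          ind (l * e < ∑ s ∈ range (T + 1), gr Y g κ I (Y.sm (v.take s)))) := by ring
      _ ≤ e := h8
      _ = e * 1 := (mul_one e).symm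
  exact le_of_mul_le_mul_left h9 he
-- END bdm

-- BEGIN fwd
private theorem fwd_key (h : Cc Y K g) (hκ : 0 < κ) {I : Finset ℕ} {c : ℝ} {j k m : ℕ} (hjk : j < k) :
    (Y.E (k + m) fun x => Y.sv x * (gr Y g κ I (Y.sm (x.take k) - Y.sm (x.take j)) *
      Y.E m fun v => g v * ind (Y.Saw (x.take k ++ v)) *
        ind (∑ s ∈ Ioc 0 m,
          gr Y g κ I (Y.sm (x.take k) + Y.sm (v.take s) - Y.sm (x.take j)) ≤ c))) ≤
      K * Y.E (k + m) fun z => Y.sv z * (gr Y g κ I (Y.sm (z.take k) - Y.sm (z.take j)) *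
        ind (∑ i ∈ Ioc k (k + m), gr Y g κ I (Y.sm (z.take i) - Y.sm (z.take j)) ≤ c)) := by
  rw [Y.E_add, Y.E_add, ← Y.E_mul_left]
  refine Y.E_mono fun u hu => ?_
  have htj : ∀ w : List S, (u ++ w).take j = u.take j := fun w =>
    List.take_append_of_le_length (by omega)
  have htk : ∀ w : List S, (u ++ w).take k = u := fun w => List.take_left' hu
  set a : ℝ := gr Y g κ I (Y.sm u - Y.sm (u.take j)) with ha
  have ha0 : 0 ≤ a := (grn h hκ I _).1
  set Q : ℝ := Y.E m fun v => g v * ind (Y.Saw (u ++ v)) *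
        ind (∑ s ∈ Ioc 0 m, gr Y g κ I (Y.sm u + Y.sm (v.take s) - Y.sm (u.take j)) ≤ c) with hQ
  have hQ0 : 0 ≤ Q := Y.E_nonneg' fun v =>
    mul_nonneg (mul_nonneg (h.nonneg v) (ind_nonneg _)) (ind_nonneg _)
  have h1 : (Y.E m fun w => Y.sv (u ++ w) *
      (gr Y g κ I (Y.sm ((u ++ w).take k) - Y.sm ((u ++ w).take j)) *
      Y.E m fun v => g v * ind (Y.Saw ((u ++ w).take k ++ v)) *
        ind (∑ s ∈ Ioc 0 m,
          gr Y g κ I (Y.sm ((u ++ w).take k) + Y.sm (v.take s) - Y.sm ((u ++ w).take j)) ≤ c))) ≤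
      K * (a * Q) := by
    refine le_trans (b := Y.E m fun w => Y.sv w * (a * Q)) ?_ ?_
    · refine Y.E_mono fun w _ => ?_
      rw [htj w, htk w]
      exact mul_le_mul_of_nonneg_right (Y.sv_append_right u w) (mul_nonneg ha0 hQ0)
    · rw [Y.E_mul_right]
      exact mul_le_mul_of_nonneg_right (h.a_le m) (mul_nonneg ha0 hQ0)
  refine h1.trans ?_
  have hK : 0 ≤ K := zero_le_one.trans (one_le_K h)
  refine mul_le_mul_of_nonneg_left ?_ hK
  rw [hQ, ← Y.E_mul_left]
  refine Y.E_mono fun v _ => ?_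
  rw [htj v, htk v, ← ha]
  have h2 : ∑ i ∈ Ioc k (k + m), gr Y g κ I (Y.sm ((u ++ v).take i) - Y.sm (u.take j)) =
      ∑ s ∈ Ioc 0 m, gr Y g κ I (Y.sm u + Y.sm (v.take s) - Y.sm (u.take j)) := by
    symm
    refine Finset.sum_nbij (fun s => k + s) ?_ ?_ ?_ ?_
    · intro s hs
      rw [Finset.mem_Ioc] at hs ⊢
      omega
    · intro s _ t _ hst
      simpa using hst
    · intro i hi
      rw [Finset.mem_coe, Finset.mem_Ioc] at hi
      refine ⟨i - k, ?_, ?_⟩
      · rw [Finset.mem_coe, Finset.mem_Ioc]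
        omega
      · show k + (i - k) = i
        omega
    · intro s _
      have h3 : (u ++ v).take (k + s) = u ++ v.take s := by
        rw [← hu, List.take_length_add_append]
      rw [h3, Y.sm_append]
  rw [h2]
  by_cases hs : Y.Saw (u ++ v)
  · rw [Y.sv_of hs, ind_of hs, mul_one, one_mul]
    refine mul_le_mul_of_nonneg_left ?_ ha0
    exact mul_le_of_le_one_left (ind_nonneg _) (g_le_one h v)
  · rw [Y.sv_of_not hs, ind_not hs]
    simp

/-- Forward part. `E n = E k E (n - k)`, `x = x' ++ x''`, `sv x ≤ sv x' * sv x''`, the sum over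
`x''` is at most `K`; then `(x', μ)` is the word `z = x' ++ μ` of length `n` and the integrand is at
most `sv z * gr (z_k - z_j) * ind (∑ i ∈ Ioc k n, gr (z_i - z_j) ≤ c)` (`g μ ≤ 1`); sum over `k` for
fixed `z`: `tls`; `Y.a n ≤ K`. -/
theorem fwd (h : Cc Y K g) (hκ : 0 < κ) {I : Finset ℕ} {A c : ℝ} (hA : ∀ y, gr Y g κ I y ≤ A)
    (hc : 0 ≤ c) {j n : ℕ} (hj : j ≤ n) :
    (Y.E n fun x => Y.sv x * ∑ k ∈ Ioc j n, gr Y g κ I (Y.sm (x.take k) - Y.sm (x.take j)) *
      Y.E (n - k) fun v => g v * ind (Y.Saw (x.take k ++ v)) *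
        ind (∑ s ∈ Ioc 0 (n - k),
          gr Y g κ I (Y.sm (x.take k) + Y.sm (v.take s) - Y.sm (x.take j)) ≤ c)) ≤
      K ^ 2 * (A + c) := by
  have _ := hj
  have hA0 : 0 ≤ A := (grn h hκ I 0).1.trans (hA 0)
  have hK : 0 ≤ K := zero_le_one.trans (one_le_K h)
  have h1 : (Y.E n fun x => Y.sv x * ∑ k ∈ Ioc j n, gr Y g κ I (Y.sm (x.take k) - Y.sm (x.take j)) *
      Y.E (n - k) fun v => g v * ind (Y.Saw (x.take k ++ v)) *
        ind (∑ s ∈ Ioc 0 (n - k),
          gr Y g κ I (Y.sm (x.take k) + Y.sm (v.take s) - Y.sm (x.take j)) ≤ c)) =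
      ∑ k ∈ Ioc j n, Y.E n fun x => Y.sv x * (gr Y g κ I (Y.sm (x.take k) - Y.sm (x.take j)) *
      Y.E (n - k) fun v => g v * ind (Y.Saw (x.take k ++ v)) *
        ind (∑ s ∈ Ioc 0 (n - k),
          gr Y g κ I (Y.sm (x.take k) + Y.sm (v.take s) - Y.sm (x.take j)) ≤ c)) := by
    rw [← Y.E_fsum]
    refine Y.E_congr fun x _ => ?_
    rw [Finset.mul_sum]
  rw [h1]
  have h2 : ∀ k ∈ Ioc j n, (Y.E n fun x => Y.sv x *
      (gr Y g κ I (Y.sm (x.take k) - Y.sm (x.take j)) *
      Y.E (n - k) fun v => g v * ind (Y.Saw (x.take k ++ v)) *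
        ind (∑ s ∈ Ioc 0 (n - k),
          gr Y g κ I (Y.sm (x.take k) + Y.sm (v.take s) - Y.sm (x.take j)) ≤ c))) ≤
      K * Y.E n fun z => Y.sv z * (gr Y g κ I (Y.sm (z.take k) - Y.sm (z.take j)) *
        ind (∑ i ∈ Ioc k n, gr Y g κ I (Y.sm (z.take i) - Y.sm (z.take j)) ≤ c)) := by
    intro k hk
    rw [Finset.mem_Ioc] at hk
    obtain ⟨m, rfl⟩ : ∃ m, n = k + m := ⟨n - k, by omega⟩
    rw [show k + m - k = m by omega]
    exact fwd_key h hκ hk.1
  refine (Finset.sum_le_sum h2).trans ?_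
  rw [← Finset.mul_sum, ← Y.E_fsum]
  have h3 : (Y.E n fun z => ∑ k ∈ Ioc j n, Y.sv z *
      (gr Y g κ I (Y.sm (z.take k) - Y.sm (z.take j)) *
        ind (∑ i ∈ Ioc k n, gr Y g κ I (Y.sm (z.take i) - Y.sm (z.take j)) ≤ c))) ≤
      K * (A + c) := by
    refine le_trans (b := Y.E n fun z => Y.sv z * (A + c)) ?_ ?_
    · refine Y.E_mono fun z _ => ?_
      rw [← Finset.mul_sum]
      exact mul_le_mul_of_nonneg_left
        (tls (fun i => gr Y g κ I (Y.sm (z.take i) - Y.sm (z.take j))) (fun i => (grn h hκ I _).1)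
          (fun i => hA _) hc j n) (Y.sv_nonneg z)
    · rw [Y.E_mul_right]
      exact mul_le_mul_of_nonneg_right (h.a_le n) (add_nonneg hA0 hc)
  calc K * _ ≤ K * (K * (A + c)) := mul_le_mul_of_nonneg_left h3 hK
    _ = K ^ 2 * (A + c) := by ring
-- END fwd

-- BEGIN bwd
private theorem bwd_step (h : Cc Y K g) (hκ : 0 < κ) {I : Finset ℕ} {c : ℝ} {k m j : ℕ}
    (hk : k < j) (hj : j ≤ k + m) :
    (Y.E (k + m) fun x => Y.sv x * (gr Y g κ I (Y.sm (x.take k) - Y.sm (x.take j)) *
      Y.E k fun v => g v * ind (Y.Saw (bar Y (x.drop k) ++ v)) *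
        ind (∑ s ∈ Ioc 0 k,
          gr Y g κ I (Y.sm (x.take k) + Y.sm (v.take s) - Y.sm (x.take j)) ≤ c))) ≤
      K * Y.E (k + m) fun z => Y.sv z * (gr Y g κ I (Y.sm (z.take m) - Y.sm (z.take (k + m - j))) *
        ind (∑ i ∈ Ioc m (k + m), gr Y g κ I (Y.sm (z.take i) - Y.sm (z.take (k + m - j))) ≤ c)) := by
  have hgr : ∀ y, 0 ≤ gr Y g κ I y := fun y => (grn h hκ I y).1
  let H : List S → ℝ := fun w => gr Y g κ I (-(Y.sm (w.take (j - k)))) *
    Y.E k fun v => g v * ind (Y.Saw (bar Y w ++ v)) *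
      ind (∑ s ∈ Ioc 0 k, gr Y g κ I (Y.sm (v.take s) - Y.sm (w.take (j - k))) ≤ c)
  have hH0 : ∀ w, 0 ≤ H w := fun w => mul_nonneg (hgr _) (Y.E_nonneg' fun v =>
    mul_nonneg (mul_nonneg (h.nonneg v) (ind_nonneg _)) (ind_nonneg _))
  have h1 : (Y.E (k + m) fun x => Y.sv x * (gr Y g κ I (Y.sm (x.take k) - Y.sm (x.take j)) *
      Y.E k fun v => g v * ind (Y.Saw (bar Y (x.drop k) ++ v)) *
        ind (∑ s ∈ Ioc 0 k,
          gr Y g κ I (Y.sm (x.take k) + Y.sm (v.take s) - Y.sm (x.take j)) ≤ c))) ≤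
      Y.E k fun u => Y.sv u * Y.E m H := by
    rw [Y.E_add]
    refine Y.E_mono fun u hu => ?_
    rw [← Y.E_mul_left]
    refine Y.E_mono fun w _ => ?_
    have e1 : (u ++ w).take k = u := List.take_left' hu
    have e2 : (u ++ w).drop k = w := List.drop_left' hu
    have e3 : (u ++ w).take j = u ++ w.take (j - k) := by
      rw [List.take_append, hu, List.take_of_length_le (by omega)]
    have e4 : Y.sm u - Y.sm (u ++ w.take (j - k)) = -(Y.sm (w.take (j - k))) := by
      rw [Sys.sm_append]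
      abel
    have e5 : ∀ v : List S, ∀ s, Y.sm u + Y.sm (v.take s) - Y.sm (u ++ w.take (j - k)) =
        Y.sm (v.take s) - Y.sm (w.take (j - k)) := by
      intro v s
      rw [Sys.sm_append]
      abel
    rw [e1, e2, e3, e4]
    simp only [e5]
    exact mul_le_mul_of_nonneg_right (Y.sv_append_left u w) (hH0 w)
  have h2 : (Y.E k fun u => Y.sv u * Y.E m H) ≤ K * Y.E m H := by
    rw [Y.E_mul_right]
    exact mul_le_mul_of_nonneg_right (h.a_le k) (Y.E_nonneg' hH0)
  have hK : 0 ≤ K := zero_le_one.trans (one_le_K h)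
  refine (h1.trans h2).trans (mul_le_mul_of_nonneg_left ?_ hK)
  have hb : (Y.E m fun y => H (bar Y y)) = Y.E m H := (brf Y [] [] m H).2.2.2.2.2
  rw [← hb, Nat.add_comm k m, Y.E_add]
  refine Y.E_mono fun y hy => ?_
  have ht : m + k - j ≤ m := by omega
  have f1 : bar Y (bar Y y) = y := (brf Y y [] 0 fun _ => 0).2.2.1
  have f2 : (bar Y y).take (j - k) = bar Y (y.drop (m + k - j)) := by
    have e1 : y = y.take (m + k - j) ++ y.drop (m + k - j) := (List.take_append_drop _ _).symm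
    have e2 : bar Y y = bar Y (y.drop (m + k - j)) ++ bar Y (y.take (m + k - j)) := by
      conv_lhs => rw [e1]
      exact (brf Y (y.take (m + k - j)) (y.drop (m + k - j)) 0 fun _ => 0).2.2.2.1
    have e3 : (bar Y (y.drop (m + k - j))).length = j - k := by
      rw [(brf Y (y.drop (m + k - j)) [] 0 fun _ => 0).2.1, List.length_drop, hy]
      omega
    rw [e2]
    exact List.take_left' e3
  have f3 : Y.sm ((bar Y y).take (j - k)) = -(Y.sm y - Y.sm (y.take (m + k - j))) := by
    rw [f2, (brf Y (y.drop (m + k - j)) [] 0 fun _ => 0).1]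
    have e1 : Y.sm y = Y.sm (y.take (m + k - j)) + Y.sm (y.drop (m + k - j)) := by
      rw [← Sys.sm_append, List.take_append_drop]
    rw [e1]
    abel
  show gr Y g κ I (-(Y.sm ((bar Y y).take (j - k)))) * _ ≤ _
  rw [← Y.E_mul_left]
  refine Y.E_mono fun v hv => ?_
  rw [f1, f3, neg_neg]
  have e1 : (y ++ v).take m = y := List.take_left' hy
  have e2 : (y ++ v).take (m + k - j) = y.take (m + k - j) := by
    rw [List.take_append, hy, Nat.sub_eq_zero_of_le ht, List.take_zero, List.append_nil]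
  have e3 : ∑ i ∈ Ioc m (m + k), gr Y g κ I (Y.sm ((y ++ v).take i) -
      Y.sm ((y ++ v).take (m + k - j))) =
      ∑ s ∈ Ioc 0 k, gr Y g κ I (Y.sm (v.take s) - -(Y.sm y - Y.sm (y.take (m + k - j)))) := by
    refine (Finset.sum_nbij' (fun s => m + s) (fun i => i - m) ?_ ?_ ?_ ?_ ?_).symm
    · intro s hs
      rw [Finset.mem_Ioc] at hs ⊢
      omega
    · intro i hi
      rw [Finset.mem_Ioc] at hi ⊢
      omega
    · intro s _
      show m + s - m = s
      omega
    · intro i hi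
      rw [Finset.mem_Ioc] at hi
      show m + (i - m) = i
      omega
    · intro s hs
      have e4 : (y ++ v).take (m + s) = y ++ v.take s := by
        rw [List.take_append, hy, List.take_of_length_le (by omega), Nat.add_sub_cancel_left]
      rw [e2, e4, Sys.sm_append]
      congr 1
      abel
  rw [e3, e1, e2]
  have e5 : ind (Y.Saw (y ++ v)) = Y.sv (y ++ v) := by
    by_cases hs : Y.Saw (y ++ v)
    · rw [ind_of hs, Y.sv_of hs]
    · rw [ind_not hs, Y.sv_of_not hs]
  rw [e5]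
  have hg1 := g_le_one h v
  have hx : 0 ≤ Y.sv (y ++ v) * (gr Y g κ I (Y.sm y - Y.sm (y.take (m + k - j))) *
      ind (∑ s ∈ Ioc 0 k, gr Y g κ I (Y.sm (v.take s) -
        -(Y.sm y - Y.sm (y.take (m + k - j)))) ≤ c)) :=
    mul_nonneg (Y.sv_nonneg _) (mul_nonneg (hgr _) (ind_nonneg _))
  calc gr Y g κ I (Y.sm y - Y.sm (y.take (m + k - j))) * (g v * Y.sv (y ++ v) *
        ind (∑ s ∈ Ioc 0 k, gr Y g κ I (Y.sm (v.take s) -
          -(Y.sm y - Y.sm (y.take (m + k - j)))) ≤ c))
      = g v * (Y.sv (y ++ v) * (gr Y g κ I (Y.sm y - Y.sm (y.take (m + k - j))) *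
      ind (∑ s ∈ Ioc 0 k, gr Y g κ I (Y.sm (v.take s) -
        -(Y.sm y - Y.sm (y.take (m + k - j)))) ≤ c))) := by ring
    _ ≤ _ := mul_le_of_le_one_left hx hg1

/-- Backward part. `E n = E k E (n - k)`, `x = x' ++ x''`, the sum over `x'` (`|x'| = k`) is at most
`K`; `z = bar x'' ++ v` has length `n`, `z_(n - i) = x_i - x_n` for `i ≥ k` and `z_(n - k + s) = x_k +
v_s - x_n`; the integrand is at most `sv z * gr (z_(n-k) - z_(n-j)) * ind (∑ i ∈ Ioc (n - k) n,
gr (z_i - z_(n-j)) ≤ c)`; `brf` (last clause) for the sum over `x''`; sum over the cut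
`n - k > n - j` for fixed `z`: `tls`. -/
theorem bwd (h : Cc Y K g) (hκ : 0 < κ) {I : Finset ℕ} {A c : ℝ} (hA : ∀ y, gr Y g κ I y ≤ A)
    (hc : 0 ≤ c) {j n : ℕ} (hj : j ≤ n) :
    (Y.E n fun x => Y.sv x * ∑ k ∈ range j, gr Y g κ I (Y.sm (x.take k) - Y.sm (x.take j)) *
      Y.E k fun v => g v * ind (Y.Saw (bar Y (x.drop k) ++ v)) *
        ind (∑ s ∈ Ioc 0 k,
          gr Y g κ I (Y.sm (x.take k) + Y.sm (v.take s) - Y.sm (x.take j)) ≤ c)) ≤
      K ^ 2 * (A + c) := by
  have hgr : ∀ y, 0 ≤ gr Y g κ I y := fun y => (grn h hκ I y).1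
  have hA0 : 0 ≤ A := (hgr 0).trans (hA 0)
  have hK : 0 ≤ K := zero_le_one.trans (one_le_K h)
  have h1 : (Y.E n fun x => Y.sv x * ∑ k ∈ range j,
      gr Y g κ I (Y.sm (x.take k) - Y.sm (x.take j)) *
      Y.E k fun v => g v * ind (Y.Saw (bar Y (x.drop k) ++ v)) *
        ind (∑ s ∈ Ioc 0 k,
          gr Y g κ I (Y.sm (x.take k) + Y.sm (v.take s) - Y.sm (x.take j)) ≤ c)) =
      ∑ k ∈ range j, Y.E n fun x => Y.sv x *
        (gr Y g κ I (Y.sm (x.take k) - Y.sm (x.take j)) *
      Y.E k fun v => g v * ind (Y.Saw (bar Y (x.drop k) ++ v)) *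
        ind (∑ s ∈ Ioc 0 k,
          gr Y g κ I (Y.sm (x.take k) + Y.sm (v.take s) - Y.sm (x.take j)) ≤ c)) := by
    rw [← Y.E_fsum]
    refine Y.E_congr fun x _ => ?_
    rw [Finset.mul_sum]
  have h2 : ∀ k ∈ range j, (Y.E n fun x => Y.sv x *
        (gr Y g κ I (Y.sm (x.take k) - Y.sm (x.take j)) *
      Y.E k fun v => g v * ind (Y.Saw (bar Y (x.drop k) ++ v)) *
        ind (∑ s ∈ Ioc 0 k,
          gr Y g κ I (Y.sm (x.take k) + Y.sm (v.take s) - Y.sm (x.take j)) ≤ c))) ≤
      K * Y.E n fun z => Y.sv z * (gr Y g κ I (Y.sm (z.take (n - k)) - Y.sm (z.take (n - j))) *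
        ind (∑ i ∈ Ioc (n - k) n, gr Y g κ I (Y.sm (z.take i) - Y.sm (z.take (n - j))) ≤ c)) := by
    intro k hk
    have hkj : k < j := Finset.mem_range.1 hk
    have h3 := bwd_step (I := I) (c := c) (m := n - k) h hκ hkj (by omega)
    have h4 : k + (n - k) = n := by omega
    rw [h4] at h3
    exact h3
  rw [h1]
  refine (Finset.sum_le_sum h2).trans ?_
  rw [← Finset.mul_sum, ← Y.E_fsum]
  have h5 : (Y.E n fun z => ∑ k ∈ range j, Y.sv z *
      (gr Y g κ I (Y.sm (z.take (n - k)) - Y.sm (z.take (n - j))) *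
        ind (∑ i ∈ Ioc (n - k) n, gr Y g κ I (Y.sm (z.take i) - Y.sm (z.take (n - j))) ≤ c))) ≤
      Y.E n fun z => Y.sv z * (A + c) := by
    refine Y.E_mono fun z _ => ?_
    rw [← Finset.mul_sum]
    refine mul_le_mul_of_nonneg_left ?_ (Y.sv_nonneg z)
    have h6 := tls (fun i => gr Y g κ I (Y.sm (z.take i) - Y.sm (z.take (n - j))))
      (fun i => hgr _) (fun i => hA _) hc (n - j) n
    refine le_trans (le_of_eq ?_) h6
    refine Finset.sum_nbij' (fun k => n - k) (fun i => n - i) ?_ ?_ ?_ ?_ ?_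
    · intro k hk
      rw [Finset.mem_range] at hk
      rw [Finset.mem_Ioc]
      omega
    · intro i hi
      rw [Finset.mem_Ioc] at hi
      rw [Finset.mem_range]
      omega
    · intro k hk
      rw [Finset.mem_range] at hk
      show n - (n - k) = k
      omega
    · intro i hi
      rw [Finset.mem_Ioc] at hi
      show n - (n - i) = i
      omega
    · intro k _
      rfl
  have h7 : (Y.E n fun z => Y.sv z * (A + c)) ≤ K * (A + c) := by
    rw [Y.E_mul_right]
    exact mul_le_mul_of_nonneg_right (h.a_le n) (by linarith)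
  calc K * _ ≤ K * (K * (A + c)) := mul_le_mul_of_nonneg_left (h5.trans h7) hK
    _ = K ^ 2 * (A + c) := by ring
-- END bwd

-- BEGIN avs
theorem avs_app (Y : Sys S V) (u v : List S) : Y.sm (u ++ v) = Y.sm u + Y.sm v := by
  unfold Sys.sm
  rw [List.map_append, List.sum_append]

theorem avs_bar (Y : Sys S V) (w : List S) : Y.sm (bar Y w) = - Y.sm w := by
  unfold bar Sys.sm
  rw [List.map_reverse, List.sum_reverse]
  induction w with
  | nil => simp
  | cons s w ih =>
    rw [List.map_cons, List.map_cons, List.sum_cons, ih, List.map_cons, List.sum_cons, Y.vec_neg]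
    abel

theorem avs_iff (Y : Sys S V) (w : List S) :
    Y.Saw w ↔ ∀ i j, i < j → j ≤ w.length → Y.sm (w.take i) ≠ Y.sm (w.take j) := by
  constructor
  · intro h i j hij hj he
    have h1 : w.take j = w.take i ++ (w.take j).drop i := by
      have h2 := (List.take_append_drop i (w.take j)).symm
      rw [List.take_take, min_eq_left hij.le] at h2
      exact h2
    have h3 : (w.take j).drop i <:+: w :=
      (List.drop_suffix i (w.take j)).isInfix.trans (List.take_prefix j w).isInfix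
    have h4 : (w.take j).drop i ≠ [] := by
      intro h5
      have h6 := congrArg List.length h5
      rw [List.length_drop, List.length_take, min_eq_left hj, List.length_nil] at h6
      omega
    have h7 := h _ h3 h4
    rw [h1, avs_app] at he
    exact h7 (by simpa using he)
  · rintro h b ⟨s, t, hw⟩ hb he
    have h1 : w.take s.length = s := by
      rw [← hw, List.append_assoc, List.take_left]
    have h2 : w.take (s.length + b.length) = s ++ b := by
      rw [← hw, ← List.length_append, List.take_left]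
    have h3 : 0 < b.length := List.length_pos_iff.2 hb
    have h4 : s.length + b.length ≤ w.length := by
      rw [← hw, List.length_append, List.length_append]
      omega
    apply h s.length (s.length + b.length) (by omega) h4
    rw [h1, h2, avs_app, he, add_zero]

theorem avs_glue (Y : Sys S V) {y v : List S} (hy : Y.Saw y) (hv : Y.Saw v)
    (ha : ∀ s, 1 ≤ s → s ≤ v.length → ∀ i ≤ y.length,
      Y.sm y + Y.sm (v.take s) ≠ Y.sm (y.take i)) (m : ℕ) : Y.Saw (y ++ v.take m) := by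
  rw [avs_iff] at hy hv ⊢
  have hlow : ∀ i, i ≤ y.length → (y ++ v.take m).take i = y.take i := fun i hi =>
    List.take_append_of_le_length hi
  have hup : ∀ s, s ≤ (v.take m).length →
      (y ++ v.take m).take (y.length + s) = y ++ v.take s := by
    intro s hs
    rw [List.length_take] at hs
    rw [List.take_length_add_append, List.take_take, min_eq_left (by omega)]
  intro i j hij hj
  rw [List.length_append] at hj
  have hm : (v.take m).length ≤ v.length := by
    rw [List.length_take]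
    exact min_le_right _ _
  rcases Nat.lt_or_ge y.length j with hj1 | hj1
  · obtain ⟨s, rfl⟩ : ∃ s, j = y.length + s := ⟨j - y.length, by omega⟩
    rw [hup s (by omega), avs_app]
    rcases Nat.lt_or_ge y.length i with hi1 | hi1
    · obtain ⟨t, rfl⟩ : ∃ t, i = y.length + t := ⟨i - y.length, by omega⟩
      rw [hup t (by omega), avs_app]
      intro he
      exact hv t s (by omega) (by omega) (by simpa using he)
    · rw [hlow i hi1]
      intro he
      exact ha s (by omega) (by omega) i hi1 he.symm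
  · rw [hlow i (by omega), hlow j hj1]
    exact hy i j hij hj1

/-- If `v` (self-avoiding, attached to the place `k` of the self-avoiding word `x`) does not meet
`x`, then `x.take k ++ v.take m` and `bar (x.drop k) ++ v.take m` are self-avoiding: the points of
`x.take k ++ v'` are `x_i` (`i ≤ k`) and `x_k + v_s`. (Saw = injectivity of the points,
`saw_iff_take` of `Geo.lean` for the lattice; here from the definition: an infix with `sm = 0`.) -/
theorem avs (Y : Sys S V) {x v : List S} (hx : Y.Saw x) (hv : Y.Saw v) {k : ℕ}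
    (hk : k ≤ x.length) (ha : Av Y x k v) (m : ℕ) :
    Y.Saw (x.take k ++ v.take m) ∧ Y.Saw (bar Y (x.drop k) ++ v.take m) := by
  have hx' := (avs_iff Y x).1 hx
  constructor
  · apply avs_glue Y _ hv
    · intro s hs1 hs2 i hi
      rw [List.length_take, min_eq_left hk] at hi
      rw [List.take_take, min_eq_left hi]
      exact ha s hs1 hs2 i (by omega)
    · intro b hb hb0
      exact hx b (hb.trans (List.take_prefix k x).isInfix) hb0
  · have hlen : (bar Y (x.drop k)).length = x.length - k := by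
      unfold bar
      rw [List.length_reverse, List.length_map, List.length_drop]
    have htk : ∀ i, i ≤ x.length - k →
        Y.sm ((bar Y (x.drop k)).take i) = Y.sm (x.take (x.length - i)) - Y.sm x := by
      intro i hi
      have h1 : (bar Y (x.drop k)).take i = bar Y (x.drop (x.length - i)) := by
        unfold bar
        rw [List.take_reverse, List.length_map, List.length_drop, ← List.map_drop, List.drop_drop]
        congr 3
        omega
      rw [h1, avs_bar]
      have h2 : Y.sm x = Y.sm (x.take (x.length - i)) + Y.sm (x.drop (x.length - i)) := by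
        rw [← avs_app, List.take_append_drop]
      rw [h2]
      abel
    have hfull : Y.sm (bar Y (x.drop k)) = Y.sm (x.take k) - Y.sm x := by
      rw [avs_bar]
      have h2 : Y.sm x = Y.sm (x.take k) + Y.sm (x.drop k) := by
        rw [← avs_app, List.take_append_drop]
      rw [h2]
      abel
    apply avs_glue Y _ hv
    · intro s hs1 hs2 i hi
      rw [hlen] at hi
      rw [htk i hi, hfull]
      intro he
      apply ha s hs1 hs2 (x.length - i) (by omega)
      have h3 : Y.sm (x.take k) + Y.sm (v.take s)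
          = Y.sm (x.take k) - Y.sm x + Y.sm (v.take s) + Y.sm x := by abel
      rw [h3, he]
      abel
    · rw [avs_iff, hlen]
      intro i j hij hj
      rw [htk i (by omega), htk j hj]
      intro he
      exact hx' (x.length - j) (x.length - i) (by omega) (by omega) (sub_left_injective he).symm
-- END avs

-- BEGIN lvp
private theorem lvp_gen (h : Cc Y K g) (hκ : 0 < κ) {I : Finset ℕ} {T n m : ℕ} (hmn : m ≤ n)
    (hI : ∀ t ∈ I, t + n ≤ T) (c : ℝ) {x : List S} {j k : ℕ} (Q : List S → Prop)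
    (hQ : ∀ μ : List S, Y.Saw μ → Av Y x k μ → Q (μ.take m)) :
    (∑ t ∈ I, Y.E T fun v => g v * ind (κ ≤ g (bar Y v)) *
      (dl (Y.sm (x.take j) + Y.sm (v.take t) - Y.sm (x.take k)) * ind (Av Y x k (v.drop t))) *
        ind (∑ s ∈ range (T + 1), gr Y g κ I (Y.sm (v.take s)) ≤ c)) ≤
      gr Y g κ I (Y.sm (x.take k) - Y.sm (x.take j)) *
        Y.E m fun v => g v * ind (Q v) *
          ind (∑ s ∈ Ioc 0 m,
            gr Y g κ I (Y.sm (x.take k) + Y.sm (v.take s) - Y.sm (x.take j)) ≤ c) := by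
  set y : V := Y.sm (x.take k) - Y.sm (x.take j) with hy
  set φ : List S → ℝ := fun v => ind (Q v) *
    ind (∑ s ∈ Ioc 0 m, gr Y g κ I (Y.sm (x.take k) + Y.sm (v.take s) - Y.sm (x.take j)) ≤ c)
    with hφ
  have hφ0 : ∀ v, 0 ≤ φ v := fun v => mul_nonneg (ind_nonneg _) (ind_nonneg _)
  have hR : (Y.E m fun v => g v * ind (Q v) *
      ind (∑ s ∈ Ioc 0 m,
        gr Y g κ I (Y.sm (x.take k) + Y.sm (v.take s) - Y.sm (x.take j)) ≤ c)) =
      Y.E m fun v => g v * φ v := Y.E_congr fun v _ => by rw [hφ]; ring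
  rw [hR]
  have hgr : gr Y g κ I y = ∑ t ∈ I, Y.E t fun u => ind (κ ≤ g (bar Y u)) * dl (Y.sm u - y) := rfl
  rw [hgr, Finset.sum_mul]
  refine Finset.sum_le_sum fun t ht => ?_
  have htT := hI t ht
  obtain ⟨r, hr⟩ : ∃ r, T = t + (m + r) := ⟨T - t - m, by omega⟩
  subst hr
  rw [Y.E_add, ← Y.E_mul_right]
  refine Y.E_mono fun α hα => ?_
  rw [← E_take h m r φ, ← Y.E_mul_left]
  refine Y.E_mono fun μ hμ => ?_
  have hgμ := h.nonneg μ
  have hta : (α ++ μ).take t = α := List.take_left' hα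
  have hda : (α ++ μ).drop t = μ := List.drop_left' hα
  rw [hta, hda]
  have hL0 : 0 ≤ ind (κ ≤ g (bar Y α)) * dl (Y.sm α - y) * (g μ * φ (μ.take m)) :=
    mul_nonneg (mul_nonneg (ind_nonneg _) (dl_nonneg _)) (mul_nonneg hgμ (hφ0 _))
  by_cases hd : Y.sm α - y = 0
  · by_cases hA : Av Y x k μ
    · by_cases hs : Y.Saw μ
      · by_cases hc : ∑ s ∈ range (t + (m + r) + 1), gr Y g κ I (Y.sm ((α ++ μ).take s)) ≤ c
        · by_cases hb : κ ≤ g (bar Y (α ++ μ))
          · have hb' : κ ≤ g (bar Y α) := by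
              have := brt h (α ++ μ) t
              rw [hta] at this
              exact hb.trans this
            have hd' : Y.sm (x.take j) + Y.sm α - Y.sm (x.take k) = 0 := by
              rw [← hd, hy]; abel
            have hc' : ∑ s ∈ Ioc 0 m, gr Y g κ I (Y.sm (x.take k) + Y.sm ((μ.take m).take s) -
                Y.sm (x.take j)) ≤ c := by
              refine le_trans ?_ hc
              have e1 : ∑ s ∈ Ioc 0 m, gr Y g κ I (Y.sm (x.take k) + Y.sm ((μ.take m).take s) -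
                  Y.sm (x.take j)) =
                  ∑ s ∈ (Ioc 0 m).map (addLeftEmbedding t),
                    gr Y g κ I (Y.sm ((α ++ μ).take s)) := by
                rw [Finset.sum_map]
                refine Finset.sum_congr rfl fun s hs' => ?_
                rw [Finset.mem_Ioc] at hs'
                congr 1
                have e2 : (α ++ μ).take (addLeftEmbedding t s) = α ++ μ.take s := by
                  show (α ++ μ).take (t + s) = _
                  rw [← hα, List.take_length_add_append]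
                rw [e2, Y.sm_append, List.take_take, min_eq_left hs'.2]
                have e3 : Y.sm α = y := sub_eq_zero.1 hd
                rw [e3, hy]; abel
              rw [e1]
              refine Finset.sum_le_sum_of_subset_of_nonneg ?_ fun s _ _ => (grn h hκ I _).1
              intro s hs'
              rw [Finset.mem_map] at hs'
              obtain ⟨s', hs1, rfl⟩ := hs'
              rw [Finset.mem_Ioc] at hs1
              rw [Finset.mem_range]
              show t + s' < _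
              omega
            have hφ1 : φ (μ.take m) = 1 := by
              rw [hφ]
              show ind _ * ind _ = 1
              rw [ind_of (hQ μ hs hA), ind_of hc', mul_one]
            rw [ind_of hb, ind_of hb', hd', hd, dl_zero, ind_of hA, ind_of hc, hφ1]
            simp only [mul_one, one_mul]
            exact h.drop α μ
          · rw [ind_not hb]
            simp only [mul_zero, zero_mul]
            exact hL0
        · rw [ind_not hc, mul_zero]
          exact hL0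
      · have h0 : g (α ++ μ) = 0 := by
          have h1 := g_mul_sv h (α ++ μ)
          rw [Y.sv_of_not fun h2 => hs fun b hb => h2 b (hb.trans (List.suffix_append α μ).isInfix),
            mul_zero] at h1
          exact h1.symm
        rw [h0, zero_mul, zero_mul, zero_mul]
        exact hL0
    · rw [ind_not hA, mul_zero, mul_zero, zero_mul]
      exact hL0
  · have hd' : Y.sm (x.take j) + Y.sm α - Y.sm (x.take k) ≠ 0 := by
      intro h1
      apply hd
      rw [← h1, hy]; abel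
    rw [dl_of_ne hd', zero_mul, mul_zero, zero_mul]
    exact hL0

/-- Pointwise bound of the not bad part for one word `x`, one start `j`. For `t ∈ I` write
`v = α ++ μ`, `|α| = t`, `|μ| = T - t ≥ n`: `g v ≤ g μ`, `ind (κ ≤ g (bar v)) ≤ ind (κ ≤ g (bar α))`
(`brt`); `dl (x_j + sm α - x_k) = 1` gives `sm α = x_k - x_j`, and `∑ s ≤ T, gr (v_s) ≤ c` gives
`∑ s ∈ Ioc 0 m, gr (x_k - x_j + sm (μ.take s)) ≤ c` for `m ≤ T - t`; `avs` gives the self-avoiding
words; replace `μ` by its prefix of length `n - k` (or `k`) by right consistency; the sum over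
`t ∈ I` and `α` is `gr (x_k - x_j)`; `k = j` gives `gr 0 = 0`. -/
theorem lvp (h : Cc Y K g) (hκ : 0 < κ) {I : Finset ℕ} (hI0 : 0 ∉ I) {T n : ℕ}
    (hI : ∀ t ∈ I, t + n ≤ T) (c : ℝ) {x : List S} (hx : Y.Saw x) (hn : x.length = n) {j : ℕ}
    (hj : j ≤ n) :
    (∑ k ∈ range (n + 1), ∑ t ∈ I, Y.E T fun v => g v * ind (κ ≤ g (bar Y v)) *
      (dl (Y.sm (x.take j) + Y.sm (v.take t) - Y.sm (x.take k)) * ind (Av Y x k (v.drop t))) *
        ind (∑ s ∈ range (T + 1), gr Y g κ I (Y.sm (v.take s)) ≤ c)) ≤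
      (∑ k ∈ Ioc j n, gr Y g κ I (Y.sm (x.take k) - Y.sm (x.take j)) *
        Y.E (n - k) fun v => g v * ind (Y.Saw (x.take k ++ v)) *
          ind (∑ s ∈ Ioc 0 (n - k),
            gr Y g κ I (Y.sm (x.take k) + Y.sm (v.take s) - Y.sm (x.take j)) ≤ c)) +
      ∑ k ∈ range j, gr Y g κ I (Y.sm (x.take k) - Y.sm (x.take j)) *
        Y.E k fun v => g v * ind (Y.Saw (bar Y (x.drop k) ++ v)) *
          ind (∑ s ∈ Ioc 0 k,
            gr Y g κ I (Y.sm (x.take k) + Y.sm (v.take s) - Y.sm (x.take j)) ≤ c) := by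
  have hx' : ∀ k ≤ n, k ≤ x.length := fun k hk => hn ▸ hk
  have hsplit : ∀ F : ℕ → ℝ, ∑ k ∈ range (n + 1), F k =
      ∑ k ∈ Ioc j n, F k + (F j + ∑ k ∈ range j, F k) := by
    intro F
    rw [Finset.range_eq_Ico, ← Finset.sum_Ico_consecutive F (Nat.zero_le j) (by omega : j ≤ n + 1),
      Finset.sum_eq_sum_Ico_succ_bot (by omega : j < n + 1)]
    have e1 : Ico (j + 1) (n + 1) = Ioc j n := by
      ext a
      rw [Finset.mem_Ico, Finset.mem_Ioc]
      omega
    rw [e1, Finset.range_eq_Ico]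
    ring
  rw [hsplit]
  have hmid : (∑ t ∈ I, Y.E T fun v => g v * ind (κ ≤ g (bar Y v)) *
      (dl (Y.sm (x.take j) + Y.sm (v.take t) - Y.sm (x.take j)) * ind (Av Y x j (v.drop t))) *
        ind (∑ s ∈ range (T + 1), gr Y g κ I (Y.sm (v.take s)) ≤ c)) ≤ 0 := by
    have h1 := lvp_gen h hκ (m := 0) (Nat.zero_le n) hI c (x := x) (j := j) (k := j)
      (fun _ => True) fun _ _ _ => trivial
    rw [sub_self, (grn h hκ I 0).2 hI0, zero_mul] at h1
    exact h1
  have hfw : (∑ k ∈ Ioc j n, ∑ t ∈ I, Y.E T fun v => g v * ind (κ ≤ g (bar Y v)) *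
      (dl (Y.sm (x.take j) + Y.sm (v.take t) - Y.sm (x.take k)) * ind (Av Y x k (v.drop t))) *
        ind (∑ s ∈ range (T + 1), gr Y g κ I (Y.sm (v.take s)) ≤ c)) ≤
      ∑ k ∈ Ioc j n, gr Y g κ I (Y.sm (x.take k) - Y.sm (x.take j)) *
        Y.E (n - k) fun v => g v * ind (Y.Saw (x.take k ++ v)) *
          ind (∑ s ∈ Ioc 0 (n - k),
            gr Y g κ I (Y.sm (x.take k) + Y.sm (v.take s) - Y.sm (x.take j)) ≤ c) := by
    refine Finset.sum_le_sum fun k hk => ?_
    rw [Finset.mem_Ioc] at hk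
    exact lvp_gen h hκ (Nat.sub_le n k) hI c (fun v => Y.Saw (x.take k ++ v)) fun μ hμ ha =>
      (avs Y hx hμ (hx' k hk.2) ha (n - k)).1
  have hbw : (∑ k ∈ range j, ∑ t ∈ I, Y.E T fun v => g v * ind (κ ≤ g (bar Y v)) *
      (dl (Y.sm (x.take j) + Y.sm (v.take t) - Y.sm (x.take k)) * ind (Av Y x k (v.drop t))) *
        ind (∑ s ∈ range (T + 1), gr Y g κ I (Y.sm (v.take s)) ≤ c)) ≤
      ∑ k ∈ range j, gr Y g κ I (Y.sm (x.take k) - Y.sm (x.take j)) *
        Y.E k fun v => g v * ind (Y.Saw (bar Y (x.drop k) ++ v)) *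
          ind (∑ s ∈ Ioc 0 k,
            gr Y g κ I (Y.sm (x.take k) + Y.sm (v.take s) - Y.sm (x.take j)) ≤ c) := by
    refine Finset.sum_le_sum fun k hk => ?_
    rw [Finset.mem_range] at hk
    exact lvp_gen h hκ (by omega : k ≤ n) hI c (fun v => Y.Saw (bar Y (x.drop k) ++ v))
      fun μ hμ ha => (avs Y hx hμ (hx' k (by omega)) ha k).2
  linarith
-- END lvp

-- BEGIN grp
private theorem grp_split (S c : ℝ) : ind (S ≤ c) + ind (c < S) = 1 := by
  by_cases hs : S ≤ c
  · rw [ind_of hs, ind_not (not_lt.mpr hs), add_zero]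
  · rw [ind_not hs, ind_of (not_le.mp hs), zero_add]

private theorem grp_one (h : Cc Y K g) (hκ : 0 < κ) {I : Finset ℕ} (hI0 : 0 ∉ I) {T n : ℕ}
    (hI : ∀ t ∈ I, t + n ≤ T) {l e : ℝ} (hl : 0 < l) (he : 0 < e)
    (hLL : LL Y g κ (range (T + 1)) I ≤ e) {x : List S} (hx : Y.Saw x) (hn : x.length = n)
    {j : ℕ} (hj : j ≤ n) :
    lv Y g κ T I x j ≤
      ((∑ k ∈ Ioc j n, gr Y g κ I (Y.sm (x.take k) - Y.sm (x.take j)) *
        Y.E (n - k) fun v => g v * ind (Y.Saw (x.take k ++ v)) *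
          ind (∑ s ∈ Ioc 0 (n - k),
            gr Y g κ I (Y.sm (x.take k) + Y.sm (v.take s) - Y.sm (x.take j)) ≤ l * e)) +
      ∑ k ∈ range j, gr Y g κ I (Y.sm (x.take k) - Y.sm (x.take j)) *
        Y.E k fun v => g v * ind (Y.Saw (bar Y (x.drop k) ++ v)) *
          ind (∑ s ∈ Ioc 0 k,
            gr Y g κ I (Y.sm (x.take k) + Y.sm (v.take s) - Y.sm (x.take j)) ≤ l * e)) +
      1 / l := by
  classical
  set D : List S → ℕ → ℕ → ℝ := fun v k t =>
    dl (Y.sm (x.take j) + Y.sm (v.take t) - Y.sm (x.take k)) * ind (Av Y x k (v.drop t)) with hD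
  have hD0 : ∀ v k t, 0 ≤ D v k t := fun v k t => mul_nonneg (dl_nonneg _) (ind_nonneg _)
  set Sv : List S → ℝ := fun v => ∑ s ∈ range (T + 1), gr Y g κ I (Y.sm (v.take s)) with hSv
  set G : List S → ℝ := fun v => g v * ind (κ ≤ g (bar Y v)) with hG
  have hG0 : ∀ v, 0 ≤ G v := fun v => mul_nonneg (h.nonneg v) (ind_nonneg _)
  have h1 : lv Y g κ T I x j = (∑ k ∈ range (n + 1), ∑ t ∈ I, Y.E T fun v =>
      G v * D v k t * ind (Sv v ≤ l * e)) +
      Y.E T fun v => G v * ind (l * e < Sv v) * ∑ k ∈ range (n + 1), ∑ t ∈ I, D v k t := by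
    have e1 : (Y.E T fun v => G v * ind (l * e < Sv v) * ∑ k ∈ range (n + 1), ∑ t ∈ I, D v k t) =
        ∑ k ∈ range (n + 1), ∑ t ∈ I, Y.E T fun v => G v * D v k t * ind (l * e < Sv v) := by
      have e2 : ∀ v : List S, G v * ind (l * e < Sv v) * ∑ k ∈ range (n + 1), ∑ t ∈ I, D v k t =
          ∑ k ∈ range (n + 1), ∑ t ∈ I, G v * D v k t * ind (l * e < Sv v) := by
        intro v
        rw [Finset.mul_sum]
        refine Finset.sum_congr rfl fun k _ => ?_
        rw [Finset.mul_sum]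
        refine Finset.sum_congr rfl fun t _ => ?_
        ring
      rw [Y.E_congr fun v _ => e2 v, Y.E_fsum]
      refine Finset.sum_congr rfl fun k _ => ?_
      rw [Y.E_fsum]
    rw [e1, ← Finset.sum_add_distrib]
    unfold lv
    rw [hn]
    refine Finset.sum_congr rfl fun k _ => ?_
    rw [← Finset.sum_add_distrib]
    refine Finset.sum_congr rfl fun t _ => ?_
    rw [← Y.E_fadd]
    refine Y.E_congr fun v _ => ?_
    rw [← mul_add, grp_split, mul_one]
  rw [h1]
  refine add_le_add ?_ ?_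
  · exact lvp h hκ hI0 hI (l * e) hx hn hj
  · refine le_trans (Y.E_mono fun v hv => ?_) (bdm h hl he hLL)
    have h2 : ∑ k ∈ range (n + 1), ∑ t ∈ I, D v k t ≤ 1 := by
      have h3 := lvs Y hx (j := j) (by rw [hn]; exact hj) v
      rw [hn, hv] at h3
      rw [← h3]
      refine Finset.sum_le_sum fun k _ => ?_
      refine Finset.sum_le_sum_of_subset_of_nonneg (fun t ht => ?_) fun t _ _ => hD0 v k t
      have := hI t ht
      exact Finset.mem_range.2 (by omega)
    calc G v * ind (l * e < Sv v) * ∑ k ∈ range (n + 1), ∑ t ∈ I, D v k t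
        ≤ G v * ind (l * e < Sv v) * 1 :=
          mul_le_mul_of_nonneg_left h2 (mul_nonneg (hG0 v) (ind_nonneg _))
      _ = G v * ind (l * e < Sv v) := mul_one _

/-- One group. `lv = bad part + not bad part` (`c = l * e`): bad part: `∑ k ∑ t ∈ I (..) ≤ 1`
pointwise (`lvs`), so it is at most `1 / l` for every `x`, `j` (`bdm`), total `(n + 1) * K / l`;
not bad part: `lvp`, `fwd`, `bwd` for every `j ≤ n`. -/
theorem grp (h : Cc Y K g) (hκ : 0 < κ) {I : Finset ℕ} (hI0 : 0 ∉ I) {T n : ℕ}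
    (hI : ∀ t ∈ I, t + n ≤ T) {A l e : ℝ} (hl : 0 < l) (he : 0 < e)
    (hA : ∀ y, gr Y g κ I y ≤ A) (hLL : LL Y g κ (range (T + 1)) I ≤ e) :
    (Y.E n fun x => Y.sv x * ∑ j ∈ range (n + 1), lv Y g κ T I x j) ≤
      (n + 1) * (2 * K ^ 2 * (A + l * e) + K / l) := by
  have hc : 0 ≤ l * e := (mul_pos hl he).le
  set P : List S → ℕ → ℝ := fun x j =>
    ∑ k ∈ Ioc j n, gr Y g κ I (Y.sm (x.take k) - Y.sm (x.take j)) *
        Y.E (n - k) fun v => g v * ind (Y.Saw (x.take k ++ v)) *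
          ind (∑ s ∈ Ioc 0 (n - k),
            gr Y g κ I (Y.sm (x.take k) + Y.sm (v.take s) - Y.sm (x.take j)) ≤ l * e) with hP
  set Q : List S → ℕ → ℝ := fun x j =>
    ∑ k ∈ range j, gr Y g κ I (Y.sm (x.take k) - Y.sm (x.take j)) *
        Y.E k fun v => g v * ind (Y.Saw (bar Y (x.drop k) ++ v)) *
          ind (∑ s ∈ Ioc 0 k,
            gr Y g κ I (Y.sm (x.take k) + Y.sm (v.take s) - Y.sm (x.take j)) ≤ l * e) with hQ
  have h1 : (Y.E n fun x => Y.sv x * ∑ j ∈ range (n + 1), lv Y g κ T I x j) ≤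
      Y.E n fun x => ∑ j ∈ range (n + 1), (Y.sv x * P x j + Y.sv x * Q x j + Y.sv x * (1 / l)) := by
    refine Y.E_mono fun x hx => ?_
    rw [Finset.mul_sum]
    refine Finset.sum_le_sum fun j hj => ?_
    have hj' : j ≤ n := by
      have := Finset.mem_range.1 hj
      omega
    by_cases hs : Y.Saw x
    · rw [Y.sv_of hs, one_mul, one_mul, one_mul, one_mul]
      exact grp_one h hκ hI0 hI hl he hLL hs hx hj'
    · rw [Y.sv_of_not hs, zero_mul, zero_mul, zero_mul, zero_mul, add_zero, add_zero]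
  refine h1.trans ?_
  rw [Y.E_fsum]
  have h2 : ∀ j ∈ range (n + 1), (Y.E n fun x => Y.sv x * P x j + Y.sv x * Q x j +
      Y.sv x * (1 / l)) ≤ 2 * K ^ 2 * (A + l * e) + K / l := by
    intro j hj
    have hj' : j ≤ n := by
      have := Finset.mem_range.1 hj
      omega
    rw [Y.E_fadd, Y.E_fadd, Y.E_mul_right]
    have e1 := fwd h hκ hA hc hj'
    have e2 := bwd h hκ hA hc hj'
    have e3 : Y.E n Y.sv * (1 / l) ≤ K / l := by
      rw [mul_one_div]
      exact div_le_div_of_nonneg_right (h.a_le n) hl.le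
    have e4 : (Y.E n fun x => Y.sv x) = Y.E n Y.sv := rfl
    rw [e4]
    linarith
  refine (Finset.sum_le_sum h2).trans (le_of_eq ?_)
  rw [Finset.sum_const, Finset.card_range, nsmul_eq_mul]
  push_cast
  ring
-- END grp

-- BEGIN pea
/-- `pe` decreases in `M` (right consistency; `Av Y x k (v ++ v')` implies `Av Y x k v`) and lies in
`[0, 1]`. -/
theorem pea (h : Cc Y K g) {M N : ℕ} (hMN : M ≤ N) (x : List S) (k : ℕ) :
    0 ≤ pe Y g N x k ∧ pe Y g N x k ≤ pe Y g M x k ∧ pe Y g M x k ≤ 1 := by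
  refine ⟨Y.E_nonneg' fun v => mul_nonneg (h.nonneg v) (ind_nonneg _), ?_, ?_⟩
  · obtain ⟨n, rfl⟩ : ∃ n, N = M + n := ⟨N - M, by omega⟩
    unfold pe
    rw [Y.E_add]
    refine Y.E_mono fun u _ => ?_
    have h1 : (Y.E n fun w => g (u ++ w) * ind (Av Y x k (u ++ w))) ≤
        Y.E n fun w => g (u ++ w) * ind (Av Y x k u) := by
      refine Y.E_mono fun w _ => mul_le_mul_of_nonneg_left (ind_mono ?_) (h.nonneg _)
      intro ha s hs1 hs2 i hi
      have h2 := ha s hs1 (by rw [List.length_append]; omega) i hi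
      rwa [List.take_append_of_le_length hs2] at h2
    refine h1.trans ?_
    rw [Y.E_mul_right, h.right]
  · have h1 : pe Y g M x k ≤ Y.E M g := by
      refine Y.E_mono fun v _ => ?_
      exact mul_le_of_le_one_right (h.nonneg v) (ind_le_one _)
    rwa [E_g h] at h1
-- END pea

-- BEGIN sml
private theorem sml_ne {w : List S} (hw : Y.Saw w) {i j : ℕ} (hij : i < j)
    (hj : j ≤ w.length) : Y.sm (w.take i) ≠ Y.sm (w.take j) := by
  intro e
  have hb : (w.take j).drop i <:+: w :=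
    (List.drop_suffix i _).isInfix.trans (List.take_prefix j w).isInfix
  have hne : (w.take j).drop i ≠ [] := by
    intro h0
    have := congrArg List.length h0
    rw [List.length_drop, List.length_take, List.length_nil] at this
    omega
  have h1 : w.take j = w.take i ++ (w.take j).drop i := by
    have := List.take_append_drop i (w.take j)
    rw [List.take_take, min_eq_left hij.le] at this
    exact this.symm
  have h2 : Y.sm (w.take j) = Y.sm (w.take i) + Y.sm ((w.take j).drop i) := by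
    conv_lhs => rw [h1]
    rw [Y.sm_append]
  rw [← e] at h2
  exact hw _ hb hne (left_eq_add.1 h2)

private theorem sml_inj {w : List S} (hw : Y.Saw w) {i j : ℕ} (hi : i ≤ w.length)
    (hj : j ≤ w.length) (e : Y.sm (w.take i) = Y.sm (w.take j)) : i = j := by
  rcases lt_trichotomy i j with h1 | h1 | h1
  · exact absurd e (sml_ne hw h1 hj)
  · exact h1
  · exact absurd e.symm (sml_ne hw h1 hi)

/-- at most one place `j` -/
private theorem sml_one {x : List S} (hx : Y.Saw x) (a b : V) :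
    ∑ j ∈ range (x.length + 1), dl (Y.sm (x.take j) + a - b) ≤ 1 := by
  by_cases hex : ∃ j ∈ range (x.length + 1), Y.sm (x.take j) + a - b = 0
  · obtain ⟨j, hj, hj0⟩ := hex
    rw [Finset.sum_eq_single_of_mem j hj]
    · exact dl_le_one _
    · intro i hi hij
      refine dl_of_ne fun h0 => hij ?_
      rw [Finset.mem_range] at hi hj
      refine sml_inj hx (by omega) (by omega) ?_
      have h1 : Y.sm (x.take i) + a - b = Y.sm (x.take j) + a - b := by rw [h0, hj0]
      exact add_right_cancel (sub_left_injective h1)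
  · rw [Finset.sum_eq_zero]
    · norm_num
    · intro j hj
      exact dl_of_ne fun h0 => hex ⟨j, hj, h0⟩

/-- a word that is good at the start is self-avoiding -/
private theorem sml_sv (h : Cc Y K g) (hκ : 0 < κ) (u v : List S) :
    ind (κ ≤ g (bar Y (u ++ v))) ≤ Y.sv u := by
  by_cases h1 : κ ≤ g (bar Y (u ++ v))
  · have h2 := brt h (u ++ v) u.length
    rw [List.take_left' rfl] at h2
    have h3 := h.le_sv (bar Y u)
    rw [(brf Y u [] 0 fun _ => 0).2.2.2.2.1] at h3
    by_cases hs : Y.Saw u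
    · rw [Y.sv_of hs]
      exact ind_le_one _
    · rw [Y.sv_of_not hs] at h3
      exfalso
      linarith
  · rw [ind_not h1]
    exact Y.sv_nonneg u

/-- one place `k`, one time `t` -/
private theorem sml_kt (h : Cc Y K g) (hκ : 0 < κ) {T t0 t : ℕ} (ht : t0 ≤ T) (htt : t < t0)
    (x : List S) (k : ℕ) :
    (Y.E T fun v => g v * ind (κ ≤ g (bar Y v)) * ind (Av Y x k (v.drop t))) ≤
      K * pe Y g (T - t0) x k := by
  obtain ⟨m, rfl⟩ : ∃ m, T = t + m := ⟨T - t, by omega⟩
  rw [Y.E_add]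
  have hpe := pea h (show t + m - t0 ≤ m by omega) x k
  have h1 : (Y.E t fun u => Y.E m fun w => g (u ++ w) * ind (κ ≤ g (bar Y (u ++ w))) *
      ind (Av Y x k ((u ++ w).drop t))) ≤ Y.E t fun u => Y.sv u * pe Y g m x k := by
    refine Y.E_mono fun u hu => ?_
    unfold pe
    rw [← Y.E_mul_left]
    refine Y.E_mono fun w _ => ?_
    rw [List.drop_left' hu]
    have h2 := sml_sv h hκ u w
    have h3 := h.drop u w
    have h4 := h.nonneg w
    have h5 := ind_nonneg (Av Y x k w)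
    calc g (u ++ w) * ind (κ ≤ g (bar Y (u ++ w))) * ind (Av Y x k w)
        ≤ g w * Y.sv u * ind (Av Y x k w) :=
          mul_le_mul_of_nonneg_right (mul_le_mul h3 h2 (ind_nonneg _) h4) h5
      _ = Y.sv u * (g w * ind (Av Y x k w)) := by ring
  refine h1.trans ?_
  rw [Y.E_mul_right]
  exact mul_le_mul (h.a_le t) hpe.2.1 hpe.1 (zero_le_one.trans (one_le_K h))

/-- Short times: `v = α ++ μ`, `|α| = t < t0`, `g v ≤ g μ`, `ind (κ ≤ g (bar v)) ≤ sv α` (`hκ`);
`∑ j ≤ n, dl (x_j + sm α - x_k) ≤ 1` (`x` self-avoiding); `Y.E t sv ≤ K`; `Y.E (T - t) [g μ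
ind (Av Y x k μ)] = pe (T - t) ≤ pe (T - t0)`. -/
theorem sml (h : Cc Y K g) (hκ : 0 < κ) {T t0 : ℕ} (ht : t0 ≤ T) {x : List S} (hx : Y.Saw x) :
    ∑ j ∈ range (x.length + 1), lv Y g κ T (range t0) x j ≤
      K * t0 * ∑ k ∈ range (x.length + 1), pe Y g (T - t0) x k := by
  unfold lv
  rw [Finset.sum_comm, Finset.mul_sum]
  refine Finset.sum_le_sum fun k _ => ?_
  rw [Finset.sum_comm]
  have h1 : ∀ t ∈ range t0, (∑ j ∈ range (x.length + 1), Y.E T fun v =>
      g v * ind (κ ≤ g (bar Y v)) * (dl (Y.sm (x.take j) + Y.sm (v.take t) - Y.sm (x.take k)) *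
        ind (Av Y x k (v.drop t)))) ≤ K * pe Y g (T - t0) x k := by
    intro t ht1
    rw [Finset.mem_range] at ht1
    refine le_trans ?_ (sml_kt h hκ ht ht1 x k)
    rw [← Y.E_fsum]
    refine Y.E_mono fun v _ => ?_
    have h2 : ∑ j ∈ range (x.length + 1), g v * ind (κ ≤ g (bar Y v)) *
        (dl (Y.sm (x.take j) + Y.sm (v.take t) - Y.sm (x.take k)) * ind (Av Y x k (v.drop t))) =
        g v * ind (κ ≤ g (bar Y v)) * ind (Av Y x k (v.drop t)) *
          ∑ j ∈ range (x.length + 1), dl (Y.sm (x.take j) + Y.sm (v.take t) -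
            Y.sm (x.take k)) := by
      rw [Finset.mul_sum]
      exact Finset.sum_congr rfl fun j _ => by ring
    rw [h2]
    exact mul_le_of_le_one_right (mul_nonneg (mul_nonneg (h.nonneg v) (ind_nonneg _))
      (ind_nonneg _)) (sml_one hx _ _)
  refine (Finset.sum_le_sum h1).trans (le_of_eq ?_)
  rw [Finset.sum_const, Finset.card_range, nsmul_eq_mul]
  ring
-- END sml

-- BEGIN lte
/-- pointwise: a late last visit to the place `k` makes the walk visit `Ω` -/
private theorem lte_pt (Y : Sys S V) {x v : List S} (hx : Y.Saw x) {j T T0 : ℕ}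
    (hj : j ≤ x.length) (hv : v.length = T) {Ω : Set V}
    (hΩ : ∀ k ≤ x.length, Y.sm (x.take k) - Y.sm (x.take j) ∈ Ω) :
    ∑ k ∈ range (x.length + 1), ∑ t ∈ Ico T0 (T + 1),
      dl (Y.sm (x.take j) + Y.sm (v.take t) - Y.sm (x.take k)) * ind (Av Y x k (v.drop t)) ≤
      ind (∃ i, T0 ≤ i ∧ i ≤ T ∧ Y.sm (v.take i) ∈ Ω) := by
  by_cases hex : ∃ i, T0 ≤ i ∧ i ≤ T ∧ Y.sm (v.take i) ∈ Ω
  · rw [ind_of hex, ← lvs Y hx hj v, hv]
    refine Finset.sum_le_sum fun k _ => Finset.sum_le_sum_of_subset_of_nonneg ?_ fun t _ _ =>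
      mul_nonneg (dl_nonneg _) (ind_nonneg _)
    intro t ht
    rw [Finset.mem_Ico] at ht
    rw [Finset.mem_range]
    exact ht.2
  · rw [ind_not hex]
    refine le_of_eq (Finset.sum_eq_zero fun k hk => Finset.sum_eq_zero fun t ht => ?_)
    rw [Finset.mem_range] at hk
    rw [Finset.mem_Ico] at ht
    rw [dl_of_ne, zero_mul]
    intro h0
    refine hex ⟨t, ht.1, by omega, ?_⟩
    have h1 : Y.sm (v.take t) = Y.sm (x.take k) - Y.sm (x.take j) :=
      eq_sub_of_add_eq' (sub_eq_zero.1 h0)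
    rw [h1]
    exact hΩ k (by omega)

/-- Late times: `transience` for the finite set of all differences `x_k - x_j` of words of length
`n`; `∑ k ∑ t (..) ≤ ind (∃ i, T0 ≤ i ∧ i ≤ T ∧ sm (v.take i) ∈ Ω)` pointwise (`lvs`). -/
theorem lte (h : Cc Y K g) (κ : ℝ) (n : ℕ) {ε : ℝ} (hε : 0 < ε) :
    ∃ T0 : ℕ, ∀ T : ℕ, ∀ x : List S, x.length = n → Y.Saw x → ∀ j ≤ n,
      lv Y g κ T (Ico T0 (T + 1)) x j ≤ ε := by
  classical
  set Ω : Finset V := (Finset.univ : Finset ((Fin n → S) × Fin (n + 1) × Fin (n + 1))).image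
    fun p => Y.sm ((List.ofFn p.1).take p.2.1) - Y.sm ((List.ofFn p.1).take p.2.2) with hΩ
  obtain ⟨T0, hT0⟩ := transience h Ω hε
  refine ⟨T0, fun T x hx hs j hj => ?_⟩
  refine le_trans ?_ (hT0 T)
  unfold lv
  have h1 : (∑ k ∈ range (x.length + 1), ∑ t ∈ Ico T0 (T + 1), Y.E T fun v =>
      g v * ind (κ ≤ g (bar Y v)) * (dl (Y.sm (x.take j) + Y.sm (v.take t) - Y.sm (x.take k)) *
        ind (Av Y x k (v.drop t)))) = Y.E T fun v => ∑ k ∈ range (x.length + 1),
      ∑ t ∈ Ico T0 (T + 1), g v * ind (κ ≤ g (bar Y v)) *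
        (dl (Y.sm (x.take j) + Y.sm (v.take t) - Y.sm (x.take k)) *
          ind (Av Y x k (v.drop t))) := by
    rw [Y.E_fsum]
    exact Finset.sum_congr rfl fun k _ => (Y.E_fsum _ _ _).symm
  rw [h1]
  refine Y.E_mono fun v hv => ?_
  have h2 : ∑ k ∈ range (x.length + 1), ∑ t ∈ Ico T0 (T + 1), g v * ind (κ ≤ g (bar Y v)) *
      (dl (Y.sm (x.take j) + Y.sm (v.take t) - Y.sm (x.take k)) * ind (Av Y x k (v.drop t))) =
      g v * (ind (κ ≤ g (bar Y v)) * ∑ k ∈ range (x.length + 1), ∑ t ∈ Ico T0 (T + 1),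
        dl (Y.sm (x.take j) + Y.sm (v.take t) - Y.sm (x.take k)) *
          ind (Av Y x k (v.drop t))) := by
    rw [Finset.mul_sum, Finset.mul_sum]
    refine Finset.sum_congr rfl fun k _ => ?_
    rw [Finset.mul_sum, Finset.mul_sum]
    exact Finset.sum_congr rfl fun t _ => by ring
  rw [h2]
  refine mul_le_mul_of_nonneg_left ?_ (h.nonneg v)
  have h3 := lte_pt Y hs (j := j) (T := T) (T0 := T0) (v := v) (Ω := (↑Ω : Set V))
    (by omega) hv ?_
  · have h4 : 0 ≤ ∑ k ∈ range (x.length + 1), ∑ t ∈ Ico T0 (T + 1),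
        dl (Y.sm (x.take j) + Y.sm (v.take t) - Y.sm (x.take k)) *
          ind (Av Y x k (v.drop t)) :=
      Finset.sum_nonneg fun k _ => Finset.sum_nonneg fun t _ =>
        mul_nonneg (dl_nonneg _) (ind_nonneg _)
    refine (mul_le_of_le_one_left h4 (ind_le_one _)).trans (h3.trans (le_of_eq ?_))
    exact ind_congr (by simp only [Finset.mem_coe])
  · intro k hk
    rw [Finset.mem_coe, hΩ, Finset.mem_image]
    refine ⟨(fun i => x.get (i.cast hx.symm), ⟨k, by omega⟩, ⟨j, by omega⟩),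
      Finset.mem_univ _, ?_⟩
    have h5 : (List.ofFn fun i : Fin n => x.get (i.cast hx.symm)) = x := by
      subst hx
      exact List.ofFn_get x
    show Y.sm ((List.ofFn fun i : Fin n => x.get (i.cast hx.symm)).take k) -
      Y.sm ((List.ofFn fun i : Fin n => x.get (i.cast hx.symm)).take j) = _
    rw [h5]
-- END lte

end Pool.Agent.Esc
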