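import Pool.Agent.Esc.Esd

/-!
# The escape lemma, second part: the sum over the groups
-/

set_option autoImplicit false

namespace Pool.Agent.Esc

open Finset Filter Topology Pool.Agent.Bub4 Pool.Agent.SawM2 Pool.Agent.Taw

variable {S V : Type} [Fintype S] [AddCommGroup V] {Y : Sys S V} {K κ : ℝ} {g : List S → ℝ}

-- BEGIN thr
private theorem thr_mono (I : Finset ℕ) {J J' : Finset ℕ} (hJ : J ⊆ J') :
    LL Y g κ I J ≤ LL Y g κ I J' := by
  unfold LL
  refine sum_le_sum fun i _ => sum_le_sum_of_subset_of_nonneg hJ fun j _ _ => ?_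
  exact Y.E_nonneg' fun u => Y.E_nonneg' fun v =>
    mul_nonneg (mul_nonneg (ind_nonneg _) (ind_nonneg _)) (dl_nonneg _)

private noncomputable def thr_A (a : ℕ → ℕ) : ℕ → ℕ
  | 0 => max 1 (a 0)
  | i + 1 => max (thr_A a i + 1) (a (i + 1))

/-- Thresholds: choose `A 0 ≥ 1`, `A (i + 1) > A i` recursively with `LL (range N) (Ico (A i) b) ≤
4⁻ⁱ` (`llt`, which is monotone in the threshold because all terms are nonnegative). -/
theorem thr (hL : HL2 Y g) (hκ : 0 < κ) : ∃ A : ℕ → ℕ, StrictMono A ∧ 1 ≤ A 0 ∧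
    ∀ i N b : ℕ, LL Y g κ (range N) (Ico (A i) b) ≤ (4 : ℝ)⁻¹ ^ i := by
  have h1 : ∀ i : ℕ, ∃ a : ℕ, ∀ N b : ℕ, LL Y g κ (range N) (Ico a b) ≤ (4 : ℝ)⁻¹ ^ i := fun i =>
    llt hL hκ (by positivity)
  choose a ha using h1
  have hA : ∀ i, a i ≤ thr_A a i := by
    intro i
    cases i with
    | zero => exact le_max_right _ _
    | succ i => exact le_max_right _ _
  refine ⟨thr_A a, ?_, le_max_left _ _, ?_⟩
  · refine strictMono_nat_of_lt_succ fun i => ?_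
    exact lt_of_lt_of_le (Nat.lt_succ_self _) (le_max_left _ _)
  · intro i N b
    refine (thr_mono (range N) ?_).trans (ha i N b)
    intro t ht
    rw [mem_Ico] at ht ⊢
    exact ⟨(hA i).trans ht.1, ht.2⟩
-- END thr

-- BEGIN gri
private theorem gri_mono (Y : Sys S V) (g : List S → ℝ) (κ : ℝ) {I J M : Finset ℕ} (hIJ : I ⊆ J) :
    LL Y g κ I M ≤ LL Y g κ J M :=
  Finset.sum_le_sum_of_subset_of_nonneg hIJ fun _ _ _ => Finset.sum_nonneg fun _ _ =>
    Y.E_nonneg' fun _ => Y.E_nonneg' fun _ =>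
      mul_nonneg (mul_nonneg (ind_nonneg _) (ind_nonneg _)) (dl_nonneg _)

private theorem gri_sq {a b : ℝ} (h : a ^ 2 ≤ b ^ 2) (hb : 0 ≤ b) : a ≤ b :=
  (abs_le_of_sq_le_sq' h hb).2

/-- One group `I = Ico (A i) (A (i + 1))` in `grp` with `l = 2 ^ i`, `e = 4⁻ⁱ`, `A = 2⁻ⁱ`
(`grs`: `gr ^ 2 ≤ LL I I ≤ LL (range b) I ≤ 4⁻ⁱ`, `I ⊆ range b`, nonnegative terms):
`2 K² (2⁻ⁱ + 2⁻ⁱ) + K 2⁻ⁱ ≤ 5 K² 2⁻ⁱ` (`1 ≤ K`). -/
theorem gri (h : Cc Y K g) (hκ : 0 < κ) {A : ℕ → ℕ} (hA : StrictMono A) (hA0 : 1 ≤ A 0)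
    (hLL : ∀ i N b : ℕ, LL Y g κ (range N) (Ico (A i) b) ≤ (4 : ℝ)⁻¹ ^ i) {i n T : ℕ}
    (hT : A (i + 1) + n ≤ T) :
    (Y.E n fun x => Y.sv x * ∑ j ∈ range (n + 1), lv Y g κ T (Ico (A i) (A (i + 1))) x j) ≤
      (n + 1) * (5 * K ^ 2 * (2 : ℝ)⁻¹ ^ i) := by
  have hI0 : 0 ∉ Ico (A i) (A (i + 1)) := by
    intro hh
    have h1 := (Finset.mem_Ico.mp hh).1
    have h2 : A 0 ≤ A i := hA.monotone (Nat.zero_le i)
    omega
  have hI : ∀ t ∈ Ico (A i) (A (i + 1)), t + n ≤ T := by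
    intro t ht
    have h1 := (Finset.mem_Ico.mp ht).2
    omega
  have hsub : Ico (A i) (A (i + 1)) ⊆ range (A (i + 1)) := by
    intro t ht
    exact Finset.mem_range.mpr (Finset.mem_Ico.mp ht).2
  have hp2 : (0 : ℝ) < (2 : ℝ)⁻¹ ^ i := by positivity
  have h4 : (4 : ℝ)⁻¹ ^ i = ((2 : ℝ)⁻¹ ^ i) ^ 2 := by
    rw [← pow_mul, mul_comm i 2, pow_mul]
    norm_num
  have hgr : ∀ y, gr Y g κ (Ico (A i) (A (i + 1))) y ≤ (2 : ℝ)⁻¹ ^ i := by
    intro y
    have h1 := grs Y g κ (Ico (A i) (A (i + 1))) y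
    have h2 := h1.trans ((gri_mono Y g κ hsub).trans (hLL i (A (i + 1)) (A (i + 1))))
    rw [h4] at h2
    exact gri_sq h2 hp2.le
  have hl : (0 : ℝ) < (2 : ℝ) ^ i := by positivity
  have he : (0 : ℝ) < (4 : ℝ)⁻¹ ^ i := by positivity
  refine (grp h hκ hI0 hI hl he hgr (hLL i (T + 1) (A (i + 1)))).trans ?_
  refine mul_le_mul_of_nonneg_left ?_ (by positivity)
  have e1 : (2 : ℝ) ^ i * (4 : ℝ)⁻¹ ^ i = (2 : ℝ)⁻¹ ^ i := by
    rw [← mul_pow]
    norm_num
  have e2 : K / (2 : ℝ) ^ i = K * (2 : ℝ)⁻¹ ^ i := by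
    rw [div_eq_mul_inv, inv_pow]
  rw [e1, e2]
  have hK := one_le_K h
  have hK2 : K ≤ K ^ 2 := by nlinarith
  nlinarith [mul_le_mul_of_nonneg_right hK2 hp2.le]
-- END gri

-- BEGIN grt
/-- All groups from `i0` on: for `i0 ≤ G` the set `Ico (A i0) (A G)` is the disjoint union of the
`Ico (A i) (A (i + 1))`, `i0 ≤ i < G`; `gri`, geometric series. -/
theorem grt (h : Cc Y K g) (hκ : 0 < κ) {A : ℕ → ℕ} (hA : StrictMono A) (hA0 : 1 ≤ A 0)
    (hLL : ∀ i N b : ℕ, LL Y g κ (range N) (Ico (A i) b) ≤ (4 : ℝ)⁻¹ ^ i) {i0 G n T : ℕ}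
    (hG : i0 ≤ G) (hT : A G + n ≤ T) :
    (Y.E n fun x => Y.sv x * ∑ j ∈ range (n + 1), lv Y g κ T (Ico (A i0) (A G)) x j) ≤
      (n + 1) * (10 * K ^ 2 * (2 : ℝ)⁻¹ ^ i0) := by
  have key : ∀ G, i0 ≤ G → A G + n ≤ T →
      (Y.E n fun x => Y.sv x * ∑ j ∈ range (n + 1), lv Y g κ T (Ico (A i0) (A G)) x j) ≤
        (n + 1) * (10 * K ^ 2 * ((2 : ℝ)⁻¹ ^ i0 - (2 : ℝ)⁻¹ ^ G)) := by
    intro G hG
    induction G, hG using Nat.le_induction with
    | base =>
      intro _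
      rw [sub_self, mul_zero, mul_zero]
      refine le_of_eq ?_
      rw [← Y.E_zero_fun n]
      refine Y.E_congr fun x _ => ?_
      simp [lv]
    | succ G hG ih =>
      intro hT'
      have h1 : A G ≤ A (G + 1) := hA.monotone (Nat.le_succ G)
      have h2 := ih (by omega)
      have h3 := gri h hκ hA hA0 hLL (i := G) (n := n) (T := T) hT'
      have hadd : ∀ x j, lv Y g κ T (Ico (A i0) (A (G + 1))) x j =
          lv Y g κ T (Ico (A i0) (A G)) x j + lv Y g κ T (Ico (A G) (A (G + 1))) x j := by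
        intro x j
        unfold lv
        rw [← Finset.sum_add_distrib]
        refine Finset.sum_congr rfl fun k _ => ?_
        exact (Finset.sum_Ico_consecutive _ (hA.monotone hG) h1).symm
      have h4 : (Y.E n fun x => Y.sv x * ∑ j ∈ range (n + 1),
          lv Y g κ T (Ico (A i0) (A (G + 1))) x j) =
          (Y.E n fun x => Y.sv x * ∑ j ∈ range (n + 1), lv Y g κ T (Ico (A i0) (A G)) x j) +
          (Y.E n fun x => Y.sv x * ∑ j ∈ range (n + 1),
            lv Y g κ T (Ico (A G) (A (G + 1))) x j) := by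
        rw [← Y.E_fadd]
        refine Y.E_congr fun x _ => ?_
        rw [← mul_add, ← Finset.sum_add_distrib]
        exact congrArg _ (Finset.sum_congr rfl fun j _ => hadd x j)
      rw [h4]
      refine (add_le_add h2 h3).trans (le_of_eq ?_)
      rw [pow_succ]
      ring
  refine (key G hG hT).trans ?_
  have hp : (0 : ℝ) ≤ (2 : ℝ)⁻¹ ^ G := by positivity
  have hn : (0 : ℝ) ≤ (n : ℝ) + 1 := by positivity
  refine mul_le_mul_of_nonneg_left (mul_le_mul_of_nonneg_left ?_ (by positivity)) hn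
  linarith
-- END grt

-- BEGIN ect
private theorem ect_sum (f : ℕ → ℝ) (hf : ∀ t, 0 ≤ f t) {I J M L : Finset ℕ}
    (hIJ : ∀ t ∈ I, t ∈ J ∨ t ∈ M ∨ t ∈ L) :
    ∑ t ∈ I, f t ≤ ∑ t ∈ J, f t + ∑ t ∈ M, f t + ∑ t ∈ L, f t := by
  classical
  have h1 : I ⊆ (J ∪ M) ∪ L := by
    intro t ht
    rcases hIJ t ht with h1 | h1 | h1
    · exact Finset.mem_union_left _ (Finset.mem_union_left _ h1)
    · exact Finset.mem_union_left _ (Finset.mem_union_right _ h1)
    · exact Finset.mem_union_right _ h1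
  have hU : ∀ P Q : Finset ℕ, ∑ t ∈ P ∪ Q, f t ≤ ∑ t ∈ P, f t + ∑ t ∈ Q, f t := by
    intro P Q
    rw [← Finset.sum_union_inter]
    have : 0 ≤ ∑ t ∈ P ∩ Q, f t := Finset.sum_nonneg fun t _ => hf t
    linarith
  calc ∑ t ∈ I, f t ≤ ∑ t ∈ (J ∪ M) ∪ L, f t :=
        Finset.sum_le_sum_of_subset_of_nonneg h1 fun t _ _ => hf t
    _ ≤ ∑ t ∈ J ∪ M, f t + ∑ t ∈ L, f t := hU _ _
    _ ≤ _ := by have := hU J M; linarith

private theorem ect_union (h : Cc Y K g) (κ : ℝ) (T : ℕ) {I J M L : Finset ℕ}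
    (hIJ : ∀ t ∈ I, t ∈ J ∨ t ∈ M ∨ t ∈ L) (x : List S) (j : ℕ) :
    lv Y g κ T I x j ≤ lv Y g κ T J x j + lv Y g κ T M x j + lv Y g κ T L x j := by
  unfold lv
  rw [← Finset.sum_add_distrib, ← Finset.sum_add_distrib]
  refine Finset.sum_le_sum fun k _ => ?_
  exact ect_sum _ (fun t => Y.E_nonneg' fun v => mul_nonneg
    (mul_nonneg (h.nonneg v) (ind_nonneg _)) (mul_nonneg (dl_nonneg _) (ind_nonneg _))) hIJ

/-- The escape lemma with the probabilities `pe`. `i0` with `10 K² 2^(-i0) ≤ ε / 2`, `C = K * A i0 +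
1`. For given `n`: `T0` from `lte` with `ε / (2 K)`, `G ≥ i0` with `T0 ≤ A G` (`G = max i0 T0`,
`hA.id_le`), `T1 = A G + n`. For `T ≥ T1` apply everything with `T' = T + A i0`: by `lvt` and `hp`
`p ≤ lv (range (T' + 1)) x j ≤ lv (range (A i0)) + lv (Ico (A i0) (A G)) + lv (Ico T0 (T' + 1))`
(nonnegative terms, `range (T' + 1) ⊆ ..`); multiply by `sv x * F x`, `0 ≤ F ≤ 1`, sum over `j ≤ n`
and `x`: `sml` (`T' - A i0 = T`), `grt`, `lte`, `Y.a n ≤ K`. -/
theorem ect (h : Cc Y K g) (hL : HL2 Y g) (hκ : 0 < κ) {p : ℝ}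
    (hp : ∀ T, p ≤ Y.E T fun v => g v * ind (κ ≤ g (bar Y v))) {ε : ℝ} (hε : 0 < ε) :
    ∃ C : ℝ, 0 < C ∧ ∀ n : ℕ, ∃ T1 : ℕ, ∀ T ≥ T1, ∀ F : List S → ℝ, (∀ x, 0 ≤ F x) →
      (∀ x, F x ≤ 1) →
      p * (n + 1) * (Y.E n fun x => Y.sv x * F x) ≤
        C * (Y.E n fun x => Y.sv x * F x * ∑ k ∈ range (n + 1), pe Y g T x k) +
          ε * (n + 1) := by
  classical
  obtain ⟨A, hA, hA0, hLL⟩ := thr hL hκ
  have hK := one_le_K h
  have hK0 : 0 < K := by linarith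
  obtain ⟨i0, hi0⟩ : ∃ i0 : ℕ, 10 * K ^ 2 * (2 : ℝ)⁻¹ ^ i0 ≤ ε / 2 := by
    obtain ⟨i0, hi⟩ := exists_pow_lt_of_lt_one
      (show (0 : ℝ) < ε / 2 / (10 * K ^ 2) by positivity) (show (2 : ℝ)⁻¹ < 1 by norm_num)
    refine ⟨i0, ?_⟩
    have h1 := (lt_div_iff₀ (show (0 : ℝ) < 10 * K ^ 2 by positivity)).mp hi
    linarith
  have hAi : 1 ≤ A i0 := hA0.trans (hA.monotone (Nat.zero_le i0))
  have hAr : (0 : ℝ) < A i0 := by exact_mod_cast hAi
  refine ⟨K * A i0, by positivity, fun n => ?_⟩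
  obtain ⟨T0, hT0⟩ := lte h κ n (show 0 < ε / (2 * K) by positivity)
  refine ⟨A (max i0 T0) + n, fun T hT F hF0 hF1 => ?_⟩
  have hT0A : T0 ≤ A (max i0 T0) := (le_max_right i0 T0).trans (hA.le_apply)
  have hpe : ∀ x k, 0 ≤ pe Y g T x k := fun x k => (pea h le_rfl x k).1
  have hlv : ∀ I x j, 0 ≤ lv Y g κ (T + A i0) I x j := fun I x j =>
    Finset.sum_nonneg fun k _ => Finset.sum_nonneg fun t _ => Y.E_nonneg' fun v =>
      mul_nonneg (mul_nonneg (h.nonneg v) (ind_nonneg _)) (mul_nonneg (dl_nonneg _) (ind_nonneg _))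
  have hpt : ∀ x : List S, x.length = n → p * (n + 1) * (Y.sv x * F x) ≤
      K * A i0 * (Y.sv x * F x * ∑ k ∈ range (n + 1), pe Y g T x k) +
        (Y.sv x * ∑ j ∈ range (n + 1), lv Y g κ (T + A i0) (Ico (A i0) (A (max i0 T0))) x j) +
        (n + 1) * (ε / (2 * K)) * Y.sv x := by
    intro x hxn
    by_cases hxs : Y.Saw x
    swap
    · rw [Y.sv_of_not hxs]
      simp
    rw [Y.sv_of hxs]
    have h1 : ∀ j ∈ range (n + 1), p ≤ lv Y g κ (T + A i0) (range (A i0)) x j +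
        lv Y g κ (T + A i0) (Ico (A i0) (A (max i0 T0))) x j + ε / (2 * K) := by
      intro j hj
      have hj' : j ≤ n := Nat.lt_succ_iff.mp (Finset.mem_range.mp hj)
      have h2 := hp (T + A i0)
      rw [← lvt h (κ := κ) (T + A i0) hxs (by omega : j ≤ x.length)] at h2
      have h3 := ect_union h κ (T + A i0) (I := range (T + A i0 + 1)) (J := range (A i0))
        (M := Ico (A i0) (A (max i0 T0))) (L := Ico T0 (T + A i0 + 1)) (by
          intro t ht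
          have ht' := Finset.mem_range.mp ht
          rcases Nat.lt_or_ge t (A i0) with h4 | h4
          · exact Or.inl (Finset.mem_range.mpr h4)
          rcases Nat.lt_or_ge t (A (max i0 T0)) with h5 | h5
          · exact Or.inr (Or.inl (Finset.mem_Ico.mpr ⟨h4, h5⟩))
          · exact Or.inr (Or.inr (Finset.mem_Ico.mpr ⟨hT0A.trans h5, ht'⟩))) x j
      have h4 := hT0 (T + A i0) x hxn hxs j hj'
      linarith
    have h2 : (n + 1 : ℝ) * p ≤ ∑ j ∈ range (n + 1), lv Y g κ (T + A i0) (range (A i0)) x j +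
        ∑ j ∈ range (n + 1), lv Y g κ (T + A i0) (Ico (A i0) (A (max i0 T0))) x j +
        (n + 1) * (ε / (2 * K)) := by
      have h3 := Finset.sum_le_sum h1
      rw [Finset.sum_add_distrib, Finset.sum_add_distrib, Finset.sum_const, Finset.sum_const,
        Finset.card_range, nsmul_eq_mul, nsmul_eq_mul] at h3
      push_cast at h3
      exact h3
    have h3 : ∑ j ∈ range (n + 1), lv Y g κ (T + A i0) (range (A i0)) x j ≤
        K * A i0 * ∑ k ∈ range (n + 1), pe Y g T x k := by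
      have h4 := sml h hκ (T := T + A i0) (t0 := A i0) (Nat.le_add_left _ _) hxs
      rw [hxn, Nat.add_sub_cancel] at h4
      exact h4
    have h4 : 0 ≤ ∑ j ∈ range (n + 1),
        lv Y g κ (T + A i0) (Ico (A i0) (A (max i0 T0))) x j :=
      Finset.sum_nonneg fun j _ => hlv _ x j
    have h5 : 0 ≤ (n + 1 : ℝ) * (ε / (2 * K)) := by positivity
    have h6 := mul_le_mul_of_nonneg_right (h2.trans (add_le_add (add_le_add h3 le_rfl) le_rfl)) (hF0 x)
    have h7 := mul_le_mul_of_nonneg_left (hF1 x) h4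
    have h8 := mul_le_mul_of_nonneg_left (hF1 x) h5
    nlinarith [h6, h7, h8]
  have h1 := Y.E_mono (n := n) hpt
  rw [Y.E_mul_left, Y.E_fadd, Y.E_fadd, Y.E_mul_left, Y.E_mul_left] at h1
  have h2 := grt h hκ hA hA0 hLL (i0 := i0) (G := max i0 T0) (n := n) (T := T + A i0)
    (le_max_left _ _) (by omega)
  have h3 : Y.E n Y.sv ≤ K := h.a_le n
  have h4 : (n + 1 : ℝ) * (10 * K ^ 2 * (2 : ℝ)⁻¹ ^ i0) ≤ (n + 1) * (ε / 2) :=
    mul_le_mul_of_nonneg_left hi0 (by positivity)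
  have h5 : (n + 1 : ℝ) * (ε / (2 * K)) * Y.E n Y.sv ≤ (n + 1) * (ε / 2) := by
    calc (n + 1 : ℝ) * (ε / (2 * K)) * Y.E n Y.sv ≤ (n + 1 : ℝ) * (ε / (2 * K)) * K :=
          mul_le_mul_of_nonneg_left h3 (by positivity)
      _ = (n + 1) * (ε / 2) := by field_simp
  have h6 : (Y.E n fun x => Y.sv x) = Y.E n Y.sv := rfl
  rw [h6] at h1
  linarith
-- END ect

-- BEGIN pel
/-- Limit `T → ∞`: for a self-avoiding `x` and `k ≤ n`, `pe T x k ≤ Y.E T [sv (x.take k ++ v) g v]`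
and `≤ Y.E T [sv (bar (x.drop k) ++ v) g v]` (`avs`; `g v = 0` if `v` is not self-avoiding), which
tend to `g (x.take k)` and `g (bar (x.drop k))` (`h.conf`); finitely many words of length `n`. -/
theorem pel (h : Cc Y K g) (n : ℕ) {ε : ℝ} (hε : 0 < ε) :
    ∃ T1 : ℕ, ∀ T ≥ T1, ∀ x : List S, x.length = n → Y.Saw x → ∀ k ≤ n,
      pe Y g T x k ≤ mn Y g x k + ε := by
  have hfin : Set.Finite {w : List S | w.length ≤ n} := List.finite_length_le S n
  have hev : ∀ᶠ T in atTop, ∀ w ∈ {w : List S | w.length ≤ n},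
      (Y.E T fun v => Y.sv (w ++ v) * g v) ≤ g w + ε := by
    rw [Filter.eventually_all_finite hfin]
    intro w _
    exact ((h.conf w).eventually (gt_mem_nhds (by linarith : g w < g w + ε))).mono
      fun T hT => le_of_lt hT
  obtain ⟨T1, hT1⟩ := eventually_atTop.1 hev
  refine ⟨T1, fun T hT x hx hs k hk => ?_⟩
  have hk' : k ≤ x.length := by omega
  have key : ∀ w : List S, w.length ≤ n →
      (∀ v : List S, Y.Saw v → Av Y x k v → Y.Saw (w ++ v)) →
      pe Y g T x k ≤ g w + ε := by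
    intro w hw hw2
    refine le_trans ?_ (hT1 T hT w hw)
    refine Y.E_mono fun v _ => ?_
    by_cases hA : Av Y x k v
    · rw [ind_of hA, mul_one]
      by_cases hv : Y.Saw v
      · rw [Y.sv_of (hw2 v hv hA), one_mul]
      · have h0 : g v = 0 :=
          le_antisymm ((h.le_sv v).trans (le_of_eq (Y.sv_of_not hv))) (h.nonneg v)
        rw [h0, mul_zero]
    · rw [ind_not hA, mul_zero]
      exact mul_nonneg (Y.sv_nonneg _) (h.nonneg v)
  have h1 : pe Y g T x k ≤ g (x.take k) + ε := by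
    refine key _ (by simp only [List.length_take]; omega) fun v hv hA => ?_
    have := (avs Y hs hv hk' hA v.length).1
    rwa [List.take_length] at this
  have h2 : pe Y g T x k ≤ g (bar Y (x.drop k)) + ε := by
    refine key _ ?_ fun v hv hA => ?_
    · have := (brf Y (x.drop k) [] 0 fun _ => 0).2.1
      rw [this, List.length_drop]
      omega
    · have := (avs Y hs hv hk' hA v.length).2
      rwa [List.take_length] at this
  have h3 : pe Y g T x k - ε ≤ mn Y g x k := le_min (by linarith) (by linarith)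
  linarith
-- END pel

-- BEGIN esc
/-- THE ESCAPE LEMMA. `ect` with `ε / 2`, `pel` with `ε / (2 C K)`, `Y.a n ≤ K`. -/
theorem esc (h : Cc Y K g) (hL : HL2 Y g) (hκ : 0 < κ) {p : ℝ}
    (hp : ∀ T, p ≤ Y.E T fun v => g v * ind (κ ≤ g (bar Y v))) {ε : ℝ} (hε : 0 < ε) :
    ∃ C : ℝ, 0 < C ∧ ∀ (n : ℕ) (F : List S → ℝ), (∀ x, 0 ≤ F x) → (∀ x, F x ≤ 1) →
      p * (n + 1) * (Y.E n fun x => Y.sv x * F x) ≤
        C * (Y.E n fun x => Y.sv x * F x * ∑ k ∈ range (n + 1), mn Y g x k) +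
          ε * (n + 1) := by
  obtain ⟨C, hC, h1⟩ := ect h hL hκ hp (half_pos hε)
  have hK : 0 < K := lt_of_lt_of_le one_pos (one_le_K h)
  refine ⟨C, hC, fun n F hF0 hF1 => ?_⟩
  obtain ⟨T1, hT1⟩ := h1 n
  have hε' : 0 < ε / (2 * C * K) := by positivity
  obtain ⟨T2, hT2⟩ := pel h n hε'
  have h2 := hT1 (max T1 T2) (le_max_left _ _) F hF0 hF1
  have hn : (0 : ℝ) ≤ (n : ℝ) + 1 := by positivity
  have h3 : (Y.E n fun x => Y.sv x * F x * ∑ k ∈ range (n + 1), pe Y g (max T1 T2) x k) ≤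
      Y.E n fun x => Y.sv x * F x * (∑ k ∈ range (n + 1), mn Y g x k) +
        Y.sv x * (((n : ℝ) + 1) * (ε / (2 * C * K))) := by
    refine Y.E_mono fun x hx => ?_
    by_cases hs : Y.Saw x
    · have h4 : ∑ k ∈ range (n + 1), pe Y g (max T1 T2) x k ≤
          (∑ k ∈ range (n + 1), mn Y g x k) + ((n : ℝ) + 1) * (ε / (2 * C * K)) := by
        calc ∑ k ∈ range (n + 1), pe Y g (max T1 T2) x k
            ≤ ∑ k ∈ range (n + 1), (mn Y g x k + ε / (2 * C * K)) :=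
              Finset.sum_le_sum fun k hk => hT2 _ (le_max_right _ _) x hx hs k (by
                have := Finset.mem_range.1 hk
                omega)
          _ = (∑ k ∈ range (n + 1), mn Y g x k) + ((n : ℝ) + 1) * (ε / (2 * C * K)) := by
              rw [Finset.sum_add_distrib, Finset.sum_const, Finset.card_range, nsmul_eq_mul,
                Nat.cast_add, Nat.cast_one]
      rw [Y.sv_of hs, one_mul, one_mul]
      have h5 : 0 ≤ ((n : ℝ) + 1) * (ε / (2 * C * K)) := mul_nonneg hn hε'.le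
      calc F x * ∑ k ∈ range (n + 1), pe Y g (max T1 T2) x k
          ≤ F x * ((∑ k ∈ range (n + 1), mn Y g x k) + ((n : ℝ) + 1) * (ε / (2 * C * K))) :=
            mul_le_mul_of_nonneg_left h4 (hF0 x)
        _ = F x * (∑ k ∈ range (n + 1), mn Y g x k) +
            F x * (((n : ℝ) + 1) * (ε / (2 * C * K))) := mul_add _ _ _
        _ ≤ F x * (∑ k ∈ range (n + 1), mn Y g x k) + ((n : ℝ) + 1) * (ε / (2 * C * K)) := by
            have h6 := mul_le_of_le_one_left h5 (hF1 x)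
            linarith
    · rw [Y.sv_of_not hs]
      simp only [zero_mul, add_zero, le_refl]
  rw [Y.E_fadd, Y.E_mul_right] at h3
  have h7 : Y.E n Y.sv * (((n : ℝ) + 1) * (ε / (2 * C * K))) ≤
      K * (((n : ℝ) + 1) * (ε / (2 * C * K))) :=
    mul_le_mul_of_nonneg_right (h.a_le n) (mul_nonneg hn hε'.le)
  have h8 : C * (K * (((n : ℝ) + 1) * (ε / (2 * C * K)))) = ε / 2 * ((n : ℝ) + 1) := by
    field_simp
  have h9 := mul_le_mul_of_nonneg_left (h3.trans (add_le_add_right h7 _)) hC.le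
  rw [mul_add, h8] at h9
  linarith
-- END esc

-- BEGIN esb
/-- Words with few good cuts are rare: `esc` with `F x = ind (∑ k, mn x k ≤ c (n + 1))`, `ε = p η /
2`, `c = p / (2 C)`: with `m = Y.E n [sv F]`: `p m ≤ C c m + p η / 2`, so `m ≤ η`. -/
theorem esb (h : Cc Y K g) (hL : HL2 Y g) (hκ : 0 < κ) {p : ℝ} (hp0 : 0 < p)
    (hp : ∀ T, p ≤ Y.E T fun v => g v * ind (κ ≤ g (bar Y v))) {η : ℝ} (hη : 0 < η) :
    ∃ c : ℝ, 0 < c ∧ ∀ n : ℕ,
      (Y.E n fun x => Y.sv x * ind (∑ i ∈ range (n + 1), mn Y g x i ≤ c * (n + 1))) ≤ η := by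
  have hε : 0 < p * η / 2 := by positivity
  obtain ⟨C, hC, h1⟩ := esc h hL hκ hp hε
  refine ⟨p / (2 * C), by positivity, fun n => ?_⟩
  have h2 := h1 n (fun x => ind (∑ i ∈ range (n + 1), mn Y g x i ≤ p / (2 * C) * (n + 1)))
    (fun x => ind_nonneg _) (fun x => ind_le_one _)
  have hn : (0 : ℝ) < (n : ℝ) + 1 := by positivity
  set m : ℝ := Y.E n fun x => Y.sv x *
    ind (∑ i ∈ range (n + 1), mn Y g x i ≤ p / (2 * C) * (n + 1)) with hm
  have h3 : (Y.E n fun x => Y.sv x *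
      ind (∑ i ∈ range (n + 1), mn Y g x i ≤ p / (2 * C) * (n + 1)) *
        ∑ k ∈ range (n + 1), mn Y g x k) ≤ m * (p / (2 * C) * (n + 1)) := by
    rw [hm, ← Y.E_mul_right]
    refine Y.E_mono fun x _ => ?_
    by_cases hx : ∑ i ∈ range (n + 1), mn Y g x i ≤ p / (2 * C) * (n + 1)
    · exact mul_le_mul_of_nonneg_left hx (mul_nonneg (Y.sv_nonneg x) (ind_nonneg _))
    · rw [ind_not hx]
      simp only [mul_zero, zero_mul, le_refl]
  have h4 : C * (m * (p / (2 * C) * ((n : ℝ) + 1))) = m * (p / 2) * ((n : ℝ) + 1) := by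
    field_simp
  have h5 := mul_le_mul_of_nonneg_left h3 hC.le
  rw [h4] at h5
  have h6 : p * ((n : ℝ) + 1) * m ≤ m * (p / 2) * ((n : ℝ) + 1) + p * η / 2 * ((n : ℝ) + 1) := by
    linarith
  have h7 : (p / 2 * m) * ((n : ℝ) + 1) ≤ (p / 2 * η) * ((n : ℝ) + 1) := by nlinarith
  have h8 := le_of_mul_le_mul_right h7 hn
  exact le_of_mul_le_mul_left h8 (by linarith)
-- END esb

end Pool.Agent.Esc
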