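import Pool.Agent.Esc.Gp

/-!
# Limits of the normalised energy forms (section 4 of the page)
-/

set_option autoImplicit false

namespace Pool.Agent.Esc

open Finset Filter Topology Pool.Agent.Bub4 Pool.Agent.SawM2 Pool.Agent.Taw

variable {S : Type} [Fintype S] {d : ℕ} {Y : Sys S (Zk d)} {K B κ a : ℝ} {g : List S → ℝ}

-- BEGIN ulim
/-- Limits along an ultrafilter: a family of sequences with values in `[0, C]` has limits along
`hyperfilter ℕ` (compactness of `Icc 0 C`, `Ultrafilter.le_nhds_of_...` / `isCompact_Icc.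
ultrafilter_le_nhds`). -/
theorem ulim {ι : Type} (f : ι → ℕ → ℝ) (C : ι → ℝ) (n0 : ι → ℕ)
    (h0 : ∀ i, ∀ n ≥ n0 i, 0 ≤ f i n ∧ f i n ≤ C i) :
    ∃ L : ι → ℝ, ∀ i, Tendsto (f i) (hyperfilter ℕ : Filter ℕ) (𝓝 (L i)) := by
  have key : ∀ i, ∃ L : ℝ, Tendsto (f i) (hyperfilter ℕ : Filter ℕ) (𝓝 L) := by
    intro i
    have h1 : ((Ultrafilter.map (f i) (hyperfilter ℕ) : Ultrafilter ℝ) : Filter ℝ) ≤
        𝓟 (Set.Icc 0 (C i)) := by
      rw [Ultrafilter.coe_map, le_principal_iff, Filter.mem_map]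
      have h2 : ∀ᶠ n in (hyperfilter ℕ : Filter ℕ), n0 i ≤ n :=
        (eventually_ge_atTop (n0 i)).filter_mono Nat.hyperfilter_le_atTop
      filter_upwards [h2] with n hn
      exact ⟨(h0 i n hn).1, (h0 i n hn).2⟩
    obtain ⟨x, _, hx⟩ := isCompact_Icc.ultrafilter_le_nhds _ h1
    exact ⟨x, hx⟩
  choose L hL using key
  exact ⟨L, hL⟩
-- END ulim

-- BEGIN gam_a
private theorem gam_a_E (U : Filter ℕ) (n : ℕ) (F : ℕ → List S → ℝ) (F0 : List S → ℝ)
    (h : ∀ w, Tendsto (fun N => F N w) U (𝓝 (F0 w))) :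
    Tendsto (fun N => Y.E n (F N)) U (𝓝 (Y.E n F0)) := by
  rw [Y.E_eq]
  have h1 : (fun N => Y.E n (F N)) = fun N => ∑ w : Fin n → S, Y.z ^ n * F N (List.ofFn w) := by
    funext N
    exact Y.E_eq n (F N)
  rw [h1]
  exact tendsto_finset_sum _ fun w _ => (h _).const_mul _

private theorem gam_a_two (U : Filter ℕ) (f : ℕ → List S → List S → ℝ)
    (γ : List S → List S → ℝ) (hl : ∀ u v, Tendsto (fun N => f N u v) U (𝓝 (γ u v)))
    (m : ℕ) (A : List S → List S → Prop) (c : ℝ)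
    (hc : c < (Y.E m fun b => Y.E m fun b' => γ b b' * ind (A b b'))) :
    ∀ᶠ N in U, c < Y.E m fun b => Y.E m fun b' => f N b b' * ind (A b b') := by
  have h1 : Tendsto (fun N => Y.E m fun b => Y.E m fun b' => f N b b' * ind (A b b')) U
      (𝓝 (Y.E m fun b => Y.E m fun b' => γ b b' * ind (A b b'))) :=
    gam_a_E U m _ _ fun b => gam_a_E U m _ _ fun b' => (hl b b').mul_const _
  exact h1.eventually_const_lt hc

private theorem gam_a_core (U : Filter ℕ) [NeBot U] (f : ℕ → List S → List S → ℝ)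
    (γ : List S → List S → ℝ) (hl : ∀ u v, Tendsto (fun N => f N u v) U (𝓝 (γ u v)))
    (q : ℕ → ℝ) (q0 : ℝ) (hq : Tendsto q U (𝓝 q0))
    (h0 : ∀ u v, ∀ᶠ N in U, 0 ≤ f N u v) (h1 : ∀ᶠ N in U, f N [] [] = 1)
    (h2 : ∀ u v, ∀ᶠ N in U, f N u v = f N v u)
    (h3 : ∀ (u v : List S) (n : ℕ),
      Tendsto (fun N => f N u v - Y.E n fun x => f N u (v ++ x)) U (𝓝 0))
    (h4 : ∀ u v, ∀ᶠ N in U, κ ^ 2 * f N u v ≤ g u * g v)
    (h5 : ∀ (k : ℕ) (c : List S → ℝ),
      ∀ᶠ N in U, 0 ≤ Y.E k fun u => Y.E k fun v => c u * c v * f N u v)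
    (h6 : ∀ (u v : List S) (m : ℕ), ∃ e : ℕ → ℝ, Tendsto e U (𝓝 0) ∧ ∀ᶠ N in U,
      q N ^ n1 (Y.sm u - Y.sm v) * f N u v ≤
        (Y.E m fun b => Y.E m fun b' => Y.sv (u ++ b) * Y.sv (v ++ b') * f N b b') + e N) :
    Gm Y g κ q0 γ where
  nonneg u v := ge_of_tendsto (hl u v) (h0 u v)
  nil := by
    have h7 : Tendsto (fun N => f N [] []) U (𝓝 1) :=
      tendsto_const_nhds.congr' (h1.mono fun N hN => hN.symm)
    exact tendsto_nhds_unique (hl [] []) h7
  symm u v := tendsto_nhds_unique (hl u v) ((hl v u).congr' ((h2 v u).mono fun N hN => hN))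
  right u v n := by
    have h7 : Tendsto (fun N => f N u v - Y.E n fun x => f N u (v ++ x)) U
        (𝓝 (γ u v - Y.E n fun x => γ u (v ++ x))) :=
      (hl u v).sub (gam_a_E U n _ _ fun x => hl u (v ++ x))
    have h8 := tendsto_nhds_unique h7 (h3 u v n)
    linarith
  dens u v := le_of_tendsto ((hl u v).const_mul _) (h4 u v)
  psd k c := ge_of_tendsto
    (gam_a_E U k _ _ fun u => gam_a_E U k _ _ fun v => (hl u v).const_mul _) (h5 k c)
  sub u v m := by
    obtain ⟨e, he, h7⟩ := h6 u v m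
    have h8 : Tendsto (fun N => (Y.E m fun b => Y.E m fun b' =>
        Y.sv (u ++ b) * Y.sv (v ++ b') * f N b b') + e N) U
        (𝓝 ((Y.E m fun b => Y.E m fun b' => Y.sv (u ++ b) * Y.sv (v ++ b') * γ b b') + 0)) :=
      (gam_a_E U m _ _ fun b => gam_a_E U m _ _ fun b' => (hl b b').const_mul _).add he
    rw [add_zero] at h8
    exact le_of_tendsto_of_tendsto ((hq.pow _).mul (hl u v)) h8 h7

/-- `γ u v = lim_U ga a N u v` (`ulim`, bounds from `fin_dens`, `EN → ∞`): the error terms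
`m * sqrt EN / EN → 0`; `nil`: `ga [] [] = 1` for large `N`; `symm`: `en_comm`; `psd`, `dens`,
`right`, `sub` from the `fin_..` rows (finite sums commute with limits). Last part: the double sum
converges along `U` to a number `> c`, so it is `> c` for `N` in a set of `U`, which is infinite
(`hyperfilter` is finer than `cofinite`): `∃ᶠ`. -/
theorem gam_a (h : Cc Y K g) (hκ : 0 < κ) (ha : 0 < a) (ha1 : a < 1)
    (hE : Tendsto (fun N => EN Y g κ a N) atTop atTop) :
    ∃ γ : List S → List S → ℝ, Gm Y g κ a γ ∧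
      ∀ (m : ℕ) (A : List S → List S → Prop) (c : ℝ),
        c < (Y.E m fun b => Y.E m fun b' => γ b b' * ind (A b b')) →
        ∃ᶠ N in atTop, c < Y.E m fun b => Y.E m fun b' => ga Y g κ a N b b' * ind (A b b') := by
  have hU : (hyperfilter ℕ : Filter ℕ) ≤ atTop := Nat.hyperfilter_le_atTop
  obtain ⟨N0, hN0⟩ := eventually_atTop.1 (hE.eventually_gt_atTop 0)
  have hk2 : 0 < κ ^ 2 := pow_pos hκ 2
  have hnn : ∀ u v N, 0 ≤ Fm.en a (GD Y g κ u N) (GD Y g κ v N) := by
    intro u v N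
    unfold Fm.en Fm.pr
    exact sum_nonneg fun i _ => mul_nonneg (GD_nn h κ u N i)
      (sum_nonneg fun j _ => mul_nonneg (GD_nn h κ v N j) (ker_nonneg ha.le _))
  have hb : ∀ u v N, N0 ≤ N → 0 ≤ ga Y g κ a N u v ∧ κ ^ 2 * ga Y g κ a N u v ≤ g u * g v := by
    intro u v N hN
    have h1 := hN0 N hN
    refine ⟨div_nonneg (hnn u v N) h1.le, ?_⟩
    unfold ga
    rw [← mul_div_assoc, div_le_iff₀ h1]
    exact fin_dens h hκ ha ha1 u v N
  have hev : ∀ n : ℕ, ∀ᶠ N in (hyperfilter ℕ : Filter ℕ), n ≤ N := fun n =>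
    (eventually_ge_atTop n).filter_mono hU
  obtain ⟨L, hL⟩ := ulim (fun (p : List S × List S) N => ga Y g κ a N p.1 p.2)
    (fun p => g p.1 * g p.2 / κ ^ 2) (fun _ => N0) (by
      intro p N hN
      obtain ⟨h1, h2⟩ := hb p.1 p.2 N hN
      refine ⟨h1, ?_⟩
      rw [le_div_iff₀ hk2, mul_comm]
      exact h2)
  have herr : ∀ m : ℝ, Tendsto (fun N => m * Real.sqrt (EN Y g κ a N) / EN Y g κ a N)
      (hyperfilter ℕ : Filter ℕ) (𝓝 0) := by
    intro m
    have h1 : Tendsto (fun N => (Real.sqrt (EN Y g κ a N))⁻¹) atTop (𝓝 0) :=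
      (Real.tendsto_sqrt_atTop.comp hE).inv_tendsto_atTop
    have h2 := (h1.const_mul m).mono_left hU
    rw [mul_zero] at h2
    refine h2.congr fun N => ?_
    rw [mul_div_assoc, Real.sqrt_div_self]
  have hdiv : ∀ (N n : ℕ) (F G : List S → ℝ), (∀ x, F x = G x / EN Y g κ a N) →
      Y.E n F = Y.E n G / EN Y g κ a N := by
    intro N n F G hFG
    rw [div_eq_mul_inv, ← Y.E_mul_right]
    refine Y.E_congr fun x _ => ?_
    rw [hFG x, div_eq_mul_inv]
  refine ⟨fun u v => L (u, v), gam_a_core (hyperfilter ℕ : Filter ℕ) (fun N => ga Y g κ a N) _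
    (fun u v => hL (u, v)) (fun _ => a) a tendsto_const_nhds
    (fun u v => (hev N0).mono fun N hN => (hb u v N hN).1) ?_ ?_ ?_
    (fun u v => (hev N0).mono fun N hN => (hb u v N hN).2) ?_ ?_, ?_⟩
  · refine (hev N0).mono fun N hN => ?_
    exact div_self (hN0 N hN).ne'
  · refine fun u v => Eventually.of_forall fun N => ?_
    show ga Y g κ a N u v = ga Y g κ a N v u
    unfold ga
    rw [Fm.en_comm]
  · intro u v n
    refine squeeze_zero' ((hev (N0 + (v.length + n))).mono fun N hN => ?_)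
      ((hev (N0 + (v.length + n))).mono fun N hN => ?_) (herr n)
    · have h1 := hN0 N (by omega)
      have h2 := (fin_step h hκ ha ha1 u v n N (by omega)).1
      show 0 ≤ ga Y g κ a N u v - Y.E n fun x => ga Y g κ a N u (v ++ x)
      rw [hdiv N n (fun x => ga Y g κ a N u (v ++ x)) _ (fun x => rfl)]
      unfold ga
      rw [← sub_div]
      exact div_nonneg (by linarith) h1.le
    · have h1 := hN0 N (by omega)
      have h2 := (fin_step h hκ ha ha1 u v n N (by omega)).2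
      show (ga Y g κ a N u v - Y.E n fun x => ga Y g κ a N u (v ++ x)) ≤
        n * Real.sqrt (EN Y g κ a N) / EN Y g κ a N
      rw [hdiv N n (fun x => ga Y g κ a N u (v ++ x)) _ (fun x => rfl)]
      unfold ga
      rw [← sub_div]
      exact div_le_div_of_nonneg_right (by linarith) h1.le
  · intro k c
    refine (hev N0).mono fun N hN => ?_
    have h1 := hN0 N hN
    have h2 := fin_psd h ha ha1 κ k N c
    have h3 : (Y.E k fun u => Y.E k fun v => c u * c v * ga Y g κ a N u v) =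
        (Y.E k fun u => Y.E k fun v => c u * c v *
          Fm.en a (GD Y g κ u N) (GD Y g κ v N)) / EN Y g κ a N :=
      hdiv N k _ _ fun u => hdiv N k _ _ fun v => by
        unfold ga
        rw [mul_div_assoc]
    rw [h3]
    exact div_nonneg h2 h1.le
  · intro u v m
    refine ⟨fun N => 2 * m * Real.sqrt (EN Y g κ a N) / EN Y g κ a N, herr (2 * m), ?_⟩
    refine (hev (N0 + (u.length + v.length + m))).mono fun N hN => ?_
    have h1 := hN0 N (by omega)
    have h2 := fin_sub h hκ ha ha1 u v m N (by omega)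
    have h3 : (Y.E m fun b => Y.E m fun b' => Y.sv (u ++ b) * Y.sv (v ++ b') *
        ga Y g κ a N b b') = (Y.E m fun b => Y.E m fun b' => Y.sv (u ++ b) * Y.sv (v ++ b') *
          Fm.en a (GD Y g κ b N) (GD Y g κ b' N)) / EN Y g κ a N :=
      hdiv N m _ _ fun b => hdiv N m _ _ fun b' => by
        unfold ga
        rw [mul_div_assoc]
    show a ^ n1 (Y.sm u - Y.sm v) * ga Y g κ a N u v ≤ _
    rw [h3, ← add_div]
    unfold ga
    rw [← mul_div_assoc]
    exact div_le_div_of_nonneg_right h2 h1.le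
  · intro m A c hc
    exact ((gam_a_two (hyperfilter ℕ : Filter ℕ) (fun N => ga Y g κ a N) _
      (fun u v => hL (u, v)) m A c hc).frequently).filter_mono hU
-- END gam_a

-- BEGIN gam_one
/-- `a l = 1 - 1 / (l + 2)`, `γ = lim_U (γa l)`: `(a l) ^ n → 1`. -/
theorem gam_one (h : Cc Y K g) (hκ : 0 < κ) (γa : ℕ → List S → List S → ℝ)
    (hγ : ∀ l : ℕ, Gm Y g κ (1 - 1 / ((l : ℝ) + 2)) (γa l)) :
    ∃ γ : List S → List S → ℝ, Gm Y g κ 1 γ ∧
      ∀ (m : ℕ) (A : List S → List S → Prop) (c : ℝ),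
        c < (Y.E m fun b => Y.E m fun b' => γ b b' * ind (A b b')) →
        ∃ l : ℕ, c < Y.E m fun b => Y.E m fun b' => γa l b b' * ind (A b b') := by
  have hU : (hyperfilter ℕ : Filter ℕ) ≤ atTop := Nat.hyperfilter_le_atTop
  have hk2 : 0 < κ ^ 2 := pow_pos hκ 2
  obtain ⟨L, hL⟩ := ulim (fun (p : List S × List S) l => γa l p.1 p.2)
    (fun p => g p.1 * g p.2 / κ ^ 2) (fun _ => 0) (by
      intro p l _
      refine ⟨(hγ l).nonneg p.1 p.2, ?_⟩
      rw [le_div_iff₀ hk2, mul_comm]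
      exact (hγ l).dens p.1 p.2)
  have hq : Tendsto (fun l : ℕ => 1 - 1 / ((l : ℝ) + 2)) (hyperfilter ℕ : Filter ℕ) (𝓝 1) := by
    have h1 : Tendsto (fun l : ℕ => (l : ℝ) + 2) atTop atTop :=
      tendsto_atTop_add_const_right _ _ tendsto_natCast_atTop_atTop
    have h2 : Tendsto (fun l : ℕ => 1 / ((l : ℝ) + 2)) atTop (𝓝 0) := by
      have h3 := h1.inv_tendsto_atTop
      refine h3.congr fun l => ?_
      rw [one_div]
      rfl
    have h4 := (h2.const_sub 1).mono_left hU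
    rw [sub_zero] at h4
    exact h4
  refine ⟨fun u v => L (u, v), gam_a_core (hyperfilter ℕ : Filter ℕ) γa _
    (fun u v => hL (u, v)) (fun l => 1 - 1 / ((l : ℝ) + 2)) 1 hq
    (fun u v => Eventually.of_forall fun l => (hγ l).nonneg u v)
    (Eventually.of_forall fun l => (hγ l).nil)
    (fun u v => Eventually.of_forall fun l => (hγ l).symm u v) ?_
    (fun u v => Eventually.of_forall fun l => (hγ l).dens u v)
    (fun k c => Eventually.of_forall fun l => (hγ l).psd k c) ?_, ?_⟩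
  · intro u v n
    refine tendsto_const_nhds.congr fun l => ?_
    rw [(hγ l).right u v n, sub_self]
  · intro u v m
    refine ⟨fun _ => 0, tendsto_const_nhds, Eventually.of_forall fun l => ?_⟩
    rw [add_zero]
    exact (hγ l).sub u v m
  · intro m A c hc
    exact (gam_a_two (hyperfilter ℕ : Filter ℕ) γa _ (fun u v => hL (u, v)) m A c hc).exists
-- END gam_one

-- BEGIN gam_cyl
/-- consistency for cylinder events: `E_add`, `Gm.right`, `Gm.symm` -/
theorem gam_cyl {q : ℝ} {γ : List S → List S → ℝ} (hγ : Gm Y g κ q γ) {m M : ℕ} (hm : m ≤ M)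
    (φ : List S → List S → ℝ) :
    (Y.E M fun b => Y.E M fun b' => γ b b' * φ (b.take m) (b'.take m)) =
      Y.E m fun b => Y.E m fun b' => γ b b' * φ b b' := by
  obtain ⟨n, rfl⟩ := Nat.exists_eq_add_of_le hm
  rw [Y.E_add]
  refine Y.E_congr fun u hu => ?_
  have h1 : ∀ x : List S, (Y.E (m + n) fun b' => γ (u ++ x) b' * φ ((u ++ x).take m) (b'.take m)) =
      Y.E m fun v => γ (u ++ x) v * φ u v := by
    intro x
    rw [Y.E_add]
    refine Y.E_congr fun v hv => ?_
    have h2 : (u ++ x).take m = u := by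
      rw [List.take_append_of_le_length hu.ge, List.take_of_length_le hu.le]
    have h3 : ∀ y : List S, (v ++ y).take m = v := fun y => by
      rw [List.take_append_of_le_length hv.ge, List.take_of_length_le hv.le]
    rw [h2]
    simp only [h3]
    rw [Y.E_mul_right, hγ.right]
  simp only [h1]
  rw [Y.E_comm]
  refine Y.E_congr fun v _ => ?_
  rw [Y.E_mul_right]
  congr 1
  have h4 : ∀ x : List S, γ (u ++ x) v = γ v (u ++ x) := fun x => hγ.symm _ _
  simp only [h4]
  rw [hγ.right, hγ.symm]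
-- END gam_cyl

-- BEGIN gam_le
/-- density: `κ ^ 2 * (mass of an event) ≤ PP (event)` -/
theorem gam_le {q : ℝ} {γ : List S → List S → ℝ} (hγ : Gm Y g κ q γ) (m : ℕ)
    {φ : List S → List S → ℝ} (hφ : ∀ u v, 0 ≤ φ u v) :
    κ ^ 2 * (Y.E m fun b => Y.E m fun b' => γ b b' * φ b b') ≤ PP Y g m φ := by
  unfold PP
  rw [← Y.E_mul_left]
  refine Y.E_mono fun u _ => ?_
  rw [← Y.E_mul_left]
  refine Y.E_mono fun v _ => ?_
  rw [← mul_assoc]
  exact mul_le_mul_of_nonneg_right (hγ.dens u v) (hφ u v)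
-- END gam_le

-- BEGIN gam_fix
/-- (4l). If the limit `γ` (`a → 1`) gives mass `≥ c` to `Dj y m` for all `m`, then some `γa l`
gives mass `≥ c / 2` for all `m`: `p m = PP m (Dj y m)` decreases (`PP_take`, nonnegative), choose
`m0` with `p m0 - p m ≤ κ ^ 2 * c / 4` for `m ≥ m0`, `l` with mass of `Dj y m0` `> 3 c / 4`
(`hlim`), then for `m ≥ m0` the mass of `Dj y m0 ∧ ¬ Dj y m` is `≤ c / 4` (`gam_le`, `gam_cyl`,
`PP_take`); for `m < m0` the mass of `Dj y m` is at least that of `Dj y m0`. -/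
theorem gam_fix (h : Cc Y K g) (hκ : 0 < κ) (γ : List S → List S → ℝ)
    (γa : ℕ → List S → List S → ℝ) (hγa : ∀ l : ℕ, Gm Y g κ (1 - 1 / ((l : ℝ) + 2)) (γa l))
    (hlim : ∀ (m : ℕ) (A : List S → List S → Prop) (c : ℝ),
        c < (Y.E m fun b => Y.E m fun b' => γ b b' * ind (A b b')) →
        ∃ l : ℕ, c < Y.E m fun b => Y.E m fun b' => γa l b b' * ind (A b b'))
    {y : Zk d} {c : ℝ} (hc : 0 < c)
    (hy : ∀ m, c ≤ Y.E m fun b => Y.E m fun b' => γ b b' * ind (Dj Y y m b b')) :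
    ∃ l : ℕ, ∀ m, c / 2 ≤ Y.E m fun b => Y.E m fun b' => γa l b b' * ind (Dj Y y m b b') := by
  have hk2 : 0 < κ ^ 2 := pow_pos hκ 2
  -- the events decrease
  have htake : ∀ {m M : ℕ}, m ≤ M → ∀ u v : List S, Dj Y y M u v → Dj Y y m (u.take m) (v.take m) := by
    intro m M hm u v hD s hs t ht
    rw [List.take_take, List.take_take, min_eq_left hs, min_eq_left ht]
    exact hD s (hs.trans hm) t (ht.trans hm)
  set p : ℕ → ℝ := fun m => PP Y g m fun u v => ind (Dj Y y m u v) with hp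
  have hp_eq : ∀ {m M : ℕ}, m ≤ M →
      PP Y g M (fun u v => ind (Dj Y y m (u.take m) (v.take m))) = p m := fun hm =>
    PP_take h hm fun u v => ind (Dj Y y _ u v)
  have hp0 : ∀ m, 0 ≤ p m := fun m => Y.E_nonneg' fun u => Y.E_nonneg' fun v =>
    mul_nonneg (mul_nonneg (h.nonneg u) (h.nonneg v)) (ind_nonneg _)
  have hanti : Antitone p := by
    intro m M hm
    rw [← hp_eq hm]
    exact Y.E_mono fun u _ => Y.E_mono fun v _ =>
      mul_le_mul_of_nonneg_left (ind_mono (htake hm u v)) (mul_nonneg (h.nonneg u) (h.nonneg v))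
  have hbdd : BddBelow (Set.range p) := ⟨0, by
    rintro _ ⟨m, rfl⟩
    exact hp0 m⟩
  have hconv : Tendsto p atTop (𝓝 (⨅ m, p m)) := tendsto_atTop_ciInf hanti hbdd
  have heps : 0 < κ ^ 2 * (c / 4) := by positivity
  obtain ⟨m0, hm0⟩ := eventually_atTop.1
    (hconv.eventually_lt_const (show (⨅ m, p m) < (⨅ m, p m) + κ ^ 2 * (c / 4) by linarith))
  have hm0' : ∀ m, p m0 - p m ≤ κ ^ 2 * (c / 4) := by
    intro m
    have h1 := hm0 m0 le_rfl
    have h2 := ciInf_le hbdd m
    linarith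
  obtain ⟨l, hl⟩ := hlim m0 (Dj Y y m0) (3 * c / 4) (lt_of_lt_of_le (by linarith) (hy m0))
  have hG := hγa l
  refine ⟨l, fun m => ?_⟩
  rcases le_total m0 m with hm | hm
  · -- the difference has small mass
    have h1 : ∀ u v : List S, 0 ≤ ind (Dj Y y m0 (u.take m0) (v.take m0)) - ind (Dj Y y m u v) :=
      fun u v => sub_nonneg.2 (ind_mono (htake hm u v))
    have h2 := gam_le hG m (φ := fun u v =>
      ind (Dj Y y m0 (u.take m0) (v.take m0)) - ind (Dj Y y m u v)) h1
    have h3 : PP Y g m (fun u v =>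
        ind (Dj Y y m0 (u.take m0) (v.take m0)) - ind (Dj Y y m u v)) = p m0 - p m := by
      rw [← hp_eq hm]
      show PP Y g m _ = PP Y g m _ - PP Y g m _
      unfold PP
      rw [← Y.E_fsub]
      refine Y.E_congr fun u _ => ?_
      rw [← Y.E_fsub]
      exact Y.E_congr fun v _ => by ring
    have h4 : (Y.E m fun b => Y.E m fun b' => γa l b b' *
        (ind (Dj Y y m0 (b.take m0) (b'.take m0)) - ind (Dj Y y m b b'))) =
        (Y.E m0 fun b => Y.E m0 fun b' => γa l b b' * ind (Dj Y y m0 b b')) -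
          Y.E m fun b => Y.E m fun b' => γa l b b' * ind (Dj Y y m b b') := by
      rw [← gam_cyl hG hm fun b b' => ind (Dj Y y m0 b b'), ← Y.E_fsub]
      refine Y.E_congr fun u _ => ?_
      rw [← Y.E_fsub]
      exact Y.E_congr fun v _ => by ring
    rw [h3, h4] at h2
    have h5 := hm0' m
    have h6 : ((Y.E m0 fun b => Y.E m0 fun b' => γa l b b' * ind (Dj Y y m0 b b')) -
        Y.E m fun b => Y.E m fun b' => γa l b b' * ind (Dj Y y m b b')) ≤ c / 4 :=
      le_of_mul_le_mul_left (h2.trans h5) hk2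
    linarith
  · have h1 : (Y.E m0 fun b => Y.E m0 fun b' => γa l b b' * ind (Dj Y y m0 b b')) ≤
        Y.E m0 fun b => Y.E m0 fun b' => γa l b b' * ind (Dj Y y m (b.take m) (b'.take m)) :=
      Y.E_mono fun u _ => Y.E_mono fun v _ =>
        mul_le_mul_of_nonneg_left (ind_mono (htake hm u v)) (hG.nonneg u v)
    rw [gam_cyl hG hm fun b b' => ind (Dj Y y m b b')] at h1
    linarith
-- END gam_fix

end Pool.Agent.Esc
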