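import Pool.Agent.Esc.Bas

/-!
# Near hits and free segments (section 3 of the page)
-/

set_option autoImplicit false

namespace Pool.Agent.Esc

open Finset Filter Topology Pool.Agent.Bub4 Pool.Agent.SawM2 Pool.Agent.Taw

variable {S : Type} [Fintype S] {d : ℕ} {Y : Sys S (Zk d)} {K B : ℝ} {g : List S → ℝ}

-- BEGIN n1_sm_le
theorem n1_sm_le (hl : Lt Y) (w : List S) : n1 (Y.sm w) ≤ w.length := by
  induction w with
  | nil => simp
  | cons s w ih =>
    rw [Y.sm_cons, List.length_cons]
    have h1 := n1_add_le (Y.vec s) (Y.sm w)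
    have h2 := hl.one s
    omega
-- END n1_sm_le

-- BEGIN saw_geo
/-- geodesic words are self-avoiding: a factor with displacement `0` can be removed -/
theorem saw_geo (hl : Lt Y) {w : List S} (hw : w.length = n1 (Y.sm w)) : Y.Saw w := by
  rintro b ⟨x, y, rfl⟩ hb h0
  have h1 : Y.sm (x ++ b ++ y) = Y.sm (x ++ y) := by
    rw [Y.sm_append, Y.sm_append, h0, add_zero, Y.sm_append]
  rw [h1] at hw
  have h2 := n1_sm_le hl (x ++ y)
  have h3 : 0 < b.length := List.length_pos_of_ne_nil hb
  rw [← hw] at h2
  simp only [List.length_append] at h2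
  omega
-- END saw_geo

-- BEGIN free_seg
/-- Let `w` be a geodesic word from `y + sm (u.take i)` to `sm (v.take j)` (`hl.gen`), `p1` the
last index `p ≤ |w|` for which `y + sm (u.take i) + sm (w.take p)` is a point of `y + u`, say of
index `s`, `p2` the first index `p > p1` for which it is a point of `v`, of index `t`
(`p1 < |w|` and `p2` exists because the end of `w` is a point of `v` and no point of `y + u`,
`hD`). `q = (w.drop p1).take (p2 - p1)`. -/
theorem free_seg (hl : Lt Y) {y : Zk d} {M r : ℕ} {u v : List S} (hD : Dj Y y M u v) {i j : ℕ}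
    (hi : i ≤ M) (hj : j ≤ M) (hn : n1 (y + Y.sm (u.take i) - Y.sm (v.take j)) ≤ r) :
    ∃ s t q, Fr Y y r M u v s t q ∧ n1 (Y.sm (u.take s) - Y.sm (u.take i)) ≤ r ∧
      n1 (Y.sm (v.take t) - (y + Y.sm (u.take i))) ≤ r := by
  classical
  obtain ⟨w, hw, hwl⟩ := hl.gen (Y.sm (v.take j) - (y + Y.sm (u.take i)))
  have hwr : w.length ≤ r := by
    rw [hwl, n1_sub_comm]
    exact hn
  have hsaw : Y.Saw w := saw_geo hl (by rw [hw]; exact hwl)
  set x0 := y + Y.sm (u.take i) with hx0
  have hPU0 : ∃ s ≤ M, x0 + Y.sm (w.take 0) = y + Y.sm (u.take s) := ⟨i, hi, by simp [hx0]⟩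
  set p1 := Nat.findGreatest (fun p => ∃ s ≤ M, x0 + Y.sm (w.take p) = y + Y.sm (u.take s))
    w.length with hp1
  have hP1 : ∃ s ≤ M, x0 + Y.sm (w.take p1) = y + Y.sm (u.take s) :=
    Nat.findGreatest_spec (P := fun p => ∃ s ≤ M, x0 + Y.sm (w.take p) = y + Y.sm (u.take s))
      (Nat.zero_le w.length) hPU0
  have hp1le : p1 ≤ w.length := Nat.findGreatest_le _
  have hend : x0 + Y.sm (w.take w.length) = Y.sm (v.take j) := by
    rw [List.take_length, hw]
    abel
  obtain ⟨s, hs, hse⟩ := hP1
  have hp1lt : p1 < w.length := by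
    rcases hp1le.lt_or_eq with h | h
    · exact h
    · exfalso
      rw [h, hend] at hse
      exact hD s hs j hj hse.symm
  have hex : ∃ p, p1 < p ∧ p ≤ w.length ∧ ∃ t ≤ M, x0 + Y.sm (w.take p) = Y.sm (v.take t) :=
    ⟨w.length, hp1lt, le_rfl, j, hj, hend⟩
  obtain ⟨hlt, hle, t, ht, hte⟩ := Nat.find_spec hex
  have hmin := fun p (hp : p < Nat.find hex) => Nat.find_min hex hp
  set p2 := Nat.find hex with hp2
  have hq : ∀ p ≤ p2 - p1, Y.sm (w.take (p1 + p)) =
      Y.sm (w.take p1) + Y.sm (((w.drop p1).take (p2 - p1)).take p) := by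
    intro p hp
    rw [List.take_take, min_eq_left hp, List.take_add, Y.sm_append]
  have hql : ((w.drop p1).take (p2 - p1)).length = p2 - p1 := by
    rw [List.length_take, List.length_drop]
    omega
  refine ⟨s, t, (w.drop p1).take (p2 - p1), ⟨hs, ht, ?_, ?_, ?_, ?_, ?_, ?_⟩, ?_, ?_⟩
  · intro h0
    rw [h0] at hql
    simp at hql
    omega
  · rw [hql]
    omega
  · intro b hb hb0
    exact hsaw b (hb.trans ((List.take_prefix _ _).isInfix.trans (List.drop_suffix _ _).isInfix)) hb0
  · rw [← hse]
    have := hq (p2 - p1) le_rfl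
    rw [show p1 + (p2 - p1) = p2 by omega, List.take_take, min_self] at this
    rw [add_assoc, ← this, hte]
  · intro p hp0 hpl k hk he
    rw [hql] at hpl
    rw [← hse, add_assoc, ← hq p hpl.le] at he
    have := Nat.findGreatest_is_greatest
      (P := fun p => ∃ s ≤ M, x0 + Y.sm (w.take p) = y + Y.sm (u.take s)) (n := w.length)
      (k := p1 + p) (by omega) (by omega)
    exact this ⟨k, hk, he⟩
  · intro p hp0 hpl k hk he
    rw [hql] at hpl
    rw [← hse, add_assoc, ← hq p hpl.le] at he
    exact hmin (p1 + p) (by omega) ⟨by omega, by omega, k, hk, he⟩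
  · have h1 : Y.sm (u.take s) - Y.sm (u.take i) = Y.sm (w.take p1) := by
      have : Y.sm (w.take p1) = y + Y.sm (u.take s) - x0 := by rw [← hse]; abel
      rw [this, hx0]
      abel
    rw [h1]
    refine (n1_sm_le hl _).trans ?_
    rw [List.length_take]
    omega
  · have h1 : Y.sm (v.take t) - x0 = Y.sm (w.take p2) := by rw [← hte]; abel
    rw [h1]
    refine (n1_sm_le hl _).trans ?_
    rw [List.length_take]
    omega
-- END free_seg

/-- the swapped walks -/
def su (u v : List S) (s t : ℕ) (q : List S) : List S := u.take s ++ q ++ v.drop t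

/-- the swapped walks -/
def sw (Y : Sys S (Zk d)) (u v : List S) (s t : ℕ) (q : List S) : List S :=
  v.take t ++ bar Y q ++ u.drop s

-- BEGIN sm_bar
theorem sm_bar (w : List S) : Y.sm (bar Y w) = - Y.sm w ∧ (bar Y w).length = w.length ∧
    Y.sv (bar Y w) = Y.sv w ∧ bar Y (bar Y w) = w := by
  refine ⟨by simp [bar], by simp [bar], by simp [bar], ?_⟩
  simp only [bar, List.map_reverse, List.reverse_reverse, List.map_map]
  have h : (Y.neg ∘ Y.neg) = id := funext Y.neg_neg
  rw [h, List.map_id]
-- END sm_bar

-- BEGIN saw_iff_take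
/-- a word is self-avoiding if and only if its prefixes have different displacements -/
theorem saw_iff_take (w : List S) : Y.Saw w ↔
    ∀ i j, i < j → j ≤ w.length → Y.sm (w.take i) ≠ Y.sm (w.take j) := by
  constructor
  · intro h i j hij hj he
    have h1 : w.take j = w.take i ++ (w.take j).drop i := by
      have h2 := List.take_append_drop i (w.take j)
      rw [List.take_take, min_eq_left hij.le] at h2
      exact h2.symm
    have h3 : Y.sm (w.take j) = Y.sm (w.take i) + Y.sm ((w.take j).drop i) := by
      conv_lhs => rw [h1]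
      rw [Y.sm_append]
    refine h ((w.take j).drop i) ?_ ?_ ?_
    · exact (List.drop_suffix i _).isInfix.trans (List.take_prefix j w).isInfix
    · intro h0
      have h4 := congrArg List.length h0
      rw [List.length_drop, List.length_take, min_eq_left hj, List.length_nil] at h4
      omega
    · rw [he] at h3
      exact left_eq_add.1 h3
  · rintro h b ⟨x, y, rfl⟩ hb h0
    have h3 : 0 < b.length := List.length_pos_of_ne_nil hb
    refine h x.length (x.length + b.length) (by omega) (by simp) ?_
    have e1 : (x ++ b ++ y).take x.length = x := by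
      rw [List.append_assoc, List.take_left' rfl]
    have e2 : (x ++ b ++ y).take (x.length + b.length) = x ++ b := by
      rw [List.take_left' (by rw [List.length_append])]
    rw [e1, e2, Y.sm_append, h0, add_zero]
-- END saw_iff_take

-- BEGIN su_points
/-- the points of `y + su u v s t q`: index `i ≤ s`: `y + sm (u.take i)`; `s + p`, `p ≤ |q|`:
`y + sm (u.take s) + sm (q.take p)`; `s + |q| + i`, `i ≤ |v| - t`: `sm (v.take (t + i))` -/
theorem su_points {y : Zk d} {r M : ℕ} {u v : List S} {s t : ℕ} {q : List S}
    (hu : u.length = M) (hv : v.length = M) (hF : Fr Y y r M u v s t q) :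
    (∀ i ≤ s, (su u v s t q).take i = u.take i) ∧
    (∀ p ≤ q.length, y + Y.sm ((su u v s t q).take (s + p)) =
      y + Y.sm (u.take s) + Y.sm (q.take p)) ∧
    (∀ i, t + i ≤ M → y + Y.sm ((su u v s t q).take (s + q.length + i)) = Y.sm (v.take (t + i))) := by
  have hs : (u.take s).length = s := by
    rw [List.length_take, hu]; exact min_eq_left hF.s_le
  refine ⟨fun i hi => ?_, fun p hp => ?_, fun i hi => ?_⟩
  · unfold su
    rw [List.append_assoc, List.take_append_of_le_length (by omega), List.take_take,
      min_eq_left hi]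
  · unfold su
    rw [List.append_assoc]
    have h1 : (u.take s ++ (q ++ v.drop t)).take (s + p) = u.take s ++ (q ++ v.drop t).take p := by
      conv_lhs => rw [← hs]
      rw [hs]
      have h2 := List.take_length_add_append p (l₁ := u.take s) (l₂ := q ++ v.drop t)
      rw [hs] at h2
      exact h2
    rw [h1, List.take_append_of_le_length hp, Y.sm_append, add_assoc]
  · unfold su
    have hl : (u.take s ++ q).length = s + q.length := by rw [List.length_append, hs]
    have h2 := List.take_length_add_append i (l₁ := u.take s ++ q) (l₂ := v.drop t)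
    rw [hl] at h2
    rw [h2, Y.sm_append, Y.sm_append, List.take_add, Y.sm_append, ← hF.fin]
    abel
-- END su_points

-- BEGIN sw_points
/-- the points of `sw`: index `i ≤ t`: `sm (v.take i)`; `t + p`, `p ≤ |q|`:
`y + sm (u.take s) + sm (q.take (|q| - p))`; `t + |q| + i`: `y + sm (u.take (s + i))`. -/
theorem sw_points {y : Zk d} {r M : ℕ} {u v : List S} {s t : ℕ} {q : List S}
    (hu : u.length = M) (hv : v.length = M) (hF : Fr Y y r M u v s t q) :
    (∀ i ≤ t, (sw Y u v s t q).take i = v.take i) ∧
    (∀ p ≤ q.length, Y.sm ((sw Y u v s t q).take (t + p)) =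
      y + Y.sm (u.take s) + Y.sm (q.take (q.length - p))) ∧
    (∀ i, s + i ≤ M → Y.sm ((sw Y u v s t q).take (t + q.length + i)) =
      y + Y.sm (u.take (s + i))) := by
  have ht : (v.take t).length = t := by
    rw [List.length_take, hv]; exact min_eq_left hF.t_le
  have hbl : (bar Y q).length = q.length := (sm_bar (Y := Y) q).2.1
  have hbs : Y.sm (bar Y q) = - Y.sm q := (sm_bar (Y := Y) q).1
  refine ⟨fun i hi => ?_, fun p hp => ?_, fun i hi => ?_⟩
  · unfold sw
    rw [List.append_assoc, List.take_append_of_le_length (by omega), List.take_take,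
      min_eq_left hi]
  · unfold sw
    rw [List.append_assoc]
    have h2 := List.take_length_add_append p (l₁ := v.take t) (l₂ := bar Y q ++ u.drop s)
    rw [ht] at h2
    rw [h2, List.take_append_of_le_length (by omega), Y.sm_append, ← hF.fin]
    have h3 : Y.sm ((bar Y q).take p) = - Y.sm (q.drop (q.length - p)) := by
      unfold bar
      rw [List.take_reverse, Y.sm_reverse, List.length_map, ← List.map_drop, Y.sm_neg]
    have h4 : Y.sm q = Y.sm (q.take (q.length - p)) + Y.sm (q.drop (q.length - p)) := by
      conv_lhs => rw [← List.take_append_drop (q.length - p) q]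
      rw [Y.sm_append]
    rw [h3, h4]
    abel
  · unfold sw
    have hl : (v.take t ++ bar Y q).length = t + q.length := by rw [List.length_append, ht, hbl]
    have h2 := List.take_length_add_append i (l₁ := v.take t ++ bar Y q) (l₂ := u.drop s)
    rw [hl] at h2
    rw [h2, Y.sm_append, Y.sm_append, List.take_add, Y.sm_append, ← hF.fin, hbs]
    abel
-- END sw_points

-- BEGIN swap_saw
private theorem swap_saw_three {V : Type} {f A Q C : ℕ → V} {s l m : ℕ} (hl : 0 < l)
    (hA : ∀ i ≤ s, f i = A i) (hQ : ∀ p ≤ l, f (s + p) = Q p) (hC : ∀ i ≤ m, f (s + l + i) = C i)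
    (iA : ∀ i j, i < j → j ≤ s → A i ≠ A j) (iQ : ∀ i j, i < j → j ≤ l → Q i ≠ Q j)
    (iC : ∀ i j, i < j → j ≤ m → C i ≠ C j) (dAC : ∀ i ≤ s, ∀ j ≤ m, A i ≠ C j)
    (dQA : ∀ p, 0 < p → p < l → ∀ i ≤ s, Q p ≠ A i)
    (dQC : ∀ p, 0 < p → p < l → ∀ j ≤ m, Q p ≠ C j) :
    ∀ i j, i < j → j ≤ s + l + m → f i ≠ f j := by
  intro i j hij hj
  rcases le_or_gt i s with hi | hi
  · rcases le_or_gt j s with hj1 | hj1
    · rw [hA i hi, hA j hj1]; exact iA i j hij hj1
    · rcases lt_or_ge j (s + l) with hj2 | hj2
      · obtain ⟨p, rfl⟩ : ∃ p, j = s + p := ⟨j - s, by omega⟩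
        rw [hA i hi, hQ p (by omega)]
        exact (dQA p (by omega) (by omega) i hi).symm
      · obtain ⟨k, rfl⟩ : ∃ k, j = s + l + k := ⟨j - (s + l), by omega⟩
        rw [hA i hi, hC k (by omega)]
        exact dAC i hi k (by omega)
  · rcases lt_or_ge i (s + l) with hi2 | hi2
    · obtain ⟨p, rfl⟩ : ∃ p, i = s + p := ⟨i - s, by omega⟩
      rcases lt_or_ge j (s + l) with hj2 | hj2
      · obtain ⟨p', rfl⟩ : ∃ p, j = s + p := ⟨j - s, by omega⟩
        rw [hQ p (by omega), hQ p' (by omega)]
        exact iQ p p' (by omega) (by omega)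
      · obtain ⟨k, rfl⟩ : ∃ k, j = s + l + k := ⟨j - (s + l), by omega⟩
        rw [hQ p (by omega), hC k (by omega)]
        exact dQC p (by omega) (by omega) k (by omega)
    · obtain ⟨k, rfl⟩ : ∃ k, i = s + l + k := ⟨i - (s + l), by omega⟩
      obtain ⟨k', rfl⟩ : ∃ k, j = s + l + k := ⟨j - (s + l), by omega⟩
      rw [hC k (by omega), hC k' (by omega)]
      exact iC k k' (by omega) (by omega)

/-- from `su_points`, `sw_points`, `saw_iff_take`, `hD`, `hF` -/
theorem swap_saw {y : Zk d} {r M : ℕ} {u v : List S} {s t : ℕ} {q : List S}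
    (hu : u.length = M) (hv : v.length = M) (hus : Y.Saw u) (hvs : Y.Saw v)
    (hD : Dj Y y M u v) (hF : Fr Y y r M u v s t q) :
    Y.Saw (su u v s t q) ∧ Y.Saw (sw Y u v s t q) := by
  have hq : 0 < q.length := List.length_pos_of_ne_nil hF.ne
  have hs := hF.s_le
  have ht := hF.t_le
  obtain ⟨a1, a2, a3⟩ := su_points hu hv hF
  obtain ⟨b1, b2, b3⟩ := sw_points hu hv hF
  have iu := (saw_iff_take (Y := Y) u).1 hus
  have iv := (saw_iff_take (Y := Y) v).1 hvs
  have iq := (saw_iff_take (Y := Y) q).1 hF.saw
  constructor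
  · rw [saw_iff_take]
    have hlen : (su u v s t q).length = s + q.length + (M - t) := by
      simp only [su, List.length_append, List.length_take, List.length_drop, hu, hv,
        min_eq_left hs]
    have key := swap_saw_three (f := fun i => y + Y.sm ((su u v s t q).take i))
      (A := fun i => y + Y.sm (u.take i))
      (Q := fun p => y + Y.sm (u.take s) + Y.sm (q.take p))
      (C := fun i => Y.sm (v.take (t + i))) (s := s) (l := q.length) (m := M - t) hq
      (fun i hi => by simp only [a1 i hi]) (fun p hp => a2 p hp)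
      (fun i hi => a3 i (by omega))
      (fun i j hij hj h => iu i j hij (by omega) (add_left_cancel h))
      (fun i j hij hj h => iq i j hij (by omega) (add_left_cancel h))
      (fun i j hij hj h => iv (t + i) (t + j) (by omega) (by omega) h)
      (fun i hi j hj => hD i (by omega) (t + j) (by omega))
      (fun p hp hp' i hi => hF.free_u p hp hp' i (by omega))
      (fun p hp hp' j hj => hF.free_v p hp hp' (t + j) (by omega))
    intro i j hij hj h
    exact key i j hij (by omega) (by simp only [h])
  · rw [saw_iff_take]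
    have hlen : (sw Y u v s t q).length = t + q.length + (M - s) := by
      simp only [sw, List.length_append, List.length_take, List.length_drop, hu, hv,
        min_eq_left ht, (sm_bar (Y := Y) q).2.1]
    have key := swap_saw_three (f := fun i => Y.sm ((sw Y u v s t q).take i))
      (A := fun i => Y.sm (v.take i))
      (Q := fun p => y + Y.sm (u.take s) + Y.sm (q.take (q.length - p)))
      (C := fun i => y + Y.sm (u.take (s + i))) (s := t) (l := q.length) (m := M - s) hq
      (fun i hi => by simp only [b1 i hi]) (fun p hp => b2 p hp)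
      (fun i hi => b3 i (by omega))
      (fun i j hij hj h => iv i j hij (by omega) h)
      (fun i j hij hj h => iq (q.length - j) (q.length - i) (by omega) (by omega)
        (add_left_cancel h).symm)
      (fun i j hij hj h => iu (s + i) (s + j) (by omega) (by omega) (add_left_cancel h))
      (fun i hi j hj h => hD (s + j) (by omega) i (by omega) h.symm)
      (fun p hp hp' i hi => hF.free_v (q.length - p) (by omega) (by omega) i (by omega))
      (fun p hp hp' j hj => hF.free_u (q.length - p) (by omega) (by omega) (s + j) (by omega))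
    intro i j hij hj h
    exact key i j hij (by omega) (by simp only [h])
-- END swap_saw

-- BEGIN swap_dec
/-- the points of `U` -/
private theorem swap_dec_U {y : Zk d} {r M N2 : ℕ} {u v U : List S} {s t : ℕ} {q : List S}
    (hu : u.length = M) (hv : v.length = M) (hF : Fr Y y r M u v s t q) (ht : t ≤ N2)
    (hU : su u v s t q <+: U) (i : ℕ) (hi : i ≤ M - N2) :
    (i ≤ s ∧ y + Y.sm (U.take i) = y + Y.sm (u.take i)) ∨
    (∃ p, 0 < p ∧ p < q.length ∧ i = s + p ∧
      y + Y.sm (U.take i) = y + Y.sm (u.take s) + Y.sm (q.take p)) ∨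
    (∃ k, i = s + q.length + k ∧ t + k ≤ M ∧ y + Y.sm (U.take i) = Y.sm (v.take (t + k))) := by
  obtain ⟨h1, h2, h3⟩ := su_points hu hv hF
  have hsM := hF.s_le
  have htM := hF.t_le
  have hlen : (su u v s t q).length = s + q.length + (M - t) := by
    unfold su
    rw [List.length_append, List.length_append, List.length_take, List.length_drop, hu, hv,
      min_eq_left hsM]
  obtain ⟨x, rfl⟩ := hU
  have hT : (su u v s t q ++ x).take i = (su u v s t q).take i :=
    List.take_append_of_le_length (by rw [hlen]; omega)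
  rw [hT]
  rcases le_or_gt i s with h | h
  · exact Or.inl ⟨h, by rw [h1 i h]⟩
  · rcases lt_or_ge i (s + q.length) with h' | h'
    · refine Or.inr (Or.inl ⟨i - s, by omega, by omega, by omega, ?_⟩)
      have := h2 (i - s) (by omega)
      rwa [show s + (i - s) = i by omega] at this
    · refine Or.inr (Or.inr ⟨i - (s + q.length), by omega, by omega, ?_⟩)
      have := h3 (i - (s + q.length)) (by omega)
      rwa [show s + q.length + (i - (s + q.length)) = i by omega] at this

/-- the points of `V` -/
private theorem swap_dec_V {y : Zk d} {r M N2 : ℕ} {u v V : List S} {s t : ℕ} {q : List S}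
    (hu : u.length = M) (hv : v.length = M) (hF : Fr Y y r M u v s t q) (hs : s ≤ N2)
    (hV : sw Y u v s t q <+: V) (j : ℕ) (hj : j ≤ M - N2) :
    (j ≤ t ∧ Y.sm (V.take j) = Y.sm (v.take j)) ∨
    (∃ p, 0 < p ∧ p < q.length ∧
      Y.sm (V.take j) = y + Y.sm (u.take s) + Y.sm (q.take p)) ∨
    (∃ k, j = t + q.length + k ∧ s + k ≤ M ∧ Y.sm (V.take j) = y + Y.sm (u.take (s + k))) := by
  obtain ⟨h1, h2, h3⟩ := sw_points hu hv hF
  have hsM := hF.s_le
  have htM := hF.t_le
  have hb : (bar Y q).length = q.length := (sm_bar (Y := Y) q).2.1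
  have hlen : (sw Y u v s t q).length = t + q.length + (M - s) := by
    unfold sw
    rw [List.length_append, List.length_append, List.length_take, List.length_drop, hu, hv, hb,
      min_eq_left htM]
  obtain ⟨x, rfl⟩ := hV
  have hT : (sw Y u v s t q ++ x).take j = (sw Y u v s t q).take j :=
    List.take_append_of_le_length (by rw [hlen]; omega)
  rw [hT]
  rcases le_or_gt j t with h | h
  · exact Or.inl ⟨h, by rw [h1 j h]⟩
  · rcases lt_or_ge j (t + q.length) with h' | h'
    · refine Or.inr (Or.inl ⟨q.length - (j - t), by omega, by omega, ?_⟩)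
      have := h2 (j - t) (by omega)
      rwa [show t + (j - t) = j by omega] at this
    · refine Or.inr (Or.inr ⟨j - (t + q.length), by omega, by omega, ?_⟩)
      have := h3 (j - (t + q.length)) (by omega)
      rwa [show t + q.length + (j - (t + q.length)) = j by omega] at this

/-- Decoding. `U`, `V` are extensions of the swapped walks; `s, t ≤ N2`, `N2 + r ≤ M - N2`.
(1) no point of `y + U` before the index `s` is among the points of `V` up to `M - N2`;
(2) the point of index `s` is; (3), (4) the same for `V` and `t`; (5) the index of the point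
`V_t` in `y + U` is `s + |q|`; (6) `q` is a factor of `U`. From `su_points`, `sw_points`: the
points of `V` up to `M - N2` are points of `v`, inner points of `q` and points of `y + u`. -/
theorem swap_dec {y : Zk d} {r M N2 : ℕ} {u v U V : List S} {s t : ℕ} {q : List S}
    (hu : u.length = M) (hv : v.length = M) (hus : Y.Saw u) (hvs : Y.Saw v)
    (hD : Dj Y y M u v) (hF : Fr Y y r M u v s t q) (hs : s ≤ N2) (ht : t ≤ N2)
    (hM : N2 + r + N2 ≤ M) (hU : su u v s t q <+: U) (hV : sw Y u v s t q <+: V) :
    (∀ i < s, ∀ j ≤ M - N2, y + Y.sm (U.take i) ≠ Y.sm (V.take j)) ∧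
    (∃ j ≤ M - N2, y + Y.sm (U.take s) = Y.sm (V.take j)) ∧
    (∀ j < t, ∀ i ≤ M - N2, y + Y.sm (U.take i) ≠ Y.sm (V.take j)) ∧
    (∃ i ≤ M - N2, y + Y.sm (U.take i) = Y.sm (V.take t)) ∧
    (∀ i ≤ M - N2, y + Y.sm (U.take i) = Y.sm (V.take t) → i = s + q.length) ∧
    q = (U.drop s).take q.length := by
  have hlen := hF.len
  have hne : 0 < q.length := List.length_pos_iff.2 hF.ne
  have hsM := hF.s_le
  have htM := hF.t_le
  have hPU := swap_dec_U hu hv hF ht hU
  have hPV := swap_dec_V hu hv hF hs hV
  have hui : ∀ a b, a ≤ M → b ≤ M → Y.sm (u.take a) = Y.sm (u.take b) → a = b := by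
    intro a b ha hb he
    rcases lt_trichotomy a b with h | h | h
    · exact absurd he ((saw_iff_take u).1 hus a b h (by rw [hu]; exact hb))
    · exact h
    · exact absurd he.symm ((saw_iff_take u).1 hus b a h (by rw [hu]; exact ha))
  have hvi : ∀ a b, a ≤ M → b ≤ M → Y.sm (v.take a) = Y.sm (v.take b) → a = b := by
    intro a b ha hb he
    rcases lt_trichotomy a b with h | h | h
    · exact absurd he ((saw_iff_take v).1 hvs a b h (by rw [hv]; exact hb))
    · exact h
    · exact absurd he.symm ((saw_iff_take v).1 hvs b a h (by rw [hv]; exact ha))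
  have hUs : ∀ i ≤ s, y + Y.sm (U.take i) = y + Y.sm (u.take i) := by
    intro i hi
    rcases hPU i (by omega) with h | ⟨p, hp, _, h, _⟩ | ⟨k, h, _, _⟩
    · exact h.2
    · omega
    · omega
  have hVt : ∀ j ≤ t, Y.sm (V.take j) = Y.sm (v.take j) := by
    intro j hj
    obtain ⟨x, rfl⟩ := hV
    have h1 := (sw_points hu hv hF).1 j hj
    have hT : (sw Y u v s t q ++ x).take j = (sw Y u v s t q).take j := by
      refine List.take_append_of_le_length ?_
      unfold sw
      rw [List.length_append, List.length_append, List.length_take]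
      omega
    rw [hT, h1]
  refine ⟨?_, ?_, ?_, ?_, ?_, ?_⟩
  · intro i hi j hj he
    rw [hUs i hi.le] at he
    rcases hPV j hj with ⟨h, h'⟩ | ⟨p, hp, hpq, h'⟩ | ⟨k, _, hk, h'⟩
    · rw [h'] at he
      exact hD i (by omega) j (by omega) he
    · rw [h'] at he
      exact hF.free_u p hp hpq i (by omega) he.symm
    · rw [h'] at he
      have := hui i (s + k) (by omega) hk (add_left_cancel he)
      omega
  · refine ⟨t + q.length, by omega, ?_⟩
    rw [hUs s le_rfl]
    rcases hPV (t + q.length) (by omega) with ⟨h, h'⟩ | ⟨p, hp, hpq, h'⟩ | ⟨k, h, hk, h'⟩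
    · omega
    · exfalso
      have h2 := (sw_points hu hv hF).2.1 q.length le_rfl
      obtain ⟨x, rfl⟩ := hV
      have hT : (sw Y u v s t q ++ x).take (t + q.length) =
          (sw Y u v s t q).take (t + q.length) := by
        refine List.take_append_of_le_length ?_
        unfold sw
        rw [List.length_append, List.length_append, List.length_take, (sm_bar (Y := Y) q).2.1]
        omega
      rw [hT, h2] at h'
      simp only [Nat.sub_self, List.take_zero, Y.sm_nil, add_zero] at h'
      exact hF.free_u p hp hpq s hsM h'.symm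
    · have : k = 0 := by omega
      subst this
      rw [h', add_zero]
  · intro j hj i hi he
    rw [hVt j hj.le] at he
    rcases hPU i hi with ⟨h, h'⟩ | ⟨p, hp, hpq, h, h'⟩ | ⟨k, _, hk, h'⟩
    · rw [h'] at he
      exact hD i (by omega) j (by omega) he
    · rw [h'] at he
      exact hF.free_v p hp hpq j (by omega) he
    · rw [h'] at he
      have := hvi (t + k) j hk (by omega) he
      omega
  · refine ⟨s + q.length, by omega, ?_⟩
    rw [hVt t le_rfl]
    rcases hPU (s + q.length) (by omega) with ⟨h, h'⟩ | ⟨p, hp, hpq, h, h'⟩ | ⟨k, h, hk, h'⟩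
    · omega
    · omega
    · have : k = 0 := by omega
      subst this
      rw [h', add_zero]
  · intro i hi he
    rw [hVt t le_rfl] at he
    rcases hPU i hi with ⟨h, h'⟩ | ⟨p, hp, hpq, h, h'⟩ | ⟨k, h, hk, h'⟩
    · rw [h'] at he
      exact absurd he (hD i (by omega) t htM)
    · rw [h'] at he
      exact absurd he (hF.free_v p hp hpq t htM)
    · rw [h'] at he
      have := hvi (t + k) t hk htM he
      omega
  · obtain ⟨x, rfl⟩ := hU
    unfold su
    rw [List.append_assoc, List.append_assoc,
      List.drop_left' (by rw [List.length_take]; omega), List.take_left' rfl]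
-- END swap_dec

end Pool.Agent.Esc
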