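import Pool.Agent.Esc.Geo

/-!
# The tail swap (section 3 of the page)
-/

set_option autoImplicit false

namespace Pool.Agent.Esc

open Finset Filter Topology Pool.Agent.Bub4 Pool.Agent.SawM2 Pool.Agent.Taw

variable {S : Type} [Fintype S] {d : ℕ} {Y : Sys S (Zk d)} {K B : ℝ} {g : List S → ℝ}

/-- the pair `U`, `V` extends a swapped pair with the data `s`, `t`, `q` -/
def Ph (Y : Sys S (Zk d)) (M : ℕ) (A : List S → List S → Prop) (s t : ℕ) (q U V : List S) : Prop :=
  ∃ u v : List S, u.length = M ∧ v.length = M ∧ A u v ∧ su u v s t q <+: U ∧ sw Y u v s t q <+: V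

-- BEGIN swap_mass
private theorem swap_mass_single (Y : Sys S (Zk d)) (q : List S) {F : List S → ℝ}
    (hF : ∀ w, 0 ≤ F w) : Y.z ^ q.length * F q ≤ Y.E q.length F := by
  induction q generalizing F with
  | nil => simp
  | cons x q ih =>
    rw [List.length_cons, Y.E_succ, pow_succ]
    have h1 := ih (F := fun w => F (x :: w)) (fun w => hF _)
    have h2 : Y.E q.length (fun w => F (x :: w)) ≤ ∑ s, Y.E q.length (fun w => F (s :: w)) :=
      Finset.single_le_sum (f := fun s => Y.E q.length (fun w => F (s :: w)))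
        (fun s _ => Y.E_nonneg' fun w => hF _) (Finset.mem_univ x)
    have h3 := mul_le_mul_of_nonneg_left (h1.trans h2) Y.z_pos.le
    calc Y.z ^ q.length * Y.z * F (x :: q) = Y.z * (Y.z ^ q.length * F (x :: q)) := by ring
      _ ≤ _ := h3

private theorem swap_mass_lb (Y : Sys S (Zk d)) (i k r : ℕ) (q : List S) {F : List S → ℝ}
    (hF : ∀ w, 0 ≤ F w) :
    Y.z ^ q.length * (Y.E i fun a => Y.E k fun c => Y.E r fun x => F (a ++ q ++ c ++ x)) ≤
      Y.E (i + q.length + k + r) F := by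
  rw [Y.E_add, Y.E_add, Y.E_add, ← Y.E_mul_left]
  refine Y.E_mono fun a _ => ?_
  exact swap_mass_single Y q (F := fun b => Y.E k fun c => Y.E r fun x => F (a ++ b ++ c ++ x))
    (fun b => Y.E_nonneg' fun c => Y.E_nonneg' fun x => hF _)

private theorem swap_mass_tend (Y : Sys S (Zk d)) (m : ℕ) {f : ℕ → List S → ℝ} {e : List S → ℝ}
    (hf : ∀ w, Tendsto (fun n => f n w) atTop (𝓝 (e w))) :
    Tendsto (fun n => Y.E m (f n)) atTop (𝓝 (Y.E m e)) := by
  simp only [Y.E_eq]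
  exact tendsto_finsetSum _ fun w _ => (hf _).const_mul _

private theorem swap_mass_perm (Y : Sys S (Zk d)) (i j k l : ℕ)
    (F : List S → List S → List S → List S → ℝ) :
    (Y.E i fun a => Y.E j fun b => Y.E k fun c => Y.E l fun e => F a b c e) =
      Y.E i fun a => Y.E l fun e => Y.E k fun c => Y.E j fun b => F a b c e := by
  refine Y.E_congr fun a _ => ?_
  calc (Y.E j fun b => Y.E k fun c => Y.E l fun e => F a b c e)
      = Y.E j fun b => Y.E l fun e => Y.E k fun c => F a b c e :=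
        Y.E_congr fun b _ => Y.E_comm _ _ _
    _ = Y.E l fun e => Y.E j fun b => Y.E k fun c => F a b c e := Y.E_comm _ _ _
    _ = _ := Y.E_congr fun e _ => Y.E_comm _ _ _

/-- the main term is bounded by the extensions -/
private theorem swap_mass_main (h : Cc Y K g) (s t : ℕ) (q : List S) {M M' : ℕ}
    (hs : s ≤ M) (ht : t ≤ M) (hM' : M + s + t + q.length ≤ M') (A : List S → List S → Prop) :
    Y.z ^ (2 * q.length) * (Y.E s fun a => Y.E (M - s) fun α => Y.E t fun c =>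
      Y.E (M - t) fun β => ind (A (a ++ α) (c ++ β)) * (g (a ++ q ++ β) *
        g (c ++ bar Y q ++ α))) ≤
      PP Y g M' (fun U V => ind (Ph Y M A s t q U V)) := by
  set I : List S → List S → ℝ := fun U V => ind (Ph Y M A s t q U V) with hI
  have hI0 : ∀ U V, 0 ≤ I U V := fun U V => ind_nonneg _
  have hb : (bar Y q).length = q.length := (sm_bar (Y := Y) q).2.1
  obtain ⟨r1, hr1⟩ : ∃ r1, M' = s + q.length + (M - t) + r1 := ⟨M' - (s + q.length + (M - t)), by omega⟩
  obtain ⟨r2, hr2⟩ : ∃ r2, M' = t + (bar Y q).length + (M - s) + r2 :=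
    ⟨M' - (t + (bar Y q).length + (M - s)), by omega⟩
  have hr2' : M' = t + q.length + (M - s) + r2 := by omega
  have h1 : ∀ U, Y.z ^ q.length * (Y.E t fun c => Y.E (M - s) fun α => Y.E r2 fun x' =>
      g U * g (c ++ bar Y q ++ α ++ x') * I U (c ++ bar Y q ++ α ++ x')) ≤
      Y.E M' fun V => g U * g V * I U V := by
    intro U
    have := swap_mass_lb Y t (M - s) r2 (bar Y q) (F := fun V => g U * g V * I U V)
      (fun V => mul_nonneg (mul_nonneg (h.nonneg _) (h.nonneg _)) (hI0 _ _))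
    rw [hb, ← hr2'] at this
    exact this
  have h2 : Y.z ^ q.length * (Y.E s fun a => Y.E (M - t) fun β => Y.E r1 fun x =>
      Y.z ^ q.length * (Y.E t fun c => Y.E (M - s) fun α => Y.E r2 fun x' =>
      g (a ++ q ++ β ++ x) * g (c ++ bar Y q ++ α ++ x') *
        I (a ++ q ++ β ++ x) (c ++ bar Y q ++ α ++ x'))) ≤
      PP Y g M' (fun U V => ind (Ph Y M A s t q U V)) := by
    have h3 := swap_mass_lb Y s (M - t) r1 q (F := fun U => Y.z ^ q.length *
      (Y.E t fun c => Y.E (M - s) fun α => Y.E r2 fun x' =>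
      g U * g (c ++ bar Y q ++ α ++ x') * I U (c ++ bar Y q ++ α ++ x')))
      (fun U => mul_nonneg (pow_pos Y.z_pos _).le (Y.E_nonneg' fun c => Y.E_nonneg' fun α =>
        Y.E_nonneg' fun x' => mul_nonneg (mul_nonneg (h.nonneg _) (h.nonneg _)) (hI0 _ _)))
    rw [← hr1] at h3
    exact h3.trans (Y.E_mono fun U _ => h1 U)
  refine le_trans ?_ h2
  -- the prefixes force the event
  have h4 : ∀ a α c β x x' : List S, a.length = s → α.length = M - s → c.length = t →
      β.length = M - t → ind (A (a ++ α) (c ++ β)) ≤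
        I (a ++ q ++ β ++ x) (c ++ bar Y q ++ α ++ x') := by
    intro a α c β x x' ha hα hc hβ
    refine ind_mono fun hAA => ⟨a ++ α, c ++ β, by simp; omega, by simp; omega, hAA, ?_, ?_⟩
    · unfold su
      rw [List.take_left' ha, List.drop_left' hc]
      exact List.prefix_append _ _
    · unfold sw
      rw [List.take_left' hc, List.drop_left' ha]
      exact List.prefix_append _ _
  have h5 : (Y.E s fun a => Y.E (M - t) fun β => Y.E r1 fun x => Y.E t fun c =>
      Y.E (M - s) fun α => Y.E r2 fun x' =>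
      g (a ++ q ++ β ++ x) * g (c ++ bar Y q ++ α ++ x') * ind (A (a ++ α) (c ++ β))) ≤
      (Y.E s fun a => Y.E (M - t) fun β => Y.E r1 fun x => Y.E t fun c =>
      Y.E (M - s) fun α => Y.E r2 fun x' =>
      g (a ++ q ++ β ++ x) * g (c ++ bar Y q ++ α ++ x') *
        I (a ++ q ++ β ++ x) (c ++ bar Y q ++ α ++ x')) :=
    Y.E_mono fun a ha => Y.E_mono fun β hβ => Y.E_mono fun x _ => Y.E_mono fun c hc =>
      Y.E_mono fun α hα => Y.E_mono fun x' _ =>
        mul_le_mul_of_nonneg_left (h4 a α c β x x' ha hα hc hβ)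
          (mul_nonneg (h.nonneg _) (h.nonneg _))
  have h6 : (Y.E s fun a => Y.E (M - t) fun β => Y.E r1 fun x => Y.E t fun c =>
      Y.E (M - s) fun α => Y.E r2 fun x' =>
      g (a ++ q ++ β ++ x) * g (c ++ bar Y q ++ α ++ x') * ind (A (a ++ α) (c ++ β))) =
      Y.E s fun a => Y.E (M - s) fun α => Y.E t fun c =>
      Y.E (M - t) fun β => ind (A (a ++ α) (c ++ β)) * (g (a ++ q ++ β) *
        g (c ++ bar Y q ++ α)) := by
    rw [← swap_mass_perm Y s (M - t) t (M - s) (fun a β c α => ind (A (a ++ α) (c ++ β)) *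
      (g (a ++ q ++ β) * g (c ++ bar Y q ++ α)))]
    refine Y.E_congr fun a _ => Y.E_congr fun β _ => ?_
    rw [Y.E_comm]
    refine Y.E_congr fun c _ => ?_
    rw [Y.E_comm]
    refine Y.E_congr fun α _ => ?_
    calc (Y.E r1 fun x => Y.E r2 fun x' => g (a ++ q ++ β ++ x) *
          g (c ++ bar Y q ++ α ++ x') * ind (A (a ++ α) (c ++ β)))
        = Y.E r1 fun x => g (a ++ q ++ β ++ x) * (g (c ++ bar Y q ++ α) *
            ind (A (a ++ α) (c ++ β))) := by
          refine Y.E_congr fun x _ => ?_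
          rw [← h.right (c ++ bar Y q ++ α) r2, ← Y.E_mul_right, ← Y.E_mul_left]
          refine Y.E_congr fun x' _ => ?_
          ring
      _ = g (a ++ q ++ β) * (g (c ++ bar Y q ++ α) * ind (A (a ++ α) (c ++ β))) := by
          rw [Y.E_mul_right, h.right]
      _ = _ := by ring
  rw [← h6]
  have h7 : Y.z ^ q.length * (Y.E s fun a => Y.E (M - t) fun β => Y.E r1 fun x =>
      Y.z ^ q.length * (Y.E t fun c => Y.E (M - s) fun α => Y.E r2 fun x' =>
      g (a ++ q ++ β ++ x) * g (c ++ bar Y q ++ α ++ x') *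
        I (a ++ q ++ β ++ x) (c ++ bar Y q ++ α ++ x'))) =
      Y.z ^ (2 * q.length) * (Y.E s fun a => Y.E (M - t) fun β => Y.E r1 fun x => Y.E t fun c =>
      Y.E (M - s) fun α => Y.E r2 fun x' =>
      g (a ++ q ++ β ++ x) * g (c ++ bar Y q ++ α ++ x') *
        I (a ++ q ++ β ++ x) (c ++ bar Y q ++ α ++ x')) := by
    simp only [Y.E_mul_left (c := Y.z ^ q.length)]
    rw [two_mul, pow_add]
    ring
  rw [h7]
  exact mul_le_mul_of_nonneg_left h5 (pow_pos Y.z_pos _).le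

/-- Mass of the swap for fixed `s, t, q`, any property `A` of pairs of words of length `M` for
which the swapped words are self-avoiding. Write `u = a ++ α`, `v = c ++ β` (`|a| = s`, `|c| = t`,
`E_add` twice). `g (a ++ α) * g (c ++ β) ≤ g α * g β ≤ g (a ++ q ++ β) * g (c ++ bar q ++ α) +
(sv (a ++ q ++ β) * g β - g (a ++ q ++ β)) + (sv (c ++ bar q ++ α) * g α - g (c ++ bar q ++ α))`
on `A` (all numbers are in `[0, 1]`). The two differences are summed over everything (drop `A` but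
keep `sv (a ++ α) ≤ 1`, sums over `α` of `sv α` are `≤ K`): at most
`K * Y.E s (fun a => Y.E t (fun c => et Y g (a ++ q) (M - t) + et Y g (c ++ bar Y q) (M - s)))
→ 0` (finitely many `a`, `c`; `et_facts`). Main term: `Y.z ^ (2 * |q|)` times it is a sum of
`g U0 * g V0` over `U0 = a ++ q ++ β`, `V0 = c ++ bar q ++ α`; by `h.right` it is the sum over the
extensions `U`, `V` of the common length `M'`; different `(u, v)` give different `(U0, V0)`. -/
theorem swap_mass (h : Cc Y K g) (s t : ℕ) (q : List S) {ε : ℝ} (hε : 0 < ε) :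
    ∃ M0 : ℕ, ∀ M ≥ M0, ∀ M' ≥ M + s + t + q.length, ∀ A : List S → List S → Prop,
      (∀ u v, u.length = M → v.length = M → A u v →
        Y.Saw (su u v s t q) ∧ Y.Saw (sw Y u v s t q)) →
      PP Y g M (fun u v => ind (A u v)) ≤
        (Y.z ^ (2 * q.length))⁻¹ * PP Y g M' (fun U V => ind (Ph Y M A s t q U V)) + ε := by
  have hz : 0 < Y.z ^ (2 * q.length) := pow_pos Y.z_pos _
  have hT : Tendsto (fun M : ℕ => Y.E s fun a => Y.E t fun c =>
      et Y g (a ++ q) (M - t) + et Y g (c ++ bar Y q) (M - s)) atTop (𝓝 0) := by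
    have := swap_mass_tend Y s (f := fun M a => Y.E t fun c =>
      et Y g (a ++ q) (M - t) + et Y g (c ++ bar Y q) (M - s)) (e := fun _ => 0) (fun a => by
        have := swap_mass_tend Y t (f := fun M c =>
          et Y g (a ++ q) (M - t) + et Y g (c ++ bar Y q) (M - s)) (e := fun _ => 0) (fun c => by
            have h1 := (et_facts h (a ++ q)).2.2.comp (tendsto_sub_atTop_nat t)
            have h2 := (et_facts h (c ++ bar Y q)).2.2.comp (tendsto_sub_atTop_nat s)
            simpa using h1.add h2)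
        simpa using this)
    simpa using this
  obtain ⟨M1, hM1⟩ := eventually_atTop.1 ((tendsto_order.1 hT).2 ε hε)
  refine ⟨max M1 (s + t), fun M hM M' hM' A hA => ?_⟩
  have hMs : s ≤ M := le_trans (by omega) ((le_max_right M1 (s + t)).trans hM)
  have hMt : t ≤ M := le_trans (by omega) ((le_max_right M1 (s + t)).trans hM)
  have hdef := (hM1 M ((le_max_left _ _).trans hM)).le
  have hg1 : ∀ n, Y.E n g = 1 := E_g h
  -- decomposition of the left side
  have hL : PP Y g M (fun u v => ind (A u v)) = Y.E s fun a => Y.E (M - s) fun α => Y.E t fun c =>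
      Y.E (M - t) fun β => g (a ++ α) * g (c ++ β) * ind (A (a ++ α) (c ++ β)) := by
    unfold PP
    conv_lhs => rw [show M = s + (M - s) by omega]
    rw [Y.E_add]
    refine Y.E_congr fun a _ => Y.E_congr fun α _ => ?_
    have : M = t + (M - t) := by omega
    rw [show s + (M - s) = t + (M - t) by omega, Y.E_add]
  rw [hL]
  have hbd : (Y.E s fun a => Y.E (M - s) fun α => Y.E t fun c =>
      Y.E (M - t) fun β => g (a ++ α) * g (c ++ β) * ind (A (a ++ α) (c ++ β))) ≤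
      (Y.E s fun a => Y.E (M - s) fun α => Y.E t fun c =>
      Y.E (M - t) fun β => ind (A (a ++ α) (c ++ β)) * (g (a ++ q ++ β) *
        g (c ++ bar Y q ++ α)) + ((Y.sv (a ++ q ++ β) * g β - g (a ++ q ++ β)) * g α +
        g β * (Y.sv (c ++ bar Y q ++ α) * g α - g (c ++ bar Y q ++ α)))) := by
    refine Y.E_mono fun a ha => Y.E_mono fun α hα => Y.E_mono fun c hc => Y.E_mono fun β hβ => ?_
    have e1 : 0 ≤ Y.sv (a ++ q ++ β) * g β - g (a ++ q ++ β) := by
      have := g_append_le h (a ++ q) β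
      linarith
    have e2 : 0 ≤ Y.sv (c ++ bar Y q ++ α) * g α - g (c ++ bar Y q ++ α) := by
      have := g_append_le h (c ++ bar Y q) α
      linarith
    have p1 := h.nonneg α
    have p2 := h.nonneg β
    by_cases hAA : A (a ++ α) (c ++ β)
    · obtain ⟨hs1, hs2⟩ := hA (a ++ α) (c ++ β) (by simp; omega) (by simp; omega) hAA
      have f1 : su (a ++ α) (c ++ β) s t q = a ++ q ++ β := by
        unfold su
        rw [List.take_left' ha, List.drop_left' hc]
      have f2 : sw Y (a ++ α) (c ++ β) s t q = c ++ bar Y q ++ α := by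
        unfold sw
        rw [List.take_left' hc, List.drop_left' ha]
      rw [f1] at hs1
      rw [f2] at hs2
      rw [Y.sv_of hs1] at e1 ⊢
      rw [Y.sv_of hs2] at e2 ⊢
      rw [ind_of hAA]
      have d1 := h.drop a α
      have d2 := h.drop c β
      have d3 := h.nonneg (a ++ α)
      have d4 := h.nonneg (c ++ β)
      have d5 := h.nonneg (a ++ q ++ β)
      have d6 := h.nonneg (c ++ bar Y q ++ α)
      have k1 : g (a ++ α) * g (c ++ β) ≤ g α * g β := mul_le_mul d1 d2 d4 p1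
      nlinarith [mul_nonneg e1 e2]
    · rw [ind_not hAA]
      have := mul_nonneg e1 p1
      have := mul_nonneg p2 e2
      linarith
  refine hbd.trans ?_
  have hsplit : (Y.E s fun a => Y.E (M - s) fun α => Y.E t fun c =>
      Y.E (M - t) fun β => ind (A (a ++ α) (c ++ β)) * (g (a ++ q ++ β) *
        g (c ++ bar Y q ++ α)) + ((Y.sv (a ++ q ++ β) * g β - g (a ++ q ++ β)) * g α +
        g β * (Y.sv (c ++ bar Y q ++ α) * g α - g (c ++ bar Y q ++ α)))) =
      (Y.E s fun a => Y.E (M - s) fun α => Y.E t fun c => Y.E (M - t) fun β =>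
        ind (A (a ++ α) (c ++ β)) * (g (a ++ q ++ β) * g (c ++ bar Y q ++ α))) +
      Y.E s fun a => Y.E t fun c => et Y g (a ++ q) (M - t) + et Y g (c ++ bar Y q) (M - s) := by
    simp only [Y.E_fadd]
    congr 1
    congr 1
    · refine Y.E_congr fun a _ => ?_
      rw [Y.E_comm]
      refine Y.E_congr fun c _ => ?_
      rw [et_eq h (a ++ q) (M - t)]
      simp only [Y.E_mul_right, Y.E_mul_left]
      rw [hg1, mul_one]
    · refine Y.E_congr fun a _ => ?_
      rw [Y.E_comm]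
      refine Y.E_congr fun c _ => ?_
      rw [et_eq h (c ++ bar Y q) (M - s)]
      simp only [Y.E_mul_right, Y.E_mul_left]
      rw [hg1, one_mul]
  rw [hsplit]
  refine add_le_add ?_ hdef
  rw [inv_mul_eq_div, le_div_iff₀ hz, mul_comm]
  exact swap_mass_main h s t q hMs hMt hM' A
-- END swap_mass

/-- the event of the tail swap -/
def Evt (Y : Sys S (Zk d)) (y : Zk d) (r k1 N2 M : ℕ) (u v : List S) : Prop :=
  Y.Saw u ∧ Y.Saw v ∧ Dj Y y M u v ∧
    ∃ s t q, k1 < s ∧ s ≤ N2 ∧ k1 < t ∧ t ≤ N2 ∧ Fr Y y r M u v s t q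

-- BEGIN pj_anti
private theorem pj_anti_take (Y : Sys S (Zk d)) (y : Zk d) (m : ℕ) (u v : List S) :
    ind (Dj Y y m (u.take m) (v.take m)) = ind (Dj Y y m u v) := by
  apply ind_congr
  unfold Dj
  constructor
  · intro h s hs t ht
    have := h s hs t ht
    rwa [List.take_take, List.take_take, min_eq_left hs, min_eq_left ht] at this
  · intro h s hs t ht
    rw [List.take_take, List.take_take, min_eq_left hs, min_eq_left ht]
    exact h s hs t ht

/-- `PP m (Dj y m)` decreases in `m` (`PP_take`, `Dj` for `m + 1` implies `Dj` for `m`,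
`(u.take m).take s = u.take s`). -/
theorem pj_anti (h : Cc Y K g) (y : Zk d) :
    Antitone fun m => PP Y g m fun u v => ind (Dj Y y m u v) := by
  intro m M hm
  have e := PP_take h hm (fun u v => ind (Dj Y y m u v))
  simp only [pj_anti_take] at e
  show PP Y g M (fun u v => ind (Dj Y y M u v)) ≤ PP Y g m (fun u v => ind (Dj Y y m u v))
  rw [← e]
  apply PP_mono h
  intro u v _ _ _ _
  apply ind_mono
  intro hD s hs t ht
  exact hD s (hs.trans hm) t (ht.trans hm)
-- END pj_anti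

-- BEGIN pj_take
/-- `PP M (Dj y m) = PP m (Dj y m)` for `m ≤ M` -/
theorem pj_take (h : Cc Y K g) (y : Zk d) {m M : ℕ} (hm : m ≤ M) :
    PP Y g M (fun u v => ind (Dj Y y m u v)) = PP Y g m fun u v => ind (Dj Y y m u v) := by
  have e := PP_take h hm (fun u v => ind (Dj Y y m u v))
  rw [← e]
  have : (fun u v => ind (Dj Y y m u v)) = fun u v : List S => ind (Dj Y y m (u.take m) (v.take m)) := by
    funext u v
    apply ind_congr
    unfold Dj
    constructor
    · intro h s hs t ht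
      rw [List.take_take, List.take_take, min_eq_left hs, min_eq_left ht]
      exact h s hs t ht
    · intro h s hs t ht
      have := h s hs t ht
      rwa [List.take_take, List.take_take, min_eq_left hs, min_eq_left ht] at this
  rw [this]
-- END pj_take

open Classical in
/-- a rule for the choice of the segment -/
noncomputable def chs (Y : Sys S (Zk d)) (y : Zk d) (r k1 N2 M : ℕ) (u v : List S) :
    ℕ × ℕ × List S :=
  if hh : ∃ c : ℕ × ℕ × List S, k1 < c.1 ∧ c.1 ≤ N2 ∧ k1 < c.2.1 ∧ c.2.1 ≤ N2 ∧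
    Fr Y y r M u v c.1 c.2.1 c.2.2 then hh.choose else (0, 0, [])

/-- the part of the event with the choice `c` -/
def Ac (Y : Sys S (Zk d)) (y : Zk d) (r k1 N2 M : ℕ) (c : ℕ × ℕ × List S) (u v : List S) : Prop :=
  Evt Y y r k1 N2 M u v ∧ chs Y y r k1 N2 M u v = c

open Classical in
/-- the finite set of choices -/
noncomputable def Cs (S : Type) [Fintype S] (r N2 : ℕ) : Finset (ℕ × ℕ × List S) :=
  (range (N2 + 1)) ×ˢ (range (N2 + 1)) ×ˢ
    ((range (r + 1)).biUnion fun l => (Finset.univ : Finset (Fin l → S)).image List.ofFn)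

-- BEGIN Ac_sum
/-- the event is the disjoint union of its parts: `chs` satisfies its specification on the event
and lies in `Cs` (`Fr.len`). -/
theorem Ac_sum (Y : Sys S (Zk d)) (y : Zk d) (r k1 N2 M : ℕ) (u v : List S) :
    ind (Evt Y y r k1 N2 M u v) = ∑ c ∈ Cs S r N2, ind (Ac Y y r k1 N2 M c u v) := by
  classical
  unfold Ac
  by_cases hE : Evt Y y r k1 N2 M u v
  · have hex : ∃ c : ℕ × ℕ × List S, k1 < c.1 ∧ c.1 ≤ N2 ∧ k1 < c.2.1 ∧ c.2.1 ≤ N2 ∧
        Fr Y y r M u v c.1 c.2.1 c.2.2 := by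
      obtain ⟨_, _, _, s, t, q, h1, h2, h3, h4, hF⟩ := hE
      exact ⟨(s, t, q), h1, h2, h3, h4, hF⟩
    have hch : chs Y y r k1 N2 M u v = hex.choose := by
      unfold chs
      exact dif_pos hex
    have hmem : chs Y y r k1 N2 M u v ∈ Cs S r N2 := by
      rw [hch]
      obtain ⟨_, h2, _, h4, hF⟩ := hex.choose_spec
      unfold Cs
      rw [Finset.mem_product, Finset.mem_product]
      refine ⟨Finset.mem_range.2 (by omega), Finset.mem_range.2 (by omega), ?_⟩
      rw [Finset.mem_biUnion]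
      refine ⟨hex.choose.2.2.length, Finset.mem_range.2 (Nat.lt_succ_of_le hF.len), ?_⟩
      rw [Finset.mem_image]
      exact ⟨fun i => hex.choose.2.2.get i, Finset.mem_univ _, List.ofFn_get _⟩
    rw [ind_of hE, Finset.sum_eq_single (chs Y y r k1 N2 M u v)]
    · rw [ind_of ⟨hE, rfl⟩]
    · intro b _ hb
      exact ind_not (fun h => hb h.2.symm)
    · intro h
      exact absurd hmem h
  · rw [ind_not hE]
    symm
    apply Finset.sum_eq_zero
    intro c _
    exact ind_not (fun h => hE h.1)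
-- END Ac_sum

-- BEGIN Ph_sum
private theorem Ph_sum_spec (Y : Sys S (Zk d)) (y : Zk d) {r k1 N2 M : ℕ} {c : ℕ × ℕ × List S} {u v : List S}
    (h : Ac Y y r k1 N2 M c u v) : Y.Saw u ∧ Y.Saw v ∧ Dj Y y M u v ∧ k1 < c.1 ∧ c.1 ≤ N2 ∧ k1 < c.2.1 ∧
      c.2.1 ≤ N2 ∧ Fr Y y r M u v c.1 c.2.1 c.2.2 := by
  obtain ⟨⟨hu, hv, hD, s, t, q, h1, h2, h3, h4, hF⟩, hc⟩ := h
  have hex : ∃ c : ℕ × ℕ × List S, k1 < c.1 ∧ c.1 ≤ N2 ∧ k1 < c.2.1 ∧ c.2.1 ≤ N2 ∧
      Fr Y y r M u v c.1 c.2.1 c.2.2 := ⟨(s, t, q), h1, h2, h3, h4, hF⟩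
  have hch : chs Y y r k1 N2 M u v = hex.choose := by
    unfold chs
    exact dif_pos hex
  have hce : c = hex.choose := hc.symm.trans hch
  rw [hce]
  exact ⟨hu, hv, hD, hex.choose_spec⟩

/-- At most one choice `c` is possible for given `U`, `V` (`swap_dec`: `s` is the first index of
`y + U` whose point is among the points of `V` up to `M - N2`, `t` likewise, `|q|` from the index
of `V_t` in `y + U`, `q = (U.drop s).take |q|`), and if there is one then `Dj y k1 U V`
(`k1 < s`, `k1 < t`: (1) of `swap_dec` for the indices `i ≤ k1 < s` and all `j ≤ k1 ≤ M - N2`) and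
not `Dj y (M - N2) U V`. On `Ac` the choice satisfies `Fr` with `c.1, c.2.1 ≤ N2`. -/
theorem Ph_sum (Y : Sys S (Zk d)) (y : Zk d) {r k1 N2 M : ℕ} (hM : N2 + r + N2 ≤ M)
    (hk : k1 ≤ N2) (U V : List S) :
    ∑ c ∈ Cs S r N2, ind (Ph Y M (Ac Y y r k1 N2 M c) c.1 c.2.1 c.2.2 U V) ≤
      ind (Dj Y y k1 U V) - ind (Dj Y y (M - N2) U V) := by
  classical
  by_cases hex : ∃ c : ℕ × ℕ × List S, Ph Y M (Ac Y y r k1 N2 M c) c.1 c.2.1 c.2.2 U V
  · obtain ⟨c, u, v, hu, hv, hA, hU, hV⟩ := hex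
    obtain ⟨hus, hvs, hD, h1, h2, h3, h4, hF⟩ := Ph_sum_spec Y y hA
    obtain ⟨d1, d2, d3, d4, d5, d6⟩ := swap_dec hu hv hus hvs hD hF h2 h4 hM hU hV
    have hD1 : Dj Y y k1 U V := fun i hi j hj => d1 i (by omega) j (by omega)
    have hD2 : ¬ Dj Y y (M - N2) U V := by
      intro hD'
      obtain ⟨j, hj, e⟩ := d2
      exact hD' c.1 (by omega) j hj e
    rw [ind_of hD1, ind_not hD2, sub_zero]
    have huniq : ∀ c' : ℕ × ℕ × List S, Ph Y M (Ac Y y r k1 N2 M c') c'.1 c'.2.1 c'.2.2 U V → c' = c := by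
      rintro c' ⟨u', v', hu', hv', hA', hU', hV'⟩
      obtain ⟨hus', hvs', hD', h1', h2', h3', h4', hF'⟩ := Ph_sum_spec Y y hA'
      obtain ⟨e1, e2, e3, e4, e5, e6⟩ := swap_dec hu' hv' hus' hvs' hD' hF' h2' h4' hM hU' hV'
      have es : c'.1 = c.1 := by
        rcases lt_trichotomy c'.1 c.1 with hlt | heq | hlt
        · obtain ⟨j, hj, e⟩ := e2
          exact absurd e (d1 _ hlt j hj)
        · exact heq
        · obtain ⟨j, hj, e⟩ := d2
          exact absurd e (e1 _ hlt j hj)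
      have et : c'.2.1 = c.2.1 := by
        rcases lt_trichotomy c'.2.1 c.2.1 with hlt | heq | hlt
        · obtain ⟨j, hj, e⟩ := e4
          exact absurd e (d3 _ hlt j hj)
        · exact heq
        · obtain ⟨j, hj, e⟩ := d4
          exact absurd e (e3 _ hlt j hj)
      have el : c'.2.2.length = c.2.2.length := by
        obtain ⟨i, hi, e⟩ := d4
        have f1 := d5 i hi e
        have f2 := e5 i hi (by rw [et]; exact e)
        omega
      have eq : c'.2.2 = c.2.2 := by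
        rw [e6, d6, es, el]
      exact Prod.ext es (Prod.ext et eq)
    calc ∑ c' ∈ Cs S r N2, ind (Ph Y M (Ac Y y r k1 N2 M c') c'.1 c'.2.1 c'.2.2 U V)
        ≤ ∑ c' ∈ Cs S r N2, (if c' = c then (1 : ℝ) else 0) := by
          apply Finset.sum_le_sum
          intro c' _
          split_ifs with hc
          · exact ind_le_one _
          · rw [ind_not (fun hP => hc (huniq c' hP))]
      _ ≤ 1 := by
          rw [Finset.sum_ite_eq']
          split_ifs <;> norm_num
  · have hz : ∑ c ∈ Cs S r N2, ind (Ph Y M (Ac Y y r k1 N2 M c) c.1 c.2.1 c.2.2 U V) = 0 := by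
      apply Finset.sum_eq_zero
      intro c _
      exact ind_not (fun hP => hex ⟨c, hP⟩)
    rw [hz]
    have : ind (Dj Y y (M - N2) U V) ≤ ind (Dj Y y k1 U V) := by
      apply ind_mono
      intro hD i hi j hj
      exact hD i (by omega) j (by omega)
    linarith
-- END Ph_sum

-- BEGIN swap_total
private theorem swap_total_sum (Y : Sys S (Zk d)) (g : List S → ℝ) (M : ℕ) {ι : Type} (s : Finset ι)
    (φ : ι → List S → List S → ℝ) :
    PP Y g M (fun u v => ∑ i ∈ s, φ i u v) = ∑ i ∈ s, PP Y g M (φ i) := by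
  unfold PP
  rw [← Y.E_fsum]
  apply Y.E_congr
  intro u _
  rw [← Y.E_fsum]
  apply Y.E_congr
  intro v _
  rw [Finset.mul_sum]

private theorem swap_total_sub (Y : Sys S (Zk d)) (g : List S → ℝ) (M : ℕ) (φ ψ : List S → List S → ℝ) :
    PP Y g M (fun u v => φ u v - ψ u v) = PP Y g M φ - PP Y g M ψ := by
  unfold PP
  rw [← Y.E_fsub]
  apply Y.E_congr
  intro u _
  rw [← Y.E_fsub]
  apply Y.E_congr
  intro v _
  ring

private theorem swap_total_spec (Y : Sys S (Zk d)) (y : Zk d) {r k1 N2 M : ℕ} {c : ℕ × ℕ × List S} {u v : List S}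
    (h : Ac Y y r k1 N2 M c u v) : Y.Saw u ∧ Y.Saw v ∧ Dj Y y M u v ∧ Fr Y y r M u v c.1 c.2.1 c.2.2 := by
  obtain ⟨⟨hu, hv, hD, s, t, q, h1, h2, h3, h4, hF⟩, hc⟩ := h
  have hex : ∃ c : ℕ × ℕ × List S, k1 < c.1 ∧ c.1 ≤ N2 ∧ k1 < c.2.1 ∧ c.2.1 ≤ N2 ∧
      Fr Y y r M u v c.1 c.2.1 c.2.2 := ⟨(s, t, q), h1, h2, h3, h4, hF⟩
  have hch : chs Y y r k1 N2 M u v = hex.choose := by
    unfold chs
    exact dif_pos hex
  have hce : c = hex.choose := hc.symm.trans hch
  rw [hce]
  exact ⟨hu, hv, hD, hex.choose_spec.2.2.2.2⟩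

private theorem swap_total_z {z : ℝ} (hz : 0 < z) {l r : ℕ} (hl : l ≤ r) :
    (z ^ (2 * l))⁻¹ ≤ max 1 (z ^ (2 * r))⁻¹ := by
  rcases le_total z 1 with h | h
  · refine le_trans ?_ (le_max_right _ _)
    apply inv_anti₀ (pow_pos hz _)
    exact pow_le_pow_of_le_one hz.le h (by omega)
  · refine le_trans ?_ (le_max_left _ _)
    exact inv_le_one_of_one_le₀ (one_le_pow₀ h)

private theorem swap_total_Cs {r N2 : ℕ} {c : ℕ × ℕ × List S} (hc : c ∈ Cs S r N2) :
    c.1 ≤ N2 ∧ c.2.1 ≤ N2 ∧ c.2.2.length ≤ r := by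
  classical
  unfold Cs at hc
  rw [Finset.mem_product, Finset.mem_product, Finset.mem_biUnion] at hc
  obtain ⟨h1, h2, l, hl, h3⟩ := hc
  rw [Finset.mem_image] at h3
  obtain ⟨f, _, hf⟩ := h3
  rw [Finset.mem_range] at h1 h2 hl
  refine ⟨by omega, by omega, ?_⟩
  rw [← hf, List.length_ofFn]
  omega

/-- `Ac_sum`, `swap_mass` for every `c ∈ Cs` with `ε / card` (the swapped words are self-avoiding
by `swap_saw`), a common `M' = M + 2 * N2 + r`, `Ph_sum`, `pj_take`.
`(Y.z ^ (2 * |q|))⁻¹ ≤ Z` for `|q| ≤ r`, `Z = max 1 (Y.z ^ (2 * r))⁻¹` (either `Y.z ≤ 1` or not). -/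
theorem swap_total (h : Cc Y K g) (y : Zk d) (r k1 N2 : ℕ) (hk : k1 ≤ N2) {ε : ℝ} (hε : 0 < ε) :
    ∃ M0 : ℕ, ∀ M ≥ M0, PP Y g M (fun u v => ind (Evt Y y r k1 N2 M u v)) ≤
      max 1 (Y.z ^ (2 * r))⁻¹ * ((PP Y g k1 fun u v => ind (Dj Y y k1 u v)) -
        PP Y g (M - N2) fun u v => ind (Dj Y y (M - N2) u v)) + ε := by
  have hε' : 0 < ε / ((Cs S r N2).card + 1) := by positivity
  choose M0 hM0 using fun c : ℕ × ℕ × List S => swap_mass h c.1 c.2.1 c.2.2 hε'
  refine ⟨max ((Cs S r N2).sup M0) (2 * N2 + r), fun M hM => ?_⟩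
  have hMs : (Cs S r N2).sup M0 ≤ M := le_trans (le_max_left _ _) hM
  have hM2 : 2 * N2 + r ≤ M := le_trans (le_max_right _ _) hM
  set Z : ℝ := max 1 (Y.z ^ (2 * r))⁻¹ with hZ
  have hZ1 : 1 ≤ Z := le_max_left _ _
  have hZ0 : 0 ≤ Z := le_trans zero_le_one hZ1
  have hPP0 : ∀ (n : ℕ) (P : List S → List S → Prop), 0 ≤ PP Y g n (fun u v => ind (P u v)) := by
    intro n P
    unfold PP
    apply Y.E_nonneg'
    intro u
    apply Y.E_nonneg'
    intro v
    exact mul_nonneg (mul_nonneg (h.nonneg u) (h.nonneg v)) (ind_nonneg _)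
  have e1 : PP Y g M (fun u v => ind (Evt Y y r k1 N2 M u v)) =
      ∑ c ∈ Cs S r N2, PP Y g M (fun u v => ind (Ac Y y r k1 N2 M c u v)) := by
    rw [← swap_total_sum]
    have : (fun u v => ind (Evt Y y r k1 N2 M u v)) =
        fun u v => ∑ c ∈ Cs S r N2, ind (Ac Y y r k1 N2 M c u v) := by
      funext u v
      exact Ac_sum Y y r k1 N2 M u v
    rw [this]
  have e2 : ∀ c ∈ Cs S r N2, PP Y g M (fun u v => ind (Ac Y y r k1 N2 M c u v)) ≤
      Z * PP Y g (M + 2 * N2 + r) (fun U V => ind (Ph Y M (Ac Y y r k1 N2 M c) c.1 c.2.1 c.2.2 U V)) +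
        ε / ((Cs S r N2).card + 1) := by
    intro c hc
    obtain ⟨hc1, hc2, hc3⟩ := swap_total_Cs hc
    have hMc : M0 c ≤ M := le_trans (Finset.le_sup (f := M0) hc) hMs
    have hm := hM0 c M hMc (M + 2 * N2 + r) (by omega) (Ac Y y r k1 N2 M c) (by
      intro u v hu hv hA
      obtain ⟨hus, hvs, hD, hF⟩ := swap_total_spec Y y hA
      exact swap_saw hu hv hus hvs hD hF)
    refine hm.trans ?_
    have := mul_le_mul_of_nonneg_right (swap_total_z Y.z_pos hc3)
      (hPP0 (M + 2 * N2 + r) (Ph Y M (Ac Y y r k1 N2 M c) c.1 c.2.1 c.2.2))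
    linarith
  have e3 : ∑ c ∈ Cs S r N2, PP Y g (M + 2 * N2 + r)
        (fun U V => ind (Ph Y M (Ac Y y r k1 N2 M c) c.1 c.2.1 c.2.2 U V)) ≤
      (PP Y g k1 fun u v => ind (Dj Y y k1 u v)) - PP Y g (M - N2) fun u v => ind (Dj Y y (M - N2) u v) := by
    rw [← swap_total_sum, ← pj_take h y (show k1 ≤ M + 2 * N2 + r by omega),
      ← pj_take h y (show M - N2 ≤ M + 2 * N2 + r by omega), ← swap_total_sub]
    apply PP_mono h
    intro U V _ _ _ _
    exact Ph_sum Y y (by omega) hk U V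
  rw [e1]
  calc ∑ c ∈ Cs S r N2, PP Y g M (fun u v => ind (Ac Y y r k1 N2 M c u v))
      ≤ ∑ c ∈ Cs S r N2, (Z * PP Y g (M + 2 * N2 + r)
          (fun U V => ind (Ph Y M (Ac Y y r k1 N2 M c) c.1 c.2.1 c.2.2 U V)) +
          ε / ((Cs S r N2).card + 1)) := Finset.sum_le_sum e2
    _ = Z * ∑ c ∈ Cs S r N2, PP Y g (M + 2 * N2 + r)
          (fun U V => ind (Ph Y M (Ac Y y r k1 N2 M c) c.1 c.2.1 c.2.2 U V)) +
          (Cs S r N2).card * (ε / ((Cs S r N2).card + 1)) := by
        rw [Finset.sum_add_distrib, ← Finset.mul_sum, Finset.sum_const, nsmul_eq_mul]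
    _ ≤ Z * ((PP Y g k1 fun u v => ind (Dj Y y k1 u v)) -
          PP Y g (M - N2) fun u v => ind (Dj Y y (M - N2) u v)) + ε := by
        apply add_le_add
        · exact mul_le_mul_of_nonneg_left e3 hZ0
        · have hc0 : (0 : ℝ) ≤ (Cs S r N2).card := Nat.cast_nonneg _
          rw [mul_div_assoc', div_le_iff₀ (by linarith)]
          nlinarith
-- END swap_total

-- BEGIN tail_swap
private theorem tail_swap_ball (d R : ℕ) : ∃ Ω : Finset (Zk d), ∀ x : Zk d, n1 x ≤ R → x ∈ Ω := by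
  refine ⟨Finset.Icc (fun _ => -(R : ℤ)) (fun _ => (R : ℤ)), fun x hx => ?_⟩
  rw [Finset.mem_Icc]
  constructor
  · intro i
    have := natAbs_le_n1 x i
    show -(R : ℤ) ≤ x i
    omega
  · intro i
    have := natAbs_le_n1 x i
    show x i ≤ (R : ℤ)
    omega

private theorem tail_swap_l (h : Cc Y K g) (M : ℕ) (F : List S → ℝ) :
    PP Y g M (fun u _ => F u) = Y.E M fun u => g u * F u := by
  unfold PP
  apply Y.E_congr
  intro u _
  have : (fun v => g u * g v * F u) = fun v => (g u * F u) * g v := by funext v; ring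
  rw [this, Y.E_mul_left, E_g h, mul_one]

private theorem tail_swap_r (h : Cc Y K g) (M : ℕ) (F : List S → ℝ) :
    PP Y g M (fun _ v => F v) = Y.E M fun v => g v * F v := by
  unfold PP
  have : ∀ u, (Y.E M fun v => g u * g v * F v) = g u * Y.E M fun v => g v * F v := by
    intro u
    rw [← Y.E_mul_left]
    apply Y.E_congr
    intro v _
    ring
  rw [Y.E_congr (fun u _ => this u), Y.E_mul_right, E_g h, one_mul]

private theorem tail_swap_add (Y : Sys S (Zk d)) (g : List S → ℝ) (M : ℕ) (φ ψ : List S → List S → ℝ) :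
    PP Y g M (fun u v => φ u v + ψ u v) = PP Y g M φ + PP Y g M ψ := by
  unfold PP
  rw [← Y.E_fadd]
  apply Y.E_congr
  intro u _
  rw [← Y.E_fadd]
  apply Y.E_congr
  intro v _
  ring

private theorem tail_swap_take (hl : Lt Y) (w : List S) (i : ℕ) : n1 (Y.sm (w.take i)) ≤ i :=
  (n1_sm_le hl _).trans (by rw [List.length_take]; exact min_le_left _ _)

private theorem tail_swap_evt (hl : Lt Y) {y : Zk d} {r k1 k N N2 M : ℕ} {Ω1 Ω2 : Finset (Zk d)} {u v : List S}
    (h1 : ∀ x : Zk d, n1 x ≤ k1 + n1 y + r → x ∈ Ω1) (h2 : ∀ x : Zk d, n1 x ≤ N + n1 y + r → x ∈ Ω2)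
    (hN : N ≤ M) (hus : Y.Saw u) (hvs : Y.Saw v) (hD : Dj Y y M u v) (hN' : Nh Y y r k N u v)
    (e1 : ¬ ∃ i, k ≤ i ∧ i ≤ M ∧ Y.sm (u.take i) ∈ Ω1) (e2 : ¬ ∃ i, N2 ≤ i ∧ i ≤ M ∧ Y.sm (u.take i) ∈ Ω2)
    (e3 : ¬ ∃ i, N2 ≤ i ∧ i ≤ M ∧ Y.sm (v.take i) ∈ Ω2) : Evt Y y r k1 N2 M u v := by
  obtain ⟨i, j, hi1, hi2, hj1, hj2, hn⟩ := hN'
  obtain ⟨s, t, q, hF, hs, ht⟩ := free_seg hl hD (hi2.trans hN) (hj2.trans hN) hn
  have b1 : n1 (Y.sm (u.take i)) ≤ n1 (Y.sm (u.take s)) + r := by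
    have := n1_sub_le (Y.sm (u.take s)) (Y.sm (u.take s) - Y.sm (u.take i))
    rw [sub_sub_cancel] at this
    omega
  have b2 : n1 (Y.sm (u.take s)) ≤ n1 (Y.sm (u.take i)) + r := by
    have := n1_add_le (Y.sm (u.take s) - Y.sm (u.take i)) (Y.sm (u.take i))
    rw [sub_add_cancel] at this
    omega
  have b3 : n1 (y + Y.sm (u.take i)) ≤ n1 (Y.sm (v.take t)) + r := by
    have := n1_sub_le (Y.sm (v.take t)) (Y.sm (v.take t) - (y + Y.sm (u.take i)))
    rw [sub_sub_cancel] at this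
    omega
  have b4 : n1 (Y.sm (v.take t)) ≤ n1 (y + Y.sm (u.take i)) + r := by
    have := n1_add_le (Y.sm (v.take t) - (y + Y.sm (u.take i))) (y + Y.sm (u.take i))
    rw [sub_add_cancel] at this
    omega
  have b5 : n1 (Y.sm (u.take i)) ≤ n1 (y + Y.sm (u.take i)) + n1 y := by
    have := n1_sub_le (y + Y.sm (u.take i)) y
    rwa [add_sub_cancel_left] at this
  have b6 : n1 (y + Y.sm (u.take i)) ≤ n1 y + n1 (Y.sm (u.take i)) := n1_add_le _ _
  have c1 := tail_swap_take hl u s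
  have c2 := tail_swap_take hl v t
  have c3 := tail_swap_take hl u i
  refine ⟨hus, hvs, hD, s, t, q, ?_, ?_, ?_, ?_, hF⟩
  · by_contra hc
    exact e1 ⟨i, hi1, hi2.trans hN, h1 _ (by omega)⟩
  · by_contra hc
    exact e2 ⟨s, by omega, hF.s_le, h2 _ (by omega)⟩
  · by_contra hc
    exact e1 ⟨i, hi1, hi2.trans hN, h1 _ (by omega)⟩
  · by_contra hc
    exact e3 ⟨t, by omega, hF.t_le, h2 _ (by omega)⟩

/-- T1. `p m = PP m (Dj y m)` decreases and is nonnegative: `k1` with `Z * (p k1 - p M) ≤ ε / 4`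
for all `M ≥ k1`. `k ≥ k1` from `transience` for the ball of radius `k1 + 2 * n1 y + r` (the points
of `u` and `v`), error `ε / 8` each; given `N` (`≥ k`) take `N2` from `transience` for the ball of
radius `N + 2 * n1 y + 2 * r + 1`, error `ε / 8` each; `M0` from `swap_total`. For `(u, v)` in
the event and off the four exceptional events (`u` or `v` visits the first ball at a time `≥ k`, or
the second ball at a time `> N2`), `free_seg` gives `s, t, q`; `s > k1`: the point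
`y + sm (u.take s)` has distance `≤ r` from `y + sm (u.take i)`, which lies outside the ball of
radius `k1 + n1 y + r` (`i ≥ k`), but the points of index `≤ k1` of `y + u` and of `v` are in the
ball of radius `k1 + n1 y` (`n1_sm_le`); the same for `t`; `s, t ≤ N2`: they are within `r` of a
point of index `i ≤ N`. Words with `g u * g v ≠ 0` are self-avoiding. -/
theorem tail_swap (h : Cc Y K g) (hl : Lt Y) (y : Zk d) (r : ℕ) {ε : ℝ} (hε : 0 < ε) :
    ∃ k : ℕ, ∀ N : ℕ, ∃ M0 : ℕ, ∀ M ≥ M0,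
      PP Y g M (fun u v => ind (Dj Y y M u v ∧ Nh Y y r k N u v)) ≤ ε := by
  set p : ℕ → ℝ := fun m => PP Y g m fun u v => ind (Dj Y y m u v) with hp
  have hanti : Antitone p := pj_anti h y
  have hp0 : ∀ m, 0 ≤ p m := by
    intro m
    rw [hp]
    simp only
    unfold PP
    apply Y.E_nonneg'
    intro u
    apply Y.E_nonneg'
    intro v
    exact mul_nonneg (mul_nonneg (h.nonneg u) (h.nonneg v)) (ind_nonneg _)
  have hbdd : BddBelow (Set.range p) := ⟨0, by rintro _ ⟨m, rfl⟩; exact hp0 m⟩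
  set Z : ℝ := max 1 (Y.z ^ (2 * r))⁻¹ with hZ
  have hZ0 : 0 < Z := lt_of_lt_of_le one_pos (le_max_left _ _)
  have hlim := tendsto_atTop_ciInf hanti hbdd
  obtain ⟨k1, hk1⟩ := (hlim.eventually
    (gt_mem_nhds (show (⨅ m, p m) < (⨅ m, p m) + ε / (4 * Z) by
      have : 0 < ε / (4 * Z) := by positivity
      linarith))).exists
  have hgap : ∀ M, Z * (p k1 - p M) ≤ ε / 4 := by
    intro M
    have h1 : (⨅ m, p m) ≤ p M := ciInf_le hbdd M
    have h2 : p k1 - p M ≤ ε / (4 * Z) := by linarith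
    calc Z * (p k1 - p M) ≤ Z * (ε / (4 * Z)) := mul_le_mul_of_nonneg_left h2 hZ0.le
      _ = ε / 4 := by field_simp
  obtain ⟨Ω1, hΩ1⟩ := tail_swap_ball d (k1 + n1 y + r)
  obtain ⟨k, hk⟩ := transience h Ω1 (show 0 < ε / 8 by positivity)
  refine ⟨k, fun N => ?_⟩
  obtain ⟨Ω2, hΩ2⟩ := tail_swap_ball d (N + n1 y + r)
  obtain ⟨n2, hn2⟩ := transience h Ω2 (show 0 < ε / 8 by positivity)
  have hk1N : k1 ≤ max k1 n2 := le_max_left _ _
  obtain ⟨M0, hM0⟩ := swap_total h y r k1 (max k1 n2) hk1N (show 0 < ε / 4 by positivity)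
  refine ⟨max M0 N, fun M hM => ?_⟩
  have hMM0 : M0 ≤ M := (le_max_left _ _).trans hM
  have hMN : N ≤ M := (le_max_right _ _).trans hM
  have hswap := hM0 M hMM0
  have hT1 := hk M
  have hT2 : (Y.E M fun w => g w * ind (∃ i, max k1 n2 ≤ i ∧ i ≤ M ∧ Y.sm (w.take i) ∈ Ω2)) ≤ ε / 8 := by
    refine le_trans ?_ (hn2 M)
    apply Y.E_mono
    intro w _
    apply mul_le_mul_of_nonneg_left _ (h.nonneg w)
    apply ind_mono
    rintro ⟨i, hi1, hi2, hi3⟩
    exact ⟨i, (le_max_right _ _).trans hi1, hi2, hi3⟩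
  have hmain : PP Y g M (fun u v => ind (Dj Y y M u v ∧ Nh Y y r k N u v)) ≤
      PP Y g M (fun u v => ((ind (Evt Y y r k1 (max k1 n2) M u v) +
        ind (∃ i, k ≤ i ∧ i ≤ M ∧ Y.sm (u.take i) ∈ Ω1)) +
        ind (∃ i, max k1 n2 ≤ i ∧ i ≤ M ∧ Y.sm (u.take i) ∈ Ω2)) +
        ind (∃ i, max k1 n2 ≤ i ∧ i ≤ M ∧ Y.sm (v.take i) ∈ Ω2)) := by
    apply PP_mono h
    intro u v _ _ hus hvs
    by_cases hev : Dj Y y M u v ∧ Nh Y y r k N u v
    · rw [ind_of hev]
      have n0 := ind_nonneg (Evt Y y r k1 (max k1 n2) M u v)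
      have n1' := ind_nonneg (∃ i, k ≤ i ∧ i ≤ M ∧ Y.sm (u.take i) ∈ Ω1)
      have n2' := ind_nonneg (∃ i, max k1 n2 ≤ i ∧ i ≤ M ∧ Y.sm (u.take i) ∈ Ω2)
      have n3' := ind_nonneg (∃ i, max k1 n2 ≤ i ∧ i ≤ M ∧ Y.sm (v.take i) ∈ Ω2)
      by_cases e1 : ∃ i, k ≤ i ∧ i ≤ M ∧ Y.sm (u.take i) ∈ Ω1
      · rw [ind_of e1]
        linarith
      by_cases e2 : ∃ i, max k1 n2 ≤ i ∧ i ≤ M ∧ Y.sm (u.take i) ∈ Ω2
      · rw [ind_of e2]
        linarith
      by_cases e3 : ∃ i, max k1 n2 ≤ i ∧ i ≤ M ∧ Y.sm (v.take i) ∈ Ω2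
      · rw [ind_of e3]
        linarith
      have hE := tail_swap_evt (k1 := k1) (N2 := max k1 n2) hl hΩ1 hΩ2 hMN hus hvs hev.1 hev.2 e1 e2 e3
      rw [ind_of hE]
      linarith
    · rw [ind_not hev]
      have n0 := ind_nonneg (Evt Y y r k1 (max k1 n2) M u v)
      have n1' := ind_nonneg (∃ i, k ≤ i ∧ i ≤ M ∧ Y.sm (u.take i) ∈ Ω1)
      have n2' := ind_nonneg (∃ i, max k1 n2 ≤ i ∧ i ≤ M ∧ Y.sm (u.take i) ∈ Ω2)
      have n3' := ind_nonneg (∃ i, max k1 n2 ≤ i ∧ i ≤ M ∧ Y.sm (v.take i) ∈ Ω2)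
      linarith
  refine hmain.trans ?_
  rw [tail_swap_add, tail_swap_add, tail_swap_add, tail_swap_l h, tail_swap_l h, tail_swap_r h]
  have hg := hgap (M - max k1 n2)
  have hsw : PP Y g M (fun u v => ind (Evt Y y r k1 (max k1 n2) M u v)) ≤
      Z * (p k1 - p (M - max k1 n2)) + ε / 4 := hswap
  linarith
-- END tail_swap

end Pool.Agent.Esc
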