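import Pool.Agent.Esc.RhoC
import Pool.Agent.Esc.Tsw

/-!
# Second moments and the contradiction (section 4, (4d), (4m) of the page)
-/

set_option autoImplicit false

namespace Pool.Agent.Esc

open Finset Filter Topology Pool.Agent.Bub4 Pool.Agent.SawM2 Pool.Agent.Taw

variable {S : Type} [Fintype S] {d : ℕ} {Y : Sys S (Zk d)} {K κ a : ℝ} {g ρ : List S → ℝ}

/-- the number of good near hits -/
noncomputable def Hn (Y : Sys S (Zk d)) (g : List S → ℝ) (κ a : ℝ) (N : ℕ) (u v : List S) : ℝ :=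
  ∑ i ∈ range N, ∑ j ∈ range N, ind (κ ≤ g (u.take i)) * ind (κ ≤ g (v.take j)) *
    ker a (Y.sm (u.take i) - Y.sm (v.take j))

/-- the near hits with `k ≤ i, j` and distance at most `r` -/
noncomputable def Hr (Y : Sys S (Zk d)) (g : List S → ℝ) (κ a : ℝ) (r k N : ℕ) (u v : List S) :
    ℝ :=
  ∑ i ∈ Ico k N, ∑ j ∈ Ico k N, ind (κ ≤ g (u.take i)) * ind (κ ≤ g (v.take j)) *
    (ker a (Y.sm (u.take i) - Y.sm (v.take j)) *
      ind (n1 (Y.sm (u.take i) - Y.sm (v.take j)) ≤ r))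

-- BEGIN Hn_mean
theorem Hn_mean_sum {ι : Type} (s : Finset ι) (M : ℕ) (F : ι → List S → List S → ℝ) :
    PP Y g M (fun u v => ∑ i ∈ s, F i u v) = ∑ i ∈ s, PP Y g M (F i) := by
  unfold PP
  simp only [Finset.mul_sum, Y.E_fsum]

/-- the law of the prefixes -/
theorem Hn_mean_tk (h : Cc Y K g) {i j M : ℕ} (hi : i ≤ M) (hj : j ≤ M)
    (F : List S → List S → ℝ) :
    PP Y g M (fun u v => F (u.take i) (v.take j)) =
      Y.E i fun u => Y.E j fun v => g u * g v * F u v := by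
  have h1 : ∀ x : List S, (Y.E M fun v => g v * F x (v.take j)) = Y.E j fun v => g v * F x v := by
    intro x
    have := E_take h j (M - j) (fun v => F x v)
    rwa [Nat.add_sub_cancel' hj] at this
  have h2 := E_take h i (M - i) (fun x => Y.E j fun v => g v * F x v)
  rw [Nat.add_sub_cancel' hi] at h2
  unfold PP
  have h3 : (Y.E M fun u => Y.E M fun v => g u * g v * F (u.take i) (v.take j)) =
      Y.E M fun u => g u * Y.E j fun v => g v * F (u.take i) v := by
    refine Y.E_congr fun u _ => ?_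
    rw [← h1, ← Y.E_mul_left]
    exact Y.E_congr fun v _ => by ring
  rw [h3, h2]
  refine Y.E_congr fun u _ => ?_
  rw [← Y.E_mul_left]
  exact Y.E_congr fun v _ => by ring

theorem Hn_mean_nn (h : Cc Y K g) (M : ℕ) {φ : List S → List S → ℝ} (hφ : ∀ u v, 0 ≤ φ u v) :
    0 ≤ PP Y g M φ :=
  Y.E_nonneg' fun u => Y.E_nonneg' fun v => mul_nonneg (mul_nonneg (h.nonneg u) (h.nonneg v))
    (hφ u v)

theorem Hn_mean_en (Y : Sys S (Zk d)) (g : List S → ℝ) (κ a : ℝ) (b b' : List S) (N : ℕ) :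
    Fm.en a (GD Y g κ b N) (GD Y g κ b' N) =
      ∑ i ∈ range (N - b.length), ∑ j ∈ range (N - b'.length),
        Y.E i fun w => Y.E j fun w' => hh g κ (b ++ w) * hh g κ (b' ++ w') *
          ker a (Y.sm (b ++ w) - Y.sm (b' ++ w')) := by
  unfold Fm.en
  rw [pr_GD]
  refine Finset.sum_congr rfl fun i _ => ?_
  rw [← Y.E_fsum]
  refine Y.E_congr fun w _ => ?_
  rw [pr_GD, Finset.mul_sum]
  refine Finset.sum_congr rfl fun j _ => ?_
  rw [← Y.E_mul_left]
  exact Y.E_congr fun w' _ => by ring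

/-- for a cylinder event: `E_take` for each `i`, `j`: the terms with `i ≥ m`, `j ≥ m` are the
energies of `GD b`, `GD b'`; `PP M (Hn * ind A) ≥ ∑ (g-weights) = E m E m en (GD b) (GD b') ind A`
minus nothing (all terms nonnegative; the words of length `≥ |b|` with prefix `b`). -/
theorem Hn_mean (h : Cc Y K g) (hκ : 0 < κ) (ha : 0 < a) (ha1 : a < 1) {m N M : ℕ} (hN : N ≤ M)
    (hm : m ≤ M) (A : List S → List S → Prop) :
    (Y.E m fun b => Y.E m fun b' => Fm.en a (GD Y g κ b N) (GD Y g κ b' N) * ind (A b b')) ≤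
      PP Y g M fun u v => Hn Y g κ a N u v * ind (A (u.take m) (v.take m)) := by
  have hnn : ∀ i j (u v : List S), 0 ≤ ind (κ ≤ g (u.take i)) * ind (κ ≤ g (v.take j)) *
      ker a (Y.sm (u.take i) - Y.sm (v.take j)) * ind (A (u.take m) (v.take m)) := fun i j u v =>
    mul_nonneg (mul_nonneg (mul_nonneg (ind_nonneg _) (ind_nonneg _)) (ker_nonneg ha.le _))
      (ind_nonneg _)
  have h1 : (PP Y g M fun u v => Hn Y g κ a N u v * ind (A (u.take m) (v.take m))) =
      ∑ i ∈ range N, ∑ j ∈ range N, PP Y g M fun u v => ind (κ ≤ g (u.take i)) *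
        ind (κ ≤ g (v.take j)) * ker a (Y.sm (u.take i) - Y.sm (v.take j)) *
          ind (A (u.take m) (v.take m)) := by
    unfold Hn
    simp only [Finset.sum_mul]
    rw [Hn_mean_sum]
    exact Finset.sum_congr rfl fun i _ => Hn_mean_sum _ _ _
  have h2 : ∑ i ∈ Ico m N, ∑ j ∈ Ico m N, (PP Y g M fun u v => ind (κ ≤ g (u.take i)) *
        ind (κ ≤ g (v.take j)) * ker a (Y.sm (u.take i) - Y.sm (v.take j)) *
          ind (A (u.take m) (v.take m))) ≤
      PP Y g M fun u v => Hn Y g κ a N u v * ind (A (u.take m) (v.take m)) := by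
    rw [h1]
    have hsub : Ico m N ⊆ range N := fun i hi => Finset.mem_range.2 (Finset.mem_Ico.1 hi).2
    refine (Finset.sum_le_sum fun i _ => ?_).trans
      (Finset.sum_le_sum_of_subset_of_nonneg hsub fun i _ _ =>
        Finset.sum_nonneg fun j _ => Hn_mean_nn h M (hnn i j))
    exact Finset.sum_le_sum_of_subset_of_nonneg hsub fun j _ _ => Hn_mean_nn h M (hnn i j)
  refine le_trans (le_of_eq ?_) h2
  rw [Finset.sum_Ico_eq_sum_range]
  have h3 : (Y.E m fun b => Y.E m fun b' => Fm.en a (GD Y g κ b N) (GD Y g κ b' N) *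
      ind (A b b')) = Y.E m fun b => Y.E m fun b' => ∑ i ∈ range (N - m), ∑ j ∈ range (N - m),
        (Y.E i fun w => Y.E j fun w' => hh g κ (b ++ w) * hh g κ (b' ++ w') *
          ker a (Y.sm (b ++ w) - Y.sm (b' ++ w')) * ind (A b b')) := by
    refine Y.E_congr fun b hb => Y.E_congr fun b' hb' => ?_
    rw [Hn_mean_en, hb, hb', Finset.sum_mul]
    refine Finset.sum_congr rfl fun i _ => ?_
    rw [Finset.sum_mul]
    refine Finset.sum_congr rfl fun j _ => ?_
    rw [← Y.E_mul_right]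
    refine Y.E_congr fun w _ => ?_
    rw [← Y.E_mul_right]
  rw [h3]
  simp only [Y.E_fsum]
  refine Finset.sum_congr rfl fun i hi => ?_
  rw [Finset.sum_Ico_eq_sum_range]
  refine Finset.sum_congr rfl fun j hj => ?_
  have hi' : m + i ≤ M := by
    have := Finset.mem_range.1 hi
    omega
  have hj' : m + j ≤ M := by
    have := Finset.mem_range.1 hj
    omega
  have h4 : (PP Y g M fun u v => ind (κ ≤ g (u.take (m + i))) * ind (κ ≤ g (v.take (m + j))) *
        ker a (Y.sm (u.take (m + i)) - Y.sm (v.take (m + j))) * ind (A (u.take m) (v.take m))) =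
      PP Y g M fun u v => (fun x y : List S => ind (κ ≤ g x) * ind (κ ≤ g y) *
        ker a (Y.sm x - Y.sm y) * ind (A (x.take m) (y.take m))) (u.take (m + i))
          (v.take (m + j)) := by
    unfold PP
    refine Y.E_congr fun u _ => Y.E_congr fun v _ => ?_
    show _ = g u * g v * (ind (κ ≤ g (u.take (m + i))) * ind (κ ≤ g (v.take (m + j))) *
        ker a (Y.sm (u.take (m + i)) - Y.sm (v.take (m + j))) *
          ind (A ((u.take (m + i)).take m) ((v.take (m + j)).take m)))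
    rw [List.take_take, List.take_take, Nat.min_eq_left (Nat.le_add_right m i),
      Nat.min_eq_left (Nat.le_add_right m j)]
  rw [h4, Hn_mean_tk h hi' hj' (fun x y : List S => ind (κ ≤ g x) * ind (κ ≤ g y) *
        ker a (Y.sm x - Y.sm y) * ind (A (x.take m) (y.take m))), Y.E_add]
  refine Y.E_congr fun b hb => ?_
  rw [Y.E_comm m i]
  refine Y.E_congr fun w _ => ?_
  rw [Y.E_add]
  refine Y.E_congr fun b' hb' => ?_
  refine Y.E_congr fun w' _ => ?_
  have e1 : (b ++ w).take m = b := by rw [← hb, List.take_left]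
  have e2 : (b' ++ w').take m = b' := by rw [← hb', List.take_left]
  rw [e1, e2]
  unfold hh
  ring
-- END Hn_mean

-- BEGIN Hn_early
theorem Hn_early_ij (h : Cc Y K g) {i j M : ℕ} (hi : i ≤ M) (hj : j ≤ M) (r : Zk d → ℝ) :
    (PP Y g M fun u v => ind (κ ≤ g (u.take i)) * ind (κ ≤ g (v.take j)) *
      r (Y.sm (u.take i) - Y.sm (v.take j))) =
      Y.E i fun u => Y.E j fun v => hh g κ u * hh g κ v * r (Y.sm u - Y.sm v) := by
  rw [Hn_mean_tk h hi hj (fun x y : List S => ind (κ ≤ g x) * ind (κ ≤ g y) *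
        r (Y.sm x - Y.sm y))]
  refine Y.E_congr fun u _ => Y.E_congr fun v _ => ?_
  unfold hh
  ring

theorem Hn_early_row (h : Cc Y K g) (hκ : 0 < κ) (ha : 0 < a) (ha1 : a < 1) (i N : ℕ) :
    ∑ j ∈ range N, (Y.E i fun u => Y.E j fun v => hh g κ u * hh g κ v *
      ker a (Y.sm u - Y.sm v)) ≤ Real.sqrt (EN Y g κ a N) := by
  have h1 := one_word h hκ ha ha1 [] i (GD Y g κ [] N)
  refine le_trans (le_of_eq ?_) h1
  rw [← Y.E_fsum]
  refine Y.E_congr fun u _ => ?_
  rw [pr_GD, List.nil_append, Finset.mul_sum]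
  refine Finset.sum_congr rfl fun j _ => ?_
  rw [← Y.E_mul_left]
  refine Y.E_congr fun v _ => ?_
  rw [List.nil_append]
  ring

/-- hits with `i < k` or `j < k`: at most `2 k * sqrt EN` (`one_word`, `E_take`). -/
theorem Hn_early (h : Cc Y K g) (hκ : 0 < κ) (ha : 0 < a) (ha1 : a < 1) {k N M : ℕ} (hN : N ≤ M)
    (hk : k ≤ N) :
    PP Y g M (fun u v => ∑ i ∈ range N, ∑ j ∈ range N, ind (κ ≤ g (u.take i)) *
      ind (κ ≤ g (v.take j)) * ker a (Y.sm (u.take i) - Y.sm (v.take j)) * ind (i < k ∨ j < k)) ≤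
      2 * k * Real.sqrt (EN Y g κ a N) := by
  set T : ℕ → ℕ → ℝ := fun i j => Y.E i fun u => Y.E j fun v => hh g κ u * hh g κ v *
      ker a (Y.sm u - Y.sm v) with hT
  have hT0 : ∀ i j, 0 ≤ T i j := fun i j => Y.E_nonneg' fun u => Y.E_nonneg' fun v =>
    mul_nonneg (mul_nonneg (mul_nonneg (h.nonneg u) (ind_nonneg _))
      (mul_nonneg (h.nonneg v) (ind_nonneg _))) (ker_nonneg ha.le _)
  have hTc : ∀ i j, T i j = T j i := by
    intro i j
    show (Y.E i fun u => Y.E j fun v => hh g κ u * hh g κ v * ker a (Y.sm u - Y.sm v)) =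
      Y.E j fun u => Y.E i fun v => hh g κ u * hh g κ v * ker a (Y.sm u - Y.sm v)
    rw [Y.E_comm]
    refine Y.E_congr fun v _ => Y.E_congr fun u _ => ?_
    rw [ker_sub_comm a (Y.sm u) (Y.sm v)]
    ring
  have h1 : PP Y g M (fun u v => ∑ i ∈ range N, ∑ j ∈ range N, ind (κ ≤ g (u.take i)) *
      ind (κ ≤ g (v.take j)) * ker a (Y.sm (u.take i) - Y.sm (v.take j)) * ind (i < k ∨ j < k)) =
      ∑ i ∈ range N, ∑ j ∈ range N, T i j * ind (i < k ∨ j < k) := by
    rw [Hn_mean_sum]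
    refine Finset.sum_congr rfl fun i hi => ?_
    rw [Hn_mean_sum]
    refine Finset.sum_congr rfl fun j hj => ?_
    have hi' := Finset.mem_range.1 hi
    have hj' := Finset.mem_range.1 hj
    have e1 := Hn_early_ij (κ := κ) h (show i ≤ M by omega) (show j ≤ M by omega)
      (fun p => ker a p * ind (i < k ∨ j < k))
    have e2 : (PP Y g M fun u v => ind (κ ≤ g (u.take i)) * ind (κ ≤ g (v.take j)) *
        ker a (Y.sm (u.take i) - Y.sm (v.take j)) * ind (i < k ∨ j < k)) =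
        PP Y g M fun u v => ind (κ ≤ g (u.take i)) * ind (κ ≤ g (v.take j)) *
        (ker a (Y.sm (u.take i) - Y.sm (v.take j)) * ind (i < k ∨ j < k)) := by
      unfold PP
      exact Y.E_congr fun u _ => Y.E_congr fun v _ => by ring
    rw [e2, e1, hT]
    show _ = (Y.E i fun u => Y.E j fun v => hh g κ u * hh g κ v *
      ker a (Y.sm u - Y.sm v)) * ind (i < k ∨ j < k)
    rw [← Y.E_mul_right]
    refine Y.E_congr fun u _ => ?_
    rw [← Y.E_mul_right]
    exact Y.E_congr fun v _ => by ring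
  rw [h1]
  have h2 : ∑ i ∈ range N, ∑ j ∈ range N, T i j * ind (i < k ∨ j < k) ≤
      ∑ i ∈ range N, ∑ j ∈ range N, T i j * ind (i < k) +
        ∑ i ∈ range N, ∑ j ∈ range N, T i j * ind (j < k) := by
    rw [← Finset.sum_add_distrib]
    refine Finset.sum_le_sum fun i _ => ?_
    rw [← Finset.sum_add_distrib]
    refine Finset.sum_le_sum fun j _ => ?_
    rw [← mul_add]
    exact mul_le_mul_of_nonneg_left (ind_or_le _ _) (hT0 i j)
  have h3 : ∑ i ∈ range N, ∑ j ∈ range N, T i j * ind (i < k) ≤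
      k * Real.sqrt (EN Y g κ a N) := by
    have e3 : ∑ i ∈ range N, ∑ j ∈ range N, T i j * ind (i < k) =
        ∑ i ∈ range N, if i < k then ∑ j ∈ range N, T i j else 0 := by
      refine Finset.sum_congr rfl fun i _ => ?_
      split_ifs with hi
      · exact Finset.sum_congr rfl fun j _ => by rw [ind_of hi, mul_one]
      · exact Finset.sum_eq_zero fun j _ => by rw [ind_not hi, mul_zero]
    rw [e3, ← Finset.sum_filter]
    have e4 : (range N).filter (fun i => i < k) = range k := by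
      ext i
      rw [Finset.mem_filter, Finset.mem_range, Finset.mem_range]
      omega
    rw [e4]
    calc ∑ i ∈ range k, ∑ j ∈ range N, T i j ≤ ∑ _i ∈ range k, Real.sqrt (EN Y g κ a N) :=
          Finset.sum_le_sum fun i _ => Hn_early_row h hκ ha ha1 i N
      _ = k * Real.sqrt (EN Y g κ a N) := by
          rw [Finset.sum_const, Finset.card_range, nsmul_eq_mul]
  have h4 : ∑ i ∈ range N, ∑ j ∈ range N, T i j * ind (j < k) =
      ∑ i ∈ range N, ∑ j ∈ range N, T i j * ind (i < k) := by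
    rw [Finset.sum_comm]
    exact Finset.sum_congr rfl fun j _ => Finset.sum_congr rfl fun i _ => by rw [hTc i j]
  rw [h4] at h2
  calc _ ≤ _ := h2
    _ ≤ k * Real.sqrt (EN Y g κ a N) + k * Real.sqrt (EN Y g κ a N) := add_le_add h3 h3
    _ = 2 * k * Real.sqrt (EN Y g κ a N) := by ring
-- END Hn_early

-- BEGIN Hn_far
theorem Hn_far_ker (ha : 0 < a) (ha1 : a < 1) (r : ℕ) (p : Zk d) :
    ker a p * ind (r < n1 p) ≤ Real.sqrt a ^ r * ker (Real.sqrt a) p := by
  have hs0 : 0 ≤ Real.sqrt a := Real.sqrt_nonneg a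
  have hs1 : Real.sqrt a ≤ 1 := by
    rw [Real.sqrt_le_one]
    exact ha1.le
  by_cases hr : r < n1 p
  · rw [ind_of hr, mul_one]
    have h1 : ker a p = Real.sqrt a ^ n1 p * Real.sqrt a ^ n1 p := by
      show a ^ n1 p = _
      rw [← mul_pow, Real.mul_self_sqrt ha.le]
    rw [h1]
    exact mul_le_mul_of_nonneg_right (pow_le_pow_of_le_one hs0 hs1 hr.le) (pow_nonneg hs0 _)
  · rw [ind_not hr, mul_zero]
    exact mul_nonneg (pow_nonneg hs0 _) (ker_nonneg hs0 _)

/-- hits at distance `> r`: `ker a x * ind (r < n1 x) ≤ (√a) ^ r * ker (√a) x`, and the energy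
for `√a` is `≤ 4 ^ d * EN` (`Fm.en_wide`). -/
theorem Hn_far (h : Cc Y K g) (hκ : 0 < κ) (ha : 0 < a) (ha1 : a < 1) {r N M : ℕ} (hN : N ≤ M) :
    PP Y g M (fun u v => ∑ i ∈ range N, ∑ j ∈ range N, ind (κ ≤ g (u.take i)) *
      ind (κ ≤ g (v.take j)) * (ker a (Y.sm (u.take i) - Y.sm (v.take j)) *
        ind (r < n1 (Y.sm (u.take i) - Y.sm (v.take j))))) ≤
      Real.sqrt a ^ r * (4 ^ d * EN Y g κ a N) := by
  have h1 : PP Y g M (fun u v => ∑ i ∈ range N, ∑ j ∈ range N, ind (κ ≤ g (u.take i)) *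
      ind (κ ≤ g (v.take j)) * (ker a (Y.sm (u.take i) - Y.sm (v.take j)) *
        ind (r < n1 (Y.sm (u.take i) - Y.sm (v.take j))))) =
      ∑ i ∈ range N, ∑ j ∈ range N, Y.E i fun u => Y.E j fun v => hh g κ u * hh g κ v *
        (ker a (Y.sm u - Y.sm v) * ind (r < n1 (Y.sm u - Y.sm v))) := by
    rw [Hn_mean_sum]
    refine Finset.sum_congr rfl fun i hi => ?_
    rw [Hn_mean_sum]
    refine Finset.sum_congr rfl fun j hj => ?_
    have hi' := Finset.mem_range.1 hi
    have hj' := Finset.mem_range.1 hj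
    exact Hn_early_ij (κ := κ) h (show i ≤ M by omega) (show j ≤ M by omega)
      (fun p => ker a p * ind (r < n1 p))
  have h2 : ∑ i ∈ range N, ∑ j ∈ range N, (Y.E i fun u => Y.E j fun v => hh g κ u * hh g κ v *
        (ker a (Y.sm u - Y.sm v) * ind (r < n1 (Y.sm u - Y.sm v)))) ≤
      Real.sqrt a ^ r * Fm.en (Real.sqrt a) (GD Y g κ [] N) (GD Y g κ [] N) := by
    rw [Hn_mean_en, Finset.mul_sum]
    refine Finset.sum_le_sum fun i _ => ?_
    rw [Finset.mul_sum]
    refine Finset.sum_le_sum fun j _ => ?_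
    rw [← Y.E_mul_left]
    refine Y.E_mono fun u _ => ?_
    rw [← Y.E_mul_left]
    refine Y.E_mono fun v _ => ?_
    rw [List.nil_append, List.nil_append]
    have h3 : 0 ≤ hh g κ u * hh g κ v := mul_nonneg (mul_nonneg (h.nonneg u) (ind_nonneg _))
      (mul_nonneg (h.nonneg v) (ind_nonneg _))
    have h4 := mul_le_mul_of_nonneg_left (Hn_far_ker ha ha1 r (Y.sm u - Y.sm v)) h3
    linarith
  rw [h1]
  refine h2.trans ?_
  exact mul_le_mul_of_nonneg_left (Fm.en_wide ha ha1 _) (pow_nonneg (Real.sqrt_nonneg a) _)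
-- END Hn_far

-- BEGIN sec_par
private theorem sec_par_take (h : Cc Y K g) {p q M : ℕ} (hp : p ≤ M) (hq : q ≤ M)
    (ψ : List S → List S → ℝ) :
    PP Y g M (fun u v => ψ (u.take p) (v.take q)) =
      Y.E p fun u => Y.E q fun v => g u * g v * ψ u v := by
  have h1 : ∀ (r : ℕ), r ≤ M → ∀ φ : List S → ℝ,
      (Y.E M fun w => g w * φ (w.take r)) = Y.E r fun u => g u * φ u := by
    intro r hr φ
    have := E_take h r (M - r) φ
    rwa [Nat.add_sub_cancel' hr] at this
  show (Y.E M fun u => Y.E M fun v => g u * g v * ψ (u.take p) (v.take q)) = _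
  have h2 : ∀ u : List S, (Y.E M fun v => g u * g v * ψ (u.take p) (v.take q)) =
      g u * (fun x => Y.E q fun v => g v * ψ x v) (u.take p) := by
    intro u
    show _ = g u * Y.E q fun v => g v * ψ (u.take p) v
    rw [← h1 q hq (fun v => ψ (u.take p) v), ← Y.E_mul_left]
    exact Y.E_congr fun v _ => by ring
  rw [Y.E_congr fun u _ => h2 u, h1 p hp (fun x => Y.E q fun v => g v * ψ x v)]
  refine Y.E_congr fun u _ => ?_
  rw [← Y.E_mul_left]
  exact Y.E_congr fun v _ => by ring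

private theorem sec_par_exp (h : Cc Y K g) {i p j q M : ℕ} (hi : i + p ≤ M) (hj : j + q ≤ M)
    (F : List S → List S → List S → List S → ℝ) :
    PP Y g M (fun u v => F (u.take i) (u.take (i + p)) (v.take j) (v.take (j + q))) =
      Y.E i fun w => Y.E p fun c => Y.E j fun w' => Y.E q fun c' =>
        g (w ++ c) * g (w' ++ c') * F w (w ++ c) w' (w' ++ c') := by
  have h1 := sec_par_take h hi hj (fun x y => F (x.take i) x (y.take j) y)
  have h2 : (PP Y g M fun u v => F (u.take i) (u.take (i + p)) (v.take j) (v.take (j + q))) =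
      PP Y g M fun u v => (fun x y => F (x.take i) x (y.take j) y) (u.take (i + p))
        (v.take (j + q)) := by
    show (Y.E M fun u => Y.E M fun v => _) = Y.E M fun u => Y.E M fun v => _
    refine Y.E_congr fun u _ => Y.E_congr fun v _ => ?_
    simp only [List.take_take, min_eq_left (Nat.le_add_right i p),
      min_eq_left (Nat.le_add_right j q)]
  rw [h2, h1, Y.E_add i p]
  refine Y.E_congr fun w hw => Y.E_congr fun c _ => ?_
  rw [Y.E_add j q]
  refine Y.E_congr fun w' hw' => Y.E_congr fun c' _ => ?_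
  simp only [List.take_left' hw, List.take_left' hw']

private theorem sec_par_sum (Y : Sys S (Zk d)) (g : List S → ℝ) {ι : Type} (s : Finset ι)
    (M : ℕ) (F : ι → List S → List S → ℝ) :
    PP Y g M (fun u v => ∑ i ∈ s, F i u v) = ∑ i ∈ s, PP Y g M (F i) := by
  show (Y.E M fun u => Y.E M fun v => g u * g v * ∑ i ∈ s, F i u v) =
    ∑ i ∈ s, Y.E M fun u => Y.E M fun v => g u * g v * F i u v
  simp_rw [Finset.mul_sum, Y.E_fsum]

private theorem sec_par_dbl (Y : Sys S (Zk d)) (g : List S → ℝ) (κ : ℝ) (N : ℕ)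
    (f : Zk d → Zk d → ℝ) :
    ((GD Y g κ [] N).pr fun x => (GD Y g κ [] N).pr fun x' => f x x') =
      ∑ i ∈ range N, ∑ j ∈ range N, Y.E i fun w => Y.E j fun w' =>
        hh g κ w * hh g κ w' * f (Y.sm w) (Y.sm w') := by
  rw [pr_GD]
  simp only [List.length_nil, Nat.sub_zero, List.nil_append]
  refine Finset.sum_congr rfl fun i _ => ?_
  rw [← Y.E_fsum]
  refine Y.E_congr fun w _ => ?_
  rw [pr_GD]
  simp only [List.length_nil, Nat.sub_zero, List.nil_append]
  rw [Finset.mul_sum]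
  refine Finset.sum_congr rfl fun j _ => ?_
  rw [← Y.E_mul_left]
  exact Y.E_congr fun w' _ => by ring

private theorem sec_par_word (h : Cc Y K g) (w c : List S) :
    κ * (g (w ++ c) * (ind (κ ≤ g w) * ind (κ ≤ g (w ++ c)))) ≤ hh g κ w * hh g κ c := by
  by_cases h1 : κ ≤ g w ∧ κ ≤ g (w ++ c)
  · have h2 : g (w ++ c) ≤ g c := h.drop w c
    have h3 : κ ≤ g c := h1.2.trans h2
    unfold hh
    rw [ind_of h1.1, ind_of h1.2, ind_of h3]
    have := mul_le_mul h1.1 h2 (h.nonneg _) (h.nonneg w)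
    linarith
  · have h4 : ind (κ ≤ g w) * ind (κ ≤ g (w ++ c)) = 0 := by
      by_cases h5 : κ ≤ g w
      · rw [ind_not (fun h6 => h1 ⟨h5, h6⟩), mul_zero]
      · rw [ind_not h5, zero_mul]
    rw [h4, mul_zero, mul_zero]
    exact mul_nonneg (mul_nonneg (h.nonneg _) (ind_nonneg _))
      (mul_nonneg (h.nonneg _) (ind_nonneg _))

private theorem sec_par_hh (h : Cc Y K g) (κ : ℝ) (w : List S) : 0 ≤ hh g κ w :=
  mul_nonneg (h.nonneg _) (ind_nonneg _)

private theorem sec_par_EN (ha : 0 < a) (ha1 : a < 1) (N : ℕ) :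
    Fm.nr a (GD Y g κ [] N) * Fm.nr a (GD Y g κ [] N) = EN Y g κ a N :=
  Real.mul_self_sqrt (Fm.en_nonneg ha ha1 _)

/-- (4d), parallel order `i ≤ i'`, `j ≤ j'`: `g (w ++ c) ≤ κ⁻¹ g w g c` for `w` good, `w ++ c`
good implies `c` good; the inner sum is a translated energy, `en_tr`. -/
theorem sec_par (h : Cc Y K g) (hκ : 0 < κ) (ha : 0 < a) (ha1 : a < 1) {N M : ℕ} (hN : N ≤ M) :
    κ ^ 2 * PP Y g M (fun u v => ∑ i ∈ range N, ∑ j ∈ range N, ∑ i' ∈ Ico i N, ∑ j' ∈ Ico j N,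
      ind (κ ≤ g (u.take i)) * ind (κ ≤ g (v.take j)) *
      ker a (Y.sm (u.take i) - Y.sm (v.take j)) *
      (ind (κ ≤ g (u.take i')) * ind (κ ≤ g (v.take j')) *
        ker a (Y.sm (u.take i') - Y.sm (v.take j')))) ≤ EN Y g κ a N ^ 2 := by
  simp_rw [Finset.sum_Ico_eq_sum_range, sec_par_sum, Finset.mul_sum]
  have hEN : EN Y g κ a N = ∑ i ∈ range N, ∑ j ∈ range N, Y.E i fun w => Y.E j fun w' =>
      hh g κ w * hh g κ w' * ker a (Y.sm w - Y.sm w') :=
    sec_par_dbl Y g κ N fun x x' => ker a (x - x')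
  have hk := fun x : Zk d => ker_nonneg ha.le x
  have h2 : EN Y g κ a N ^ 2 = ∑ i ∈ range N, ∑ j ∈ range N, Y.E i fun w => Y.E j fun w' =>
      (hh g κ w * hh g κ w' * ker a (Y.sm w - Y.sm w')) * EN Y g κ a N := by
    simp_rw [Y.E_mul_right, ← Finset.sum_mul]
    rw [← hEN, sq]
  rw [h2]
  refine Finset.sum_le_sum fun i hi => Finset.sum_le_sum fun j hj => ?_
  rw [Finset.mem_range] at hi hj
  -- the expansion
  have h3 : ∀ p ∈ range (N - i), ∀ q ∈ range (N - j),
      κ ^ 2 * PP Y g M (fun u v => ind (κ ≤ g (u.take i)) * ind (κ ≤ g (v.take j)) *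
      ker a (Y.sm (u.take i) - Y.sm (v.take j)) *
      (ind (κ ≤ g (u.take (i + p))) * ind (κ ≤ g (v.take (j + q))) *
        ker a (Y.sm (u.take (i + p)) - Y.sm (v.take (j + q))))) ≤
      Y.E i fun w => Y.E j fun w' => (hh g κ w * hh g κ w' * ker a (Y.sm w - Y.sm w')) *
        Y.E p fun c => Y.E q fun c' => hh g κ c * hh g κ c' *
          ker a (Y.sm c + (Y.sm w - Y.sm w') - Y.sm c') := by
    intro p hp q hq
    rw [Finset.mem_range] at hp hq
    rw [sec_par_exp h (i := i) (p := p) (j := j) (q := q) (by omega) (by omega)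
      (fun x x' y y' => ind (κ ≤ g x) * ind (κ ≤ g y) * ker a (Y.sm x - Y.sm y) *
        (ind (κ ≤ g x') * ind (κ ≤ g y') * ker a (Y.sm x' - Y.sm y')))]
    rw [← Y.E_mul_left]
    refine Y.E_mono fun w _ => ?_
    have e1 : (Y.E j fun w' => (hh g κ w * hh g κ w' * ker a (Y.sm w - Y.sm w')) *
        Y.E p fun c => Y.E q fun c' => hh g κ c * hh g κ c' *
          ker a (Y.sm c + (Y.sm w - Y.sm w') - Y.sm c')) =
        Y.E p fun c => Y.E j fun w' => Y.E q fun c' =>
          (hh g κ w * hh g κ w' * ker a (Y.sm w - Y.sm w')) * (hh g κ c * hh g κ c' *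
          ker a (Y.sm c + (Y.sm w - Y.sm w') - Y.sm c')) := by
      rw [Y.E_comm p j]
      refine Y.E_congr fun w' _ => ?_
      rw [← Y.E_mul_left]
      exact Y.E_congr fun c _ => by rw [← Y.E_mul_left]
    rw [e1, ← Y.E_mul_left]
    refine Y.E_mono fun c _ => ?_
    rw [← Y.E_mul_left]
    refine Y.E_mono fun w' _ => ?_
    rw [← Y.E_mul_left]
    refine Y.E_mono fun c' _ => ?_
    have e2 : Y.sm (w ++ c) - Y.sm (w' ++ c') = Y.sm c + (Y.sm w - Y.sm w') - Y.sm c' := by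
      rw [Y.sm_append, Y.sm_append]
      abel
    rw [e2]
    have g1 := sec_par_word (κ := κ) h w c
    have g2 := sec_par_word (κ := κ) h w' c'
    have g0 : ∀ x y : List S, 0 ≤ κ * (g (x ++ y) * (ind (κ ≤ g x) * ind (κ ≤ g (x ++ y)))) :=
      fun x y => mul_nonneg hκ.le (mul_nonneg (h.nonneg _)
        (mul_nonneg (ind_nonneg _) (ind_nonneg _)))
    have g3 := mul_le_mul g1 g2 (g0 w' c')
      (mul_nonneg (sec_par_hh h κ w) (sec_par_hh h κ c))
    have g4 := mul_le_mul_of_nonneg_right g3 (mul_nonneg (hk (Y.sm w - Y.sm w'))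
      (hk (Y.sm c + (Y.sm w - Y.sm w') - Y.sm c')))
    calc _ = _ := ?_
      _ ≤ _ := g4
      _ = _ := by ring
    ring
  have h4 : ∀ w w' : List S, (∑ p ∈ range (N - i), ∑ q ∈ range (N - j),
      Y.E p fun c => Y.E q fun c' => hh g κ c * hh g κ c' *
          ker a (Y.sm c + (Y.sm w - Y.sm w') - Y.sm c')) ≤ EN Y g κ a N := by
    intro w w'
    have h5 := en_tr ha ha1 (GD Y g κ [] N) (GD Y g κ [] N) (Y.sm w - Y.sm w')
    rw [sec_par_EN ha ha1, sec_par_dbl Y g κ N fun x x' => ker a (x + (Y.sm w - Y.sm w') - x')]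
      at h5
    refine le_trans ?_ h5
    have hnn : ∀ p q, 0 ≤ Y.E p fun c => Y.E q fun c' => hh g κ c * hh g κ c' *
          ker a (Y.sm c + (Y.sm w - Y.sm w') - Y.sm c') := fun p q =>
      Y.E_nonneg' fun c => Y.E_nonneg' fun c' =>
        mul_nonneg (mul_nonneg (sec_par_hh h κ c) (sec_par_hh h κ c')) (hk _)
    refine (Finset.sum_le_sum fun p _ => Finset.sum_le_sum_of_subset_of_nonneg
      (Finset.range_mono (Nat.sub_le N j)) fun q _ _ => hnn p q).trans ?_
    exact Finset.sum_le_sum_of_subset_of_nonneg (Finset.range_mono (Nat.sub_le N i))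
      fun p _ _ => Finset.sum_nonneg fun q _ => hnn p q
  refine (Finset.sum_le_sum fun p hp => Finset.sum_le_sum fun q hq => h3 p hp q hq).trans ?_
  simp_rw [← Y.E_fsum, ← Finset.mul_sum]
  refine Y.E_mono fun w _ => Y.E_mono fun w' _ => ?_
  exact mul_le_mul_of_nonneg_left (h4 w w')
    (mul_nonneg (mul_nonneg (sec_par_hh h κ w) (sec_par_hh h κ w')) (hk _))
-- END sec_par

-- BEGIN sec_cross
/-- (4d), crossed order `i ≤ i'`, `j' ≤ j`: `u.take i = w`, `u.take i' = w ++ c`, `v.take j' = w'`,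
`v.take j = w' ++ c'`, all good, weights `≤ κ⁻² g w g c g w' g c'`; with `p = sm w - sm w' - sm c'`
and `p' = sm w + sm c - sm w'`: `ker a p * ker a p' ≤ ker √a p * ker √a (sm c + sm c')`
(`ker_mul_ker_le`), the sum over `w`, `w'` is a translated energy for `√a`, the sum over `c`, `c'`
is `≤ nr √a * nr √a` (`en_tr` for `GD []` and its reflection, which has the same norm), `en_wide`. -/
theorem sec_cross (h : Cc Y K g) (hκ : 0 < κ) (ha : 0 < a) (ha1 : a < 1) {N M : ℕ}
    (hN : N ≤ M) :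
    κ ^ 2 * PP Y g M (fun u v => ∑ i ∈ range N, ∑ j' ∈ range N, ∑ i' ∈ Ico i N, ∑ j ∈ Ico j' N,
      ind (κ ≤ g (u.take i)) * ind (κ ≤ g (v.take j)) *
      ker a (Y.sm (u.take i) - Y.sm (v.take j)) *
      (ind (κ ≤ g (u.take i')) * ind (κ ≤ g (v.take j')) *
        ker a (Y.sm (u.take i') - Y.sm (v.take j')))) ≤ (4 ^ d * EN Y g κ a N) ^ 2 := by
  have hs0 : 0 < Real.sqrt a := Real.sqrt_pos.mpr ha
  have hs1 : Real.sqrt a < 1 := by rw [Real.sqrt_lt' one_pos]; linarith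
  have hk := fun x : Zk d => ker_nonneg hs0.le x
  have hnr : Fm.nr (Real.sqrt a) (GD Y g κ [] N) * Fm.nr (Real.sqrt a) (GD Y g κ [] N) ≤
      4 ^ d * EN Y g κ a N := by
    rw [sec_par_EN hs0 hs1]
    exact Fm.en_wide ha ha1 _
  have hE0 : 0 ≤ 4 ^ d * EN Y g κ a N :=
    mul_nonneg (by positivity) (Fm.en_nonneg ha ha1 _)
  simp_rw [Finset.sum_Ico_eq_sum_range, sec_par_sum, Finset.mul_sum]
  -- the expansion
  have h3 : ∀ i ∈ range N, ∀ j ∈ range N, ∀ p ∈ range (N - i), ∀ q ∈ range (N - j),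
      κ ^ 2 * PP Y g M (fun u v => ind (κ ≤ g (u.take i)) * ind (κ ≤ g (v.take (j + q))) *
      ker a (Y.sm (u.take i) - Y.sm (v.take (j + q))) *
      (ind (κ ≤ g (u.take (i + p))) * ind (κ ≤ g (v.take j)) *
        ker a (Y.sm (u.take (i + p)) - Y.sm (v.take j)))) ≤
      Y.E p fun c => Y.E q fun c' => (hh g κ c * hh g κ c' *
        ker (Real.sqrt a) (Y.sm c + Y.sm c')) *
        Y.E i fun w => Y.E j fun w' => hh g κ w * hh g κ w' *
          ker (Real.sqrt a) (Y.sm w + - Y.sm c' - Y.sm w') := by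
    intro i hi j hj p hp q hq
    rw [Finset.mem_range] at hi hj hp hq
    rw [sec_par_exp h (i := i) (p := p) (j := j) (q := q) (by omega) (by omega)
      (fun x x' y y' => ind (κ ≤ g x) * ind (κ ≤ g y') * ker a (Y.sm x - Y.sm y') *
        (ind (κ ≤ g x') * ind (κ ≤ g y) * ker a (Y.sm x' - Y.sm y)))]
    rw [← Y.E_mul_left]
    have e1 : (Y.E p fun c => Y.E q fun c' => (hh g κ c * hh g κ c' *
        ker (Real.sqrt a) (Y.sm c + Y.sm c')) *
        Y.E i fun w => Y.E j fun w' => hh g κ w * hh g κ w' *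
          ker (Real.sqrt a) (Y.sm w + - Y.sm c' - Y.sm w')) =
        Y.E i fun w => Y.E p fun c => Y.E j fun w' => Y.E q fun c' =>
          (hh g κ c * hh g κ c' * ker (Real.sqrt a) (Y.sm c + Y.sm c')) *
          (hh g κ w * hh g κ w' * ker (Real.sqrt a) (Y.sm w + - Y.sm c' - Y.sm w')) := by
      rw [Y.E_comm i p]
      refine Y.E_congr fun c _ => ?_
      have e2 : ∀ w : List S, (Y.E j fun w' => Y.E q fun c' =>
          (hh g κ c * hh g κ c' * ker (Real.sqrt a) (Y.sm c + Y.sm c')) *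
          (hh g κ w * hh g κ w' * ker (Real.sqrt a) (Y.sm w + - Y.sm c' - Y.sm w'))) =
          Y.E q fun c' => (hh g κ c * hh g κ c' * ker (Real.sqrt a) (Y.sm c + Y.sm c')) *
            Y.E j fun w' =>
          (hh g κ w * hh g κ w' * ker (Real.sqrt a) (Y.sm w + - Y.sm c' - Y.sm w')) := by
        intro w
        rw [Y.E_comm j q]
        refine Y.E_congr fun c' _ => ?_
        rw [Y.E_mul_left]
      rw [Y.E_congr fun w _ => e2 w, Y.E_comm i q]
      refine Y.E_congr fun c' _ => ?_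
      rw [Y.E_mul_left]
    rw [e1]
    refine Y.E_mono fun w _ => ?_
    rw [← Y.E_mul_left]
    refine Y.E_mono fun c _ => ?_
    rw [← Y.E_mul_left]
    refine Y.E_mono fun w' _ => ?_
    rw [← Y.E_mul_left]
    refine Y.E_mono fun c' _ => ?_
    have g1 := sec_par_word (κ := κ) h w c
    have g2 := sec_par_word (κ := κ) h w' c'
    have g0 : ∀ x y : List S, 0 ≤ κ * (g (x ++ y) * (ind (κ ≤ g x) * ind (κ ≤ g (x ++ y)))) :=
      fun x y => mul_nonneg hκ.le (mul_nonneg (h.nonneg _)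
        (mul_nonneg (ind_nonneg _) (ind_nonneg _)))
    have g3 := mul_le_mul g1 g2 (g0 w' c')
      (mul_nonneg (sec_par_hh h κ w) (sec_par_hh h κ c))
    have g5 : ker a (Y.sm w - Y.sm (w' ++ c')) * ker a (Y.sm (w ++ c) - Y.sm w') ≤
        ker (Real.sqrt a) (Y.sm w + - Y.sm c' - Y.sm w') *
          ker (Real.sqrt a) (Y.sm c + Y.sm c') := by
      have g6 := ker_mul_ker_le ha.le ha1.le (Y.sm w + - Y.sm c' - Y.sm w') (Y.sm c + Y.sm c')
      have g7 : Y.sm w - Y.sm (w' ++ c') = Y.sm w + - Y.sm c' - Y.sm w' := by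
        rw [Y.sm_append]; abel
      have g8 : Y.sm (w ++ c) - Y.sm w' =
          Y.sm w + - Y.sm c' - Y.sm w' + (Y.sm c + Y.sm c') := by
        rw [Y.sm_append]; abel
      rw [g7, g8]
      exact g6
    have g4 := mul_le_mul g3 g5 (mul_nonneg (ker_nonneg ha.le _) (ker_nonneg ha.le _))
      (mul_nonneg (mul_nonneg (sec_par_hh h κ w) (sec_par_hh h κ c))
        (mul_nonneg (sec_par_hh h κ w') (sec_par_hh h κ c')))
    calc _ = _ := ?_
      _ ≤ _ := g4
      _ = _ := by ring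
    ring
  have hT : ∀ i j p q, 0 ≤ Y.E p fun c => Y.E q fun c' => (hh g κ c * hh g κ c' *
        ker (Real.sqrt a) (Y.sm c + Y.sm c')) *
        Y.E i fun w => Y.E j fun w' => hh g κ w * hh g κ w' *
          ker (Real.sqrt a) (Y.sm w + - Y.sm c' - Y.sm w') := fun i j p q =>
    Y.E_nonneg' fun c => Y.E_nonneg' fun c' =>
      mul_nonneg (mul_nonneg (mul_nonneg (sec_par_hh h κ c) (sec_par_hh h κ c')) (hk _))
        (Y.E_nonneg' fun w => Y.E_nonneg' fun w' =>
          mul_nonneg (mul_nonneg (sec_par_hh h κ w) (sec_par_hh h κ w')) (hk _))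
  -- all ranges up to `N`
  have h4 : (∑ i ∈ range N, ∑ j ∈ range N, ∑ p ∈ range (N - i), ∑ q ∈ range (N - j),
      κ ^ 2 * PP Y g M (fun u v => ind (κ ≤ g (u.take i)) * ind (κ ≤ g (v.take (j + q))) *
      ker a (Y.sm (u.take i) - Y.sm (v.take (j + q))) *
      (ind (κ ≤ g (u.take (i + p))) * ind (κ ≤ g (v.take j)) *
        ker a (Y.sm (u.take (i + p)) - Y.sm (v.take j))))) ≤
      ∑ i ∈ range N, ∑ j ∈ range N, ∑ p ∈ range N, ∑ q ∈ range N,
      Y.E p fun c => Y.E q fun c' => (hh g κ c * hh g κ c' *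
        ker (Real.sqrt a) (Y.sm c + Y.sm c')) *
        Y.E i fun w => Y.E j fun w' => hh g κ w * hh g κ w' *
          ker (Real.sqrt a) (Y.sm w + - Y.sm c' - Y.sm w') := by
    refine Finset.sum_le_sum fun i hi => Finset.sum_le_sum fun j hj => ?_
    refine (Finset.sum_le_sum fun p hp => Finset.sum_le_sum fun q hq =>
      h3 i hi j hj p hp q hq).trans ?_
    refine (Finset.sum_le_sum fun p _ => Finset.sum_le_sum_of_subset_of_nonneg
      (Finset.range_mono (Nat.sub_le N j)) fun q _ _ => hT i j p q).trans ?_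
    exact Finset.sum_le_sum_of_subset_of_nonneg (Finset.range_mono (Nat.sub_le N i))
      fun p _ _ => Finset.sum_nonneg fun q _ => hT i j p q
  refine h4.trans ?_
  -- the sum over `w`, `w'` for fixed `c`, `c'`
  have h5 : ∀ c' : List S, (∑ i ∈ range N, ∑ j ∈ range N, Y.E i fun w => Y.E j fun w' =>
      hh g κ w * hh g κ w' * ker (Real.sqrt a) (Y.sm w + - Y.sm c' - Y.sm w')) ≤
      4 ^ d * EN Y g κ a N := by
    intro c'
    have h6 := en_tr hs0 hs1 (GD Y g κ [] N) (GD Y g κ [] N) (- Y.sm c')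
    rw [sec_par_dbl Y g κ N fun x x' => ker (Real.sqrt a) (x + - Y.sm c' - x')] at h6
    exact h6.trans hnr
  have h7 : (∑ p ∈ range N, ∑ q ∈ range N, Y.E p fun c => Y.E q fun c' =>
      hh g κ c * hh g κ c' * ker (Real.sqrt a) (Y.sm c + Y.sm c')) ≤
      4 ^ d * EN Y g κ a N := by
    have h8 := (le_abs_self _).trans
      (Fm.sm_conv_le hs0 hs1 (GD Y g κ [] N) (GD Y g κ [] N) 0)
    have h9 : Fm.sm (Real.sqrt a) (Fm.conv (GD Y g κ [] N) (GD Y g κ [] N)) 0 =
        (GD Y g κ [] N).pr fun x => (GD Y g κ [] N).pr fun x' =>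
          ker (Real.sqrt a) (x + x') := by
      unfold Fm.sm
      rw [Fm.pr_conv]
      refine Fm.pr_congr _ fun x => Fm.pr_congr _ fun x' => ?_
      rw [zero_sub, ker_neg]
    rw [h9, sec_par_dbl Y g κ N fun x x' => ker (Real.sqrt a) (x + x')] at h8
    exact h8.trans hnr
  have h10 : (∑ i ∈ range N, ∑ j ∈ range N, ∑ p ∈ range N, ∑ q ∈ range N,
      Y.E p fun c => Y.E q fun c' => (hh g κ c * hh g κ c' *
        ker (Real.sqrt a) (Y.sm c + Y.sm c')) *
        Y.E i fun w => Y.E j fun w' => hh g κ w * hh g κ w' *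
          ker (Real.sqrt a) (Y.sm w + - Y.sm c' - Y.sm w')) =
      ∑ p ∈ range N, ∑ q ∈ range N, Y.E p fun c => Y.E q fun c' => (hh g κ c * hh g κ c' *
        ker (Real.sqrt a) (Y.sm c + Y.sm c')) *
        ∑ i ∈ range N, ∑ j ∈ range N, Y.E i fun w => Y.E j fun w' => hh g κ w * hh g κ w' *
          ker (Real.sqrt a) (Y.sm w + - Y.sm c' - Y.sm w') := by
    have e1 : ∀ p q, (Y.E p fun c => Y.E q fun c' => (hh g κ c * hh g κ c' *
        ker (Real.sqrt a) (Y.sm c + Y.sm c')) *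
        ∑ i ∈ range N, ∑ j ∈ range N, Y.E i fun w => Y.E j fun w' => hh g κ w * hh g κ w' *
          ker (Real.sqrt a) (Y.sm w + - Y.sm c' - Y.sm w')) =
        ∑ i ∈ range N, ∑ j ∈ range N, Y.E p fun c => Y.E q fun c' => (hh g κ c * hh g κ c' *
        ker (Real.sqrt a) (Y.sm c + Y.sm c')) * Y.E i fun w => Y.E j fun w' =>
          hh g κ w * hh g κ w' * ker (Real.sqrt a) (Y.sm w + - Y.sm c' - Y.sm w') := by
      intro p q
      simp_rw [Finset.mul_sum, Y.E_fsum]
    simp_rw [e1]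
    -- exchange of the sums
    have e2 : ∀ T : ℕ → ℕ → ℕ → ℕ → ℝ, (∑ i ∈ range N, ∑ j ∈ range N, ∑ p ∈ range N,
        ∑ q ∈ range N, T i j p q) = ∑ p ∈ range N, ∑ q ∈ range N, ∑ i ∈ range N,
        ∑ j ∈ range N, T i j p q := by
      intro T
      have f1 : ∀ i ∈ range N, (∑ j ∈ range N, ∑ p ∈ range N, ∑ q ∈ range N, T i j p q) =
          ∑ p ∈ range N, ∑ q ∈ range N, ∑ j ∈ range N, T i j p q := by
        intro i _
        rw [Finset.sum_comm]
        exact Finset.sum_congr rfl fun p _ => Finset.sum_comm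
      rw [Finset.sum_congr rfl f1, Finset.sum_comm]
      exact Finset.sum_congr rfl fun p _ => Finset.sum_comm
    exact e2 _
  rw [h10, sq]
  refine le_trans ?_ (mul_le_mul_of_nonneg_right h7 hE0)
  simp_rw [Finset.sum_mul, ← Y.E_mul_right]
  refine Finset.sum_le_sum fun p _ => Finset.sum_le_sum fun q _ => Y.E_mono fun c _ =>
    Y.E_mono fun c' _ => ?_
  exact mul_le_mul_of_nonneg_left (h5 c')
    (mul_nonneg (mul_nonneg (sec_par_hh h κ c) (sec_par_hh h κ c')) (hk _))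
-- END sec_cross

-- BEGIN sec_mom
private theorem sec_mom_swap (N : ℕ) (T : ℕ → ℕ → ℕ → ℕ → ℝ) :
    (∑ i ∈ range N, ∑ j ∈ range N, ∑ p ∈ range N, ∑ q ∈ range N, T i j p q) =
      ∑ p ∈ range N, ∑ q ∈ range N, ∑ i ∈ range N, ∑ j ∈ range N, T i j p q := by
  have f1 : ∀ i ∈ range N, (∑ j ∈ range N, ∑ p ∈ range N, ∑ q ∈ range N, T i j p q) =
      ∑ p ∈ range N, ∑ q ∈ range N, ∑ j ∈ range N, T i j p q := by
    intro i _
    rw [Finset.sum_comm]
    exact Finset.sum_congr rfl fun p _ => Finset.sum_comm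
  rw [Finset.sum_congr rfl f1, Finset.sum_comm]
  exact Finset.sum_congr rfl fun p _ => Finset.sum_comm

private theorem sec_mom_ico (i N : ℕ) (G : ℕ → ℝ) :
    ∑ i' ∈ Ico i N, G i' = ∑ i' ∈ range N, if i ≤ i' then G i' else 0 := by
  rw [← Finset.sum_filter]
  refine Finset.sum_congr ?_ fun _ _ => rfl
  ext x
  simp only [Finset.mem_Ico, Finset.mem_filter, Finset.mem_range]
  omega

private theorem sec_mom_sq (f : ℕ → ℕ → ℝ) (hf : ∀ i j, 0 ≤ f i j) (N : ℕ) :
    (∑ i ∈ range N, ∑ j ∈ range N, f i j) ^ 2 ≤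
      2 * (∑ i ∈ range N, ∑ j ∈ range N, ∑ i' ∈ Ico i N, ∑ j' ∈ Ico j N, f i j * f i' j') +
      2 * (∑ i ∈ range N, ∑ j' ∈ range N, ∑ i' ∈ Ico i N, ∑ j ∈ Ico j' N,
        f i j * f i' j') := by
  obtain ⟨P, hP⟩ : ∃ P : ℕ → ℕ → ℕ → ℕ → ℝ, P = fun i j i' j' =>
    if i ≤ i' then (if j ≤ j' then f i j * f i' j' else 0) else 0 := ⟨_, rfl⟩
  obtain ⟨Q, hQ⟩ : ∃ Q : ℕ → ℕ → ℕ → ℕ → ℝ, Q = fun i j i' j' =>
    if i ≤ i' then (if j' ≤ j then f i j * f i' j' else 0) else 0 := ⟨_, rfl⟩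
  have h1 : (∑ i ∈ range N, ∑ j ∈ range N, ∑ i' ∈ Ico i N, ∑ j' ∈ Ico j N, f i j * f i' j') =
      ∑ i ∈ range N, ∑ j ∈ range N, ∑ i' ∈ range N, ∑ j' ∈ range N, P i j i' j' := by
    refine Finset.sum_congr rfl fun i _ => Finset.sum_congr rfl fun j _ => ?_
    rw [sec_mom_ico]
    refine Finset.sum_congr rfl fun i' _ => ?_
    rw [hP]
    by_cases h : i ≤ i'
    · simp only [if_pos h]
      rw [sec_mom_ico]
    · simp only [if_neg h, Finset.sum_const_zero]
  have h2 : (∑ i ∈ range N, ∑ j' ∈ range N, ∑ i' ∈ Ico i N, ∑ j ∈ Ico j' N, f i j * f i' j') =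
      ∑ i ∈ range N, ∑ j ∈ range N, ∑ i' ∈ range N, ∑ j' ∈ range N, Q i j i' j' := by
    refine Finset.sum_congr rfl fun i _ => ?_
    have e1 : ∀ j' ∈ range N, (∑ i' ∈ Ico i N, ∑ j ∈ Ico j' N, f i j * f i' j') =
        ∑ i' ∈ range N, ∑ j ∈ range N, Q i j i' j' := by
      intro j' _
      rw [sec_mom_ico]
      refine Finset.sum_congr rfl fun i' _ => ?_
      rw [hQ]
      by_cases h : i ≤ i'
      · simp only [if_pos h]
        rw [sec_mom_ico]
      · simp only [if_neg h, Finset.sum_const_zero]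
    rw [Finset.sum_congr rfl e1, Finset.sum_comm]
    rw [Finset.sum_congr rfl fun i' _ => Finset.sum_comm (s := range N) (t := range N)
      (f := fun j' j => Q i j i' j')]
    rw [Finset.sum_comm]
  have h3 : (∑ i ∈ range N, ∑ j ∈ range N, f i j) ^ 2 =
      ∑ i ∈ range N, ∑ j ∈ range N, ∑ i' ∈ range N, ∑ j' ∈ range N, f i j * f i' j' := by
    simp_rw [sq, Finset.sum_mul, Finset.mul_sum]
  have h4 : ∀ i j i' j', f i j * f i' j' ≤
      P i j i' j' + P i' j' i j + (Q i j i' j' + Q i' j' i j) := by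
    intro i j i' j'
    have h0 : 0 ≤ f i j * f i' j' := mul_nonneg (hf _ _) (hf _ _)
    have h0' : 0 ≤ f i' j' * f i j := mul_nonneg (hf _ _) (hf _ _)
    have hc : f i' j' * f i j = f i j * f i' j' := mul_comm _ _
    rw [hP, hQ]
    simp only
    rcases le_total i i' with hi | hi <;> rcases le_total j j' with hj | hj <;>
      simp only [if_pos hi, if_pos hj] <;> split_ifs <;> linarith
  rw [h1, h2, h3]
  calc _ ≤ ∑ i ∈ range N, ∑ j ∈ range N, ∑ i' ∈ range N, ∑ j' ∈ range N,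
        (P i j i' j' + P i' j' i j + (Q i j i' j' + Q i' j' i j)) :=
        Finset.sum_le_sum fun i _ => Finset.sum_le_sum fun j _ => Finset.sum_le_sum fun i' _ =>
          Finset.sum_le_sum fun j' _ => h4 i j i' j'
    _ = _ := by
        simp_rw [Finset.sum_add_distrib]
        rw [sec_mom_swap N fun i j i' j' => P i' j' i j,
          sec_mom_swap N fun i j i' j' => Q i' j' i j]
        ring

/-- all orders: `Hn ^ 2 ≤ 2 * (parallel) + 2 * (crossed)` -/
theorem sec_mom (h : Cc Y K g) (hκ : 0 < κ) (ha : 0 < a) (ha1 : a < 1) {N M : ℕ} (hN : N ≤ M) :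
    κ ^ 2 * PP Y g M (fun u v => Hn Y g κ a N u v ^ 2) ≤
      (2 + 2 * (4 ^ d) ^ 2) * EN Y g κ a N ^ 2 := by
  have h1 := sec_par h hκ ha ha1 hN
  have h2 := sec_cross h hκ ha ha1 hN
  have h3 := PP_mono h M (φ := fun u v => Hn Y g κ a N u v ^ 2) (ψ := fun u v =>
    2 * (∑ i ∈ range N, ∑ j ∈ range N, ∑ i' ∈ Ico i N, ∑ j' ∈ Ico j N,
      ind (κ ≤ g (u.take i)) * ind (κ ≤ g (v.take j)) *
      ker a (Y.sm (u.take i) - Y.sm (v.take j)) *
      (ind (κ ≤ g (u.take i')) * ind (κ ≤ g (v.take j')) *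
        ker a (Y.sm (u.take i') - Y.sm (v.take j')))) +
    2 * (∑ i ∈ range N, ∑ j' ∈ range N, ∑ i' ∈ Ico i N, ∑ j ∈ Ico j' N,
      ind (κ ≤ g (u.take i)) * ind (κ ≤ g (v.take j)) *
      ker a (Y.sm (u.take i) - Y.sm (v.take j)) *
      (ind (κ ≤ g (u.take i')) * ind (κ ≤ g (v.take j')) *
        ker a (Y.sm (u.take i') - Y.sm (v.take j'))))) fun u v _ _ _ _ =>
      sec_mom_sq (fun i j => ind (κ ≤ g (u.take i)) * ind (κ ≤ g (v.take j)) *
        ker a (Y.sm (u.take i) - Y.sm (v.take j)))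
        (fun i j => mul_nonneg (mul_nonneg (ind_nonneg _) (ind_nonneg _))
          (ker_nonneg ha.le _)) N
  have h4 : ∀ φ ψ : List S → List S → ℝ, PP Y g M (fun u v => 2 * φ u v + 2 * ψ u v) =
      2 * PP Y g M φ + 2 * PP Y g M ψ := by
    intro φ ψ
    show (Y.E M fun u => Y.E M fun v => g u * g v * (2 * φ u v + 2 * ψ u v)) =
      2 * (Y.E M fun u => Y.E M fun v => g u * g v * φ u v) +
      2 * (Y.E M fun u => Y.E M fun v => g u * g v * ψ u v)
    have e : ∀ u v, g u * g v * (2 * φ u v + 2 * ψ u v) =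
        2 * (g u * g v * φ u v) + 2 * (g u * g v * ψ u v) := fun u v => by ring
    simp_rw [e, Y.E_fadd, Y.E_mul_left]
  rw [h4] at h3
  have h5 := mul_le_mul_of_nonneg_left h3 (sq_nonneg κ)
  have h6 : (4 ^ d * EN Y g κ a N) ^ 2 = (4 ^ d) ^ 2 * EN Y g κ a N ^ 2 := by ring
  rw [h6] at h2
  linarith
-- END sec_mom

-- BEGIN pz_ineq
theorem pz_ineq_add (M : ℕ) (φ ψ : List S → List S → ℝ) :
    PP Y g M (fun u v => φ u v + ψ u v) = PP Y g M φ + PP Y g M ψ := by
  unfold PP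
  simp only [mul_add, Y.E_fadd]

theorem pz_ineq_mul (M : ℕ) (c : ℝ) (φ : List S → List S → ℝ) :
    PP Y g M (fun u v => φ u v * c) = PP Y g M φ * c := by
  unfold PP
  simp only [← mul_assoc, Y.E_mul_right]

/-- Paley-Zygmund / Cauchy-Schwarz for `PP`: `(PP (H * ind A))² ≤ PP (H²) * PP (ind (A ∧ H > 0))`
for `H ≥ 0`. -/
theorem pz_ineq (h : Cc Y K g) (M : ℕ) (H : List S → List S → ℝ) (hH : ∀ u v, 0 ≤ H u v)
    (A : List S → List S → Prop) :
    (PP Y g M fun u v => H u v * ind (A u v)) ^ 2 ≤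
      (PP Y g M fun u v => H u v ^ 2) * PP Y g M fun u v => ind (A u v ∧ 0 < H u v) := by
  have key : ∀ x : ℝ, 0 ≤ (PP Y g M fun u v => H u v ^ 2) * (x * x) +
      (2 * PP Y g M fun u v => H u v * ind (A u v)) * x +
      PP Y g M fun u v => ind (A u v ∧ 0 < H u v) := by
    intro x
    have h1 : 0 ≤ PP Y g M fun u v => (H u v * x + ind (A u v ∧ 0 < H u v)) ^ 2 :=
      Hn_mean_nn h M fun u v => sq_nonneg _
    have h2 : (PP Y g M fun u v => (H u v * x + ind (A u v ∧ 0 < H u v)) ^ 2) =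
        PP Y g M fun u v => H u v ^ 2 * (x * x) + (H u v * ind (A u v)) * (2 * x) +
          ind (A u v ∧ 0 < H u v) := by
      unfold PP
      refine Y.E_congr fun u _ => Y.E_congr fun v _ => ?_
      congr 1
      have e1 : ind (A u v ∧ 0 < H u v) * ind (A u v ∧ 0 < H u v) =
          ind (A u v ∧ 0 < H u v) := by
        by_cases hp : A u v ∧ 0 < H u v
        · rw [ind_of hp, mul_one]
        · rw [ind_not hp, mul_zero]
      have e2 : H u v * ind (A u v ∧ 0 < H u v) = H u v * ind (A u v) := by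
        rcases eq_or_lt_of_le (hH u v) with h0 | h0
        · rw [← h0, zero_mul, zero_mul]
        · rw [ind_congr (show (A u v ∧ 0 < H u v) ↔ A u v from ⟨fun h => h.1, fun h => ⟨h, h0⟩⟩)]
      calc (H u v * x + ind (A u v ∧ 0 < H u v)) ^ 2
          = H u v ^ 2 * (x * x) + (H u v * ind (A u v ∧ 0 < H u v)) * (2 * x) +
            ind (A u v ∧ 0 < H u v) * ind (A u v ∧ 0 < H u v) := by ring
        _ = _ := by rw [e1, e2]
    rw [h2, pz_ineq_add, pz_ineq_add, pz_ineq_mul, pz_ineq_mul] at h1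
    linarith
  have h3 := discrim_le_zero key
  unfold discrim at h3
  nlinarith
-- END pz_ineq

-- BEGIN pz_main
theorem pz_main_split (ha : 0 < a) (r k N : ℕ) (u v : List S) (A : Prop) :
    Hn Y g κ a N u v * ind A ≤ Hr Y g κ a r k N u v * ind A +
      (∑ i ∈ range N, ∑ j ∈ range N, ind (κ ≤ g (u.take i)) *
        ind (κ ≤ g (v.take j)) * ker a (Y.sm (u.take i) - Y.sm (v.take j)) *
          ind (i < k ∨ j < k)) +
      ∑ i ∈ range N, ∑ j ∈ range N, ind (κ ≤ g (u.take i)) *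
        ind (κ ≤ g (v.take j)) * (ker a (Y.sm (u.take i) - Y.sm (v.take j)) *
          ind (r < n1 (Y.sm (u.take i) - Y.sm (v.take j)))) := by
  have h1 : Hr Y g κ a r k N u v = ∑ i ∈ range N, ∑ j ∈ range N,
      ind (κ ≤ g (u.take i)) * ind (κ ≤ g (v.take j)) *
      (ker a (Y.sm (u.take i) - Y.sm (v.take j)) *
        ind (n1 (Y.sm (u.take i) - Y.sm (v.take j)) ≤ r)) * (ind (k ≤ i) * ind (k ≤ j)) := by
    have hf : ∀ f : ℕ → ℝ, ∑ i ∈ Ico k N, f i = ∑ i ∈ range N, f i * ind (k ≤ i) := by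
      intro f
      have e1 : Ico k N = (range N).filter (fun i => k ≤ i) := by
        ext i
        rw [Finset.mem_filter, Finset.mem_range, Finset.mem_Ico]
        omega
      rw [e1, Finset.sum_filter]
      refine Finset.sum_congr rfl fun i _ => ?_
      split_ifs with hi
      · rw [ind_of hi, mul_one]
      · rw [ind_not hi, mul_zero]
    unfold Hr
    rw [hf]
    refine Finset.sum_congr rfl fun i _ => ?_
    rw [hf, Finset.sum_mul]
    exact Finset.sum_congr rfl fun j _ => by ring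
  rw [h1]
  unfold Hn
  simp only [Finset.sum_mul]
  rw [← Finset.sum_add_distrib, ← Finset.sum_add_distrib]
  refine Finset.sum_le_sum fun i _ => ?_
  rw [← Finset.sum_add_distrib, ← Finset.sum_add_distrib]
  refine Finset.sum_le_sum fun j _ => ?_
  set c := ind (κ ≤ g (u.take i)) * ind (κ ≤ g (v.take j)) with hc
  set p := Y.sm (u.take i) - Y.sm (v.take j) with hp
  have hc0 : 0 ≤ c := mul_nonneg (ind_nonneg _) (ind_nonneg _)
  have hk0 : 0 ≤ c * ker a p := mul_nonneg hc0 (ker_nonneg ha.le p)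
  have hA0 := ind_nonneg A
  have hA1 := ind_le_one A
  by_cases hij : i < k ∨ j < k
  · rw [ind_of hij]
    have e1 : 0 ≤ c * (ker a p * ind (n1 p ≤ r)) * (ind (k ≤ i) * ind (k ≤ j)) * ind A :=
      mul_nonneg (mul_nonneg (mul_nonneg hc0 (mul_nonneg (ker_nonneg ha.le p) (ind_nonneg _)))
        (mul_nonneg (ind_nonneg _) (ind_nonneg _))) hA0
    have e2 : 0 ≤ c * (ker a p * ind (r < n1 p)) :=
      mul_nonneg hc0 (mul_nonneg (ker_nonneg ha.le p) (ind_nonneg _))
    have e3 : c * ker a p * ind A ≤ c * ker a p * 1 := mul_le_mul_of_nonneg_left hA1 hk0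
    linarith
  · have hki : k ≤ i := by omega
    have hkj : k ≤ j := by omega
    rw [ind_not hij, ind_of hki, ind_of hkj, mul_zero, mul_one, mul_one, add_zero]
    by_cases hr : n1 p ≤ r
    · rw [ind_of hr, ind_not (by omega : ¬ r < n1 p)]
      simp
    · rw [ind_not hr, ind_of (by omega : r < n1 p)]
      have e3 : c * ker a p * ind A ≤ c * ker a p * 1 := mul_le_mul_of_nonneg_left hA1 hk0
      simp only [mul_zero, zero_mul, mul_one, zero_add] at e3 ⊢
      exact e3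

theorem pz_main_Hr_le (ha : 0 < a) (r k N : ℕ) (u v : List S) :
    0 ≤ Hr Y g κ a r k N u v ∧ Hr Y g κ a r k N u v ≤ Hn Y g κ a N u v := by
  constructor
  · exact Finset.sum_nonneg fun i _ => Finset.sum_nonneg fun j _ =>
      mul_nonneg (mul_nonneg (ind_nonneg _) (ind_nonneg _))
        (mul_nonneg (ker_nonneg ha.le _) (ind_nonneg _))
  · have hsub : Ico k N ⊆ range N := fun i hi => Finset.mem_range.2 (Finset.mem_Ico.1 hi).2
    have hnn : ∀ i j, 0 ≤ ind (κ ≤ g (u.take i)) * ind (κ ≤ g (v.take j)) *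
        ker a (Y.sm (u.take i) - Y.sm (v.take j)) := fun i j =>
      mul_nonneg (mul_nonneg (ind_nonneg _) (ind_nonneg _)) (ker_nonneg ha.le _)
    unfold Hr Hn
    refine (Finset.sum_le_sum fun i _ => ?_).trans
      (Finset.sum_le_sum_of_subset_of_nonneg hsub fun i _ _ =>
        Finset.sum_nonneg fun j _ => hnn i j)
    refine (Finset.sum_le_sum fun j _ => ?_).trans
      (Finset.sum_le_sum_of_subset_of_nonneg hsub fun j _ _ => hnn i j)
    rw [← mul_assoc]
    exact (mul_le_mul_of_nonneg_left (ind_le_one _) (hnn i j)).trans (le_of_eq (mul_one _))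

theorem pz_main_Nh {r k N : ℕ} {u v : List S} (y : Zk d) (h0 : 0 < Hr Y g κ a r k N u v) :
    Nh Y y (r + n1 y) k N u v := by
  by_contra hcon
  refine absurd h0 (not_lt.2 (le_of_eq ?_))
  refine Finset.sum_eq_zero fun i hi => Finset.sum_eq_zero fun j hj => ?_
  have hi' := Finset.mem_Ico.1 hi
  have hj' := Finset.mem_Ico.1 hj
  have hr : ¬ n1 (Y.sm (u.take i) - Y.sm (v.take j)) ≤ r := by
    intro hr
    refine hcon ⟨i, j, hi'.1, hi'.2.le, hj'.1, hj'.2.le, ?_⟩
    have h1 := n1_add_le y (Y.sm (u.take i) - Y.sm (v.take j))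
    rw [← add_sub_assoc] at h1
    omega
  rw [ind_not hr, mul_zero, mul_zero]

/-- one scale -/
theorem pz_main_one (h : Cc Y K g) (hκ : 0 < κ) (ha : 0 < a) (ha1 : a < 1)
    (hE : Tendsto (fun N => EN Y g κ a N) atTop atTop) {y : Zk d} {c : ℝ} (hc : 0 < c)
    (hf : ∀ m, ∃ᶠ N in atTop, c / 2 <
      Y.E m fun b => Y.E m fun b' => ga Y g κ a N b b' * ind (Dj Y y m b b'))
    {r : ℕ} (hr : Real.sqrt a ^ r * 4 ^ d ≤ c / 8) (k m : ℕ) :
    ∃ N, m ≤ N ∧ k ≤ N ∧ (c / 8) ^ 2 * κ ^ 2 / (2 + 2 * (4 ^ d) ^ 2) ≤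
      PP Y g N fun u v => ind (Dj Y y m (u.take m) (v.take m) ∧ Nh Y y (r + n1 y) k N u v) := by
  have hev : ∀ᶠ N in atTop, (16 * k / c) ^ 2 + 1 ≤ EN Y g κ a N ∧ m ≤ N ∧ k ≤ N :=
    ((hE.eventually_ge_atTop _).and (eventually_ge_atTop m)).and (eventually_ge_atTop k)
      |>.mono fun N hN => ⟨hN.1.1, hN.1.2, hN.2⟩
  obtain ⟨N, hN, hE1, hmN, hkN⟩ := ((hf m).and_eventually hev).exists
  set e := EN Y g κ a N with he
  have he1 : 1 ≤ e := le_trans (by nlinarith [sq_nonneg (16 * k / c)]) hE1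
  have he0 : 0 < e := by linarith
  refine ⟨N, hmN, hkN, ?_⟩
  -- early
  have hs : 16 * k / c ≤ Real.sqrt e := by
    apply Real.le_sqrt_of_sq_le
    linarith
  have hs2 : Real.sqrt e * Real.sqrt e = e := Real.mul_self_sqrt he0.le
  have hearly : 2 * k * Real.sqrt e ≤ c / 8 * e := by
    have h1 : 16 * k / c * Real.sqrt e ≤ Real.sqrt e * Real.sqrt e :=
      mul_le_mul_of_nonneg_right hs (Real.sqrt_nonneg _)
    rw [hs2] at h1
    have h2 : c / 8 * (16 * k / c * Real.sqrt e) ≤ c / 8 * e :=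
      mul_le_mul_of_nonneg_left h1 (by positivity)
    have h3 : c / 8 * (16 * k / c * Real.sqrt e) = 2 * k * Real.sqrt e := by
      field_simp
      ring
    linarith
  have h1 : c / 2 * e < Y.E m fun b => Y.E m fun b' =>
      Fm.en a (GD Y g κ b N) (GD Y g κ b' N) * ind (Dj Y y m b b') := by
    have e1 : (Y.E m fun b => Y.E m fun b' => ga Y g κ a N b b' * ind (Dj Y y m b b')) * e =
        Y.E m fun b => Y.E m fun b' =>
          Fm.en a (GD Y g κ b N) (GD Y g κ b' N) * ind (Dj Y y m b b') := by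
      rw [← Y.E_mul_right]
      refine Y.E_congr fun b _ => ?_
      rw [← Y.E_mul_right]
      refine Y.E_congr fun b' _ => ?_
      unfold ga
      rw [← he]
      field_simp
    rw [← e1]
    exact mul_lt_mul_of_pos_right hN he0
  have h2 := Hn_mean h hκ ha ha1 (le_refl N) hmN (Dj Y y m)
  set A : List S → List S → Prop := fun u v => Dj Y y m (u.take m) (v.take m) with hA
  have h3 : (PP Y g N fun u v => Hn Y g κ a N u v * ind (A u v)) ≤
      (PP Y g N fun u v => Hr Y g κ a r k N u v * ind (A u v)) + c / 8 * e + c / 8 * e := by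
    have e1 := PP_mono h N (φ := fun u v => Hn Y g κ a N u v * ind (A u v))
      (ψ := fun u v => Hr Y g κ a r k N u v * ind (A u v) +
      (∑ i ∈ range N, ∑ j ∈ range N, ind (κ ≤ g (u.take i)) *
        ind (κ ≤ g (v.take j)) * ker a (Y.sm (u.take i) - Y.sm (v.take j)) *
          ind (i < k ∨ j < k)) +
      ∑ i ∈ range N, ∑ j ∈ range N, ind (κ ≤ g (u.take i)) *
        ind (κ ≤ g (v.take j)) * (ker a (Y.sm (u.take i) - Y.sm (v.take j)) *
          ind (r < n1 (Y.sm (u.take i) - Y.sm (v.take j)))))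
      (fun u v _ _ _ _ => pz_main_split ha r k N u v (A u v))
    rw [pz_ineq_add, pz_ineq_add] at e1
    have e2 := Hn_early h hκ ha ha1 (le_refl N) hkN
    have e3 := Hn_far (r := r) h hκ ha ha1 (le_refl N)
    rw [← he] at e2 e3
    have e4 : Real.sqrt a ^ r * (4 ^ d * e) ≤ c / 8 * e := by
      rw [← mul_assoc]
      exact mul_le_mul_of_nonneg_right hr he0.le
    linarith
  have h4 : c / 8 * e ≤ PP Y g N fun u v => Hr Y g κ a r k N u v * ind (A u v) := by
    have : c / 2 * e ≤ PP Y g N fun u v => Hn Y g κ a N u v * ind (A u v) := h1.le.trans h2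
    have h5 : 0 < c * e := mul_pos hc he0
    linarith
  have h5 := pz_ineq h N (fun u v => Hr Y g κ a r k N u v)
    (fun u v => (pz_main_Hr_le ha r k N u v).1) A
  have h6 : (PP Y g N fun u v => Hr Y g κ a r k N u v ^ 2) ≤
      PP Y g N fun u v => Hn Y g κ a N u v ^ 2 :=
    PP_mono h N fun u v _ _ _ _ => pow_le_pow_left₀ (pz_main_Hr_le ha r k N u v).1
      (pz_main_Hr_le ha r k N u v).2 2
  have h7 := sec_mom h hκ ha ha1 (le_refl N)
  rw [← he] at h7
  set P := PP Y g N fun u v => ind (A u v ∧ 0 < Hr Y g κ a r k N u v) with hP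
  have hP0 : 0 ≤ P := Hn_mean_nn h N fun u v => ind_nonneg _
  have h8 : P ≤ PP Y g N fun u v => ind (Dj Y y m (u.take m) (v.take m) ∧
      Nh Y y (r + n1 y) k N u v) :=
    PP_mono h N fun u v _ _ _ _ => ind_mono fun hh => ⟨hh.1, pz_main_Nh y hh.2⟩
  refine le_trans ?_ h8
  set D : ℝ := 2 + 2 * (4 ^ d) ^ 2 with hD
  have hD0 : 0 < D := by positivity
  rw [div_le_iff₀ hD0]
  have h9 : (c / 8 * e) ^ 2 ≤ (PP Y g N fun u v => Hn Y g κ a N u v ^ 2) * P := by
    have h10 : 0 ≤ c / 8 * e := by positivity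
    exact (pow_le_pow_left₀ h10 h4 2).trans (h5.trans (mul_le_mul_of_nonneg_right h6 hP0))
  have h10 : κ ^ 2 * (c / 8 * e) ^ 2 ≤ D * e ^ 2 * P := by
    calc κ ^ 2 * (c / 8 * e) ^ 2
        ≤ κ ^ 2 * ((PP Y g N fun u v => Hn Y g κ a N u v ^ 2) * P) :=
          mul_le_mul_of_nonneg_left h9 (by positivity)
      _ = (κ ^ 2 * (PP Y g N fun u v => Hn Y g κ a N u v ^ 2)) * P := by ring
      _ ≤ D * e ^ 2 * P := mul_le_mul_of_nonneg_right h7 hP0
  have h11 : ((c / 8) ^ 2 * κ ^ 2) * e ^ 2 ≤ (P * D) * e ^ 2 := by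
    calc ((c / 8) ^ 2 * κ ^ 2) * e ^ 2 = κ ^ 2 * (c / 8 * e) ^ 2 := by ring
      _ ≤ _ := h10
      _ = (P * D) * e ^ 2 := by ring
  exact le_of_mul_le_mul_right h11 (by positivity)

theorem pz_main_Dj {y : Zk d} {m M : ℕ} (hm : m ≤ M) {u v : List S} (hD : Dj Y y M u v) :
    Dj Y y m (u.take m) (v.take m) := by
  intro s hs t ht
  rw [List.take_take, List.take_take, Nat.min_eq_left hs, Nat.min_eq_left ht]
  exact hD s (hs.trans hm) t (ht.trans hm)

/-- (4m). `r` with `√a ^ r * 4 ^ d ≤ c / 8`; for given `k`, `m` choose `N` large with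
`2 * (k + 1) * sqrt EN ≤ (c / 8) * EN` and `(c / 2) * EN < Y.E m .. en (GD b) (GD b') ind (Dj ..)`
(`hf`, `N ≥ m`, `k`), `M = N`. By `Hn_mean`, `Hn_early`, `Hn_far`: `PP (Hr * ind (Dj Y y m)) ≥
(c / 8) * EN`; `Hr ≤ Hn`, `sec_mom`, `pz_ineq`; `Hr > 0` implies `Nh Y 0 r k N`, and
`Nh Y y (r + n1 y)`. So `c2 = (c / 8) ^ 2 * κ ^ 2 / (2 + 2 * (4 ^ d) ^ 2)`. Then for given `k`:
`p m = PP m (Dj y m)` decreases; `m` with `p m - p M ≤ c2 / 2` for all `M ≥ m`; `N` for this `m`;
for `M ≥ N`: `PP M (Dj y m ∧ Nh k N) ≥ c2` (`PP_take`), subtract `p m - p M`. -/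
theorem pz_main (h : Cc Y K g) (hκ : 0 < κ) (ha : 0 < a) (ha1 : a < 1)
    (hE : Tendsto (fun N => EN Y g κ a N) atTop atTop) {y : Zk d} {c : ℝ} (hc : 0 < c)
    (hf : ∀ m, ∃ᶠ N in atTop, c / 2 <
      Y.E m fun b => Y.E m fun b' => ga Y g κ a N b b' * ind (Dj Y y m b b')) :
    ∃ r : ℕ, ∃ c2 : ℝ, 0 < c2 ∧ ∀ k, ∃ N, ∀ M ≥ N,
      c2 ≤ PP Y g M fun u v => ind (Dj Y y M u v ∧ Nh Y y r k N u v) := by
  obtain ⟨r, hr⟩ : ∃ r : ℕ, Real.sqrt a ^ r * 4 ^ d ≤ c / 8 := by
    have hs0 : 0 ≤ Real.sqrt a := Real.sqrt_nonneg a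
    have hs1 : Real.sqrt a < 1 := by
      rw [Real.sqrt_lt' one_pos]
      simpa using ha1
    obtain ⟨r, hr⟩ := exists_pow_lt_of_lt_one (show 0 < c / 8 / 4 ^ d by positivity) hs1
    refine ⟨r, ?_⟩
    rw [lt_div_iff₀ (by positivity)] at hr
    exact hr.le
  set c1 : ℝ := (c / 8) ^ 2 * κ ^ 2 / (2 + 2 * (4 ^ d) ^ 2) with hc1
  have hc1p : 0 < c1 := by positivity
  refine ⟨r + n1 y, c1 / 2, by positivity, fun k => ?_⟩
  set p : ℕ → ℝ := fun m => PP Y g m fun u v => ind (Dj Y y m u v) with hp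
  have hp0 : ∀ m, 0 ≤ p m := fun m => Hn_mean_nn h m fun u v => ind_nonneg _
  have hbdd : BddBelow (Set.range p) := ⟨0, by
    rintro x ⟨m, rfl⟩
    exact hp0 m⟩
  obtain ⟨m, hm⟩ : ∃ m, p m < (⨅ i, p i) + c1 / 2 := by
    obtain ⟨m, hm⟩ := exists_lt_of_ciInf_lt (show (⨅ i, p i) < (⨅ i, p i) + c1 / 2 by linarith)
    exact ⟨m, hm⟩
  have hpm : ∀ M, p m ≤ p M + c1 / 2 := fun M => by
    have := ciInf_le hbdd M
    linarith
  obtain ⟨N, hmN, hkN, hN⟩ := pz_main_one h hκ ha ha1 hE hc hf hr k m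
  refine ⟨N, fun M hM => ?_⟩
  have h1 : (PP Y g M fun u v => ind (Dj Y y m (u.take m) (v.take m) ∧
      Nh Y y (r + n1 y) k N u v)) =
      PP Y g N fun u v => ind (Dj Y y m (u.take m) (v.take m) ∧
        Nh Y y (r + n1 y) k N u v) := by
    rw [← PP_take h hM]
    unfold PP
    refine Y.E_congr fun u _ => Y.E_congr fun v _ => ?_
    congr 1
    apply ind_congr
    rw [List.take_take, List.take_take, Nat.min_eq_left hmN]
    refine and_congr Iff.rfl ?_
    constructor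
    · rintro ⟨i, j, h1, h2, h3, h4, h5⟩
      refine ⟨i, j, h1, h2, h3, h4, ?_⟩
      rwa [List.take_take, List.take_take, Nat.min_eq_left h2, Nat.min_eq_left h4]
    · rintro ⟨i, j, h1, h2, h3, h4, h5⟩
      refine ⟨i, j, h1, h2, h3, h4, ?_⟩
      rwa [List.take_take, List.take_take, Nat.min_eq_left h2, Nat.min_eq_left h4] at h5
  have h2 : (PP Y g M fun u v => ind (Dj Y y m (u.take m) (v.take m))) = p m := by
    exact PP_take h (hmN.trans hM) (fun u v => ind (Dj Y y m u v))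
  have h3 : (PP Y g M fun u v => ind (Dj Y y m (u.take m) (v.take m) ∧
      Nh Y y (r + n1 y) k N u v) + ind (Dj Y y M u v)) ≤
      PP Y g M fun u v => ind (Dj Y y M u v ∧ Nh Y y (r + n1 y) k N u v) +
        ind (Dj Y y m (u.take m) (v.take m)) := by
    refine PP_mono h M fun u v _ _ _ _ => ?_
    by_cases hD : Dj Y y M u v
    · have hD' := pz_main_Dj (hmN.trans hM) hD
      rw [ind_of hD, ind_of hD', ind_and, ind_and, ind_of hD, ind_of hD']
    · have e1 : ind (Dj Y y M u v ∧ Nh Y y (r + n1 y) k N u v) = 0 :=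
        ind_not fun hh => hD hh.1
      have e2 : ind (Dj Y y M u v) = 0 := ind_not hD
      have e3 : ind (Dj Y y m (u.take m) (v.take m) ∧ Nh Y y (r + n1 y) k N u v) ≤
          ind (Dj Y y m (u.take m) (v.take m)) := ind_mono fun hh => hh.1
      linarith
  rw [pz_ineq_add, pz_ineq_add, h1, h2] at h3
  have h4 := hpm M
  have h5 : p M = PP Y g M fun u v => ind (Dj Y y M u v) := rfl
  rw [← h5] at h3
  linarith
-- END pz_main

-- BEGIN rt_HL2
/-- If `L2s` is not bounded for `κ`: `EN_atTop`, `gam_a` for `a = 1 - 1 / (l + 2)` (choice in `l`),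
`gam_one`, `arrow_cc`, `gam_fix`, the second part of `gam_a` with a constant slightly smaller
than `c / 2`, `pz_main`, `tail_swap` with `ε = c2 / 2`: contradiction. -/
theorem rt_HL2 (h : Cc Y K g) (hl : Lt Y) (hρ : Rt Y g ρ) : HL2 Y g := by
  intro κ hκ
  by_contra hL
  have ha0 : ∀ l : ℕ, (0 : ℝ) < 1 - 1 / ((l : ℝ) + 2) ∧ 1 - 1 / ((l : ℝ) + 2) < 1 := by
    intro l
    have h0 : (0 : ℝ) ≤ l := Nat.cast_nonneg l
    have h1 : (0 : ℝ) < (l : ℝ) + 2 := by linarith
    refine ⟨?_, ?_⟩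
    · rw [sub_pos, div_lt_one h1]
      linarith
    · have := one_div_pos.2 h1
      linarith
  have hE := fun l : ℕ => EN_atTop h hκ (ha0 l).1 (ha0 l).2 hL
  choose γa hγa hfa using fun l : ℕ => gam_a h hκ (ha0 l).1 (ha0 l).2 (hE l)
  obtain ⟨γ, hγ, hlim⟩ := gam_one h hκ γa hγa
  obtain ⟨y, -, c, hc, hyc⟩ := arrow_cc h hρ hκ hγ
  obtain ⟨l, hl'⟩ := gam_fix h hκ γ γa hγa hlim hc hyc
  obtain ⟨r, c2, hc2, hr⟩ := pz_main h hκ (ha0 l).1 (ha0 l).2 (hE l) (y := y) (c := c / 2)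
    (half_pos hc) fun m => hfa l m (Dj Y y m) (c / 2 / 2)
      (lt_of_lt_of_le (by linarith) (hl' m))
  obtain ⟨k, hk⟩ := tail_swap h hl y r (half_pos hc2)
  obtain ⟨N, hN⟩ := hr k
  obtain ⟨M0, hM0⟩ := hk N
  have h1 := hN (max N M0) (le_max_left _ _)
  have h2 := hM0 (max N M0) (le_max_right _ _)
  linarith
-- END rt_HL2

end Pool.Agent.Esc
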