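import Pool.Agent.Esc.Cnf
import Pool.Agent.SawM2.UArm3
import Pool.Agent.SawM2.ErgR

/-!
# The conformal weight of an ergodic reversible law
-/

set_option autoImplicit false

namespace Pool.Agent.Esc

open Finset Filter Topology Pool.Agent.Bub4 Pool.Agent.SawM2 Pool.Agent.Taw
open Pool.Agent.SawDiff (Bulk av occ)

variable {S V : Type} [Fintype S] [AddCommGroup V] {Y : Sys S V} {Λ K : ℝ} {g ρ : List S → ℝ}

-- BEGIN ucv
/-- `U = UU Y ρ` normalised: `U [] ≥ ρ [] = 1` (`le_UU`), `UU_right`, `UU_append_le`, `UU_nonneg`;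
`U w ≤ U []` (`UU_append_le w []`) and `U w = 0` if `w` is not self-avoiding (`UU_le`). -/
theorem ucv (h : Erg Y Λ K ρ) : 1 ≤ UU Y ρ [] ∧ Cv Y K fun w => UU Y ρ w / UU Y ρ [] := by
  have hb := h.bulk
  have hK := h.a_le
  have hU1 : 1 ≤ UU Y ρ [] := by
    have := le_UU hb hK ([] : List S)
    rwa [hb.nil] at this
  have hU0 : 0 < UU Y ρ [] := by linarith
  refine ⟨hU1, h.a_ge, h.a_le, fun w => div_nonneg (UU_nonneg hb hK w) hU0.le, fun w => ?_,
    div_self hU0.ne', fun u n => ?_, fun u v => ?_⟩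
  · have hK1 : 1 ≤ K := (h.a_ge 0).trans (h.a_le 0)
    by_cases hw : Y.Saw w
    · rw [Y.sv_of hw, mul_one]
      have h1 := UU_append_le hb hK w []
      rw [List.append_nil] at h1
      exact ((div_le_one hU0).2 h1).trans hK1
    · have h1 := UU_le hb hK w
      rw [Y.sv_of_not hw, mul_zero] at h1
      rw [Y.sv_of_not hw, mul_zero, le_antisymm h1 (UU_nonneg hb hK w), zero_div]
  · have h1 : (Y.E n fun v => UU Y ρ (u ++ v) / UU Y ρ []) =
        Y.E n fun v => UU Y ρ (u ++ v) * (UU Y ρ [])⁻¹ := Y.E_congr fun v _ => div_eq_mul_inv _ _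
    rw [h1, Y.E_mul_right, UU_right hb hK, div_eq_mul_inv]
  · exact div_le_div_of_nonneg_right (UU_append_le hb hK u v) hU0.le
-- END ucv

-- BEGIN avf
/-- `Fq` of `Taw` and `av` of `SawDiff` are the same frequency. -/
theorem avf (w : List S) (n : ℕ) (u : List S) : Fq w n u = av w n u := by
  unfold Fq av
  congr 1
  refine Finset.sum_congr rfl fun i _ => ?_
  by_cases h : w <+: u.drop i
  · have h1 : (u.drop i).take w.length = w := (List.prefix_iff_eq_take.1 h).symm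
    unfold occ ind
    rw [if_pos h, if_pos h1]
  · have h1 : ¬ (u.drop i).take w.length = w := fun h2 =>
      h (List.prefix_iff_eq_take.2 h2.symm)
    unfold occ ind
    rw [if_neg h, if_neg h1]
-- END avf

-- BEGIN ufr
private theorem ufr_one (h : Bulk Y Λ ρ) (w : List S) (n : ℕ) (u : List S) :
    |Fq w n u - Y.z ^ w.length * ρ w| ≤ 1 := by
  have h1 := SawDiff.av_nonneg w n u
  have h2 := SawDiff.av_le_one w n u
  have h3 : 0 ≤ Y.z ^ w.length * ρ w := mul_nonneg (pow_pos Y.z_pos _).le (h.nonneg w)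
  have h4 : Y.z ^ w.length * ρ w ≤ 1 := (single_le_E Y (F := ρ) h.nonneg w).trans (h.mass _).le
  rw [avf, abs_le]
  constructor <;> linarith

/-- Frequencies under `U`: `UU_split` with `ε / 2`: `U = U' + (U - U')`, `U' ≤ C ρ`, the rest has
mass `≤ ε / 2` (right consistent, `|Fq - ..| ≤ 1` because both numbers lie in `[0, 1]`), `U [] ≥ 1`;
`Erg.freq` with `g = |w|`, `p = 0`, `N = n + |w|`, `ε / (2 C + 2)`, one term of the sum over `γ`. -/
theorem ufr (h : Erg Y Λ K ρ) (w : List S) {ε : ℝ} (hε : 0 < ε) : ∀ᶠ n in atTop,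
    (Y.E (n + w.length) fun u => UU Y ρ u / UU Y ρ [] * |Fq w n u - Y.z ^ w.length * ρ w|) ≤ ε := by
  obtain ⟨U', C, hC, h0, h1, h2, h3, h4⟩ := UU_split h.bulk h.a_le (half_pos hε)
  have hU : 1 ≤ UU Y ρ [] := by
    have := le_UU h.bulk h.a_le ([] : List S)
    rwa [h.bulk.nil] at this
  obtain ⟨N, hN⟩ := h.freq w.length (ε := ε / (2 * C + 2)) (by positivity)
  filter_upwards [eventually_ge_atTop N] with n hn
  have h5 := hN n hn 0 (n + w.length) (by omega)
  have hz := pow_pos Y.z_pos w.length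
  have h6 := (single_le_E Y (F := fun γ => (Y.z ^ w.length)⁻¹ * Y.E (n + w.length) fun u =>
      ρ u * |av γ n (u.drop 0) - Y.z ^ w.length * ρ γ|) (fun γ => mul_nonneg (inv_nonneg.2 hz.le)
      (Y.E_nonneg' fun u => mul_nonneg (h.bulk.nonneg u) (abs_nonneg _))) w).trans h5
  rw [← mul_assoc, mul_inv_cancel₀ hz.ne', one_mul] at h6
  simp only [List.drop_zero] at h6
  have h7 : (Y.E (n + w.length) fun u =>
      UU Y ρ u / UU Y ρ [] * |Fq w n u - Y.z ^ w.length * ρ w|) ≤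
      Y.E (n + w.length) fun u => C * (ρ u * |av w n u - Y.z ^ w.length * ρ w|) +
        (UU Y ρ u - U' u) := by
    refine Y.E_mono fun u _ => ?_
    have a1 := ufr_one h.bulk w n u
    have a2 := abs_nonneg (Fq w n u - Y.z ^ w.length * ρ w)
    rw [← avf]
    have a3 : UU Y ρ u / UU Y ρ [] ≤ UU Y ρ u := div_le_self (UU_nonneg h.bulk h.a_le u) hU
    have a4 := mul_le_mul_of_nonneg_right a3 a2
    have a5 := mul_le_mul_of_nonneg_right (h3 u) a2
    have a6 := mul_le_mul_of_nonneg_left a1 (sub_nonneg.2 (h1 u))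
    linarith
  rw [Y.E_fadd, Y.E_mul_left, Y.E_fsub] at h7
  have e1 := UU_right h.bulk h.a_le [] (n + w.length)
  have e2 := h2 [] (n + w.length)
  simp only [List.nil_append] at e1 e2
  rw [e1, e2] at h7
  have h8 : C * (Y.E (n + w.length) fun u => ρ u * |av w n u - Y.z ^ w.length * ρ w|) ≤
      C * (ε / (2 * C + 2)) := mul_le_mul_of_nonneg_left h6 hC
  have h9 : C * (ε / (2 * C + 2)) ≤ ε / 2 := by
    rw [← mul_div_assoc, div_le_div_iff₀ (by positivity) (by norm_num)]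
    nlinarith
  linarith
-- END ufr

-- BEGIN frq
private theorem frq_dif (w : List S) (m : ℕ) {n : ℕ} (hn : 0 < n) (u : List S) :
    |Fq w (m + n) u - Fq w n (u.drop m)| ≤ m / ((m + n : ℕ) : ℝ) := by
  have hn' : (0 : ℝ) < n := by exact_mod_cast hn
  have hm' : (0 : ℝ) ≤ m := Nat.cast_nonneg m
  rw [avf, avf]
  unfold av
  have h1 : ∀ i, occ w i (u.drop m) = occ w (m + i) u := fun i => SawDiff.occ_drop w i m u
  simp only [h1]
  rw [Finset.sum_range_add]
  have hb : ∀ (k : ℕ) (f : ℕ → ℕ), 0 ≤ ∑ x ∈ range k, occ w (f x) u ∧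
      ∑ x ∈ range k, occ w (f x) u ≤ k := by
    intro k f
    refine ⟨Finset.sum_nonneg fun i _ => SawDiff.occ_nonneg _ _ _, ?_⟩
    have := Finset.sum_le_card_nsmul (range k) (fun x => occ w (f x) u) 1
      (fun i _ => SawDiff.occ_le_one _ _ _)
    simpa using this
  obtain ⟨a1, a2⟩ := hb m fun x => x
  obtain ⟨b1, b2⟩ := hb n fun x => m + x
  set A := ∑ x ∈ range m, occ w x u
  set B := ∑ x ∈ range n, occ w (m + x) u
  rw [Nat.cast_add]
  have e : ((m : ℝ) + n)⁻¹ * (A + B) - (n : ℝ)⁻¹ * B = (A * n - B * m) / ((m + n) * n) := by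
    field_simp
    ring
  rw [e, abs_div, abs_of_pos (show (0 : ℝ) < (m + n) * n by positivity),
    div_le_div_iff₀ (by positivity) (by positivity)]
  have h2 : |A * n - B * m| ≤ m * n := by
    rw [abs_le]
    constructor
    · nlinarith [mul_le_mul_of_nonneg_right b2 hm', mul_nonneg a1 hn'.le]
    · nlinarith [mul_le_mul_of_nonneg_right a2 hn'.le, mul_nonneg b1 hm']
  have h3 := mul_le_mul_of_nonneg_right h2 (show (0 : ℝ) ≤ m + n by positivity)
  linarith

/-- Frequencies under `g`: last hypothesis with `ε / 3`, `φ v = |Fq w (n - m) v - z^|w| ρ w|`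
(in `[0, 1]`), `n - m + |w|` letters; `|Fq w n u - Fq w (n - m) (u.drop m)| ≤ 2 m / n`; `ufr`. -/
theorem frq (h : Erg Y Λ K ρ) (hg : Cc Y K g)
    (hd : ∀ ε : ℝ, 0 < ε → ∃ m : ℕ, ∀ (n : ℕ) (φ : List S → ℝ),
      (∀ w, 0 ≤ φ w) → (∀ w, φ w ≤ 1) → (Y.E (m + n) fun v => g v * φ (v.drop m)) ≤
        K * (Y.E n fun v => UU Y ρ v / UU Y ρ [] * φ v) + ε)
    (w : List S) {ε : ℝ} (hε : 0 < ε) : ∀ᶠ n in atTop,
    (Y.E (n + w.length) fun u => g u * |Fq w n u - Y.z ^ w.length * ρ w|) ≤ ε := by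
  have hK : 1 ≤ K := (h.a_ge 0).trans (h.a_le 0)
  have hK0 : 0 < K := by linarith
  obtain ⟨m, hm⟩ := hd (ε / 3) (by positivity)
  obtain ⟨N, hN⟩ := eventually_atTop.1 (ufr h w (ε := ε / (3 * K)) (by positivity))
  have h2 : ∀ᶠ n : ℕ in atTop, (m : ℝ) / n ≤ ε / 3 :=
    (tendsto_const_div_atTop_nhds_zero_nat (m : ℝ)).eventually
      (ge_mem_nhds (show (0 : ℝ) < ε / 3 by positivity))
  filter_upwards [eventually_ge_atTop (m + N + 1), h2] with n hn hn2
  obtain ⟨n', rfl⟩ := Nat.exists_eq_add_of_le (show m ≤ n by omega)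
  have hn0 : 0 < n' := by omega
  have h3 := hm (n' + w.length) (fun v => |Fq w n' v - Y.z ^ w.length * ρ w|)
    (fun v => abs_nonneg _) (fun v => ufr_one h.bulk w n' v)
  have h5 := mul_le_mul_of_nonneg_left (hN n' (by omega)) hK0.le
  have h6 : K * (ε / (3 * K)) = ε / 3 := by field_simp
  have h7 : (Y.E (m + n' + w.length) fun u =>
      g u * |Fq w (m + n') u - Y.z ^ w.length * ρ w|) ≤
      Y.E (m + n' + w.length) fun u => g u * |Fq w n' (u.drop m) - Y.z ^ w.length * ρ w| +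
        m / ((m + n' : ℕ) : ℝ) * g u := by
    refine Y.E_mono fun u _ => ?_
    have b1 := frq_dif w m hn0 u
    have b2 := abs_add_le (Fq w (m + n') u - Fq w n' (u.drop m))
      (Fq w n' (u.drop m) - Y.z ^ w.length * ρ w)
    rw [sub_add_sub_cancel] at b2
    have b3 := mul_le_mul_of_nonneg_left (b2.trans (add_le_add_left b1 _)) (hg.nonneg u)
    refine b3.trans (le_of_eq ?_)
    ring
  have h8 : (Y.E (m + n' + w.length) fun u => g u) = 1 := by
    have := hg.right [] (m + n' + w.length)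
    simp only [List.nil_append] at this
    rw [this, hg.nil]
  rw [Y.E_fadd, Y.E_mul_left, h8, mul_one] at h7
  rw [← Nat.add_assoc] at h3
  linarith
-- END frq

-- BEGIN twr
private theorem twr_bar_bar (Y : Sys S V) (w : List S) : bar Y (bar Y w) = w := by
  unfold bar
  rw [List.map_reverse, List.reverse_reverse, List.map_map]
  have h1 : (Y.neg ∘ Y.neg) = id := by
    funext s
    exact Y.neg_neg s
  rw [h1, List.map_id]

private theorem twr_bar_append (Y : Sys S V) (u w : List S) :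
    bar Y (u ++ w) = bar Y w ++ bar Y u := by
  unfold bar
  rw [List.map_append, List.reverse_append]

/-- Reversible laws: `ρ (bar u ++ v) ≤ ss ρ v ≤ U v` and `ρ (bar u ++ v) = ρ (bar v ++ u) ≤ U u`.
If `U u ≥ κ` then `ρ (bar u ++ v) ≤ κ⁻¹ U u U v ≤ κ⁻¹ (U [])² C² g u g v`; the words with `U u < κ`
have total `∑ u, ρ (bar u) ind (U u < κ) = ∑ u, ρ u ind (U u < κ) ≤ κ * Y.a M ≤ κ K` (right
consistency, `ρ u ≤ U u`, `ρ u = 0` if `u` is not self-avoiding). `κ = ε / K`,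
`B = κ⁻¹ (U [])² C²`. -/
theorem twr (h : Erg Y Λ K ρ) (hr : ∀ u, ρ (bar Y u) = ρ u) (hg : Cc Y K g) {C : ℝ} (hC : 0 < C)
    (hu : ∀ w, UU Y ρ w / UU Y ρ [] ≤ C * g w) {ε : ℝ} (hε : 0 < ε) :
    ∃ B : ℝ, 0 < B ∧ ∀ M : ℕ,
      (Y.E M fun u => Y.E M fun v => max 0 (ρ (bar Y u ++ v) - B * (g u * g v))) ≤ ε := by
  have hb := h.bulk
  have hK := h.a_le
  have hK1 : 1 ≤ K := (h.a_ge 0).trans (hK 0)
  have hK0 : 0 < K := by linarith
  have hU0 : 1 ≤ UU Y ρ [] := by
    have := le_UU hb hK []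
    rwa [hb.nil] at this
  have hU0' : 0 < UU Y ρ [] := by linarith
  have hUg : ∀ w, UU Y ρ w ≤ UU Y ρ [] * C * g w := by
    intro w
    have h1 := hu w
    rw [div_le_iff₀ hU0'] at h1
    linarith
  set κ : ℝ := ε / K with hκ
  have hκ0 : 0 < κ := div_pos hε hK0
  have hUC : 0 < UU Y ρ [] * C := mul_pos hU0' hC
  refine ⟨κ⁻¹ * (UU Y ρ [] * C) ^ 2, by positivity, fun M => ?_⟩
  have hX1 : ∀ u v, ρ (bar Y u ++ v) ≤ UU Y ρ v := fun u v =>
    (le_ss hb (bar Y u) v).trans (ss_le_UU hb hK v)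
  have hX2 : ∀ u v, ρ (bar Y u ++ v) ≤ UU Y ρ u := by
    intro u v
    have h1 := hr (bar Y u ++ v)
    rw [twr_bar_append, twr_bar_bar] at h1
    rw [← h1]
    exact (le_ss hb (bar Y v) u).trans (ss_le_UU hb hK u)
  have hpt : ∀ u v, max 0 (ρ (bar Y u ++ v) - κ⁻¹ * (UU Y ρ [] * C) ^ 2 * (g u * g v)) ≤
      ind (UU Y ρ u < κ) * ρ (bar Y u ++ v) := by
    intro u v
    have hgu := hg.nonneg u
    have hgv := hg.nonneg v
    by_cases hlt : UU Y ρ u < κ
    · rw [ind_of hlt, one_mul]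
      refine max_le (hb.nonneg _) ?_
      have : 0 ≤ κ⁻¹ * (UU Y ρ [] * C) ^ 2 * (g u * g v) := by positivity
      linarith
    · rw [ind_not hlt, zero_mul]
      refine max_le le_rfl ?_
      have h1 : κ ≤ UU Y ρ u := not_lt.mp hlt
      have h2 : ρ (bar Y u ++ v) ≤ κ⁻¹ * (UU Y ρ u * UU Y ρ v) := by
        rw [inv_mul_eq_div, le_div_iff₀ hκ0]
        have h3 := mul_le_mul (hX1 u v) h1 hκ0.le (UU_nonneg hb hK v)
        linarith
      have h4 : UU Y ρ u * UU Y ρ v ≤ (UU Y ρ [] * C * g u) * (UU Y ρ [] * C * g v) :=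
        mul_le_mul (hUg u) (hUg v) (UU_nonneg hb hK v) (by positivity)
      have h5 : κ⁻¹ * (UU Y ρ u * UU Y ρ v) ≤
          κ⁻¹ * ((UU Y ρ [] * C * g u) * (UU Y ρ [] * C * g v)) :=
        mul_le_mul_of_nonneg_left h4 (inv_nonneg.mpr hκ0.le)
      have h6 : κ⁻¹ * ((UU Y ρ [] * C * g u) * (UU Y ρ [] * C * g v)) =
          κ⁻¹ * (UU Y ρ [] * C) ^ 2 * (g u * g v) := by ring
      linarith
  calc (Y.E M fun u => Y.E M fun v =>
        max 0 (ρ (bar Y u ++ v) - κ⁻¹ * (UU Y ρ [] * C) ^ 2 * (g u * g v)))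
      ≤ Y.E M fun u => Y.E M fun v => ind (UU Y ρ u < κ) * ρ (bar Y u ++ v) :=
        Y.E_mono fun u _ => Y.E_mono fun v _ => hpt u v
    _ = Y.E M fun u => ind (UU Y ρ u < κ) * ρ u := by
        refine Y.E_congr fun u _ => ?_
        rw [Y.E_mul_left, hb.right, hr]
    _ ≤ Y.E M fun u => κ * Y.sv u := by
        refine Y.E_mono fun u _ => ?_
        by_cases hlt : UU Y ρ u < κ
        · rw [ind_of hlt, one_mul]
          by_cases hs : Y.Saw u
          · have h1 : Y.sv u = 1 := by simp [Sys.sv, hs]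
            rw [h1, mul_one]
            exact (le_UU hb hK u).trans hlt.le
          · have h1 : Y.sv u = 0 := by simp [Sys.sv, hs]
            have h2 := hb.le u
            rw [h1, mul_zero] at h2
            rw [h1, mul_zero]
            exact h2
        · rw [ind_not hlt, zero_mul]
          exact mul_nonneg hκ0.le (Y.sv_nonneg u)
    _ = κ * Y.E M fun u => Y.sv u := Y.E_mul_left M κ _
    _ ≤ κ * K := mul_le_mul_of_nonneg_left (hK M) hκ0.le
    _ = ε := by
        rw [hκ]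
        field_simp
-- END twr

-- BEGIN xrt
/-- `ucv`, `xcc`, `frq`, `twr`; the other fields from `h.bulk`. -/
theorem xrt (h : Erg Y Λ K ρ) (hr : ∀ u, ρ (bar Y u) = ρ u) :
    ∃ g : List S → ℝ, Cc Y K g ∧ Rt Y g ρ := by
  obtain ⟨_, hcv⟩ := ucv h
  obtain ⟨g, C, hg, hC, hle, hd⟩ := xcc hcv
  refine ⟨g, hg, ?_⟩
  exact
    { nonneg := h.bulk.nonneg
      nil := h.bulk.nil
      right := h.bulk.right
      left := h.bulk.left
      le_sv := ⟨Λ, h.bulk.le⟩
      rev := hr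
      freq := fun w ε hε => frq h hg hd w hε
      two := fun ε hε => twr h hr hg hC hle hε }
-- END xrt

-- BEGIN dsa
/-- Two independent walks are disjoint with positive probability: `∑ u v, ρ (bar u ++ v) = 1`
(`right`, `left`), it vanishes if `bar u ++ v` is not self-avoiding (`le_sv`), `two` with `ε = 1/2`:
`1 ≤ B * PP (sv (bar u ++ v)) + 1/2`. -/
theorem dsa (h : Cc Y K g) (hr : Rt Y g ρ) : ∃ c : ℝ, 0 < c ∧ ∀ M : ℕ,
    c ≤ PP Y g M fun u v => Y.sv (bar Y u ++ v) := by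
  obtain ⟨B, hB, h2⟩ := hr.two (1 / 2) (by norm_num)
  obtain ⟨Λ, hΛ⟩ := hr.le_sv
  refine ⟨1 / (2 * B), by positivity, fun M => ?_⟩
  have hmass : (Y.E M fun u => Y.E M fun v => ρ (bar Y u ++ v)) = 1 := by
    have e1 : (Y.E M fun u => Y.E M fun v => ρ (bar Y u ++ v)) = Y.E M fun u => ρ ([] ++ u) :=
      Y.E_congr fun u _ => by rw [hr.right, hr.rev, List.nil_append]
    rw [e1, hr.right, hr.nil]
  have hpt : ∀ u v : List S, ρ (bar Y u ++ v) ≤ max 0 (ρ (bar Y u ++ v) - B * (g u * g v)) +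
      B * (g u * g v * Y.sv (bar Y u ++ v)) := by
    intro u v
    by_cases hs : Y.Saw (bar Y u ++ v)
    · rw [Y.sv_of hs, mul_one]
      have := le_max_right 0 (ρ (bar Y u ++ v) - B * (g u * g v))
      linarith
    · have h3 := hΛ (bar Y u ++ v)
      rw [Y.sv_of_not hs, mul_zero] at h3
      rw [Y.sv_of_not hs, mul_zero, mul_zero, add_zero]
      exact h3.trans (le_max_left _ _)
  have h4 : (Y.E M fun u => Y.E M fun v => ρ (bar Y u ++ v)) ≤
      (Y.E M fun u => Y.E M fun v => max 0 (ρ (bar Y u ++ v) - B * (g u * g v))) +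
        B * PP Y g M fun u v => Y.sv (bar Y u ++ v) := by
    unfold PP
    rw [← Y.E_mul_left, ← Y.E_fadd]
    refine Y.E_mono fun u _ => ?_
    rw [← Y.E_mul_left, ← Y.E_fadd]
    exact Y.E_mono fun v _ => hpt u v
  rw [hmass] at h4
  have h5 := h2 M
  rw [div_le_iff₀ (by positivity)]
  linarith
-- END dsa

-- BEGIN dsb
theorem dsb_bar (Y : Sys S V) (u v : List S) : Y.sv (bar Y u ++ v) = Y.sv (bar Y v ++ u) := by
  have h1 : ((bar Y v ++ u).map Y.neg).reverse = bar Y u ++ v := by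
    unfold bar
    have h2 : Y.neg ∘ Y.neg = id := funext Y.neg_neg
    rw [List.map_append, List.reverse_append, List.map_reverse, List.reverse_reverse,
      List.map_map, h2, List.map_id]
  rw [← h1, Y.sv_reverse, Y.sv_neg]

/-- For `M ≥ T`: `sv (bar u ++ v) ≤ sv (bar (v.take T) ++ u)` (the word backwards, `sv_bar`),
so `c ≤ Y.E T [g v * Y.E M [sv (bar v ++ u) * g u]]`, and `M → ∞` (`h.conf`, finite sum). -/
theorem dsb (h : Cc Y K g) {c : ℝ} (hc : ∀ M : ℕ, c ≤ PP Y g M fun u v => Y.sv (bar Y u ++ v))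
    (T : ℕ) : c ≤ Y.E T fun v => g v * g (bar Y v) := by
  have hlim : Tendsto (fun M => Y.E T fun v => g v * Y.E M fun u => Y.sv (bar Y v ++ u) * g u)
      atTop (𝓝 (Y.E T fun v => g v * g (bar Y v))) :=
    E_tendsto Y T fun v => (h.conf (bar Y v)).const_mul (g v)
  refine ge_of_tendsto hlim ?_
  filter_upwards [eventually_ge_atTop T] with M hM
  refine (hc M).trans ?_
  obtain ⟨n, rfl⟩ := Nat.exists_eq_add_of_le hM
  have h1 : PP Y g (T + n) (fun u v => Y.sv (bar Y u ++ v)) ≤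
      Y.E (T + n) fun u => g u * Y.E (T + n) fun v => g v * Y.sv (bar Y u ++ v.take T) := by
    refine Y.E_mono fun u _ => ?_
    rw [← Y.E_mul_left]
    refine Y.E_mono fun v _ => ?_
    rw [mul_assoc]
    refine mul_le_mul_of_nonneg_left (mul_le_mul_of_nonneg_left ?_ (h.nonneg v)) (h.nonneg u)
    refine Y.sv_infix (List.IsPrefix.isInfix ?_)
    exact (List.prefix_append_right_inj _).2 (List.take_prefix T v)
  have h2 : (Y.E (T + n) fun u => g u * Y.E (T + n) fun v => g v * Y.sv (bar Y u ++ v.take T)) =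
      Y.E (T + n) fun u => Y.E T fun v => g v * (Y.sv (bar Y v ++ u) * g u) := by
    refine Y.E_congr fun u _ => ?_
    rw [E_take h T n fun v => Y.sv (bar Y u ++ v), ← Y.E_mul_left]
    refine Y.E_congr fun v _ => ?_
    rw [dsb_bar Y u v]
    ring
  have h3 : (Y.E (T + n) fun u => Y.E T fun v => g v * (Y.sv (bar Y v ++ u) * g u)) =
      Y.E T fun v => g v * Y.E (T + n) fun u => Y.sv (bar Y v ++ u) * g u := by
    rw [Y.E_comm]
    exact Y.E_congr fun v _ => Y.E_mul_left _ _ _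
  rw [h2, h3] at h1
  exact h1
-- END dsb

-- BEGIN dsj
/-- `κ = p = c / 2`: `g (bar v) ≤ c / 2 + ind (c / 2 ≤ g (bar v))`, `Y.E T g = 1`. -/
theorem dsj (h : Cc Y K g) (hr : Rt Y g ρ) : ∃ κ : ℝ, 0 < κ ∧ ∃ p : ℝ, 0 < p ∧
    ∀ T, p ≤ Y.E T fun v => g v * ind (κ ≤ g (bar Y v)) := by
  obtain ⟨c, hc, hd⟩ := dsa h hr
  refine ⟨c / 2, half_pos hc, c / 2, half_pos hc, fun T => ?_⟩
  have h1 := dsb h hd T
  have h2 : (Y.E T fun v => g v * g (bar Y v)) ≤
      Y.E T fun v => c / 2 * g v + g v * ind (c / 2 ≤ g (bar Y v)) := by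
    refine Y.E_mono fun v _ => ?_
    have hle : g (bar Y v) ≤ c / 2 + ind (c / 2 ≤ g (bar Y v)) := by
      by_cases hv : c / 2 ≤ g (bar Y v)
      · rw [ind_of hv]
        have := (h.le_sv (bar Y v)).trans (Y.sv_le_one (bar Y v))
        linarith [half_pos hc]
      · rw [ind_not hv]
        push Not at hv
        linarith
    have := mul_le_mul_of_nonneg_left hle (h.nonneg v)
    linarith
  have h3 : Y.E T g = 1 := by
    have := h.right [] T
    rw [h.nil] at this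
    simpa using this
  rw [Y.E_fadd, Y.E_mul_left, show (Y.E T fun v => g v) = Y.E T g from rfl, h3] at h2
  linarith
-- END dsj

end Pool.Agent.Esc
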