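import Pool.Agent.Esc.Ese
import Pool.Agent.Esc.Rtx
import Pool.Agent.Esc.Aer
import Pool.Agent.Esc.Pzy
import Pool.Agent.Esc.End
import Pool.Agent.Bub4.Main
import Pool.Agent.Bub4.VolD

/-!
# No bulk law has symmetric windows of arbitrarily large lengths with positive probability
-/

set_option autoImplicit false

namespace Pool.Agent.Esc

open Finset Filter Topology Pool.Agent.Bub4 Pool.Agent.SawM2 Pool.Agent.Taw
open Pool.Agent.SawDiff (Bulk)

variable {S : Type} [Fintype S] {d : ℕ} {K Λ : ℝ} {ρ : List S → ℝ}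

/-- there is no ergodic reversible bulk law -/
theorem no_rev (Y : Sys S (Zk d)) (hd : d ≤ 4) (hl : Lt Y) (he : Erg Y Λ K ρ)
    (hr : ∀ u, ρ (bar Y u) = ρ u) : False := by
  obtain ⟨g, hg, hR⟩ := xrt he hr
  have hL : HL2 Y g := rt_HL2 hg hl hR
  obtain ⟨κ, hκ, p, hp0, hp⟩ := dsj hg hR
  obtain ⟨C, hC⟩ := EscE.end_e hg hL fun η hη => esb hg hL hκ hp0 hp hη
  have hY : Y.Crit K C := ⟨hg.a_ge, hg.a_le, hC⟩
  exact Sys.volD hd Y hY fun i => Y.M_le_linear hY _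

/-- a bulk law has no symmetric windows of arbitrarily large lengths with positive probability -/
theorem no_sym (Y : Sys S (Zk d)) (hd : d ≤ 4) (hl : Lt Y) (h : Bulk Y Λ ρ)
    (h1 : ∀ n, 1 ≤ Y.a n) (hK : ∀ n, Y.a n ≤ K) {ε : ℝ} (hε : 0 < ε)
    (hS : ∀ (k : ℕ) (δ : ℝ), 0 < δ → ∀ H₀ : ℕ, ∃ H ≥ H₀,
      ε ≤ Y.E (H + k) fun w => ρ w * ind (Sm Y k δ H w)) : False := by
  obtain ⟨Λ', ρ', he, hr⟩ := exists_erg_rev h h1 hK hε hS
  exact no_rev Y hd hl he hr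

end Pool.Agent.Esc
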