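import Pool.Agent.Esc.Gam

/-!
# The density of the limit form (section 4, (4e) - (4g) of the page)
-/

set_option autoImplicit false

namespace Pool.Agent.Esc

open Finset Filter Topology Pool.Agent.Bub4 Pool.Agent.SawM2 Pool.Agent.Taw

variable {S : Type} [Fintype S] {d : ℕ} {Y : Sys S (Zk d)} {K B κ : ℝ} {g : List S → ℝ}
  {γ : List S → List S → ℝ}

-- BEGIN Dn_facts
/-- `0 ≤ Dn ≤ κ⁻²` and `g u * g v * Dn u v = γ u v` (`Gm.dens`: `γ u v = 0` if `g u * g v = 0`). -/
theorem Dn_facts (h : Cc Y K g) (hκ : 0 < κ) (hγ : Gm Y g κ 1 γ) (u v : List S) :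
    0 ≤ Dn g γ u v ∧ κ ^ 2 * Dn g γ u v ≤ 1 ∧ g u * g v * Dn g γ u v = γ u v := by
  have h1 := h.nonneg u
  have h2 := h.nonneg v
  have h3 := hγ.nonneg u v
  have h4 := hγ.dens u v
  have h5 : 0 ≤ g u * g v := mul_nonneg h1 h2
  unfold Dn
  refine ⟨div_nonneg h3 h5, ?_, ?_⟩
  · rw [← mul_div_assoc]; exact div_le_one_of_le₀ h4 h5
  · rcases h5.eq_or_lt with h6 | h6
    · rw [← h6] at h4 ⊢
      have h8 := mul_nonneg (pow_pos hκ 2).le h3
      have h7 : κ ^ 2 * γ u v = 0 := le_antisymm h4 h8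
      rcases mul_eq_zero.1 h7 with h8 | h8
      · exact absurd h8 (pow_pos hκ 2).ne'
      · simp [h8]
    · rw [mul_div_assoc', mul_comm, mul_div_assoc, div_self h6.ne', mul_one]
-- END Dn_facts

-- BEGIN Dn_mart
theorem Dn_mart_lin (Y : Sys S (Zk d)) (g : List S → ℝ) (m : ℕ) (φ ψ : List S → List S → ℝ)
    (c : ℝ) : PP Y g m (fun u v => φ u v + c * ψ u v) = PP Y g m φ + c * PP Y g m ψ := by
  unfold PP
  rw [← Y.E_mul_left, ← Y.E_fadd]
  refine Y.E_congr fun u _ => ?_
  rw [← Y.E_mul_left, ← Y.E_fadd]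
  refine Y.E_congr fun v _ => ?_
  ring

theorem Dn_mart_cross (h : Cc Y K g) (hκ : 0 < κ) (hγ : Gm Y g κ 1 γ) {k m : ℕ} (hkm : k ≤ m) :
    PP Y g m (fun b b' => Dn g γ b b' * Dn g γ (b.take k) (b'.take k)) =
      PP Y g k (fun b b' => Dn g γ b b' * Dn g γ b b') := by
  have h1 : ∀ (j : ℕ) (φ : List S → List S → ℝ), PP Y g j (fun b b' => Dn g γ b b' * φ b b') =
      Y.E j fun b => Y.E j fun b' => γ b b' * φ b b' := by
    intro j φ
    unfold PP
    refine Y.E_congr fun u _ => Y.E_congr fun v _ => ?_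
    rw [← mul_assoc, (Dn_facts h hκ hγ u v).2.2]
  rw [h1, h1]
  exact gam_cyl hγ hkm (fun b b' => Dn g γ b b')

theorem Dn_mart_sq (h : Cc Y K g) (hκ : 0 < κ) (hγ : Gm Y g κ 1 γ) {k m : ℕ} (hkm : k ≤ m) :
    PP Y g m (fun b b' => (Dn g γ b b' - Dn g γ (b.take k) (b'.take k)) ^ 2) =
      PP Y g m (fun b b' => Dn g γ b b' * Dn g γ b b') -
        PP Y g k (fun b b' => Dn g γ b b' * Dn g γ b b') := by
  have h1 : (fun b b' : List S => (Dn g γ b b' - Dn g γ (b.take k) (b'.take k)) ^ 2) =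
      fun b b' => (Dn g γ b b' * Dn g γ b b' +
        (-2) * (Dn g γ b b' * Dn g γ (b.take k) (b'.take k))) +
        1 * (Dn g γ (b.take k) (b'.take k) * Dn g γ (b.take k) (b'.take k)) := by
    funext b b'
    ring
  rw [h1, Dn_mart_lin, Dn_mart_lin, Dn_mart_cross h hκ hγ hkm,
    PP_take h hkm (fun b b' => Dn g γ b b' * Dn g γ b b')]
  ring

/-- (4e). `PP m (D_m * D_k) = PP k (D_k ^ 2)` for `k ≤ m` (`gam_cyl`), so
`PP m ((D_m - D_k) ^ 2) = PP m (D_m ^ 2) - PP k (D_k ^ 2)`; `PP m (D_m ^ 2)` increases and is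
`≤ κ⁻⁴`; Cauchy-Schwarz (`PP m` is an expectation, `PP_const`). -/
theorem Dn_mart (h : Cc Y K g) (hκ : 0 < κ) (hγ : Gm Y g κ 1 γ) {ε : ℝ} (hε : 0 < ε) :
    ∃ k : ℕ, ∀ m ≥ k,
      PP Y g m (fun b b' => |Dn g γ b b' - Dn g γ (b.take k) (b'.take k)|) ≤ ε := by
  set q : ℕ → ℝ := fun j => PP Y g j (fun b b' => Dn g γ b b' * Dn g γ b b') with hq
  have hb : ∀ j, q j ≤ (κ ^ 2)⁻¹ * (κ ^ 2)⁻¹ := by
    intro j
    have h1 : q j ≤ PP Y g j (fun _ _ => (κ ^ 2)⁻¹ * (κ ^ 2)⁻¹) := by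
      refine PP_mono h j fun u v _ _ _ _ => ?_
      have h2 := Dn_facts h hκ hγ u v
      have h3 : Dn g γ u v ≤ (κ ^ 2)⁻¹ := by
        rw [← one_div, le_div_iff₀ (by positivity), mul_comm]
        exact h2.2.1
      exact mul_le_mul h3 h3 h2.1 (by positivity)
    rwa [PP_const h] at h1
  have hbdd : BddAbove (Set.range q) := ⟨_, by rintro _ ⟨j, rfl⟩; exact hb j⟩
  obtain ⟨k, hk⟩ : ∃ k, (⨆ j, q j) - ε ^ 2 < q k :=
    exists_lt_of_lt_ciSup (by have : 0 < ε ^ 2 := by positivity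
                              linarith)
  refine ⟨k, fun m hm => ?_⟩
  have h1 : q m - q k ≤ ε ^ 2 := by
    have h2 : q m ≤ ⨆ j, q j := le_ciSup hbdd m
    linarith
  have h2 : PP Y g m (fun b b' => |Dn g γ b b' - Dn g γ (b.take k) (b'.take k)|) ≤
      PP Y g m (fun b b' => ε / 2 + (2 * ε)⁻¹ *
        (Dn g γ b b' - Dn g γ (b.take k) (b'.take k)) ^ 2) := by
    refine PP_mono h m fun u v _ _ _ _ => ?_
    set x := Dn g γ u v - Dn g γ (u.take k) (v.take k)
    have h3 : (2 * ε)⁻¹ * (2 * ε) = 1 := inv_mul_cancel₀ (by positivity)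
    have h4 : 0 ≤ (2 * ε)⁻¹ := by positivity
    have h5 : 0 ≤ (2 * ε)⁻¹ * (|x| - ε) ^ 2 := mul_nonneg h4 (sq_nonneg _)
    have h6 : (2 * ε)⁻¹ * (|x| - ε) ^ 2 = (2 * ε)⁻¹ * x ^ 2 - |x| * ((2 * ε)⁻¹ * (2 * ε)) +
        ((2 * ε)⁻¹ * (2 * ε)) * (ε / 2) := by
      rw [← sq_abs x]
      ring
    rw [h3] at h6
    linarith
  refine h2.trans ?_
  rw [Dn_mart_lin, PP_const h, Dn_mart_sq h hκ hγ hm]
  have h3 : (2 * ε)⁻¹ * (q m - q k) ≤ (2 * ε)⁻¹ * ε ^ 2 :=
    mul_le_mul_of_nonneg_left h1 (by positivity)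
  have h4 : (2 * ε)⁻¹ * ε ^ 2 = ε / 2 := by
    field_simp
  linarith
-- END Dn_mart

-- BEGIN PP_shift
private theorem PP_shift_one (h : Cc Y K g) (i m M : ℕ) (hi : i + m ≤ M) (ψ : List S → ℝ) :
    (Y.E M fun u => g u * ψ (wn i m u)) = Y.E m fun b => (Y.E i fun u => g (u ++ b)) * ψ b := by
  obtain ⟨r, rfl⟩ := Nat.exists_eq_add_of_le hi
  have h1 : (Y.E (i + m + r) fun w => g w * (fun w => ψ (wn i m w)) (w.take (i + m))) =
      Y.E (i + m) fun w => g w * ψ (wn i m w) := E_take h (i + m) r (fun w => ψ (wn i m w))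
  have h2 : ∀ w : List S, wn i m (w.take (i + m)) = wn i m w := by
    intro w
    unfold wn
    rw [List.drop_take, List.take_take]
    congr 1
    omega
  simp only [h2] at h1
  rw [h1, Y.E_add, Y.E_comm]
  refine Y.E_congr fun b hb => ?_
  rw [← Y.E_mul_right]
  refine Y.E_congr fun u hu => ?_
  congr 2
  unfold wn
  rw [← hu, List.drop_left, ← hb, List.take_length]

/-- the law of the windows is `≤ K` times the law of the walk (`E_shift`, in both arguments) -/
theorem PP_shift (h : Cc Y K g) (i j m M : ℕ) (hi : i + m ≤ M) (hj : j + m ≤ M)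
    {φ : List S → List S → ℝ} (hφ : ∀ u v, 0 ≤ φ u v) :
    PP Y g M (fun u v => φ (wn i m u) (wn j m v)) ≤ K ^ 2 * PP Y g m φ := by
  have h1 : PP Y g M (fun u v => φ (wn i m u) (wn j m v)) =
      Y.E m fun b => (Y.E i fun u => g (u ++ b)) * Y.E m fun b' => (Y.E j fun v => g (v ++ b')) *
        φ b b' := by
    unfold PP
    rw [← PP_shift_one h i m M hi
      (fun b => Y.E m fun b' => (Y.E j fun v => g (v ++ b')) * φ b b')]
    refine Y.E_congr fun u _ => ?_
    dsimp only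
    rw [← PP_shift_one h j m M hj (fun b' => φ (wn i m u) b'), ← Y.E_mul_left]
    exact Y.E_congr fun v _ => by ring
  rw [h1]
  unfold PP
  rw [← Y.E_mul_left]
  refine Y.E_mono fun b _ => ?_
  rw [← Y.E_mul_left, ← Y.E_mul_left]
  refine Y.E_mono fun b' _ => ?_
  have h2 := (E_shift h i b).2
  have h3 := (E_shift h j b').2
  have h4 : 0 ≤ Y.E i fun u => g (u ++ b) := Y.E_nonneg' fun u => h.nonneg _
  have h5 : 0 ≤ Y.E j fun u => g (u ++ b') := Y.E_nonneg' fun u => h.nonneg _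
  have h6 := mul_le_mul h2 h3 h5 (h4.trans h2)
  have h7 := mul_le_mul_of_nonneg_right h6 (hφ b b')
  calc (Y.E i fun u => g (u ++ b)) * ((Y.E j fun v => g (v ++ b')) * φ b b')
      = (Y.E i fun u => g (u ++ b)) * (Y.E j fun v => g (v ++ b')) * φ b b' := by ring
    _ ≤ K * g b * (K * g b') * φ b b' := h7
    _ = K ^ 2 * (g b * g b' * φ b b') := by ring
-- END PP_shift

-- BEGIN PP_wn
private theorem PP_wn_one (h : Cc Y K g) (i m M : ℕ) (hi : i + m ≤ M) (ψ : List S → ℝ) :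
    (Y.E M fun u => g u * ψ (wn i m u)) = Y.E m fun b => (Y.E i fun u => g (u ++ b)) * ψ b := by
  obtain ⟨r, rfl⟩ := Nat.exists_eq_add_of_le hi
  have h1 : (Y.E (i + m + r) fun w => g w * (fun w => ψ (wn i m w)) (w.take (i + m))) =
      Y.E (i + m) fun w => g w * ψ (wn i m w) := E_take h (i + m) r (fun w => ψ (wn i m w))
  have h2 : ∀ w : List S, wn i m (w.take (i + m)) = wn i m w := by
    intro w
    unfold wn
    rw [List.drop_take, List.take_take]
    congr 1
    omega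
  simp only [h2] at h1
  rw [h1, Y.E_add, Y.E_comm]
  refine Y.E_congr fun b hb => ?_
  rw [← Y.E_mul_right]
  refine Y.E_congr fun u hu => ?_
  congr 2
  unfold wn
  rw [← hu, List.drop_left, ← hb, List.take_length]

/-- the law of the windows: `Y.E (i + m) (g w * φ (w.drop i)) = Y.E m (fun b => (Y.E i fun u =>
g (u ++ b)) * φ b)`. -/
theorem PP_wn (h : Cc Y K g) (i j m M : ℕ) (hi : i + m ≤ M) (hj : j + m ≤ M)
    (φ : List S → List S → ℝ) :
    PP Y g M (fun u v => φ (wn i m u) (wn j m v)) =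
      Y.E m fun b => Y.E m fun b' => (Y.E i fun u => g (u ++ b)) * (Y.E j fun v => g (v ++ b')) *
        φ b b' := by
  have h1 : PP Y g M (fun u v => φ (wn i m u) (wn j m v)) =
      Y.E m fun b => (Y.E i fun u => g (u ++ b)) * Y.E m fun b' => (Y.E j fun v => g (v ++ b')) *
        φ b b' := by
    unfold PP
    rw [← PP_wn_one h i m M hi
      (fun b => Y.E m fun b' => (Y.E j fun v => g (v ++ b')) * φ b b')]
    refine Y.E_congr fun u _ => ?_
    dsimp only
    rw [← PP_wn_one h j m M hj (fun b' => φ (wn i m u) b'), ← Y.E_mul_left]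
    exact Y.E_congr fun v _ => by ring
  rw [h1]
  refine Y.E_congr fun b _ => ?_
  rw [← Y.E_mul_left]
  exact Y.E_congr fun b' _ => by ring
-- END PP_wn

-- BEGIN shift_def
/-- `Y.E i (fun u => sv (u ++ b)) * g b - Y.E i (fun u => g (u ++ b))` is nonnegative and its
sum over `b` of length `m` is `Y.E i (fun u => et Y g u m)`, which tends to `0` as `m → ∞`. -/
theorem shift_def (h : Cc Y K g) (i : ℕ) {ε : ℝ} (hε : 0 < ε) :
    (∀ b, (Y.E i fun u => g (u ++ b)) ≤ (Y.E i fun u => Y.sv (u ++ b)) * g b) ∧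
    ∀ᶠ m in atTop, (Y.E m fun b => (Y.E i fun u => Y.sv (u ++ b)) * g b -
      Y.E i fun u => g (u ++ b)) ≤ ε := by
  refine ⟨fun b => ?_, ?_⟩
  · rw [← Y.E_mul_right]
    exact Y.E_mono fun u _ => g_append_le h u b
  · have h1 : ∀ m, (Y.E m fun b => (Y.E i fun u => Y.sv (u ++ b)) * g b -
        Y.E i fun u => g (u ++ b)) = Y.E i fun u => et Y g u m := by
      intro m
      have h2 : (Y.E i fun u => et Y g u m) =
          Y.E i fun u => Y.E m fun v => Y.sv (u ++ v) * g v - g (u ++ v) :=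
        Y.E_congr fun u _ => et_eq h u m
      rw [h2, Y.E_comm]
      refine Y.E_congr fun b _ => ?_
      rw [Y.E_fsub, Y.E_mul_right]
    have h3 : Tendsto (fun m => Y.E i fun u => et Y g u m) atTop (𝓝 0) := by
      simp only [Y.E_eq]
      have h4 : Tendsto (fun m => ∑ w : Fin i → S, Y.z ^ i * et Y g (List.ofFn w) m) atTop
          (𝓝 (∑ _w : Fin i → S, Y.z ^ i * (0 : ℝ))) :=
        tendsto_finsetSum _ fun w _ => (et_facts h (List.ofFn w)).2.2.const_mul _
      simp only [mul_zero, Finset.sum_const_zero] at h4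
      exact h4
    have h5 := h3.eventually (eventually_le_nhds hε)
    filter_upwards [h5] with m hm
    rw [h1]
    exact hm
-- END shift_def

-- BEGIN Dn_shift
private theorem Dn_shift_le (h : Cc Y K g) (i : ℕ) (b : List S) :
    0 ≤ (Y.E i fun u => Y.sv (u ++ b)) ∧ (Y.E i fun u => Y.sv (u ++ b)) ≤ K := by
  refine ⟨Y.E_nonneg' fun u => Y.sv_nonneg _, ?_⟩
  calc (Y.E i fun u => Y.sv (u ++ b)) ≤ Y.E i fun u => Y.sv u :=
        Y.E_mono fun u _ => Y.sv_append_left u b
    _ = Y.a i := rfl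
    _ ≤ K := h.a_le i

/-- (4f). `1 = Y.E i (u ↦ Y.E j (v ↦ γ u v)) ≤ ∑ u v b b' sv (u ++ b) sv (v ++ b') γ b b'`
(`Gm.right`, `Gm.symm`, `Gm.nil`, `Gm.sub` with `q = 1`), `γ b b' = g b g b' D b b'`, `PP_wn`,
`shift_def`, `D ≤ κ⁻²`, `Y.E i (sv (u ++ b)) ≤ K` (`E_left`, `fx ≤ K`). -/
theorem Dn_shift (h : Cc Y K g) (hκ : 0 < κ) (hγ : Gm Y g κ 1 γ) (i j : ℕ) {ε : ℝ}
    (hε : 0 < ε) : ∀ᶠ m in atTop, ∀ M, i + m ≤ M → j + m ≤ M →
      1 - ε ≤ PP Y g M (fun u v => Dn g γ (wn i m u) (wn j m v)) := by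
  have hK : 1 ≤ K := one_le_K h
  have hK0 : 0 < K := by linarith
  have hκ2 : 0 < κ ^ 2 := pow_pos hκ 2
  have hε' : 0 < ε * κ ^ 2 / (2 * K) := by positivity
  filter_upwards [(shift_def h i hε').2, (shift_def h j hε').2] with m hm1 hm2 M hi hj
  rw [PP_wn h i j m M hi hj]
  set e := ε * κ ^ 2 / (2 * K) with he
  have hfi := (shift_def h i hε').1
  have hfj := (shift_def h j hε').1
  -- total mass one
  have h1 : (1 : ℝ) = Y.E i fun u => Y.E j fun v => γ u v := by
    have h2 : ∀ u : List S, (Y.E j fun v => γ u v) = γ [] u := by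
      intro u
      have h3 := hγ.right u [] j
      simp only [List.nil_append] at h3
      rw [h3, hγ.symm]
    simp only [h2]
    have h4 := hγ.right [] [] i
    simp only [List.nil_append] at h4
    rw [h4, hγ.nil]
  have h5 : (1 : ℝ) ≤ Y.E m fun b => Y.E m fun b' =>
      (Y.E i fun u => Y.sv (u ++ b)) * (Y.E j fun v => Y.sv (v ++ b')) * γ b b' := by
    calc (1 : ℝ) = Y.E i fun u => Y.E j fun v => γ u v := h1
      _ ≤ Y.E i fun u => Y.E j fun v => Y.E m fun b => Y.E m fun b' =>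
          Y.sv (u ++ b) * Y.sv (v ++ b') * γ b b' := by
          refine Y.E_mono fun u _ => Y.E_mono fun v _ => ?_
          have h6 := hγ.sub u v m
          rwa [one_pow, one_mul] at h6
      _ = Y.E i fun u => Y.E m fun b => Y.E j fun v => Y.E m fun b' =>
          Y.sv (u ++ b) * Y.sv (v ++ b') * γ b b' := by
          refine Y.E_congr fun u _ => ?_
          rw [Y.E_comm]
      _ = Y.E m fun b => Y.E i fun u => Y.E j fun v => Y.E m fun b' =>
          Y.sv (u ++ b) * Y.sv (v ++ b') * γ b b' := Y.E_comm _ _ _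
      _ = Y.E m fun b => Y.E i fun u => Y.E m fun b' => Y.E j fun v =>
          Y.sv (u ++ b) * Y.sv (v ++ b') * γ b b' := by
          refine Y.E_congr fun b _ => Y.E_congr fun u _ => ?_
          rw [Y.E_comm]
      _ = Y.E m fun b => Y.E m fun b' => Y.E i fun u => Y.E j fun v =>
          Y.sv (u ++ b) * Y.sv (v ++ b') * γ b b' := by
          refine Y.E_congr fun b _ => ?_
          rw [Y.E_comm]
      _ = _ := by
          refine Y.E_congr fun b _ => Y.E_congr fun b' _ => ?_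
          rw [← Y.E_mul_right, ← Y.E_mul_right]
          refine Y.E_congr fun u _ => ?_
          rw [Y.E_mul_right, Y.E_mul_left]
  -- comparison of the terms
  have h7 : ∀ b b' : List S,
      (Y.E i fun u => Y.sv (u ++ b)) * (Y.E j fun v => Y.sv (v ++ b')) * γ b b' ≤
      (Y.E i fun u => g (u ++ b)) * (Y.E j fun v => g (v ++ b')) * Dn g γ b b' +
      (κ ^ 2)⁻¹ * (((Y.E i fun u => Y.sv (u ++ b)) * g b - Y.E i fun u => g (u ++ b)) *
        (K * g b') + K * g b * ((Y.E j fun v => Y.sv (v ++ b')) * g b' -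
          Y.E j fun v => g (v ++ b'))) := by
    intro b b'
    obtain ⟨hD0, hD1, hD2⟩ := Dn_facts h hκ hγ b b'
    obtain ⟨ha0, ha1⟩ := Dn_shift_le h i b
    obtain ⟨hb0, hb1⟩ := Dn_shift_le h j b'
    have hga := hfi b
    have hgb := hfj b'
    have hG0 : 0 ≤ Y.E i fun u => g (u ++ b) := Y.E_nonneg' fun u => h.nonneg _
    have hG1 : 0 ≤ Y.E j fun u => g (u ++ b') := Y.E_nonneg' fun u => h.nonneg _
    have hgb0 := h.nonneg b
    have hgb1 := h.nonneg b'
    set A := Y.E i fun u => Y.sv (u ++ b)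
    set A' := Y.E j fun v => Y.sv (v ++ b')
    set G := Y.E i fun u => g (u ++ b)
    set G' := Y.E j fun v => g (v ++ b')
    have h8 : A * A' * γ b b' - G * G' * Dn g γ b b' =
        Dn g γ b b' * ((A * g b - G) * (A' * g b') + G * (A' * g b' - G')) := by
      rw [← hD2]; ring
    have h9 : Dn g γ b b' ≤ (κ ^ 2)⁻¹ := by
      rw [← one_div, le_div_iff₀ hκ2]
      linarith [mul_comm (κ ^ 2) (Dn g γ b b')]
    have h10 : 0 ≤ A * g b - G := by linarith
    have h11 : 0 ≤ A' * g b' - G' := by linarith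
    have h12 : (A * g b - G) * (A' * g b') ≤ (A * g b - G) * (K * g b') :=
      mul_le_mul_of_nonneg_left (mul_le_mul_of_nonneg_right hb1 hgb1) h10
    have h13 : G ≤ K * g b := hga.trans (mul_le_mul_of_nonneg_right ha1 hgb0)
    have h14 : G * (A' * g b' - G') ≤ K * g b * (A' * g b' - G') :=
      mul_le_mul_of_nonneg_right h13 h11
    have h15 : 0 ≤ (A * g b - G) * (A' * g b') + G * (A' * g b' - G') :=
      add_nonneg (mul_nonneg h10 (mul_nonneg hb0 hgb1)) (mul_nonneg hG0 h11)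
    have h16 := mul_le_mul h9 (add_le_add h12 h14) h15 (inv_pos.2 hκ2).le
    linarith
  have h17 : (Y.E m fun b => Y.E m fun b' =>
      (Y.E i fun u => g (u ++ b)) * (Y.E j fun v => g (v ++ b')) * Dn g γ b b' +
      (κ ^ 2)⁻¹ * (((Y.E i fun u => Y.sv (u ++ b)) * g b - Y.E i fun u => g (u ++ b)) *
        (K * g b') + K * g b * ((Y.E j fun v => Y.sv (v ++ b')) * g b' -
          Y.E j fun v => g (v ++ b')))) =
      (Y.E m fun b => Y.E m fun b' =>
        (Y.E i fun u => g (u ++ b)) * (Y.E j fun v => g (v ++ b')) * Dn g γ b b') +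
      (κ ^ 2)⁻¹ * ((Y.E m fun b => (Y.E i fun u => Y.sv (u ++ b)) * g b -
        Y.E i fun u => g (u ++ b)) * K + K * (Y.E m fun b => (Y.E j fun u => Y.sv (u ++ b)) * g b -
        Y.E j fun u => g (u ++ b))) := by
    have hg : Y.E m (fun b' => g b') = 1 := E_g h m
    simp only [Y.E_fadd, Y.E_mul_left, Y.E_mul_right, hg, mul_one]
  have h18 := h5.trans (Y.E_mono fun b _ => Y.E_mono fun b' _ => h7 b b')
  rw [h17] at h18
  have h19 : (κ ^ 2)⁻¹ * ((Y.E m fun b => (Y.E i fun u => Y.sv (u ++ b)) * g b -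
        Y.E i fun u => g (u ++ b)) * K + K * (Y.E m fun b => (Y.E j fun u => Y.sv (u ++ b)) * g b -
        Y.E j fun u => g (u ++ b))) ≤ ε := by
    calc _ ≤ (κ ^ 2)⁻¹ * (e * K + K * e) := by
          refine mul_le_mul_of_nonneg_left (add_le_add ?_ ?_) (inv_pos.2 hκ2).le
          · exact mul_le_mul_of_nonneg_right hm1 hK0.le
          · exact mul_le_mul_of_nonneg_left hm2 hK0.le
      _ = ε := by rw [he]; field_simp; ring
  linarith
-- END Dn_shift

/-- the average of `D_k` over the windows at the places `i, j < n` -/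
noncomputable def Sn (g : List S → ℝ) (γ : List S → List S → ℝ) (k n : ℕ) (u v : List S) : ℝ :=
  ((n : ℝ) ^ 2)⁻¹ * ∑ i ∈ range n, ∑ j ∈ range n, Dn g γ (wn i k u) (wn j k v)

-- BEGIN Sn_diff
private theorem Sn_diff_lin (M n : ℕ) (c : ℝ) (f : ℕ → ℕ → List S → List S → ℝ) :
    PP Y g M (fun u v => c * ∑ i ∈ range n, ∑ j ∈ range n, f i j u v) =
      c * ∑ i ∈ range n, ∑ j ∈ range n, PP Y g M (f i j) := by
  unfold PP
  have h1 : ∀ u : List S,
      (Y.E M fun v => g u * g v * (c * ∑ i ∈ range n, ∑ j ∈ range n, f i j u v)) =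
      c * ∑ i ∈ range n, ∑ j ∈ range n, Y.E M fun v => g u * g v * f i j u v := by
    intro u
    simp only [← Y.E_fsum, ← Y.E_mul_left]
    refine Y.E_congr fun v _ => ?_
    simp only [Finset.mul_sum]
    exact Finset.sum_congr rfl fun i _ => Finset.sum_congr rfl fun j _ => by ring
  simp only [h1, Y.E_mul_left, Y.E_fsum]

/-- `Dn_mart` and `PP_shift` for `φ b b' = |D_m b b' - D_k (b.take k) (b'.take k)|`,
`(wn i m u).take k = wn i k u`. -/
theorem Sn_diff (h : Cc Y K g) {k m n M : ℕ} {ε : ℝ} (hkm : k ≤ m) (hn : 1 ≤ n) (hM : n + m ≤ M)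
    (hD : PP Y g m (fun b b' => |Dn g γ b b' - Dn g γ (b.take k) (b'.take k)|) ≤ ε) :
    PP Y g M (fun u v => |Sn g γ m n u v - Sn g γ k n u v|) ≤ K ^ 2 * ε := by
  have hn0 : (0 : ℝ) < n := by exact_mod_cast hn
  have hc : (0 : ℝ) ≤ ((n : ℝ) ^ 2)⁻¹ := by positivity
  have h0 : ∀ (i : ℕ) (u : List S), (wn i m u).take k = wn i k u := by
    intro i u
    unfold wn
    rw [List.take_take, min_eq_left hkm]
  calc PP Y g M (fun u v => |Sn g γ m n u v - Sn g γ k n u v|)
      ≤ PP Y g M (fun u v => ((n : ℝ) ^ 2)⁻¹ * ∑ i ∈ range n, ∑ j ∈ range n,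
          |Dn g γ (wn i m u) (wn j m v) - Dn g γ ((wn i m u).take k) ((wn j m v).take k)|) := by
        refine PP_mono h M fun u v _ _ _ _ => ?_
        unfold Sn
        rw [← mul_sub, abs_mul, abs_of_nonneg hc, ← Finset.sum_sub_distrib]
        refine mul_le_mul_of_nonneg_left ?_ hc
        refine (Finset.abs_sum_le_sum_abs _ _).trans (Finset.sum_le_sum fun i _ => ?_)
        rw [← Finset.sum_sub_distrib]
        refine (Finset.abs_sum_le_sum_abs _ _).trans (Finset.sum_le_sum fun j _ => ?_)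
        rw [h0, h0]
    _ = ((n : ℝ) ^ 2)⁻¹ * ∑ i ∈ range n, ∑ j ∈ range n, PP Y g M (fun u v =>
          |Dn g γ (wn i m u) (wn j m v) - Dn g γ ((wn i m u).take k) ((wn j m v).take k)|) :=
        Sn_diff_lin M n _ _
    _ ≤ ((n : ℝ) ^ 2)⁻¹ * ∑ i ∈ range n, ∑ j ∈ range n, K ^ 2 * ε := by
        refine mul_le_mul_of_nonneg_left ?_ hc
        refine Finset.sum_le_sum fun i hi => Finset.sum_le_sum fun j hj => ?_
        have hi' := Finset.mem_range.1 hi
        have hj' := Finset.mem_range.1 hj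
        refine (PP_shift h i j m M (by omega) (by omega)
          (φ := fun b b' => |Dn g γ b b' - Dn g γ (b.take k) (b'.take k)|)
          fun _ _ => abs_nonneg _).trans ?_
        exact mul_le_mul_of_nonneg_left hD (sq_nonneg K)
    _ = K ^ 2 * ε := by
        simp only [Finset.sum_const, Finset.card_range, nsmul_eq_mul]
        field_simp
-- END Sn_diff

-- BEGIN Sn_ge
private theorem Sn_ge_lin (M n : ℕ) (c : ℝ) (f : ℕ → ℕ → List S → List S → ℝ) :
    PP Y g M (fun u v => c * ∑ i ∈ range n, ∑ j ∈ range n, f i j u v) =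
      c * ∑ i ∈ range n, ∑ j ∈ range n, PP Y g M (f i j) := by
  unfold PP
  have h1 : ∀ u : List S,
      (Y.E M fun v => g u * g v * (c * ∑ i ∈ range n, ∑ j ∈ range n, f i j u v)) =
      c * ∑ i ∈ range n, ∑ j ∈ range n, Y.E M fun v => g u * g v * f i j u v := by
    intro u
    simp only [← Y.E_fsum, ← Y.E_mul_left]
    refine Y.E_congr fun v _ => ?_
    simp only [Finset.mul_sum]
    exact Finset.sum_congr rfl fun i _ => Finset.sum_congr rfl fun j _ => by ring
  simp only [h1, Y.E_mul_left, Y.E_fsum]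

omit [Fintype S] in
private theorem Sn_ge_take (g : List S → ℝ) (γ : List S → List S → ℝ) {k n N : ℕ}
    (hN : n + k ≤ N) (u v : List S) : Sn g γ k n (u.take N) (v.take N) = Sn g γ k n u v := by
  have h1 : ∀ i < n, ∀ w : List S, wn i k (w.take N) = wn i k w := by
    intro i hi w
    unfold wn
    rw [List.drop_take, List.take_take]
    congr 1
    omega
  unfold Sn
  congr 1
  refine Finset.sum_congr rfl fun i hi => Finset.sum_congr rfl fun j hj => ?_
  rw [h1 i (Finset.mem_range.1 hi), h1 j (Finset.mem_range.1 hj)]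

/-- `Dn_shift` for all `i, j < n` (one large `m`), `Sn_diff`, `PP_take` (the function depends on
the first `n + k` letters only); all `ε' > 0`. -/
theorem Sn_ge (h : Cc Y K g) (hκ : 0 < κ) (hγ : Gm Y g κ 1 γ) {k n M : ℕ} {ε : ℝ} (hn : 1 ≤ n)
    (hM : n + k ≤ M)
    (hD : ∀ m ≥ k, PP Y g m
      (fun b b' => |Dn g γ b b' - Dn g γ (b.take k) (b'.take k)|) ≤ ε) :
    1 - K ^ 2 * ε ≤ PP Y g M (fun u v => Sn g γ k n u v) := by
  have hn0 : (0 : ℝ) < n := by exact_mod_cast hn
  have hc : (0 : ℝ) ≤ ((n : ℝ) ^ 2)⁻¹ := by positivity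
  have hPP : ∀ N, n + k ≤ N → PP Y g N (fun u v => Sn g γ k n u v) =
      PP Y g (n + k) (fun u v => Sn g γ k n u v) := by
    intro N hN
    rw [← PP_take h hN (fun u v => Sn g γ k n u v)]
    simp only [Sn_ge_take g γ le_rfl]
  refine le_of_forall_pos_le_add fun ε' hε' => ?_
  have h1 : ∀ᶠ m in atTop, ∀ i ∈ range n, ∀ j ∈ range n, ∀ M, i + m ≤ M → j + m ≤ M →
      1 - ε' ≤ PP Y g M (fun u v => Dn g γ (wn i m u) (wn j m v)) := by
    rw [Filter.eventually_all_finset]
    intro i _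
    rw [Filter.eventually_all_finset]
    intro j _
    exact Dn_shift h hκ hγ i j hε'
  obtain ⟨m, hm1, hm2⟩ := (h1.and (eventually_ge_atTop k)).exists
  have h2 := Sn_diff h hm2 hn (le_refl (n + m)) (hD m hm2)
  have h3 : 1 - ε' ≤ PP Y g (n + m) (fun u v => Sn g γ m n u v) := by
    unfold Sn
    rw [Sn_ge_lin]
    calc 1 - ε' = ((n : ℝ) ^ 2)⁻¹ * ∑ i ∈ range n, ∑ j ∈ range n, (1 - ε') := by
          simp only [Finset.sum_const, Finset.card_range, nsmul_eq_mul]
          field_simp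
      _ ≤ _ := by
          refine mul_le_mul_of_nonneg_left ?_ hc
          refine Finset.sum_le_sum fun i hi => Finset.sum_le_sum fun j hj => ?_
          have hi' := Finset.mem_range.1 hi
          have hj' := Finset.mem_range.1 hj
          exact hm1 i hi j hj (n + m) (by omega) (by omega)
  have h4 : PP Y g (n + m) (fun u v => Sn g γ m n u v) ≤
      PP Y g (n + m) (fun u v => Sn g γ k n u v) +
        PP Y g (n + m) (fun u v => |Sn g γ m n u v - Sn g γ k n u v|) := by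
    have h5 : PP Y g (n + m) (fun u v => Sn g γ k n u v) +
        PP Y g (n + m) (fun u v => |Sn g γ m n u v - Sn g γ k n u v|) =
        PP Y g (n + m) (fun u v => Sn g γ k n u v + |Sn g γ m n u v - Sn g γ k n u v|) := by
      unfold PP
      simp only [mul_add, Y.E_fadd]
    rw [h5]
    refine PP_mono h _ fun u v _ _ _ _ => ?_
    linarith [le_abs_self (Sn g γ m n u v - Sn g γ k n u v)]
  rw [hPP M hM, ← hPP (n + m) (by omega)]
  linarith
-- END Sn_ge

/-- the form `∑ D_k (w, w') F_w F'_w'` on functions of the words of length `k` -/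
noncomputable def Bf (S : Type) [Fintype S] (g : List S → ℝ) (γ : List S → List S → ℝ) (k : ℕ)
    (F F' : List S → ℝ) : ℝ :=
  ∑ w : Fin k → S, ∑ w' : Fin k → S, Dn g γ (List.ofFn w) (List.ofFn w') *
    F (List.ofFn w) * F' (List.ofFn w')

-- BEGIN Bf_psd
/-- `Gm.psd` with `c w = F w / (z ^ k * g w)` (`0` if `g w = 0`; then `Dn = 0` too). -/
theorem Bf_psd (h : Cc Y K g) (hκ : 0 < κ) (hγ : Gm Y g κ 1 γ) (k : ℕ) (F : List S → ℝ) :
    0 ≤ Bf S g γ k F F := by
  have h1 := hγ.psd k (fun w => F w / (Y.z ^ k * g w))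
  have hz : Y.z ^ k ≠ 0 := (pow_pos Y.z_pos k).ne'
  have h2 : (Y.E k fun u => Y.E k fun v =>
      F u / (Y.z ^ k * g u) * (F v / (Y.z ^ k * g v)) * γ u v) = Bf S g γ k F F := by
    unfold Bf
    rw [Y.E_eq]
    refine Finset.sum_congr rfl fun w _ => ?_
    rw [Y.E_eq, Finset.mul_sum]
    refine Finset.sum_congr rfl fun w' _ => ?_
    have h3 : ∀ x y : ℝ, Y.z ^ k * (x / (Y.z ^ k * y)) = x / y := fun x y => by
      rw [← mul_div_assoc, mul_div_mul_left _ _ hz]
    have h4 := h3 (F (List.ofFn w)) (g (List.ofFn w))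
    have h5 := h3 (F (List.ofFn w')) (g (List.ofFn w'))
    calc Y.z ^ k * (Y.z ^ k * (F (List.ofFn w) / (Y.z ^ k * g (List.ofFn w)) *
          (F (List.ofFn w') / (Y.z ^ k * g (List.ofFn w'))) * γ (List.ofFn w) (List.ofFn w')))
        = (Y.z ^ k * (F (List.ofFn w) / (Y.z ^ k * g (List.ofFn w)))) *
          (Y.z ^ k * (F (List.ofFn w') / (Y.z ^ k * g (List.ofFn w')))) *
            γ (List.ofFn w) (List.ofFn w') := by ring
      _ = F (List.ofFn w) / g (List.ofFn w) * (F (List.ofFn w') / g (List.ofFn w')) *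
            γ (List.ofFn w) (List.ofFn w') := by rw [h4, h5]
      _ = Dn g γ (List.ofFn w) (List.ofFn w') * F (List.ofFn w) * F (List.ofFn w') := by
          unfold Dn
          rw [div_mul_div_comm]
          ring
  rw [h2] at h1
  exact h1
-- END Bf_psd

-- BEGIN Bf_symm
theorem Bf_symm (hγ : Gm Y g κ 1 γ) (k : ℕ) (F F' : List S → ℝ) :
    Bf S g γ k F F' = Bf S g γ k F' F := by
  unfold Bf
  rw [Finset.sum_comm]
  refine Finset.sum_congr rfl fun w _ => Finset.sum_congr rfl fun w' _ => ?_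
  unfold Dn
  rw [hγ.symm (List.ofFn w') (List.ofFn w), mul_comm (g (List.ofFn w')) (g (List.ofFn w))]
  ring
-- END Bf_symm

-- BEGIN Bf_two
/-- `2 B(F, F') ≤ B(F, F) + B(F', F')` -/
theorem Bf_two (h : Cc Y K g) (hκ : 0 < κ) (hγ : Gm Y g κ 1 γ) (k : ℕ) (F F' : List S → ℝ) :
    2 * Bf S g γ k F F' ≤ Bf S g γ k F F + Bf S g γ k F' F' := by
  have h1 := Bf_psd h hκ hγ k (fun w => F w - F' w)
  have h2 : Bf S g γ k (fun w => F w - F' w) (fun w => F w - F' w) =
      Bf S g γ k F F - Bf S g γ k F F' - Bf S g γ k F' F + Bf S g γ k F' F' := by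
    unfold Bf
    rw [← Finset.sum_sub_distrib, ← Finset.sum_sub_distrib, ← Finset.sum_add_distrib]
    refine Finset.sum_congr rfl fun w _ => ?_
    rw [← Finset.sum_sub_distrib, ← Finset.sum_sub_distrib, ← Finset.sum_add_distrib]
    refine Finset.sum_congr rfl fun w' _ => ?_
    ring
  rw [h2, Bf_symm hγ k F' F] at h1
  linarith
-- END Bf_two

-- BEGIN Bf_lip
/-- `|B(F, H) - B(F', H)| ≤ κ⁻² * (∑ |F w - F' w|) * (∑ |H w|)` -/
theorem Bf_lip (h : Cc Y K g) (hκ : 0 < κ) (hγ : Gm Y g κ 1 γ) (k : ℕ) (F F' H : List S → ℝ) :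
    κ ^ 2 * |Bf S g γ k F H - Bf S g γ k F' H| ≤
      (∑ w : Fin k → S, |F (List.ofFn w) - F' (List.ofFn w)|) *
        ∑ w : Fin k → S, |H (List.ofFn w)| := by
  have h1 : Bf S g γ k F H - Bf S g γ k F' H = ∑ w : Fin k → S, ∑ w' : Fin k → S,
      Dn g γ (List.ofFn w) (List.ofFn w') * (F (List.ofFn w) - F' (List.ofFn w)) *
        H (List.ofFn w') := by
    unfold Bf
    rw [← Finset.sum_sub_distrib]
    refine Finset.sum_congr rfl fun w _ => ?_
    rw [← Finset.sum_sub_distrib]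
    refine Finset.sum_congr rfl fun w' _ => ?_
    ring
  rw [h1, Finset.sum_mul_sum]
  calc κ ^ 2 * |∑ w : Fin k → S, ∑ w' : Fin k → S,
      Dn g γ (List.ofFn w) (List.ofFn w') * (F (List.ofFn w) - F' (List.ofFn w)) *
        H (List.ofFn w')| ≤ κ ^ 2 * ∑ w : Fin k → S, ∑ w' : Fin k → S,
      |Dn g γ (List.ofFn w) (List.ofFn w') * (F (List.ofFn w) - F' (List.ofFn w)) *
        H (List.ofFn w')| := by
        refine mul_le_mul_of_nonneg_left ?_ (sq_nonneg κ)
        refine (Finset.abs_sum_le_sum_abs _ _).trans (Finset.sum_le_sum fun w _ => ?_)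
        exact Finset.abs_sum_le_sum_abs _ _
    _ ≤ ∑ w : Fin k → S, ∑ w' : Fin k → S,
        |F (List.ofFn w) - F' (List.ofFn w)| * |H (List.ofFn w')| := by
        rw [Finset.mul_sum]
        refine Finset.sum_le_sum fun w _ => ?_
        rw [Finset.mul_sum]
        refine Finset.sum_le_sum fun w' _ => ?_
        have h2 := Dn_facts h hκ hγ (List.ofFn w) (List.ofFn w')
        rw [abs_mul, abs_mul, abs_of_nonneg h2.1]
        calc κ ^ 2 * (Dn g γ (List.ofFn w) (List.ofFn w') *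
              |F (List.ofFn w) - F' (List.ofFn w)| * |H (List.ofFn w')|)
            = (κ ^ 2 * Dn g γ (List.ofFn w) (List.ofFn w')) *
              (|F (List.ofFn w) - F' (List.ofFn w)| * |H (List.ofFn w')|) := by ring
          _ ≤ 1 * (|F (List.ofFn w) - F' (List.ofFn w)| * |H (List.ofFn w')|) :=
              mul_le_mul_of_nonneg_right h2.2.1 (by positivity)
          _ = _ := one_mul _
-- END Bf_lip

-- BEGIN Sn_eq
private theorem Sn_eq_pick {k : ℕ} (F : List S → ℝ) {x : List S} (hx : x.length = k) :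
    F x = ∑ w : Fin k → S, F (List.ofFn w) * ind (x = List.ofFn w) := by
  subst hx
  have h1 : List.ofFn (fun i : Fin x.length => x.get i) = x := List.ofFn_get x
  rw [Finset.sum_eq_single (fun i : Fin x.length => x.get i)]
  · rw [h1]
    simp [ind]
  · intro w _ hw
    have h2 : x ≠ List.ofFn w := by
      intro h3
      exact hw (List.ofFn_injective (h3.symm.trans h1.symm))
    simp [ind, h2]
  · intro h; exact absurd (Finset.mem_univ _) h

/-- `Sn` in terms of frequencies: `Dn (wn i k u) (wn j k v) = ∑ w w', D w w' * ind (wn i k u = w) *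
ind (wn j k v = w')` for `i + k ≤ |u|`, `j + k ≤ |v|`. -/
theorem Sn_eq (g : List S → ℝ) (γ : List S → List S → ℝ) {k n : ℕ} {u v : List S}
    (hu : n + k ≤ u.length) (hv : n + k ≤ v.length) :
    Sn g γ k n u v = Bf S g γ k (fun w => Fq w n u) (fun w => Fq w n v) := by
  have hlen : ∀ i < n, ∀ x : List S, n + k ≤ x.length → (wn i k x).length = k := by
    intro i hi x hx
    unfold wn
    rw [List.length_take, List.length_drop]
    omega
  have h1 : ∀ i ∈ range n, ∀ j ∈ range n, Dn g γ (wn i k u) (wn j k v) =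
      ∑ w : Fin k → S, ∑ w' : Fin k → S, Dn g γ (List.ofFn w) (List.ofFn w') *
        (ind (wn i k u = List.ofFn w) * ind (wn j k v = List.ofFn w')) := by
    intro i hi j hj
    rw [Sn_eq_pick (fun x => Dn g γ x (wn j k v)) (hlen i (Finset.mem_range.1 hi) u hu)]
    refine Finset.sum_congr rfl fun w _ => ?_
    rw [Sn_eq_pick (fun x => Dn g γ (List.ofFn w) x) (hlen j (Finset.mem_range.1 hj) v hv),
      Finset.sum_mul]
    exact Finset.sum_congr rfl fun w' _ => by ring
  have h2 : Sn g γ k n u v = ((n : ℝ) ^ 2)⁻¹ * ∑ i ∈ range n, ∑ j ∈ range n,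
      ∑ w : Fin k → S, ∑ w' : Fin k → S, Dn g γ (List.ofFn w) (List.ofFn w') *
        (ind (wn i k u = List.ofFn w) * ind (wn j k v = List.ofFn w')) := by
    unfold Sn
    congr 1
    exact Finset.sum_congr rfl fun i hi => Finset.sum_congr rfl fun j hj => h1 i hi j hj
  rw [h2]
  unfold Bf
  rw [Finset.mul_sum]
  have h3 : ∀ i ∈ range n, ((n : ℝ) ^ 2)⁻¹ * ∑ j ∈ range n,
      ∑ w : Fin k → S, ∑ w' : Fin k → S, Dn g γ (List.ofFn w) (List.ofFn w') *
        (ind (wn i k u = List.ofFn w) * ind (wn j k v = List.ofFn w')) =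
      ∑ w : Fin k → S, ∑ w' : Fin k → S, Dn g γ (List.ofFn w) (List.ofFn w') *
        ((n : ℝ)⁻¹ * ind (wn i k u = List.ofFn w)) * Fq (List.ofFn w') n v := by
    intro i _
    rw [Finset.mul_sum]
    simp only [Finset.mul_sum]
    rw [Finset.sum_comm]
    refine Finset.sum_congr rfl fun w _ => ?_
    rw [Finset.sum_comm]
    refine Finset.sum_congr rfl fun w' _ => ?_
    unfold Fq
    rw [Finset.mul_sum, Finset.mul_sum]
    refine Finset.sum_congr rfl fun j _ => ?_
    rw [List.length_ofFn]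
    unfold wn
    rw [← inv_pow]
    ring
  rw [Finset.sum_congr rfl h3, Finset.sum_comm]
  refine Finset.sum_congr rfl fun w _ => ?_
  rw [Finset.sum_comm]
  refine Finset.sum_congr rfl fun w' _ => ?_
  rw [← Finset.sum_mul, ← Finset.mul_sum, ← Finset.mul_sum]
  congr 3
  refine Finset.sum_congr rfl fun i _ => ?_
  unfold wn
  rw [List.length_ofFn]
-- END Sn_eq

-- BEGIN Fq_facts
private theorem Fq_facts_one (k : ℕ) (x : List S) :
    ∑ w : Fin k → S, ind (x = List.ofFn w) ≤ 1 := by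
  classical
  by_cases hx : ∃ w0 : Fin k → S, x = List.ofFn w0
  · obtain ⟨w0, rfl⟩ := hx
    rw [Finset.sum_eq_single w0]
    · exact ind_le_one _
    · intro w _ hw
      exact ind_not fun h => hw (List.ofFn_injective h).symm
    · intro hw
      exact absurd (Finset.mem_univ _) hw
  · rw [Finset.sum_eq_zero]
    · norm_num
    · intro w _
      exact ind_not fun h => hx ⟨w, h⟩

/-- `Fq ≥ 0` and `∑ w, Fq w n u ≤ 1` (`= 1` for `n ≥ 1`, long `u`) -/
theorem Fq_facts (k n : ℕ) (u : List S) :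
    (∀ w, 0 ≤ Fq w n u) ∧ ∑ w : Fin k → S, Fq (List.ofFn w) n u ≤ 1 := by
  constructor
  · intro w
    unfold Fq
    exact mul_nonneg (inv_nonneg.2 (Nat.cast_nonneg n))
      (Finset.sum_nonneg fun i _ => ind_nonneg _)
  · have h1 : ∑ w : Fin k → S, Fq (List.ofFn w) n u =
        (n : ℝ)⁻¹ * ∑ i ∈ range n, ∑ w : Fin k → S, ind ((u.drop i).take k = List.ofFn w) := by
      unfold Fq
      rw [← Finset.mul_sum, Finset.sum_comm]
      simp only [List.length_ofFn]
    have h2 : ∑ i ∈ range n, ∑ w : Fin k → S, ind ((u.drop i).take k = List.ofFn w) ≤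
        ∑ i ∈ range n, (1 : ℝ) := Finset.sum_le_sum fun i _ => Fq_facts_one k _
    rw [Finset.sum_const, Finset.card_range, nsmul_eq_mul, mul_one] at h2
    rw [h1]
    have h3 : (0 : ℝ) ≤ (n : ℝ)⁻¹ := inv_nonneg.2 (Nat.cast_nonneg n)
    have h4 := mul_le_mul_of_nonneg_left h2 h3
    refine h4.trans ?_
    rcases Nat.eq_zero_or_pos n with h5 | h5
    · simp [h5]
    · have h6 : (n : ℝ) ≠ 0 := by exact_mod_cast h5.ne'
      rw [inv_mul_cancel₀ h6]
-- END Fq_facts

-- BEGIN Q_ge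
/-- (4g). `Sn_ge`, `Sn_eq`, `Bf_two`, `PP` of a function of one argument is an `E`. -/
theorem Q_ge (h : Cc Y K g) (hκ : 0 < κ) (hγ : Gm Y g κ 1 γ) {k n M : ℕ} {ε : ℝ} (hn : 1 ≤ n)
    (hM : n + k ≤ M)
    (hD : ∀ m ≥ k, PP Y g m
      (fun b b' => |Dn g γ b b' - Dn g γ (b.take k) (b'.take k)|) ≤ ε) :
    1 - K ^ 2 * ε ≤ Y.E M fun u =>
      g u * Bf S g γ k (fun w => Fq w n u) (fun w => Fq w n u) := by
  have h1 := Sn_ge h hκ hγ hn hM hD
  set Q : List S → ℝ := fun u => Bf S g γ k (fun w => Fq w n u) (fun w => Fq w n u) with hQ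
  have h2 : PP Y g M (fun u v => Sn g γ k n u v) ≤ PP Y g M (fun u v => (Q u + Q v) / 2) := by
    refine PP_mono h M fun u v hu hv _ _ => ?_
    rw [Sn_eq g γ (by omega) (by omega)]
    have h3 := Bf_two h hκ hγ k (fun w => Fq w n u) (fun w => Fq w n v)
    simp only [hQ]
    linarith
  have h4 : PP Y g M (fun u v => (Q u + Q v) / 2) = Y.E M fun u => g u * Q u := by
    unfold PP
    have hg : Y.E M (fun b' => g b') = 1 := E_g h M
    have h5 : ∀ u : List S, (Y.E M fun v => g u * g v * ((Q u + Q v) / 2)) =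
        g u * Q u / 2 + g u / 2 * Y.E M (fun v => g v * Q v) := by
      intro u
      have h6 : (fun v => g u * g v * ((Q u + Q v) / 2)) =
          fun v => (g u * Q u / 2) * g v + g u / 2 * (g v * Q v) := by
        funext v; ring
      rw [h6, Y.E_fadd, Y.E_mul_left, Y.E_mul_left, hg, mul_one]
    simp only [h5]
    rw [Y.E_fadd, Y.E_mul_right]
    have h7 : (Y.E M fun u => g u * Q u / 2) = (Y.E M fun u => g u * Q u) / 2 := by
      simp only [div_eq_mul_inv, Y.E_mul_right]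
    have h8 : (Y.E M fun u => g u / 2) = 1 / 2 := by
      simp only [div_eq_mul_inv, Y.E_mul_right, hg]
    rw [h7, h8]
    ring
  rw [h4] at h2
  linarith
-- END Q_ge

end Pool.Agent.Esc
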