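import Pool.Agent.Esc.Mar

/-!
# The law of the arms of an ergodic reversible law: the frequencies are constant
-/

set_option autoImplicit false

namespace Pool.Agent.Esc

open Finset Filter Topology Pool.Agent.Bub4 Pool.Agent.SawM2 Pool.Agent.Taw

section gen

variable {S V : Type} [Fintype S] [AddCommGroup V] {Y : Sys S V} {K : ℝ} {g ρ : List S → ℝ}

-- BEGIN rt_mass
theorem rt_Eone (hρ : Rt Y g ρ) (n : ℕ) : Y.E n ρ = 1 := by
  have := hρ.right [] n
  simpa only [List.nil_append, hρ.nil] using this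

/-- `∑ u v, ρ (bar u ++ v) = 1` -/
theorem rt_mass (hρ : Rt Y g ρ) (M : ℕ) :
    (Y.E M fun u => Y.E M fun v => ρ (bar Y u ++ v)) = 1 := by
  rw [Y.E_congr fun u _ => hρ.right (bar Y u) M]
  have h1 : (Y.E M fun u => ρ (bar Y u)) = Y.E M ρ := by
    unfold bar
    rw [Y.E_neg M fun w => ρ w.reverse, Y.E_reverse M ρ]
  rw [h1]
  exact rt_Eone hρ M
-- END rt_mass

-- BEGIN rt_disj
/-- if `ρ (bar u ++ v) ≠ 0` then the points `sm (u.take i)` and `sm (v.take j)` differ unless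
`i = j = 0` -/
theorem rt_disj (hρ : Rt Y g ρ) {u v : List S}
    (huv : ρ (bar Y u ++ v) ≠ 0) {i j : ℕ} (hi : i ≤ u.length) (hj : j ≤ v.length)
    (hij : i ≠ 0 ∨ j ≠ 0) : Y.sm (u.take i) ≠ Y.sm (v.take j) := by
  have h1 : Y.Saw (bar Y u ++ v) := by
    by_contra hs
    obtain ⟨Λ, hΛ⟩ := hρ.le_sv
    have h2 := hΛ (bar Y u ++ v)
    rw [Y.sv_of_not hs, mul_zero] at h2
    exact huv (le_antisymm h2 (hρ.nonneg _))
  have h2 : bar Y (u.take i) ++ v.take j <:+: bar Y u ++ v := by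
    refine ⟨bar Y (u.drop i), v.drop j, ?_⟩
    have h3 : bar Y u = bar Y (u.drop i) ++ bar Y (u.take i) := by
      conv_lhs => rw [← List.take_append_drop i u]
      unfold bar
      rw [List.map_append, List.reverse_append]
    have h4 : v = v.take j ++ v.drop j := (List.take_append_drop j v).symm
    rw [h3]
    conv_rhs => rw [h4]
    simp only [List.append_assoc]
  have h3 : bar Y (u.take i) ++ v.take j ≠ [] := by
    intro h4
    have h5 := congrArg List.length h4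
    simp only [bar, List.length_append, List.length_reverse, List.length_map, List.length_take,
      List.length_nil] at h5
    omega
  have h4 := h1 _ h2 h3
  intro h5
  apply h4
  rw [Y.sm_append]
  unfold bar
  rw [Y.sm_reverse, Y.sm_neg, h5]
  exact neg_add_cancel _
-- END rt_disj

-- BEGIN rt_PP
/-- `ρ (bar u ++ v) ≤ B g u g v` up to a part of mass `≤ ε` -/
theorem rt_PP {ε B C : ℝ} (M : ℕ)
    (h2 : (Y.E M fun u => Y.E M fun v => max 0 (ρ (bar Y u ++ v) - B * (g u * g v))) ≤ ε)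
    {φ : List S → List S → ℝ} (h0 : ∀ u v, 0 ≤ φ u v) (hC : 0 ≤ C)
    (h1 : ∀ u v, u.length = M → v.length = M → φ u v ≤ C) :
    (Y.E M fun u => Y.E M fun v => ρ (bar Y u ++ v) * φ u v) ≤ B * PP Y g M φ + C * ε := by
  have h3 : (Y.E M fun u => Y.E M fun v => ρ (bar Y u ++ v) * φ u v) ≤
      Y.E M fun u => Y.E M fun v => B * (g u * g v * φ u v) +
        C * max 0 (ρ (bar Y u ++ v) - B * (g u * g v)) := by
    refine Y.E_mono fun u hu => Y.E_mono fun v hv => ?_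
    have h4 := le_max_right 0 (ρ (bar Y u ++ v) - B * (g u * g v))
    have h5 := le_max_left 0 (ρ (bar Y u ++ v) - B * (g u * g v))
    have h6 := h1 u v hu hv
    have h7 := h0 u v
    calc ρ (bar Y u ++ v) * φ u v ≤
        (B * (g u * g v) + max 0 (ρ (bar Y u ++ v) - B * (g u * g v))) * φ u v :=
          mul_le_mul_of_nonneg_right (by linarith) h7
      _ = B * (g u * g v * φ u v) + φ u v * max 0 (ρ (bar Y u ++ v) - B * (g u * g v)) := by
          ring
      _ ≤ _ := by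
          have := mul_le_mul_of_nonneg_right h6 h5
          linarith
  have h8 : (Y.E M fun u => Y.E M fun v => B * (g u * g v * φ u v) +
        C * max 0 (ρ (bar Y u ++ v) - B * (g u * g v))) =
      B * PP Y g M φ +
        C * (Y.E M fun u => Y.E M fun v => max 0 (ρ (bar Y u ++ v) - B * (g u * g v))) := by
    unfold PP
    simp only [Y.E_fadd, Y.E_mul_left]
  rw [h8] at h3
  have h9 := mul_le_mul_of_nonneg_left h2 hC
  linarith
-- END rt_PP

/-- the deviation of the frequencies of the words of length `k` from the law `ρ` -/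
noncomputable def dv (Y : Sys S V) (ρ : List S → ℝ) (k n : ℕ) (u : List S) : ℝ :=
  ∑ w : Fin k → S, |Fq (List.ofFn w) n u - Y.z ^ k * ρ (List.ofFn w)|

-- BEGIN dv_facts
theorem dv_nonneg (k n : ℕ) (u : List S) : 0 ≤ dv Y ρ k n u :=
  Finset.sum_nonneg fun w _ => abs_nonneg _

theorem rt_sum (hρ : Rt Y g ρ) (k : ℕ) :
    ∑ w : Fin k → S, |Y.z ^ k * ρ (List.ofFn w)| = 1 := by
  have h1 := rt_Eone hρ k
  rw [Y.E_eq] at h1
  rw [← h1]
  refine Finset.sum_congr rfl fun w _ => ?_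
  exact abs_of_nonneg (mul_nonneg (pow_pos Y.z_pos k).le (hρ.nonneg _))

theorem Fq_sum (k n : ℕ) (u : List S) : ∑ w : Fin k → S, |Fq (List.ofFn w) n u| ≤ 1 := by
  obtain ⟨h1, h2⟩ := Fq_facts k n u
  refine le_trans (le_of_eq ?_) h2
  exact Finset.sum_congr rfl fun w _ => abs_of_nonneg (h1 _)

theorem dv_le (hρ : Rt Y g ρ) (k n : ℕ) (u : List S) : dv Y ρ k n u ≤ 2 := by
  have h1 : dv Y ρ k n u ≤ ∑ w : Fin k → S,
      (|Fq (List.ofFn w) n u| + |Y.z ^ k * ρ (List.ofFn w)|) :=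
    Finset.sum_le_sum fun w _ => abs_sub _ _
  rw [Finset.sum_add_distrib, rt_sum hρ k] at h1
  have h2 := Fq_sum k n u
  linarith

theorem dv_take (k n : ℕ) (u : List S) : dv Y ρ k n (u.take (n + k)) = dv Y ρ k n u := by
  unfold dv
  refine Finset.sum_congr rfl fun w _ => ?_
  have h1 : Fq (List.ofFn w) n (u.take (n + k)) = Fq (List.ofFn w) n u := by
    unfold Fq
    congr 1
    refine Finset.sum_congr rfl fun i hi => ?_
    rw [Finset.mem_range] at hi
    congr 1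
    rw [List.length_ofFn, List.drop_take, List.take_take, min_eq_left (by omega)]
  rw [h1]
-- END dv_facts

-- BEGIN rt_freq
/-- `Rt.freq` for all words of length `k` -/
theorem rt_freq (h : Cc Y K g) (hρ : Rt Y g ρ) (k : ℕ) {η : ℝ} (hη : 0 < η) :
    ∀ᶠ n in atTop, ∀ M ≥ n + k,
      PP Y g M (fun u v => dv Y ρ k n u + dv Y ρ k n v) ≤ η := by
  obtain ⟨C, hC⟩ : ∃ C : ℝ, C = (Fintype.card (Fin k → S) : ℝ) := ⟨_, rfl⟩
  have hC0 : 0 ≤ C := by rw [hC]; exact Nat.cast_nonneg _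
  have hδ : 0 < η / (2 * (C + 1)) := by positivity
  have hall : ∀ᶠ n in atTop, ∀ w : Fin k → S,
      (Y.E (n + (List.ofFn w).length) fun u => g u * |Fq (List.ofFn w) n u -
        Y.z ^ (List.ofFn w).length * ρ (List.ofFn w)|) ≤ η / (2 * (C + 1)) :=
    Filter.eventually_all.2 fun w => hρ.freq (List.ofFn w) _ hδ
  filter_upwards [hall] with n hn M hM
  have h1 : (Y.E (n + k) fun u => g u * dv Y ρ k n u) ≤ η / 2 := by
    have h2 : (Y.E (n + k) fun u => g u * dv Y ρ k n u) = ∑ w : Fin k → S,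
        Y.E (n + k) fun u => g u * |Fq (List.ofFn w) n u - Y.z ^ k * ρ (List.ofFn w)| := by
      unfold dv
      rw [← Y.E_fsum_univ]
      exact Y.E_congr fun u _ => Finset.mul_sum _ _ _
    have h3 : ∀ w : Fin k → S,
        (Y.E (n + k) fun u => g u * |Fq (List.ofFn w) n u - Y.z ^ k * ρ (List.ofFn w)|) ≤
        η / (2 * (C + 1)) := by
      intro w
      have := hn w
      rwa [List.length_ofFn] at this
    rw [h2]
    refine (Finset.sum_le_sum fun w _ => h3 w).trans ?_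
    rw [Finset.sum_const, Finset.card_univ, nsmul_eq_mul, ← hC]
    have h4 : C * (η / (2 * (C + 1))) = η / 2 * (C / (C + 1)) := by
      field_simp
    rw [h4]
    have h5 : C / (C + 1) ≤ 1 := by
      rw [div_le_one (by linarith)]
      linarith
    have h6 := mul_le_mul_of_nonneg_left h5 (half_pos hη).le
    linarith
  have h7 : (Y.E M fun u => g u * dv Y ρ k n u) = Y.E (n + k) fun u => g u * dv Y ρ k n u := by
    have h8 := E_take h (n + k) (M - (n + k)) (fun u => dv Y ρ k n u)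
    rw [show n + k + (M - (n + k)) = M by omega] at h8
    simp only [dv_take] at h8
    exact h8
  have hg : Y.E M (fun b' => g b') = 1 := E_g h M
  have h9 : PP Y g M (fun u v => dv Y ρ k n u + dv Y ρ k n v) =
      2 * Y.E M fun u => g u * dv Y ρ k n u := by
    unfold PP
    have h5 : ∀ u : List S, (Y.E M fun v => g u * g v * (dv Y ρ k n u + dv Y ρ k n v)) =
        g u * dv Y ρ k n u + g u * Y.E M (fun v => g v * dv Y ρ k n v) := by
      intro u
      have h6 : (fun v => g u * g v * (dv Y ρ k n u + dv Y ρ k n v)) =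
          fun v => (g u * dv Y ρ k n u) * g v + g u * (g v * dv Y ρ k n v) := by
        funext v; ring
      rw [h6, Y.E_fadd, Y.E_mul_left, Y.E_mul_left, hg, mul_one]
    simp only [h5]
    rw [Y.E_fadd, Y.E_mul_right, hg, one_mul]
    ring
  rw [h9, h7]
  linarith
-- END rt_freq

end gen

section lat

variable {S : Type} [Fintype S] {d : ℕ} {Y : Sys S (Zk d)} {K κ : ℝ} {g ρ : List S → ℝ}
  {γ : List S → List S → ℝ}

/-- the limit of `Sn g γ k n` -/
noncomputable def bk (Y : Sys S (Zk d)) (g ρ : List S → ℝ) (γ : List S → List S → ℝ)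
    (k : ℕ) : ℝ := Bf S g γ k (fun w => Y.z ^ k * ρ w) (fun w => Y.z ^ k * ρ w)

-- BEGIN Sn_bk
/-- `Sn_eq`, `Bf_lip` twice -/
theorem Sn_bk (h : Cc Y K g) (hρ : Rt Y g ρ) (hκ : 0 < κ) (hγ : Gm Y g κ 1 γ) {k n : ℕ}
    {u v : List S} (hu : n + k ≤ u.length) (hv : n + k ≤ v.length) :
    |Sn g γ k n u v - bk Y g ρ γ k| ≤ (κ ^ 2)⁻¹ * (dv Y ρ k n u + dv Y ρ k n v) := by
  have hκ2 : 0 < κ ^ 2 := pow_pos hκ 2
  set Fu : List S → ℝ := fun w => Fq w n u with hFu
  set Fv : List S → ℝ := fun w => Fq w n v with hFv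
  set R : List S → ℝ := fun w => Y.z ^ k * ρ w with hR
  have l1 := Bf_lip h hκ hγ k Fu R Fv
  have l2 := Bf_lip h hκ hγ k Fv R R
  rw [Bf_symm hγ k Fv R] at l2
  have e1 : (∑ w : Fin k → S, |Fu (List.ofFn w) - R (List.ofFn w)|) = dv Y ρ k n u := rfl
  have e2 : (∑ w : Fin k → S, |Fv (List.ofFn w) - R (List.ofFn w)|) = dv Y ρ k n v := rfl
  have e3 : (∑ w : Fin k → S, |Fv (List.ofFn w)|) ≤ 1 := Fq_sum k n v
  have e4 : (∑ w : Fin k → S, |R (List.ofFn w)|) = 1 := rt_sum hρ k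
  rw [e1] at l1
  rw [e2, e4, mul_one] at l2
  have l1' : κ ^ 2 * |Bf S g γ k Fu Fv - Bf S g γ k R Fv| ≤ dv Y ρ k n u :=
    l1.trans (mul_le_of_le_one_right (dv_nonneg k n u) e3)
  have l3 : |Bf S g γ k Fu Fv - Bf S g γ k R R| ≤
      |Bf S g γ k Fu Fv - Bf S g γ k R Fv| + |Bf S g γ k R Fv - Bf S g γ k R R| :=
    abs_sub_le _ _ _
  rw [Sn_eq g γ hu hv]
  show |Bf S g γ k Fu Fv - Bf S g γ k R R| ≤ _
  rw [← div_eq_inv_mul, le_div_iff₀ hκ2, mul_comm]
  have l4 := mul_le_mul_of_nonneg_left l3 hκ2.le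
  rw [mul_add] at l4
  linarith
-- END Sn_bk

-- BEGIN Sn_cc
private theorem Sn_cc_lin (ρ : List S → ℝ) (γ : List S → List S → ℝ) (M m n : ℕ) :
    (Y.E M fun u => Y.E M fun v => ρ (bar Y u ++ v) * Sn g γ m n u v) =
      ((n : ℝ) ^ 2)⁻¹ * ∑ i ∈ range n, ∑ j ∈ range n,
        Y.E M fun u => Y.E M fun v => ρ (bar Y u ++ v) * Dn g γ (wn i m u) (wn j m v) := by
  have h1 : ∀ u v : List S, ρ (bar Y u ++ v) * Sn g γ m n u v = ((n : ℝ) ^ 2)⁻¹ *
      ∑ i ∈ range n, ∑ j ∈ range n, ρ (bar Y u ++ v) * Dn g γ (wn i m u) (wn j m v) := by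
    intro u v
    unfold Sn
    rw [mul_left_comm, Finset.mul_sum]
    congr 1
    exact Finset.sum_congr rfl fun i _ => by rw [Finset.mul_sum]
  simp_rw [h1, Y.E_mul_left, Y.E_fsum]

/-- `0 ≤ Sn ≤ κ⁻²` -/
theorem Sn_le (h : Cc Y K g) (hκ : 0 < κ) (hγ : Gm Y g κ 1 γ) {n : ℕ} (hn : 1 ≤ n) (m : ℕ)
    (u v : List S) : 0 ≤ Sn g γ m n u v ∧ Sn g γ m n u v ≤ (κ ^ 2)⁻¹ := by
  have hκ2 : 0 < κ ^ 2 := pow_pos hκ 2
  have hn0 : (0 : ℝ) < n := by exact_mod_cast hn
  have hD : ∀ x y : List S, 0 ≤ Dn g γ x y ∧ Dn g γ x y ≤ (κ ^ 2)⁻¹ := by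
    intro x y
    have h1 := Dn_facts h hκ hγ x y
    refine ⟨h1.1, ?_⟩
    rw [← one_div, le_div_iff₀ hκ2]
    linarith [h1.2.1]
  unfold Sn
  refine ⟨mul_nonneg (by positivity) (Finset.sum_nonneg fun i _ => Finset.sum_nonneg fun j _ =>
    (hD _ _).1), ?_⟩
  have h2 : (∑ i ∈ range n, ∑ j ∈ range n, Dn g γ (wn i m u) (wn j m v)) ≤
      (n : ℝ) ^ 2 * (κ ^ 2)⁻¹ := by
    refine (Finset.sum_le_sum fun i _ => Finset.sum_le_sum fun j _ => (hD _ _).2).trans
      (le_of_eq ?_)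
    simp only [Finset.sum_const, Finset.card_range, nsmul_eq_mul]
    ring
  calc ((n : ℝ) ^ 2)⁻¹ * ∑ i ∈ range n, ∑ j ∈ range n, Dn g γ (wn i m u) (wn j m v)
      ≤ ((n : ℝ) ^ 2)⁻¹ * ((n : ℝ) ^ 2 * (κ ^ 2)⁻¹) :=
        mul_le_mul_of_nonneg_left h2 (by positivity)
    _ = (κ ^ 2)⁻¹ := by
        rw [← mul_assoc, inv_mul_cancel₀ (by positivity), one_mul]

/-- the lower bound for the mean of `Sn g γ m n` under `ρ (bar u ++ v)` -/
theorem Sn_low (h : Cc Y K g) (hρ : Rt Y g ρ) (hκ : 0 < κ) (hγ : Gm Y g κ 1 γ)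
    {k m n M : ℕ} {ε ε1 η B : ℝ} (hn : 1 ≤ n) (hkm : k ≤ m) (hM : n + m ≤ M) (hB : 0 < B)
    (hD : ∀ m ≥ k, PP Y g m
      (fun b b' => |Dn g γ b b' - Dn g γ (b.take k) (b'.take k)|) ≤ ε)
    (h2 : (Y.E M fun u => Y.E M fun v => max 0 (ρ (bar Y u ++ v) - B * (g u * g v))) ≤ ε1)
    (hF : PP Y g M (fun u v => dv Y ρ k n u + dv Y ρ k n v) ≤ η) :
    1 - (1 + B) * (K ^ 2 * ε) - (1 + B) * ((κ ^ 2)⁻¹ * η) - 5 * ((κ ^ 2)⁻¹ * ε1) ≤
      Y.E M fun u => Y.E M fun v => ρ (bar Y u ++ v) * Sn g γ m n u v := by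
  have hκ2 : 0 < κ ^ 2 := pow_pos hκ 2
  have hκi : 0 < (κ ^ 2)⁻¹ := inv_pos.2 hκ2
  have hkM : n + k ≤ M := by omega
  -- `b` is nearly one
  have h3 : 1 - K ^ 2 * ε - (κ ^ 2)⁻¹ * η ≤ bk Y g ρ γ k := by
    have h4 := Sn_ge h hκ hγ hn hkM hD
    have h5 : PP Y g M (fun u v => Sn g γ k n u v) ≤
        PP Y g M (fun u v => bk Y g ρ γ k + (κ ^ 2)⁻¹ * (dv Y ρ k n u + dv Y ρ k n v)) := by
      refine PP_mono h M fun u v hu hv _ _ => ?_
      have h6 := (abs_le.1 (Sn_bk h hρ hκ hγ (k := k) (n := n) (u := u) (v := v)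
        (by omega) (by omega))).2
      linarith
    have h7 : PP Y g M (fun u v => bk Y g ρ γ k + (κ ^ 2)⁻¹ * (dv Y ρ k n u + dv Y ρ k n v)) =
        bk Y g ρ γ k + (κ ^ 2)⁻¹ * PP Y g M (fun u v => dv Y ρ k n u + dv Y ρ k n v) := by
      have h8 := Dn_mart_lin Y g M (fun _ _ => bk Y g ρ γ k)
        (fun u v => dv Y ρ k n u + dv Y ρ k n v) ((κ ^ 2)⁻¹)
      rw [h8, PP_const h]
    have h9 := mul_le_mul_of_nonneg_left hF hκi.le
    linarith
  -- the mean of `Sn g γ k n`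
  have h10 : bk Y g ρ γ k - (κ ^ 2)⁻¹ * (B * η + 4 * ε1) ≤
      Y.E M fun u => Y.E M fun v => ρ (bar Y u ++ v) * Sn g γ k n u v := by
    have h11 : (Y.E M fun u => Y.E M fun v => ρ (bar Y u ++ v) * bk Y g ρ γ k -
        (κ ^ 2)⁻¹ * (ρ (bar Y u ++ v) * (dv Y ρ k n u + dv Y ρ k n v))) ≤
        Y.E M fun u => Y.E M fun v => ρ (bar Y u ++ v) * Sn g γ k n u v := by
      refine Y.E_mono fun u hu => Y.E_mono fun v hv => ?_
      have h6 := (abs_le.1 (Sn_bk h hρ hκ hγ (k := k) (n := n) (u := u) (v := v)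
        (by omega) (by omega))).1
      have h12 := mul_le_mul_of_nonneg_left h6 (hρ.nonneg (bar Y u ++ v))
      linarith
    have h13 : (Y.E M fun u => Y.E M fun v => ρ (bar Y u ++ v) * bk Y g ρ γ k -
        (κ ^ 2)⁻¹ * (ρ (bar Y u ++ v) * (dv Y ρ k n u + dv Y ρ k n v))) =
        bk Y g ρ γ k - (κ ^ 2)⁻¹ * (Y.E M fun u => Y.E M fun v =>
          ρ (bar Y u ++ v) * (dv Y ρ k n u + dv Y ρ k n v)) := by
      simp only [Y.E_fsub, Y.E_mul_left, Y.E_mul_right]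
      rw [rt_mass hρ M, one_mul]
    have h14 := rt_PP (Y := Y) (g := g) (ρ := ρ) (B := B) (C := 4) M h2
      (φ := fun u v => dv Y ρ k n u + dv Y ρ k n v)
      (fun u v => add_nonneg (dv_nonneg k n u) (dv_nonneg k n v)) (by norm_num)
      (fun u v _ _ => by
        have a1 := dv_le hρ k n u
        have a2 := dv_le hρ k n v
        linarith)
    have h15 := mul_le_mul_of_nonneg_left hF hB.le
    have h16 : (Y.E M fun u => Y.E M fun v =>
          ρ (bar Y u ++ v) * (dv Y ρ k n u + dv Y ρ k n v)) ≤ B * η + 4 * ε1 := by linarith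
    have h17 := mul_le_mul_of_nonneg_left h16 hκi.le
    linarith
  -- from `k` to `m`
  have h20 : (Y.E M fun u => Y.E M fun v => ρ (bar Y u ++ v) * Sn g γ k n u v) -
      (Y.E M fun u => Y.E M fun v => ρ (bar Y u ++ v) * Sn g γ m n u v) ≤
        B * (K ^ 2 * ε) + (κ ^ 2)⁻¹ * ε1 := by
    have hD1 := Sn_diff h hkm hn hM (hD m hkm)
    have h21 := rt_PP (Y := Y) (g := g) (ρ := ρ) (B := B) (C := (κ ^ 2)⁻¹) M h2
      (φ := fun u v => |Sn g γ m n u v - Sn g γ k n u v|)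
      (fun u v => abs_nonneg _) hκi.le
      (fun u v _ _ => by
        have a1 := Sn_le h hκ hγ hn m u v
        have a2 := Sn_le h hκ hγ hn k u v
        rw [abs_le]
        constructor <;> linarith [a1.1, a1.2, a2.1, a2.2])
    have h22 := mul_le_mul_of_nonneg_left hD1 hB.le
    have h23 : (Y.E M fun u => Y.E M fun v => ρ (bar Y u ++ v) * Sn g γ k n u v) -
        (Y.E M fun u => Y.E M fun v => ρ (bar Y u ++ v) * Sn g γ m n u v) ≤
        Y.E M fun u => Y.E M fun v => ρ (bar Y u ++ v) *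
          |Sn g γ m n u v - Sn g γ k n u v| := by
      rw [← Y.E_fsub]
      refine Y.E_mono fun u _ => ?_
      rw [← Y.E_fsub]
      refine Y.E_mono fun v _ => ?_
      rw [← mul_sub]
      refine mul_le_mul_of_nonneg_left ?_ (hρ.nonneg _)
      rw [abs_sub_comm]
      exact le_abs_self _
    linarith
  nlinarith [h3, h10, h20]

/-- There is a disjoint pair of arms with near windows: `Sn_low`, the part `i = j = 0` of
`Sn g γ m n` is `≤ (κ² n²)⁻¹`, `rt_PP` for the other parts. -/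
theorem Sn_cc (h : Cc Y K g) (hρ : Rt Y g ρ) (hκ : 0 < κ) (hγ : Gm Y g κ 1 γ) :
    ∃ c0 : ℝ, 0 < c0 ∧ ∃ k n : ℕ, 1 ≤ n ∧ ∀ m ≥ k, ∀ M ≥ n + m, ∃ i < n, ∃ j < n,
      (i ≠ 0 ∨ j ≠ 0) ∧ c0 ≤ PP Y g M fun u v => Dn g γ (wn i m u) (wn j m v) *
        ind (∀ s ≤ M, ∀ t ≤ M, (s ≠ 0 ∨ t ≠ 0) → Y.sm (u.take s) ≠ Y.sm (v.take t)) := by
  have hK : 1 ≤ K := one_le_K h
  have hK0 : 0 < K := by linarith
  have hκ2 : 0 < κ ^ 2 := pow_pos hκ 2
  obtain ⟨B, hB0, hB⟩ := hρ.two (κ ^ 2 / 48) (by positivity)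
  have h48 : (κ ^ 2)⁻¹ * (κ ^ 2 / 48) = 1 / 48 := by field_simp
  obtain ⟨ε, hε⟩ : ∃ ε : ℝ, ε = 1 / (32 * ((1 + B) * K ^ 2)) := ⟨_, rfl⟩
  have hε0 : 0 < ε := by rw [hε]; positivity
  have hε1 : (1 + B) * (K ^ 2 * ε) = 1 / 32 := by
    rw [hε]; field_simp
  obtain ⟨η, hη⟩ : ∃ η : ℝ, η = κ ^ 2 / (32 * (1 + B)) := ⟨_, rfl⟩
  have hη0 : 0 < η := by rw [hη]; positivity
  have hη1 : (1 + B) * ((κ ^ 2)⁻¹ * η) = 1 / 32 := by
    rw [hη]; field_simp
  obtain ⟨k, hk⟩ := Dn_mart h hκ hγ hε0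
  obtain ⟨n0, hn0⟩ := exists_nat_ge (2 / κ)
  obtain ⟨n, hF, hn⟩ := ((rt_freq h hρ k hη0).and (eventually_ge_atTop (max 1 n0))).exists
  have hn1 : 1 ≤ n := (le_max_left _ _).trans hn
  have hn2 : 2 / κ ≤ n := hn0.trans (by exact_mod_cast (le_max_right _ _).trans hn)
  have hn3 : (κ ^ 2)⁻¹ ≤ (n : ℝ) ^ 2 / 4 := by
    have h1 : 2 ≤ n * κ := (div_le_iff₀ hκ).mp hn2
    rw [inv_le_comm₀ (by positivity) (by positivity), inv_div, div_le_iff₀ (by positivity)]
    nlinarith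
  refine ⟨1 / (2 * B), by positivity, k, n, hn1, fun m hm M hM => ?_⟩
  by_contra hcon
  push Not at hcon
  have h1 := Sn_low h hρ hκ hγ hn1 hm hM hB0 hk (hB M) (hF M (by omega))
  rw [hε1, hη1, h48, Sn_cc_lin ρ γ M m n] at h1
  have hn0' : (0 : ℝ) < n := by exact_mod_cast hn1
  -- the terms
  have h2 : ∀ i ∈ range n, ∀ j ∈ range n,
      (Y.E M fun u => Y.E M fun v => ρ (bar Y u ++ v) * Dn g γ (wn i m u) (wn j m v)) ≤
        (1 / 2 + 1 / 48) + (if i = 0 then (if j = 0 then ((κ ^ 2)⁻¹ - (1 / 2 + 1 / 48)) else 0)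
          else 0) := by
    intro i hi j hj
    rw [Finset.mem_range] at hi hj
    by_cases hij : i = 0 ∧ j = 0
    · rw [if_pos hij.1, if_pos hij.2]
      have h3 : (Y.E M fun u => Y.E M fun v => ρ (bar Y u ++ v) * Dn g γ (wn i m u) (wn j m v)) ≤
          Y.E M fun u => Y.E M fun v => ρ (bar Y u ++ v) * (κ ^ 2)⁻¹ := by
        refine Y.E_mono fun u _ => Y.E_mono fun v _ => ?_
        refine mul_le_mul_of_nonneg_left ?_ (hρ.nonneg _)
        have := (Dn_facts h hκ hγ (wn i m u) (wn j m v)).2.1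
        rw [← one_div, le_div_iff₀ (by positivity)]
        linarith
      have h4 : (Y.E M fun u => Y.E M fun v => ρ (bar Y u ++ v) * (κ ^ 2)⁻¹) = (κ ^ 2)⁻¹ := by
        simp_rw [Y.E_mul_right]
        rw [rt_mass hρ M, one_mul]
      linarith
    · have hij' : i ≠ 0 ∨ j ≠ 0 := by
        by_contra hc
        push Not at hc
        exact hij hc
      have h3 := (hcon i hi j hj hij').le
      have e0 : (if i = 0 then (if j = 0 then ((κ ^ 2)⁻¹ - (1 / 2 + 1 / 48)) else 0)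
          else (0 : ℝ)) = 0 := by
        rcases hij' with h' | h'
        · rw [if_neg h']
        · rw [if_neg h', ite_self]
      rw [e0, add_zero]
      have h4 : (Y.E M fun u => Y.E M fun v => ρ (bar Y u ++ v) *
          Dn g γ (wn i m u) (wn j m v)) ≤ Y.E M fun u => Y.E M fun v => ρ (bar Y u ++ v) *
          (Dn g γ (wn i m u) (wn j m v) *
          ind (∀ s ≤ M, ∀ t ≤ M, (s ≠ 0 ∨ t ≠ 0) → Y.sm (u.take s) ≠ Y.sm (v.take t))) := by
        refine Y.E_mono fun u hu => Y.E_mono fun v hv => ?_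
        by_cases h0 : ρ (bar Y u ++ v) = 0
        · rw [h0, zero_mul, zero_mul]
        · rw [ind_of, mul_one]
          intro s hs t ht hst
          exact rt_disj hρ h0 (by omega) (by omega) hst
      have h5 := rt_PP (Y := Y) (g := g) (ρ := ρ) (B := B) (C := (κ ^ 2)⁻¹) M (hB M)
        (φ := fun u v => Dn g γ (wn i m u) (wn j m v) *
          ind (∀ s ≤ M, ∀ t ≤ M, (s ≠ 0 ∨ t ≠ 0) → Y.sm (u.take s) ≠ Y.sm (v.take t)))
        (fun u v => mul_nonneg (Dn_facts h hκ hγ _ _).1 (ind_nonneg _)) (inv_pos.2 hκ2).le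
        (fun u v _ _ => by
          have a1 := (Dn_facts h hκ hγ (wn i m u) (wn j m v))
          have a2 : Dn g γ (wn i m u) (wn j m v) ≤ (κ ^ 2)⁻¹ := by
            rw [← one_div, le_div_iff₀ (by positivity)]
            linarith [a1.2.1]
          exact (mul_le_of_le_one_right a1.1 (ind_le_one _)).trans a2)
      have h6 := mul_le_mul_of_nonneg_left h3 hB0.le
      have h7 : B * (1 / (2 * B)) = 1 / 2 := by field_simp
      rw [h48] at h5
      linarith
  have h5 : (∑ i ∈ range n, ∑ j ∈ range n,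
      Y.E M fun u => Y.E M fun v => ρ (bar Y u ++ v) * Dn g γ (wn i m u) (wn j m v)) ≤
      (n : ℝ) ^ 2 * (1 / 2 + 1 / 48) + ((κ ^ 2)⁻¹ - (1 / 2 + 1 / 48)) := by
    refine (Finset.sum_le_sum fun i hi => Finset.sum_le_sum fun j hj => h2 i hi j hj).trans
      (le_of_eq ?_)
    have h0 : 0 ∈ range n := Finset.mem_range.mpr (by omega)
    have e1 : ∀ i ∈ range n, (∑ j ∈ range n, (((1 : ℝ) / 2 + 1 / 48) +
        (if i = 0 then (if j = 0 then ((κ ^ 2)⁻¹ - (1 / 2 + 1 / 48)) else 0) else 0))) =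
        n * (1 / 2 + 1 / 48) + (if i = 0 then ((κ ^ 2)⁻¹ - (1 / 2 + 1 / 48)) else 0) := by
      intro i _
      rw [Finset.sum_add_distrib, Finset.sum_const, Finset.card_range, nsmul_eq_mul]
      congr 1
      split_ifs with hi0
      · rw [Finset.sum_ite_eq', if_pos h0]
      · rw [Finset.sum_const_zero]
    rw [Finset.sum_congr rfl e1, Finset.sum_add_distrib, Finset.sum_const, Finset.card_range,
      nsmul_eq_mul, Finset.sum_ite_eq', if_pos h0]
    ring
  have h6 : 1 - 1 / 32 - 1 / 32 - 5 * (1 / 48) ≤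
      ((n : ℝ) ^ 2)⁻¹ * ((n : ℝ) ^ 2 * (1 / 2 + 1 / 48) + ((κ ^ 2)⁻¹ - (1 / 2 + 1 / 48))) := by
    exact h1.trans (mul_le_mul_of_nonneg_left h5 (by positivity))
  rw [inv_mul_eq_div, le_div_iff₀ (by positivity)] at h6
  have h7 : (0 : ℝ) < (n : ℝ) ^ 2 := by positivity
  nlinarith
-- END Sn_cc

-- BEGIN arrow_cc
private theorem arrow_cc_take (h : Cc Y K g) {p q M : ℕ} (hp : p ≤ M) (hq : q ≤ M)
    (ψ : List S → List S → ℝ) :
    PP Y g M (fun u v => ψ (u.take p) (v.take q)) =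
      Y.E p fun u => Y.E q fun v => g u * g v * ψ u v := by
  have h1 : ∀ (r : ℕ), r ≤ M → ∀ φ : List S → ℝ,
      (Y.E M fun w => g w * φ (w.take r)) = Y.E r fun u => g u * φ u := by
    intro r hr φ
    have := E_take h r (M - r) φ
    rwa [Nat.add_sub_cancel' hr] at this
  show (Y.E M fun u => Y.E M fun v => g u * g v * ψ (u.take p) (v.take q)) = _
  have h2 : ∀ u : List S, (Y.E M fun v => g u * g v * ψ (u.take p) (v.take q)) =
      g u * (fun x => Y.E q fun v => g v * ψ x v) (u.take p) := by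
    intro u
    show _ = g u * Y.E q fun v => g v * ψ (u.take p) v
    rw [← h1 q hq (fun v => ψ (u.take p) v), ← Y.E_mul_left]
    exact Y.E_congr fun v _ => by ring
  rw [Y.E_congr fun u _ => h2 u, h1 p hp (fun x => Y.E q fun v => g v * ψ x v)]
  refine Y.E_congr fun u _ => ?_
  rw [← Y.E_mul_left]
  exact Y.E_congr fun v _ => by ring

private theorem arrow_cc_anti {q : ℝ} (hγ : Gm Y g κ q γ) (y : Zk d) {m M : ℕ} (hm : m ≤ M) :
    (Y.E M fun b => Y.E M fun b' => γ b b' * ind (Dj Y y M b b')) ≤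
      Y.E m fun b => Y.E m fun b' => γ b b' * ind (Dj Y y m b b') := by
  rw [← gam_cyl hγ hm (fun b b' => ind (Dj Y y m b b'))]
  refine Y.E_mono fun b _ => Y.E_mono fun b' _ => ?_
  refine mul_le_mul_of_nonneg_left (ind_mono fun hD => ?_) (hγ.nonneg _ _)
  intro s hs t ht
  rw [List.take_take, List.take_take, min_eq_left hs, min_eq_left ht]
  exact hD s (hs.trans hm) t (ht.trans hm)

/-- (4k) for an ergodic reversible law: `Sn_cc` -/
theorem arrow_cc (h : Cc Y K g) (hρ : Rt Y g ρ) (hκ : 0 < κ) (hγ : Gm Y g κ 1 γ) :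
    ∃ y : Zk d, y ≠ 0 ∧ ∃ c : ℝ, 0 < c ∧
      ∀ m, c ≤ Y.E m fun b => Y.E m fun b' => γ b b' * ind (Dj Y y m b b') := by
  obtain ⟨c0, hc0, k, n, hn, hS⟩ := Sn_cc h hρ hκ hγ
  have hK : 1 ≤ K := one_le_K h
  have hK0 : 0 < K := by linarith
  have hKK : 0 < 2 * K ^ 2 := by positivity
  by_contra hcon
  push Not at hcon
  have h1 : ∀ y : Zk d, ∃ m, y ≠ 0 →
      (Y.E m fun b => Y.E m fun b' => γ b b' * ind (Dj Y y m b b')) < c0 / (2 * K ^ 2) := by
    intro y
    by_cases hy : y = 0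
    · exact ⟨0, fun h => absurd hy h⟩
    · obtain ⟨m, hm⟩ := hcon y hy (c0 / (2 * K ^ 2)) (by positivity)
      exact ⟨m, fun _ => hm⟩
  choose mm hmm using h1
  have hfin : ({l : List S | l.length < n}).Finite := List.finite_length_lt S n
  obtain ⟨M0, hM0⟩ := ((hfin.prod hfin).image fun p => mm (Y.sm p.1 - Y.sm p.2)).bddAbove
  obtain ⟨m, hmk, hmM⟩ : ∃ m, k ≤ m ∧ M0 ≤ m := ⟨max k M0, le_max_left _ _, le_max_right _ _⟩
  obtain ⟨i, hi, j, hj, hij, hP⟩ := hS m hmk (n + m) le_rfl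
  -- the mass for a difference of displacements of short words
  have h2 : ∀ u0 v0 : List S, u0.length = i → v0.length = j →
      (Y.E m fun b => Y.E m fun b' => γ b b' *
        ind (Y.sm u0 - Y.sm v0 ≠ 0 ∧ Dj Y (Y.sm u0 - Y.sm v0) m b b')) ≤ c0 / (2 * K ^ 2) := by
    intro u0 v0 hu hv
    by_cases hy : Y.sm u0 - Y.sm v0 = 0
    · have : (Y.E m fun b => Y.E m fun b' => γ b b' *
          ind (Y.sm u0 - Y.sm v0 ≠ 0 ∧ Dj Y (Y.sm u0 - Y.sm v0) m b b')) = 0 := by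
        rw [← Y.E_zero_fun m]
        refine Y.E_congr fun b _ => ?_
        rw [← Y.E_zero_fun m]
        refine Y.E_congr fun b' _ => ?_
        rw [ind_not (fun hh => hh.1 hy), mul_zero]
      rw [this]
      positivity
    · have h3 : mm (Y.sm u0 - Y.sm v0) ≤ m :=
        (hM0 ⟨(u0, v0), ⟨show u0.length < n by omega, show v0.length < n by omega⟩,
          rfl⟩).trans hmM
      refine le_trans ?_ ((arrow_cc_anti hγ _ h3).trans (hmm _ hy).le)
      refine Y.E_mono fun b _ => Y.E_mono fun b' _ => ?_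
      exact mul_le_mul_of_nonneg_left (ind_mono fun hh => hh.2) (hγ.nonneg _ _)
  -- the function of the two prefixes
  obtain ⟨ψ, hψ⟩ : ∃ ψ : List S → List S → ℝ, ψ = fun x x' =>
      Dn g γ (x.drop i) (x'.drop j) * ind (Y.sm (x.take i) - Y.sm (x'.take j) ≠ 0 ∧
        Dj Y (Y.sm (x.take i) - Y.sm (x'.take j)) m (x.drop i) (x'.drop j)) := ⟨_, rfl⟩
  have h4 : (PP Y g (n + m) fun u v => Dn g γ (wn i m u) (wn j m v) *
      ind (∀ s ≤ n + m, ∀ t ≤ n + m, (s ≠ 0 ∨ t ≠ 0) → Y.sm (u.take s) ≠ Y.sm (v.take t))) ≤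
      PP Y g (n + m) fun u v => ψ (u.take (i + m)) (v.take (j + m)) := by
    refine PP_mono h _ fun u v hu hv _ _ => ?_
    rw [hψ]
    have e1 : ∀ (x : List S) (r : ℕ), (x.take (r + m)).drop r = wn r m x := by
      intro x r
      rw [wn, List.drop_take]
      congr 1
      omega
    have e2 : ∀ (x : List S) (r : ℕ), (x.take (r + m)).take r = x.take r := by
      intro x r
      rw [List.take_take, min_eq_left (by omega)]
    simp only [e1, e2]
    refine mul_le_mul_of_nonneg_left (ind_mono fun hh => ⟨?_, ?_⟩) (Dn_facts h hκ hγ _ _).1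
    · intro h0
      exact hh i (by omega) j (by omega) hij (sub_eq_zero.mp h0)
    · intro s hs t ht h0
      have e3 : ∀ (x : List S) (r s : ℕ), s ≤ m →
          Y.sm (x.take (r + s)) = Y.sm (x.take r) + Y.sm ((wn r m x).take s) := by
        intro x r s hs
        rw [List.take_add, Y.sm_append, wn, List.take_take, min_eq_left hs]
      refine hh (i + s) (by omega) (j + t) (by omega) (by omega) ?_
      rw [e3 u i s hs, e3 v j t ht, ← h0]
      abel
  have h5 : (PP Y g (n + m) fun u v => ψ (u.take (i + m)) (v.take (j + m))) ≤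
      c0 / 2 := by
    rw [arrow_cc_take h (by omega) (by omega) ψ, Y.E_add i m, hψ]
    have h6 : ∀ u0 : List S, u0.length = i → (Y.E m fun b => Y.E (j + m) fun v =>
        g (u0 ++ b) * g v * (Dn g γ ((u0 ++ b).drop i) (v.drop j) *
        ind (Y.sm ((u0 ++ b).take i) - Y.sm (v.take j) ≠ 0 ∧
          Dj Y (Y.sm ((u0 ++ b).take i) - Y.sm (v.take j)) m ((u0 ++ b).drop i) (v.drop j)))) ≤
        Y.sv u0 * (K * (c0 / (2 * K ^ 2))) := by
      intro u0 hu0
      have h7 : ∀ b : List S, (Y.E (j + m) fun v =>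
          g (u0 ++ b) * g v * (Dn g γ ((u0 ++ b).drop i) (v.drop j) *
          ind (Y.sm ((u0 ++ b).take i) - Y.sm (v.take j) ≠ 0 ∧
            Dj Y (Y.sm ((u0 ++ b).take i) - Y.sm (v.take j)) m ((u0 ++ b).drop i) (v.drop j)))) ≤
          Y.E j fun v0 => Y.E m fun b' => Y.sv u0 * Y.sv v0 * (γ b b' *
            ind (Y.sm u0 - Y.sm v0 ≠ 0 ∧ Dj Y (Y.sm u0 - Y.sm v0) m b b')) := by
        intro b
        rw [Y.E_add j m]
        refine Y.E_mono fun v0 hv0 => Y.E_mono fun b' _ => ?_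
        rw [List.drop_left' hu0, List.drop_left' hv0, List.take_left' hu0, List.take_left' hv0]
        have g1 : ∀ x y : List S, g (x ++ y) ≤ Y.sv x * g y := fun x y =>
          (g_append_le h x y).trans
            (mul_le_mul_of_nonneg_right (Y.sv_append_left x y) (h.nonneg y))
        have g2 : g (u0 ++ b) * g (v0 ++ b') ≤ (Y.sv u0 * g b) * (Y.sv v0 * g b') :=
          mul_le_mul (g1 _ _) (g1 _ _) (h.nonneg _) (mul_nonneg (Y.sv_nonneg _) (h.nonneg _))
        obtain ⟨d1, _, d3⟩ := Dn_facts h hκ hγ b b'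
        calc g (u0 ++ b) * g (v0 ++ b') * (Dn g γ b b' * ind (Y.sm u0 - Y.sm v0 ≠ 0 ∧
              Dj Y (Y.sm u0 - Y.sm v0) m b b'))
            ≤ ((Y.sv u0 * g b) * (Y.sv v0 * g b')) * (Dn g γ b b' *
              ind (Y.sm u0 - Y.sm v0 ≠ 0 ∧ Dj Y (Y.sm u0 - Y.sm v0) m b b')) :=
              mul_le_mul_of_nonneg_right g2 (mul_nonneg d1 (ind_nonneg _))
          _ = Y.sv u0 * Y.sv v0 * ((g b * g b' * Dn g γ b b') *
              ind (Y.sm u0 - Y.sm v0 ≠ 0 ∧ Dj Y (Y.sm u0 - Y.sm v0) m b b')) := by ring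
          _ = _ := by rw [d3]
      refine (Y.E_mono fun b _ => h7 b).trans ?_
      rw [Y.E_comm m j]
      have h8 : ∀ v0 : List S, v0.length = j → (Y.E m fun b => Y.E m fun b' =>
          Y.sv u0 * Y.sv v0 * (γ b b' *
            ind (Y.sm u0 - Y.sm v0 ≠ 0 ∧ Dj Y (Y.sm u0 - Y.sm v0) m b b'))) ≤
          Y.sv v0 * (Y.sv u0 * (c0 / (2 * K ^ 2))) := by
        intro v0 hv0
        have e : (Y.E m fun b => Y.E m fun b' =>
          Y.sv u0 * Y.sv v0 * (γ b b' *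
            ind (Y.sm u0 - Y.sm v0 ≠ 0 ∧ Dj Y (Y.sm u0 - Y.sm v0) m b b'))) =
            Y.sv u0 * Y.sv v0 * (Y.E m fun b => Y.E m fun b' => γ b b' *
              ind (Y.sm u0 - Y.sm v0 ≠ 0 ∧ Dj Y (Y.sm u0 - Y.sm v0) m b b')) := by
          rw [← Y.E_mul_left]
          exact Y.E_congr fun b _ => by rw [← Y.E_mul_left]
        rw [e]
        calc Y.sv u0 * Y.sv v0 * (Y.E m fun b => Y.E m fun b' => γ b b' *
              ind (Y.sm u0 - Y.sm v0 ≠ 0 ∧ Dj Y (Y.sm u0 - Y.sm v0) m b b'))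
            ≤ Y.sv u0 * Y.sv v0 * (c0 / (2 * K ^ 2)) :=
              mul_le_mul_of_nonneg_left (h2 u0 v0 hu0 hv0)
                (mul_nonneg (Y.sv_nonneg _) (Y.sv_nonneg _))
          _ = _ := by ring
      refine (Y.E_mono fun v0 hv0 => h8 v0 hv0).trans ?_
      rw [Y.E_mul_right]
      calc Y.a j * (Y.sv u0 * (c0 / (2 * K ^ 2))) ≤ K * (Y.sv u0 * (c0 / (2 * K ^ 2))) :=
            mul_le_mul_of_nonneg_right (h.a_le j) (mul_nonneg (Y.sv_nonneg _) (by positivity))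
        _ = _ := by ring
    refine (Y.E_mono fun u0 hu0 => h6 u0 hu0).trans ?_
    rw [Y.E_mul_right]
    calc Y.a i * (K * (c0 / (2 * K ^ 2))) ≤ K * (K * (c0 / (2 * K ^ 2))) :=
          mul_le_mul_of_nonneg_right (h.a_le i) (by positivity)
      _ = c0 / 2 := by field_simp
  have h9 : c0 ≤ c0 / 2 := hP.trans (h4.trans h5)
  linarith
-- END arrow_cc

end lat

end Pool.Agent.Esc
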